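import Pool.Agent.H22.Gen2

/-! Type graphs: a general scheme of reductions to `H`-free contraction. -/

namespace Pool.Agent.L0h77.HC

open Pool.Agent.H22.CT Pool.Agent.H38.NP Pool.Agent.H36.Par SimpleGraph Function

structure TG (Ty : Type) where
  S : Ty → Ty → Prop
  C : Ty → Ty → Prop
  R : Ty → Prop
  A : Ty → Prop
  B : Ty → Prop
  ξ : Prop
  Ss : ∀ {a b}, S a b → S b a
  Cs : ∀ {a b}, C a b → C b a
  BR : ∀ {a}, B a → R a

inductive Vx (Ty : Type)
  | root : Vx Ty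
  | sel : ℕ → Vx Ty
  | cp : Ty → ℕ × ℕ → Vx Ty

section
variable {Ty : Type}

def TG.dad (D : TG Ty) (inc : ℕ → ℕ × ℕ → Prop) : Vx Ty → Vx Ty → Prop
  | .root, .root => False
  | .root, .sel _ => True
  | .root, .cp a _ => D.R a ∨ D.A a
  | .sel _, .root => True
  | .sel s, .sel s' => s ≠ s' ∧ D.ξ
  | .sel s, .cp a i => (D.A a ∧ inc s i) ∨ (D.B a ∧ ¬ inc s i)
  | .cp a _, .root => D.R a ∨ D.A a
  | .cp a i, .sel s => (D.A a ∧ inc s i) ∨ (D.B a ∧ ¬ inc s i)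
  | .cp a i, .cp b j => (i = j ∧ a ≠ b ∧ D.S a b) ∨ (i ≠ j ∧ D.C a b)

/-- the graph after the selectors of a dominating set have been merged with the root -/
def TG.DG (D : TG Ty) (inc : ℕ → ℕ × ℕ → Prop) : SimpleGraph (Vx Ty) where
  Adj := D.dad inc
  symm := ⟨by
    intro a b h
    rcases a with _ | s | ⟨a, i⟩ <;> rcases b with _ | s' | ⟨b, j⟩ <;>
      simp only [TG.dad] at h ⊢
    · exact h
    · exact ⟨h.1.symm, h.2⟩
    · exact h
    · exact h
    · exact h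
    · exact h.imp (fun h => ⟨h.1.symm, h.2.1.symm, D.Ss h.2.2⟩) fun h => ⟨fun e => h.1 e.symm, D.Cs h.2⟩⟩
  loopless := ⟨by
    intro a h
    rcases a with _ | s | ⟨a, i⟩ <;> simp [TG.dad] at h⟩

def TG.wad (D : TG Ty) {ι : Type} (Y : Ty → Prop) : Option (Ty × ι) → Option (Ty × ι) → Prop
  | none, none => False
  | none, some a => D.R a.1 ∨ ∃ y, Y y ∧ D.C y a.1
  | some a, none => D.R a.1 ∨ ∃ y, Y y ∧ D.C y a.1
  | some a, some b => (a.2 = b.2 ∧ a.1 ≠ b.1 ∧ D.S a.1 b.1) ∨ (a.2 ≠ b.2 ∧ D.C a.1 b.1)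

/-- the part of the graph seen by a component that does not cover some vertex -/
def TG.WG (D : TG Ty) (ι : Type) (Y : Ty → Prop) : SimpleGraph (Option (Ty × ι)) where
  Adj := D.wad Y
  symm := ⟨by
    intro a b h
    rcases a with _ | ⟨a, i⟩ <;> rcases b with _ | ⟨b, j⟩ <;> simp only [TG.wad] at h ⊢
    · exact h
    · exact h
    · exact h.imp (fun h => ⟨h.1.symm, h.2.1.symm, D.Ss h.2.2⟩) fun h => ⟨fun e => h.1 e.symm, D.Cs h.2⟩⟩
  loopless := ⟨by
    intro a h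
    rcases a with _ | ⟨a, i⟩ <;> simp [TG.wad] at h⟩

inductive TG.Rch (D : TG Ty) (Y : Ty → Prop) : ℕ → Ty → Prop
  | base {a} : Y a → (D.R a ∨ D.A a) → Rch D Y 1 a
  | step {l a b} : Rch D Y l a → Y b → (D.S a b ∨ D.C a b) → Rch D Y (l + 1) b

theorem TG.Rch.mem {D : TG Ty} {Y : Ty → Prop} {l a} (h : D.Rch Y l a) : Y a := by
  cases h <;> assumption

end

/-! ### the instance -/

section
variable (m : ℕ) (M : ℕ → ℕ) (bS bC : ℕ → ℕ → ℕ → Bool) (bR bA bB : ℕ → ℕ → Bool) (ξ : Bool)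

def L5 (x : GK) : List T3 :=
  (0, 0, 0) :: ((List.range x.1).map (fun v => (1, v, 0)) ++
    ((List.range (M x.2.2)).map (· + 2)).product
      ((List.range x.1).product (List.range (2 * x.2.2 + m))))

theorem mem_L5 {x : GK} {a : T3} : a ∈ L5 m M x ↔ (a.1 = 0 ∧ a.2.1 = 0 ∧ a.2.2 = 0) ∨
    (a.1 = 1 ∧ a.2.1 < x.1 ∧ a.2.2 = 0) ∨
    (2 ≤ a.1 ∧ a.1 < M x.2.2 + 2 ∧ a.2.1 < x.1 ∧ a.2.2 < 2 * x.2.2 + m) := by
  obtain ⟨t, v, j⟩ := a
  simp only [L5, List.mem_cons, List.mem_append, List.mem_map, List.mem_range, Prod.mk.injEq,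
    List.pair_mem_product]
  constructor
  · rintro (h | ⟨a, h, rfl, rfl, rfl⟩ | ⟨⟨a, h, rfl⟩, h'⟩) <;> omega
  · rintro (h | ⟨rfl, h, rfl⟩ | h)
    · exact Or.inl h
    · exact Or.inr (Or.inl ⟨v, h, rfl, rfl, rfl⟩)
    · exact Or.inr (Or.inr ⟨⟨t - 2, by omega, by omega⟩, by omega⟩)

def r5 (x : GK) (a b : T3) : Bool :=
  (decide (a.1 = 0) && decide (b.1 = 1)) ||
  (decide (a.1 = 0) && decide (2 ≤ b.1) && bR x.2.2 (b.1 - 2)) ||
  (decide (a.1 = 1) && decide (b.1 = 1) && ξ) ||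
  (decide (a.1 = 1) && decide (2 ≤ b.1) && bA x.2.2 (b.1 - 2) && cov x a.2.1 b.2.1) ||
  (decide (a.1 = 1) && decide (2 ≤ b.1) && bB x.2.2 (b.1 - 2) && !cov x a.2.1 b.2.1) ||
  (decide (2 ≤ a.1) && decide (2 ≤ b.1) && decide (a.2 = b.2) && bS x.2.2 (a.1 - 2) (b.1 - 2)) ||
  (decide (2 ≤ a.1) && decide (2 ≤ b.1) && !decide (a.2 = b.2) && bC x.2.2 (a.1 - 2) (b.1 - 2))

def R5 (x : GK) (a b : T3) : Prop :=
  (a.1 = 0 ∧ b.1 = 1) ∨ (a.1 = 0 ∧ 2 ≤ b.1 ∧ bR x.2.2 (b.1 - 2) = true) ∨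
  (a.1 = 1 ∧ b.1 = 1 ∧ ξ = true) ∨
  (a.1 = 1 ∧ 2 ≤ b.1 ∧ bA x.2.2 (b.1 - 2) = true ∧ cov x a.2.1 b.2.1 = true) ∨
  (a.1 = 1 ∧ 2 ≤ b.1 ∧ bB x.2.2 (b.1 - 2) = true ∧ ¬ cov x a.2.1 b.2.1 = true) ∨
  (2 ≤ a.1 ∧ 2 ≤ b.1 ∧ a.2 = b.2 ∧ bS x.2.2 (a.1 - 2) (b.1 - 2) = true) ∨
  (2 ≤ a.1 ∧ 2 ≤ b.1 ∧ ¬ a.2 = b.2 ∧ bC x.2.2 (a.1 - 2) (b.1 - 2) = true)

theorem TA5 {x : GK} {a b : T3} : TA (r5 bS bC bR bA bB ξ x) a b ↔
    a ≠ b ∧ (R5 bS bC bR bA bB ξ x a b ∨ R5 bS bC bR bA bB ξ x b a) := by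
  simp only [TA, r5, R5, Bool.or_eq_true, Bool.and_eq_true, decide_eq_true_eq, and_assoc, or_assoc,
    Bool.not_eq_true', decide_eq_false_iff_not, Bool.not_eq_true]

end

section
variable {m : ℕ} {M : ℕ → ℕ} {bS bC : ℕ → ℕ → ℕ → Bool} {bR bA bB : ℕ → ℕ → Bool} {ξ : Bool}
  {x : GK} {a b : T3}

theorem F01 (h : a.1 = 0) (h' : b.1 = 1) : TA (r5 bS bC bR bA bB ξ x) a b :=
  (TA5 ..).2 ⟨fun e => by rw [e] at h; omega, Or.inl (Or.inl ⟨h, h'⟩)⟩

theorem F02 (h : a.1 = 0) (h' : 2 ≤ b.1) : TA (r5 bS bC bR bA bB ξ x) a b ↔ bR x.2.2 (b.1 - 2) = true := by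
  have : a ≠ b := fun e => by rw [e] at h; omega
  have : b.1 ≠ 0 := by omega
  have : b.1 ≠ 1 := by omega
  simp [TA5, R5, *]

theorem F11 (h : a.1 = 1) (h' : b.1 = 1) (e : a ≠ b) : TA (r5 bS bC bR bA bB ξ x) a b ↔ ξ = true := by
  simp [TA5, R5, *]

theorem F12 (h : a.1 = 1) (h' : 2 ≤ b.1) : TA (r5 bS bC bR bA bB ξ x) a b ↔
    (bA x.2.2 (b.1 - 2) = true ∧ cov x a.2.1 b.2.1 = true) ∨
    (bB x.2.2 (b.1 - 2) = true ∧ ¬ cov x a.2.1 b.2.1 = true) := by
  have : a ≠ b := fun e => by rw [e] at h; omega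
  have : b.1 ≠ 0 := by omega
  have : b.1 ≠ 1 := by omega
  simp [TA5, R5, *]

theorem F22 (h : 2 ≤ a.1) (h' : 2 ≤ b.1) (e : a ≠ b) : TA (r5 bS bC bR bA bB ξ x) a b ↔
    (a.2 = b.2 ∧ (bS x.2.2 (a.1 - 2) (b.1 - 2) = true ∨ bS x.2.2 (b.1 - 2) (a.1 - 2) = true)) ∨
    (a.2 ≠ b.2 ∧ (bC x.2.2 (a.1 - 2) (b.1 - 2) = true ∨ bC x.2.2 (b.1 - 2) (a.1 - 2) = true)) := by
  have : b.1 ≠ 0 := by omega
  have : b.1 ≠ 1 := by omega
  have : a.1 ≠ 0 := by omega
  have : a.1 ≠ 1 := by omega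
  simp only [TA5, R5, ne_eq, not_false_eq_true, false_and, false_or, true_and, *]
  rw [eq_comm (a := b.2)]
  by_cases h3 : a.2 = b.2 <;> simp [h3]

end

theorem avoid_many {V : Type} [DecidableEq V] (F : List (V × V)) {k : ℕ} (hk : F.length ≤ k)
    (g : V → ℕ) (c : ℕ) : ∃ J : Fin c → ℕ, Injective J ∧ (∀ i, J i < 2 * k + c) ∧
      ∀ i t, Tch F t → g t ≠ J i := by
  obtain ⟨T, h1, h2⟩ := tch_card F
  set X := (Finset.range (2 * k + c)) \ T.image g with hX
  have hc : c ≤ X.card := by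
    have := Finset.le_card_sdiff (T.image g) (Finset.range (2 * k + c))
    have h3 : (T.image g).card ≤ T.card := Finset.card_image_le
    rw [Finset.card_range, ← hX] at this
    omega
  obtain ⟨Z, hZ, hZc⟩ := Finset.exists_subset_card_eq hc
  refine ⟨fun i => Z.orderEmbOfFin hZc i, (Z.orderEmbOfFin hZc).injective, fun i => ?_, fun i t ht e => ?_⟩
  · have := hZ (Z.orderEmbOfFin_mem hZc i)
    exact Finset.mem_range.1 (Finset.mem_sdiff.1 this).1
  · have := hZ (Z.orderEmbOfFin_mem hZc i)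
    exact (Finset.mem_sdiff.1 this).2 (Finset.mem_image.2 ⟨t, (h2 t).2 ht, e⟩)

def red5 (m : ℕ) (M : ℕ → ℕ) (bS bC : ℕ → ℕ → ℕ → Bool) (bR bA bB : ℕ → ℕ → Bool) (ξ : Bool)
    (x : GK) : GK :=
  ((dd (L5 m M x)).length, tgE (dd (L5 m M x)) (r5 bS bC bR bA bB ξ x) (0, 0, 0), x.2.2)

section
variable {m : ℕ} {M : ℕ → ℕ} {bS bC : ℕ → ℕ → ℕ → Bool} {bR bA bB : ℕ → ℕ → Bool} {ξ : Bool}

theorem red5_iff (hm : 0 < m) (H : SimpleGraph (Fin m)) (x : GK) {Ty : Type} (D : TG Ty)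
    (e : Ty ≃ Fin (M x.2.2))
    (hS : ∀ a b, D.S a b ↔ bS x.2.2 (e a) (e b) = true)
    (hC : ∀ a b, D.C a b ↔ bC x.2.2 (e a) (e b) = true)
    (hR : ∀ a, D.R a ↔ bR x.2.2 (e a) = true) (hA : ∀ a, D.A a ↔ bA x.2.2 (e a) = true)
    (hB : ∀ a, D.B a ↔ bB x.2.2 (e a) = true) (hξ : D.ξ ↔ ξ = true)
    (fw : ∀ inc, IsEmpty (H ↪g D.DG inc))
    (bw : ∀ Y, (∀ a, Y a → ∃ l ≤ 2 * x.2.2, D.Rch Y l a) → Nonempty (H ↪g D.WG (Fin m) Y)) :
    DomSet x ↔ Con₁ H (red5 m M bS bC bR bA bB ξ x) := by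
  classical
  rw [red5, tg_bridge1 (L5 m M x) (r5 bS bC bR bA bB ξ x) (0, 0, 0) x.2.2 hm H
    (fun i j => decide (∃ (hi : i < m) (hj : j < m), H.Adj ⟨i, hi⟩ ⟨j, hj⟩))
    (fun i j _ => by simp), dom_iff]
  set ad : T3 → T3 → Prop := fun a b => a ∈ L5 m M x ∧ b ∈ L5 m M x ∧
    TA (r5 bS bC bR bA bB ξ x) a b with had
  have hsy : ∀ a b, ad a b → ad b a := fun a b h => ⟨h.2.1, h.1, h.2.2.symm⟩
  have hz : ((0, 0, 0) : T3) ∈ L5 m M x := (mem_L5 ..).2 (by simp)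
  have z0 : ∀ a ∈ L5 m M x, a.1 = 0 → a = (0, 0, 0) := fun a ha h => by
    have := (mem_L5 ..).1 ha
    exact Prod.ext h (Prod.ext (by simp; omega) (by simp; omega))
  constructor
  · rintro ⟨S, h1, h2, h3⟩
    set S' : List T3 := S.toList.map fun u => (1, u, 0) with hS'
    have hSm : ∀ s ∈ S', s.1 = 1 ∧ s ∈ L5 m M x := fun s hs => by
      obtain ⟨v, hv, rfl⟩ := List.mem_map.1 hs
      have := h2 v (Finset.mem_toList.1 hv)
      exact ⟨rfl, (mem_L5 ..).2 (by simp; omega)⟩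
    refine ⟨S'.map fun s => ((0, 0, 0), s), ?_, by simpa [hS'] using h1, ?_⟩
    · intro p hp
      obtain ⟨s, hs, rfl⟩ := List.mem_map.1 hp
      exact ⟨hz, (hSm s hs).2, F01 rfl (hSm s hs).1⟩
    · rintro ⟨f, hd, hf⟩
      set F0 := S'.map fun s => (((0, 0, 0) : T3), s) with hF0
      let W : T3 → Prop := fun a => a = (0, 0, 0) ∨ a ∈ S'
      have hd' : ∀ i : Fin m, f i ∈ L5 m M x := fun i => hd i i.2
      have hf' : ∀ i j : Fin m, i ≠ j → ¬ E F0 (f i) (f j) ∧ (QA ad F0 (f i) (f j) ↔ H.Adj i j) :=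
        fun i j h => by
          have := hf i i.2 j j.2 fun e => h (Fin.ext e)
          rwa [decide_eq_true_eq, exists_prop_of_true i.2, exists_prop_of_true j.2] at this
      let g : Fin m → Vx Ty := fun i => if W (f i) then .root else if (f i).1 = 1 then
        .sel (f i).2.1 else if h : (f i).1 - 2 < M x.2.2 then .cp (e.symm ⟨_, h⟩) (f i).2 else .root
      have sp : ∀ i : Fin m, (W (f i) ∧ g i = .root) ∨ (¬ W (f i) ∧ (f i).1 = 1 ∧ (f i).2.2 = 0 ∧
          g i = .sel (f i).2.1) ∨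
          (¬ W (f i) ∧ 2 ≤ (f i).1 ∧ (f i).2.1 < x.1 ∧ ∃ a, (f i).1 - 2 = e a ∧
            g i = .cp a (f i).2) := fun i => by
        by_cases h : W (f i)
        · exact Or.inl ⟨h, if_pos h⟩
        have h4 := (mem_L5 ..).1 (hd' i)
        by_cases h' : (f i).1 = 1
        · exact Or.inr (Or.inl ⟨h, h', by omega, by simp only [g, if_neg h, if_pos h']⟩)
        have h5 : (f i).1 ≠ 0 := fun h6 => h (Or.inl (z0 _ (hd' i) h6))
        have h6 : (f i).1 - 2 < M x.2.2 := by omega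
        exact Or.inr (Or.inr ⟨h, by omega, by omega, e.symm ⟨_, h6⟩, by simp, by
          simp only [g, if_neg h, if_neg h', dif_pos h6]⟩)
      have sg : ∀ a, ¬ W a → ¬ Tch F0 a := by
        rintro a h ⟨y, h' | h'⟩ <;> obtain ⟨s, hs, e⟩ := List.mem_map.1 h'
        · exact h (Or.inl (Prod.mk.inj e).1.symm)
        · exact h (Or.inr ((Prod.mk.inj e).2 ▸ hs))
      have qs : ∀ i j : Fin m, i ≠ j → ¬ W (f i) → ¬ W (f j) →
          f i ≠ f j ∧ (H.Adj i j ↔ TA (r5 bS bC bR bA bB ξ x) (f i) (f j)) := fun i j h a b => by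
        refine ⟨fun e => (hf' i j h).1 (e ▸ E.refl _ _), ?_⟩
        rw [← (hf' i j h).2, QA_single (sg _ a) (sg _ b)]
        exact ⟨fun h => h.2.2, fun h => ⟨hd' i, hd' j, h⟩⟩
      let inc : ℕ → ℕ × ℕ → Prop := fun s i => cov x s i.1 = true
      let rk : Vx Ty → ℕ := fun v => match v with
        | .root => 0
        | .sel _ => 1
        | .cp _ _ => 2
      have key : ∀ i j, i ≠ j → rk (g i) ≤ rk (g j) →
          g i ≠ g j ∧ (D.dad inc (g i) (g j) ↔ H.Adj i j) := fun i j hij hr => by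
        rcases sp i with ⟨wi, gi⟩ | ⟨wi, ti, ui, gi⟩ | ⟨wi, ti, ui, a, ea, gi⟩ <;>
          rcases sp j with ⟨wj, gj⟩ | ⟨wj, tj, uj, gj⟩ | ⟨wj, tj, uj, b, eb, gj⟩ <;>
          rw [gi, gj] at hr ⊢ <;> simp only [rk] at hr <;> try omega
        · exact absurd (star_E' _ _ wi wj) (hf' i j hij).1
        · refine ⟨by simp, iff_of_true trivial ((hf' i j hij).2.1 ⟨(0, 0, 0), f j,
            star_E' _ _ wi (Or.inl rfl), E.refl _ _, hz, hd' j, F01 rfl tj⟩)⟩
        · refine ⟨by simp, ?_⟩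
          rw [← (hf' i j hij).2, QA_single' (sg _ wj)]
          simp only [TG.dad, hR, hA, ← eb]
          constructor
          · rintro (h6 | h6)
            · exact ⟨(0, 0, 0), star_E' _ _ wi (Or.inl rfl), hz, hd' j, (F02 rfl tj).2 h6⟩
            · obtain ⟨v, hv, hc⟩ := h3 _ uj
              have hm : ((1, v, 0) : T3) ∈ S' := List.mem_map.2 ⟨v, Finset.mem_toList.2 hv, rfl⟩
              exact ⟨(1, v, 0), star_E' _ _ wi (Or.inr hm), (hSm _ hm).2, hd' j,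
                (F12 rfl tj).2 (Or.inl ⟨h6, hc⟩)⟩
          · rintro ⟨w, h, hw⟩
            rcases (star_E _ _ h).elim (fun e => e ▸ wi) fun h => h.2 with rfl | h6
            · exact Or.inl ((F02 rfl tj).1 hw.2.2)
            · rcases (F12 (hSm _ h6).1 tj).1 hw.2.2 with h7 | h7
              · exact Or.inr h7.1
              · have := D.BR ((hB b).2 (eb ▸ h7.1))
                exact Or.inl (eb ▸ (hR b).1 this)
        · have h := qs i j hij wi wj
          have h4 : (f i).2.1 ≠ (f j).2.1 := fun e' =>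
            h.1 (Prod.ext (ti.trans tj.symm) (Prod.ext e' (ui.trans uj.symm)))
          rw [h.2, F11 ti tj h.1]
          simp only [TG.dad, hξ]
          exact ⟨by simpa using h4, fun h => h.2, fun h => ⟨h4, h⟩⟩
        · have h := qs i j hij wi wj
          rw [h.2, F12 ti tj]
          simp only [TG.dad, hA, hB, ← eb]
          exact ⟨by simp, Iff.rfl⟩
        · have h := qs i j hij wi wj
          have h4 : a = b → (f i).2 ≠ (f j).2 := fun e1 e2 => h.1 (Prod.ext (by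
            have : (f i).1 - 2 = (f j).1 - 2 := by rw [ea, eb, e1]
            omega) e2)
          rw [h.2, F22 ti tj h.1, ea, eb, ← hS, ← hS, ← hC, ← hC]
          refine ⟨by simpa using h4, ?_⟩
          simp only [TG.dad]
          constructor
          · rintro (⟨h5, -, h6⟩ | ⟨h5, h6⟩)
            · exact Or.inl ⟨h5, Or.inl h6⟩
            · exact Or.inr ⟨h5, Or.inl h6⟩
          · rintro (⟨h5, h6⟩ | ⟨h5, h6⟩)
            · exact Or.inl ⟨h5, fun e => h4 e h5, h6.elim id D.Ss⟩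
            · exact Or.inr ⟨h5, h6.elim id D.Cs⟩
      have key' : ∀ i j, i ≠ j → g i ≠ g j ∧ (D.dad inc (g i) (g j) ↔ H.Adj i j) := fun i j h => by
        rcases le_total (rk (g i)) (rk (g j)) with h' | h'
        · exact key i j h h'
        · have := key j i h.symm h'
          exact ⟨this.1.symm, (D.DG inc).adj_comm (g i) (g j) |>.trans (this.2.trans
            (H.adj_comm j i))⟩
      exact (fw inc).elim ⟨⟨g, fun i j h => by_contra fun h' => (key' i j h').1 h⟩, @fun i j => by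
        by_cases h : i = j
        · subst h
          exact iff_of_false (D.DG inc).irrefl H.irrefl
        · exact (key' i j h).2⟩
  · rintro ⟨F, h1, h2, h3⟩
    refine ⟨(Finset.range x.1).filter fun u => E F (0, 0, 0) (1, u, 0),
      (sets_card F (0, 0, 0) (fun u => (1, u, 0)) (fun a b h => by simpa using h) (by simp) _
        fun u hu => (Finset.mem_filter.1 hu).2).trans h2,
      fun u hu => Finset.mem_range.1 (Finset.mem_filter.1 hu).1, fun v hv => ?_⟩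
    obtain ⟨J, J1, J2, J3⟩ := avoid_many F h2 (fun t : T3 => t.2.2) m
    by_contra hc
    have ut : ∀ i t u, ¬ Tch F (t, u, J i) := fun i t u h => J3 i _ h rfl
    have mem : ∀ w, E F (0, 0, 0) w → w ∈ L5 m M x := fun w e =>
      e.closed (P := (· ∈ L5 m M x)) hz fun a b _ h => h.elim (fun h => (h1 _ h).2.1)
        fun h => (h1 _ h).1
    have edge : ∀ a b, ((a, b) ∈ F ∨ (b, a) ∈ F) → ad a b := fun a b h =>
      h.elim (h1 _) fun h => hsy _ _ (h1 _ h)
    let Y : Ty → Prop := fun a => ∃ i, E F (0, 0, 0) ((e a).val + 2, i)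
    have tyof : ∀ w ∈ L5 m M x, 2 ≤ w.1 → ∃ a, w.1 = (e a).val + 2 := fun w hw h => by
      have := (mem_L5 ..).1 hw
      exact ⟨e.symm ⟨w.1 - 2, by omega⟩, by simp; omega⟩
    have reach : ∀ a, Y a → ∃ l ≤ 2 * x.2.2, D.Rch Y l a := by
      let Lv : T3 → ℕ → Prop := fun w l => ∃ a, w.1 = (e a).val + 2 ∧ D.Rch Y l a
      obtain ⟨j, hj, hj'⟩ := avoid F h2 fun w => sInf {l | Lv w l} - 1
      have cl : ∀ w, E F (0, 0, 0) w → E F (0, 0, 0) w ∧ (w.1 < 2 ∨ ∃ l ≤ j, Lv w l) := fun w hw =>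
        hw.closed (P := fun w => E F (0, 0, 0) w ∧ (w.1 < 2 ∨ ∃ l ≤ j, Lv w l))
          ⟨E.refl _ _, Or.inl (by simp)⟩ fun a b ha hab => by
          have eb := ha.1.trans (E.one hab)
          refine ⟨eb, ?_⟩
          by_cases hb : b.1 < 2
          · exact Or.inl hb
          right
          obtain ⟨β, hβ⟩ := tyof b (mem b eb) (by omega)
          have Yβ : Y β := ⟨b.2, by rw [← hβ]; exact eb⟩
          have hadj := (edge a b hab).2.2
          have hb2 : 2 ≤ b.1 := by omega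
          have hb3 : b.1 - 2 = (e β).val := by omega
          have ex : ∃ l ≤ j + 1, Lv b l := by
            by_cases ha2 : a.1 < 2
            · refine ⟨1, by omega, β, hβ, .base Yβ ?_⟩
              have : a.1 = 0 ∨ a.1 = 1 := by omega
              rcases this with h0 | h0
              · exact Or.inl ((hR β).2 (by rw [← hb3]; exact (F02 h0 hb2).1 hadj))
              · rcases (F12 h0 hb2).1 hadj with h4 | h4
                · exact Or.inr ((hA β).2 (by rw [← hb3]; exact h4.1))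
                · exact Or.inl (D.BR ((hB β).2 (by rw [← hb3]; exact h4.1)))
            · obtain ⟨l, hl, α, hα, hr⟩ := ha.2.resolve_left ha2
              refine ⟨l + 1, by omega, β, hβ, .step hr Yβ ?_⟩
              have h4 := (F22 (by omega) hb2 hadj.1).1 hadj
              rw [hb3, show a.1 - 2 = (e α).val by omega, ← hS, ← hS, ← hC, ← hC] at h4
              exact h4.imp (fun h => h.2.elim id D.Ss) fun h => h.2.elim id D.Cs
          obtain ⟨l, hl, hl'⟩ := ex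
          have h5 : sInf {l | Lv b l} ≤ l := Nat.sInf_le hl'
          have h6 : Lv b (sInf {l | Lv b l}) := Nat.sInf_mem (s := {l | Lv b l}) ⟨l, hl'⟩
          have h7 := hj' b ⟨a, hab.symm⟩
          have h8 : sInf {l | Lv b l} ≤ j := by
            have : 0 < sInf {l | Lv b l} := by
              obtain ⟨_, _, h9⟩ := h6
              rcases h : sInf {l | Lv b l} with _ | n
              · rw [h] at h9; cases h9
              · omega
            omega
          exact ⟨_, h8, h6⟩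
      rintro a ⟨i, hi⟩
      obtain ⟨l, hl, b, hb, hr⟩ := (cl _ hi).2.resolve_left (by simp)
      have : a = b := e.injective (Fin.ext (by simpa using hb))
      exact ⟨l, by omega, this ▸ hr⟩
    obtain ⟨φ⟩ := bw Y reach
    let ψ : Option (Ty × Fin m) → T3 := fun p => p.elim (0, 0, 0) fun q => ((e q.1).val + 2, v, J q.2)
    have mψ : ∀ p, ψ p ∈ L5 m M x := fun p => by
      rcases p with _ | ⟨a, i⟩
      · exact hz
      · have := (e a).2
        have := J2 i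
        exact (mem_L5 ..).2 (by simp [ψ]; omega)
    have q0 : ∀ a i, ¬ E F (0, 0, 0) (ψ (some (a, i))) ∧
        (QA ad F (0, 0, 0) (ψ (some (a, i))) ↔ D.wad Y (none : Option (Ty × Fin m)) (some (a, i))) :=
      fun a i => by
      have u0 : ¬ Tch F (ψ (some (a, i))) := ut _ _ _
      refine ⟨fun e => u0 (e.symm.tch' (by simp [ψ])), ?_⟩
      rw [QA_single' u0]
      simp only [TG.wad]
      constructor
      · rintro ⟨w, hw, hw'⟩
        have h4 := (mem_L5 ..).1 hw'.1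
        rcases h4 with h4 | h4 | h4
        · exact Or.inl ((hR a).2 (by simpa [ψ] using (F02 h4.1 (by simp [ψ])).1 hw'.2.2))
        · rcases (F12 h4.1 (by simp [ψ])).1 hw'.2.2 with h5 | h5
          · refine absurd ⟨w.2.1, Finset.mem_filter.2 ⟨Finset.mem_range.2 h4.2.1, ?_⟩, h5.2⟩ hc
            have : w = (1, w.2.1, 0) := Prod.ext h4.1 (Prod.ext rfl h4.2.2)
            rwa [this] at hw
          · exact Or.inl (D.BR ((hB a).2 (by simpa [ψ] using h5.1)))
        · obtain ⟨b, hb⟩ := tyof w hw'.1 h4.1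
          have tw : Tch F w := hw.symm.tch' fun e => by rw [e] at h4; simp at h4
          have h5 := (F22 h4.1 (by simp [ψ]) hw'.2.2.1).1 hw'.2.2
          have h6 : w.2 ≠ (ψ (some (a, i))).2 := fun h => J3 i _ tw (congrArg Prod.snd h)
          have h7 := (h5.resolve_left fun h => h6 h.1).2
          rw [hb] at h7
          simp only [ψ, Option.elim, Nat.add_sub_cancel] at h7
          rw [← hC, ← hC] at h7
          exact Or.inr ⟨b, ⟨w.2, hb ▸ hw⟩, h7.elim id D.Cs⟩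
      · rintro (h4 | ⟨b, ⟨w, hw⟩, h4⟩)
        · exact ⟨_, E.refl _ _, hz, mψ _, (F02 rfl (by simp [ψ])).2 (by simpa [ψ] using (hR a).1 h4)⟩
        · have hne : ((e b).val + 2, w) ≠ ψ (some (a, i)) := fun e => u0 (by
            rw [← e]; exact hw.symm.tch' (by simp))
          have tw : Tch F ((e b).val + 2, w) := hw.symm.tch' (by simp)
          exact ⟨_, hw, mem _ hw, mψ _, (F22 (by simp) (by simp [ψ]) hne).2 (Or.inr
            ⟨fun h => J3 i _ tw (congrArg Prod.snd h), Or.inl (by simpa [ψ] using (hC b a).1 h4)⟩)⟩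
    have q2 : ∀ p q : Option (Ty × Fin m), p ≠ q → ¬ E F (ψ p) (ψ q) ∧
        (QA ad F (ψ p) (ψ q) ↔ D.wad Y p q) := fun p q hpq => by
      rcases p with _ | ⟨a, i⟩ <;> rcases q with _ | ⟨b, j⟩
      · exact absurd rfl hpq
      · exact q0 b j
      · have := q0 a i
        exact ⟨fun e => this.1 e.symm, ⟨fun q => this.2.1 (q.symm hsy),
          fun q => (this.2.2 q).symm hsy⟩⟩
      · have u0 : ¬ Tch F (ψ (some (a, i))) := ut _ _ _
        have u1 : ¬ Tch F (ψ (some (b, j))) := ut _ _ _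
        have hne : ψ (some (a, i)) ≠ ψ (some (b, j)) := fun h => hpq (by
          simp only [ψ, Option.elim, Prod.mk.injEq, add_left_inj, Fin.val_inj, e.injective.eq_iff,
            J1.eq_iff, true_and] at h
          rw [h.1, h.2])
        refine ⟨fun e => u0 (e.tch' hne), ?_⟩
        rw [QA_single u0 u1]
        simp only [had, mψ, true_and]
        rw [F22 (by simp [ψ]) (by simp [ψ]) hne]
        simp only [ψ, Option.elim, Nat.add_sub_cancel, ← hS, ← hC, TG.wad, Prod.mk.injEq, true_and,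
          J1.eq_iff, ne_eq]
        constructor
        · rintro (⟨h5, h6⟩ | ⟨h5, h6⟩)
          · exact Or.inl ⟨h5, fun h => hpq (by rw [h, h5]), h6.elim id D.Ss⟩
          · exact Or.inr ⟨h5, h6.elim id D.Cs⟩
        · rintro (⟨h5, -, h6⟩ | ⟨h5, h6⟩)
          · exact Or.inl ⟨h5, Or.inl h6⟩
          · exact Or.inr ⟨h5, Or.inl h6⟩
    refine h3 ⟨fun i => if h : i < m then ψ (φ ⟨i, h⟩) else (0, 0, 0), fun i hi => ?_,
      fun i hi j hj hij => ?_⟩
    · simp only [dif_pos hi]; exact mψ _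
    · simp only [dif_pos hi, dif_pos hj, decide_eq_true_eq]
      have hne : φ ⟨i, hi⟩ ≠ φ ⟨j, hj⟩ := fun h => hij (congrArg Fin.val (φ.injective h))
      refine ⟨(q2 _ _ hne).1, (q2 _ _ hne).2.trans ?_⟩
      exact φ.map_adj_iff.trans ⟨fun h => ⟨hi, hj, h⟩, fun ⟨_, _, h⟩ => h⟩

end

/-- Hardness from a family of type graphs, one for every parameter value. -/
theorem hard5 {m : ℕ} (hm : 0 < m) (H : SimpleGraph (Fin m)) {Ty : ℕ → Type} (D : ∀ k, TG (Ty k))
    (M : ℕ → ℕ) (bS bC : ℕ → ℕ → ℕ → Bool) (bR bA bB : ℕ → ℕ → Bool) (ξ : Bool)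
    (e : ∀ k, Ty k ≃ Fin (M k))
    (hS : ∀ k a b, (D k).S a b ↔ bS k (e k a) (e k b) = true)
    (hC : ∀ k a b, (D k).C a b ↔ bC k (e k a) (e k b) = true)
    (hR : ∀ k a, (D k).R a ↔ bR k (e k a) = true) (hA : ∀ k a, (D k).A a ↔ bA k (e k a) = true)
    (hB : ∀ k a, (D k).B a ↔ bB k (e k a) = true) (hξ : ∀ k, (D k).ξ ↔ ξ = true)
    (pM : PT M) (pS : PT fun q : ℕ × ℕ × ℕ => bS q.1 q.2.1 q.2.2)
    (pC : PT fun q : ℕ × ℕ × ℕ => bC q.1 q.2.1 q.2.2) (pR : PT fun q : ℕ × ℕ => bR q.1 q.2)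
    (pA : PT fun q : ℕ × ℕ => bA q.1 q.2) (pB : PT fun q : ℕ × ℕ => bB q.1 q.2)
    (fw : ∀ k inc, IsEmpty (H ↪g (D k).DG inc))
    (bw : ∀ k Y, (∀ a, Y a → ∃ l ≤ 2 * k, (D k).Rch Y l a) →
      Nonempty (H ↪g (D k).WG (Fin m) Y)) :
    W2Hard (Con₁ H) := by
  have pt : PT (red5 m M bS bC bR bA bB ξ) := by
    have h : PT fun x => dd (L5 m M x) := by
      have : PT fun x : GK => M x.2.2 := pM.comp (g := fun x : GK => x.2.2) (by fun_prop)
      unfold L5; fun_prop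
    have hr : PT fun p : GK × T3 × T3 => r5 bS bC bR bA bB ξ p.1 p.2.1 p.2.2 := by
      have h1 : PT fun p : GK × T3 × T3 => bS p.1.2.2 (p.2.1.1 - 2) (p.2.2.1 - 2) :=
        pS.comp (g := fun p : GK × T3 × T3 => (p.1.2.2, p.2.1.1 - 2, p.2.2.1 - 2)) (by fun_prop)
      have h2 : PT fun p : GK × T3 × T3 => bC p.1.2.2 (p.2.1.1 - 2) (p.2.2.1 - 2) :=
        pC.comp (g := fun p : GK × T3 × T3 => (p.1.2.2, p.2.1.1 - 2, p.2.2.1 - 2)) (by fun_prop)
      have h3 : PT fun p : GK × T3 × T3 => bR p.1.2.2 (p.2.2.1 - 2) :=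
        pR.comp (g := fun p : GK × T3 × T3 => (p.1.2.2, p.2.2.1 - 2)) (by fun_prop)
      have h4 : PT fun p : GK × T3 × T3 => bA p.1.2.2 (p.2.2.1 - 2) :=
        pA.comp (g := fun p : GK × T3 × T3 => (p.1.2.2, p.2.2.1 - 2)) (by fun_prop)
      have h5 : PT fun p : GK × T3 × T3 => bB p.1.2.2 (p.2.2.1 - 2) :=
        pB.comp (g := fun p : GK × T3 × T3 => (p.1.2.2, p.2.2.1 - 2)) (by fun_prop)
      unfold r5 cov; fun_prop
    exact h.length.mk ((PT.tgE _ h hr).mk (by fun_prop))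
  exact freduces_of_ft (FT.of_pt pt) fun x => ⟨red5_iff hm H x (D x.2.2) (e x.2.2) (hS _) (hC _)
    (hR _) (hA _) (hB _) (hξ _) (fw _) (bw _), le_rfl⟩

/-- Hardness from one finite type graph. -/
theorem fin_hard {m : ℕ} (hm : 0 < m) (H : SimpleGraph (Fin m)) {Ty : Type} [Finite Ty] (D : TG Ty)
    (fw : ∀ inc, IsEmpty (H ↪g D.DG inc))
    (bw : ∀ Y, (∀ a, Y a → ∃ l, D.Rch Y l a) → Nonempty (H ↪g D.WG (Fin m) Y)) :
    W2Hard (Con₁ H) := by
  classical
  obtain ⟨N, ⟨e⟩⟩ := Finite.exists_equiv_fin Ty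
  let l2 : (Fin N → Fin N → Prop) → Ed := fun P =>
    (Finset.univ.filter fun q : Fin N × Fin N => P q.1 q.2).toList.map fun q => (q.1.val, q.2.val)
  let l1 : (Fin N → Prop) → List ℕ := fun P => (Finset.univ.filter P).toList.map Fin.val
  have h2 : ∀ (P : Fin N → Fin N → Prop) (a b : Fin N), P a b ↔
      decide ((a.val, b.val) ∈ l2 P) = true := fun P a b => by simp [l2, Fin.val_inj]
  have h1 : ∀ (P : Fin N → Prop) (a : Fin N), P a ↔ decide (a.val ∈ l1 P) = true :=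
    fun P a => by simp [l1, Fin.val_inj]
  let S2 := l2 fun a b => D.S (e.symm a) (e.symm b)
  let C2 := l2 fun a b => D.C (e.symm a) (e.symm b)
  let R1 := l1 fun a => D.R (e.symm a)
  let A1 := l1 fun a => D.A (e.symm a)
  let B1 := l1 fun a => D.B (e.symm a)
  exact hard5 hm H (fun _ => D) (fun _ => N) (fun _ a b => decide ((a, b) ∈ S2))
    (fun _ a b => decide ((a, b) ∈ C2)) (fun _ a => decide (a ∈ R1)) (fun _ a => decide (a ∈ A1))
    (fun _ a => decide (a ∈ B1)) (decide D.ξ) (fun _ => e)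
    (fun _ a b => (by simp : D.S a b ↔ D.S (e.symm (e a)) (e.symm (e b))).trans
      (h2 (fun a b => D.S (e.symm a) (e.symm b)) (e a) (e b)))
    (fun _ a b => (by simp : D.C a b ↔ D.C (e.symm (e a)) (e.symm (e b))).trans
      (h2 (fun a b => D.C (e.symm a) (e.symm b)) (e a) (e b)))
    (fun _ a => (by simp : D.R a ↔ D.R (e.symm (e a))).trans (h1 (fun a => D.R (e.symm a)) (e a)))
    (fun _ a => (by simp : D.A a ↔ D.A (e.symm (e a))).trans (h1 (fun a => D.A (e.symm a)) (e a)))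
    (fun _ a => (by simp : D.B a ↔ D.B (e.symm (e a))).trans (h1 (fun a => D.B (e.symm a)) (e a)))
    (fun _ => by simp) (by fun_prop) (by fun_prop) (by fun_prop)
    (by fun_prop) (by fun_prop) (by fun_prop) (fun _ => fw)
    (fun _ Y h => bw Y fun a ha => (h a ha).imp fun _ h => h.2)

end Pool.Agent.L0h77.HC
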