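import Pool.Agent.L0h77.HC.Main
import Pool.Agent.H22.GenDefs

/-! Brooms: set-up, and the brooms without a universal vertex that contain a triangle. -/

namespace Pool.Agent.L0h77.HC

open Pool.Agent.H22.CT SimpleGraph Function

variable {m : ℕ} {H : SimpleGraph (Fin m)}

structure Br (H : SimpleGraph (Fin m)) (P : Fin m → Prop) (q : Fin m) (D K L : Fin m → Prop) :
    Prop where
  cls : ∀ v, P v ∨ D v ∨ v = q ∨ K v ∨ L v
  pu : ∀ w, P w → Univ H w
  ps : ∀ w w', P w → P w' → w = w'
  D0 : ∃ d, D d
  K0 : ∃ k, K k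
  L0 : ∃ l, L l
  Lq : ¬ L q
  KK : ∀ k k', K k → K k' → k ≠ k' → H.Adj k k'
  qD : ∀ d, D d → H.Adj q d
  qK : ∀ k, K k → H.Adj q k
  KL : ∀ k l, K k → L l → H.Adj k l
  qL : ∀ l, L l → ¬ H.Adj q l
  LL : ∀ l l', L l → L l' → ¬ H.Adj l l'
  DK : ∀ d k, D d → K k → ¬ H.Adj d k
  DL : ∀ d l, D d → L l → ¬ H.Adj d l

section
variable {P D K L : Fin m → Prop} {q : Fin m} (B : Br H P q D K L) {v : Fin m}
include B

theorem Br.Dq : ¬ D q := fun h => H.irrefl (B.qD q h)
theorem Br.Kq : ¬ K q := fun h => H.irrefl (B.qK q h)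
theorem Br.nDK (h : D v) : ¬ K v := fun h' => by
  obtain ⟨l, hl⟩ := B.L0
  exact B.DL v l h hl (B.KL v l h' hl)
theorem Br.nDL (h : D v) : ¬ L v := fun h' => B.qL v h' (B.qD v h)
theorem Br.nKL (h : K v) : ¬ L v := fun h' => B.qL v h' (B.qK v h)
theorem Br.Pq : ¬ P q := fun h => by
  obtain ⟨l, hl⟩ := B.L0
  exact B.qL l hl (B.pu q h l fun e => B.Lq (e ▸ hl))
theorem Br.PD (h : P v) : ¬ D v := fun h' => by
  obtain ⟨k, hk⟩ := B.K0
  exact B.DK v k h' hk (B.pu v h k fun e => B.nDK h' (e ▸ hk))
theorem Br.PK (h : P v) : ¬ K v := fun h' => by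
  obtain ⟨d, hd⟩ := B.D0
  exact B.DK d v hd h' (B.pu v h d fun e => B.nDK hd (e ▸ h')).symm
theorem Br.PL (h : P v) : ¬ L v := fun h' => B.qL v h' (B.pu v h q fun e => B.Lq (e ▸ h')).symm

end

theorem noinj {P : Fin m → Prop} {l0 : Fin m} (h0 : P l0) (g : Fin m → Fin m)
    (hg : ∀ v, P v → P (g v) ∧ g v ≠ l0) (inj : ∀ a b, P a → P b → g a = g b → a = b) : False := by
  classical
  have := Finset.card_le_card_of_injOn (s := Finset.univ.filter P)
    (t := (Finset.univ.filter P).erase l0) g (fun v hv => by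
      have hv' : P v := by simpa using hv
      simp [hg v hv']) fun a ha b hb h => inj a b (by simpa using ha) (by simpa using hb) h
  rw [Finset.card_erase_of_mem (by simp [h0])] at this
  have h1 : 0 < (Finset.univ.filter P).card := Finset.card_pos.2 ⟨l0, by simp [h0]⟩
  omega

/-- `D` contains an edge. -/
theorem hardJ {D K L : Fin m → Prop} {q : Fin m} (B : Br H (fun _ => False) q D K L)
    {d1 d2 : Fin m} (hd1 : D d1) (hd2 : D d2) (h12 : H.Adj d1 d2) : W2Hard (Con₁ H) := by
  obtain ⟨l0, hl0⟩ := B.L0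
  obtain ⟨k0, hk0⟩ := B.K0
  refine SX.hard (u := q) (T := fun v => v = l0) (ξ := False) fun inc => ⟨fun f => ?_⟩
  -- non-neighbours of the root
  have nW : ∀ v, f v ≠ .root → ¬ (SX H q (fun v => v = l0) False).dad inc .root (f v) →
      ∃ a i, f v = .cp a i ∧ L a ∧ a.1 ≠ l0 := fun v h1 h2 => by
    rcases ev : f v with _ | s | ⟨a, i⟩
    · exact absurd ev h1
    · rw [ev] at h2; exact absurd trivial h2
    · rw [ev] at h2
      simp only [TG.dad, MT, not_or] at h2
      refine ⟨a, i, rfl, ?_, h2.2⟩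
      rcases B.cls a with h | h | h | h | h
      · exact h.elim
      · exact absurd (B.qD _ h) h2.1
      · exact absurd h a.2
      · exact absurd (B.qK _ h) h2.1
      · exact h
  have nA : ∀ v v', f v ≠ .root → ¬ (SX H q (fun v => v = l0) False).dad inc .root (f v) →
      f v' ≠ .root → ¬ (SX H q (fun v => v = l0) False).dad inc .root (f v') → ¬ H.Adj v v' :=
      fun v v' h1 h2 h3 h4 h => by
    obtain ⟨a, i, e1, k1, -⟩ := nW v h1 h2
    obtain ⟨b, j, e2, k2, -⟩ := nW v' h3 h4
    have := (adj f e1 e2).2 h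
    rcases this with ⟨-, -, h⟩ | ⟨-, h⟩
    · exact B.LL _ _ k1 k2 h
    · exact h
  have nx : ∀ x v, f x = .root → v ≠ x → ¬ H.Adj x v → f v ≠ .root ∧
      ¬ (SX H q (fun v => v = l0) False).dad inc .root (f v) := fun x v hx h1 h2 =>
    ⟨fun e => h1 (f.injective (e.trans hx.symm)), fun h => h2 ((adj f hx rfl).1 h)⟩
  by_cases hW : ∃ x, f x = .root
  · obtain ⟨x, hx⟩ := hW
    rcases B.cls x with h | h | rfl | h | h
    · exact h
    · obtain ⟨a1, a2⟩ := nx x k0 hx (fun e => B.nDK h (e ▸ hk0)) (B.DK _ _ h hk0)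
      obtain ⟨b1, b2⟩ := nx x l0 hx (fun e => B.nDL h (e ▸ hl0)) (B.DL _ _ h hl0)
      exact nA _ _ a1 a2 b1 b2 (B.KL _ _ hk0 hl0)
    · -- the image of `q`
      have q1 : ∀ l, L l → ∃ a i, f l = .cp a i ∧ L a ∧ a.1 ≠ l0 := fun l hl =>
        nW l (nx x l hx (fun e => B.Lq (e ▸ hl)) (B.qL l hl)).1
          (nx x l hx (fun e => B.Lq (e ▸ hl)) (B.qL l hl)).2
      obtain ⟨a0, i, e0, ha0, ha0'⟩ := q1 l0 hl0
      obtain ⟨b, eb, hb⟩ : ∃ b, f k0 = .cp b i ∧ K b := by
        rcases ev : f k0 with _ | s | ⟨b, j⟩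
        · exact absurd (f.injective (ev.trans hx.symm)) fun e => B.Kq (e ▸ hk0)
        · have := (adj f ev e0).2 (B.KL _ _ hk0 hl0)
          simp only [TG.dad, MT, false_and, or_false] at this
          exact absurd this.1 ha0'
        · have := (adj f ev e0).2 (B.KL _ _ hk0 hl0)
          simp only [TG.dad, MT, and_false, or_false] at this
          obtain ⟨rfl, -, h⟩ := this
          refine ⟨b, rfl, ?_⟩
          rcases B.cls b with h' | h' | h' | h' | h'
          · exact h'.elim
          · exact absurd h (B.DL _ _ h' ha0)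
          · exact absurd h' b.2
          · exact h'
          · exact absurd h (B.LL _ _ h' ha0)
      have q2 : ∀ l, L l → ∃ a, f l = .cp a i ∧ L a ∧ a.1 ≠ l0 := fun l hl => by
        obtain ⟨a, j, e, h1, h2⟩ := q1 l hl
        have := (adj f eb e).2 (B.KL _ _ hk0 hl)
        simp only [TG.dad, MT, and_false, or_false] at this
        rw [← this.1] at e
        exact ⟨a, e, h1, h2⟩
      have : ∀ l, ∃ a : Fin m, L l → L a ∧ a ≠ l0 ∧ ∃ h : a ≠ x, f l = .cp ⟨a, h⟩ i := fun l => by
        by_cases hl : L l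
        · obtain ⟨a, e, h1, h2⟩ := q2 l hl
          exact ⟨a, fun _ => ⟨h1, h2, a.2, e⟩⟩
        · exact ⟨l, fun h => absurd h hl⟩
      choose g hg using this
      exact noinj hl0 g (fun v hv => ⟨(hg v hv).1, (hg v hv).2.1⟩) fun a b ha hb h => by
        obtain ⟨-, -, h1, h2⟩ := hg a ha
        obtain ⟨-, -, h3, h4⟩ := hg b hb
        apply f.injective
        rw [h2, h4]
        simp [h]
    · obtain ⟨a1, a2⟩ := nx x d1 hx (fun e => B.nDK hd1 (e ▸ h)) fun e => B.DK _ _ hd1 h e.symm
      obtain ⟨b1, b2⟩ := nx x d2 hx (fun e => B.nDK hd2 (e ▸ h)) fun e => B.DK _ _ hd2 h e.symm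
      exact nA _ _ a1 a2 b1 b2 h12
    · obtain ⟨a1, a2⟩ := nx x d1 hx (fun e => B.nDL hd1 (e ▸ h)) fun e => B.DL _ _ hd1 h e.symm
      obtain ⟨b1, b2⟩ := nx x q hx (fun e => B.Lq (e ▸ h)) fun e => B.qL _ h e.symm
      exact nA _ _ a1 a2 b1 b2 (B.qD _ hd1).symm
  · have nr : ∀ v, f v ≠ .root := fun v h => hW ⟨v, h⟩
    -- the triangle
    have sn : ∀ v s, f v = .sel s → ∀ v', H.Adj v v' → ∃ a i, f v' = .cp a i ∧ a.1 = l0 :=
      fun v s hv v' h => by
        rcases ev : f v' with _ | s' | ⟨a, i⟩
        · exact absurd ev (nr v')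
        · exact absurd ((adj f hv ev).2 h).2 id
        · have := (adj f hv ev).2 h
          simp only [TG.dad, MT, false_and, or_false] at this
          exact ⟨a, i, rfl, this.1⟩
    have ll : ∀ v v' a i b j, f v = .cp a i → f v' = .cp b j → L a → L b → ¬ H.Adj v v' :=
      fun v v' a i b j h1 h2 h3 h4 h => by
        have := (adj f h1 h2).2 h
        simp only [TG.dad, MT, and_false, or_false] at this
        exact B.LL _ _ h3 h4 this.2.2
    have st : ∀ a b c s, f a = .sel s → H.Adj a b → H.Adj a c → ¬ H.Adj b c :=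
      fun a b c s ha h1 h2 h3 => by
        obtain ⟨x, i, e1, e2⟩ := sn a s ha b h1
        obtain ⟨y, j, e3, e4⟩ := sn a s ha c h2
        exact ll b c x i y j e1 e3 (e2 ▸ hl0) (e4 ▸ hl0) h3
    have qd1 := B.qD _ hd1
    have qd2 := B.qD _ hd2
    rcases eq : f q with _ | s | ⟨y, i⟩
    · exact nr q eq
    · exact st _ _ _ s eq qd1 qd2 h12
    rcases e1 : f d1 with _ | s | ⟨x1, j⟩
    · exact nr d1 e1
    · exact st _ _ _ s e1 qd1.symm h12 qd2
    rcases e2 : f d2 with _ | s | ⟨x2, j'⟩
    · exact nr d2 e2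
    · exact st _ _ _ s e2 qd2.symm h12.symm qd1
    have A1 := (adj f eq e1).2 qd1
    have A2 := (adj f eq e2).2 qd2
    have A3 := (adj f e1 e2).2 h12
    simp only [TG.dad, MT, and_false, or_false] at A1 A2 A3
    obtain ⟨rfl, -, A1⟩ := A1
    obtain ⟨rfl, -, A2⟩ := A2
    replace A3 := A3.2.2
    -- closure: from a copy of a vertex of `D` one does not leave it
    have cl : ∀ v v' x i, f v = .cp x i → D x → H.Adj v v' → ∃ x', f v' = .cp x' i ∧ D x' :=
      fun v v' x i h1 h2 h3 => by
        rcases ev : f v' with _ | s' | ⟨b, j⟩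
        · exact absurd ev (nr v')
        · have := (adj f h1 ev).2 h3
          simp only [TG.dad, MT, false_and, or_false] at this
          exact absurd (this.1 ▸ hl0) (B.nDL h2)
        · have := (adj f h1 ev).2 h3
          simp only [TG.dad, MT, and_false, or_false] at this
          obtain ⟨rfl, -, h⟩ := this
          refine ⟨b, rfl, ?_⟩
          rcases B.cls b with h' | h' | h' | h' | h'
          · exact h'.elim
          · exact h'
          · exact absurd h' b.2
          · exact absurd h (B.DK _ _ h2 h')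
          · exact absurd h (B.DL _ _ h2 h')
    have KLy : ∀ b : {v : Fin m // v ≠ q}, ¬ D b → K b ∨ L b := fun b hb => by
      rcases B.cls b with h' | h' | h' | h' | h'
      · exact h'.elim
      · exact absurd h' hb
      · exact absurd h' b.2
      · exact Or.inl h'
      · exact Or.inr h'
    by_cases yD : D y
    · -- everything is in one copy of `D`
      have all : ∀ v, ∃ x, f v = .cp x i ∧ D x := fun v => by
        rcases B.cls v with h | h | rfl | h | h
        · exact h.elim
        · exact cl _ _ _ _ eq yD (B.qD _ h)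
        · exact ⟨y, eq, yD⟩
        · exact cl _ _ _ _ eq yD (B.qK _ h)
        · obtain ⟨x, h1, h2⟩ := cl _ _ _ _ eq yD (B.qK _ hk0)
          exact cl _ _ _ _ h1 h2 (B.KL _ _ hk0 h)
      choose g hg using all
      exact noinj (P := fun _ => True) (l0 := q) trivial (fun v => (g v).1)
        (fun v _ => ⟨trivial, fun e => B.Dq (e ▸ (hg v).2)⟩) fun a b _ _ h => f.injective (by
          rw [(hg a).1, (hg b).1]; simp [Subtype.ext h])
    have x1D : ¬ D x1 := fun h => by
      obtain ⟨x, h1, h2⟩ := cl _ _ _ _ e1 h qd1.symm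
      rw [eq] at h1; cases h1; exact yD h2
    have x2D : ¬ D x2 := fun h => by
      obtain ⟨x, h1, h2⟩ := cl _ _ _ _ e2 h qd2.symm
      rw [eq] at h1; cases h1; exact yD h2
    rcases KLy y yD with hy | hy
    · -- `y` in `K`
      obtain ⟨z, hz⟩ : ∃ z, f k0 = .cp z i ∧ (K z ∨ L z) := by
        rcases ev : f k0 with _ | s' | ⟨b, j⟩
        · exact absurd ev (nr k0)
        · have := (adj f eq ev).2 (B.qK _ hk0)
          simp only [TG.dad, MT, false_and, or_false] at this
          exact absurd (this.1 ▸ hl0) (B.nKL hy)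
        · have := (adj f eq ev).2 (B.qK _ hk0)
          simp only [TG.dad, MT, and_false, or_false] at this
          obtain ⟨rfl, -, h⟩ := this
          exact ⟨b, rfl, KLy b fun h' => B.DK _ _ h' hy h.symm⟩
      have ny : ∀ b : {v : Fin m // v ≠ q}, f l0 ≠ .cp b i ∨ ¬ (K b ∨ L b) := fun b => by
        by_contra h
        rw [not_or, not_not, not_not] at h
        obtain ⟨h1, h2⟩ := h
        have h3 : y.1 ≠ b.1 := fun e => by
          have : f q = f l0 := by rw [eq, h1]; simp [Subtype.ext e]
          exact B.Lq (f.injective this ▸ hl0)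
        refine B.qL l0 hl0 ((adj f eq h1).1 (Or.inl ⟨rfl, fun e => h3 (congrArg _ e), ?_⟩))
        rcases h2 with h2 | h2
        · exact B.KK _ _ hy h2 h3
        · exact B.KL _ _ hy h2
      have hk0l := B.KL _ _ hk0 hl0
      rcases hz with ⟨ez, hz | hz⟩
      · rcases ev : f l0 with _ | s' | ⟨b, j⟩
        · exact nr l0 ev
        · have := (adj f ez ev).2 hk0l
          simp only [TG.dad, MT, false_and, or_false] at this
          exact absurd (this.1 ▸ hl0) (B.nKL hz)
        · have := (adj f ez ev).2 hk0l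
          simp only [TG.dad, MT, and_false, or_false] at this
          obtain ⟨rfl, -, h⟩ := this
          exact (ny b).elim (fun h' => h' ev) fun h' => h' (KLy b fun h'' => B.DK _ _ h'' hz h.symm)
      · -- `k0` goes to `L`
        have y1 : ∀ x : {v : Fin m // v ≠ q}, L z → True := fun _ _ => trivial
        -- the image of `l0` is a selector, so `k0` goes to `l0`
        have hz' : z.1 = l0 := by
          rcases ev : f l0 with _ | s' | ⟨b, j⟩
          · exact absurd ev (nr l0)
          · have := (adj f ez ev).2 hk0l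
            simp only [TG.dad, MT, false_and, or_false] at this
            exact this.1
          · have := (adj f ez ev).2 hk0l
            simp only [TG.dad, MT, and_false, or_false] at this
            obtain ⟨rfl, -, h⟩ := this
            exact ((ny b).elim (fun h' => h' ev) fun h' => h' (KLy b
              fun h'' => B.DL _ _ h'' hz h.symm)).elim
        -- one of `d1`, `d2` is in `K`, hence adjacent to `k0`
        have key : ∀ v x, f v = .cp x i → D v → ¬ K x := fun v x h1 h2 h3 =>
          B.DK _ _ h2 hk0 ((adj f h1 ez).1 (Or.inl ⟨rfl, fun e => B.nKL h3 (e ▸ hz), B.KL _ _ h3 hz⟩))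
        rcases KLy x1 x1D with h | h
        · exact key _ _ e1 hd1 h
        rcases KLy x2 x2D with h' | h'
        · exact key _ _ e2 hd2 h'
        · exact B.LL _ _ h h' A3
    · -- `y` in `L`
      have c1 : K x1 := (KLy x1 x1D).resolve_right fun h => B.LL _ _ hy h A1
      have c2 : K x2 := (KLy x2 x2D).resolve_right fun h => B.LL _ _ hy h A2
      have kn : ∀ k, K k → ∃ s, f k = .sel s := fun k hk => by
        rcases ev : f k with _ | s' | ⟨b, j⟩
        · exact absurd ev (nr k)
        · exact ⟨s', rfl⟩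
        · have := (adj f eq ev).2 (B.qK _ hk)
          simp only [TG.dad, MT, and_false, or_false] at this
          obtain ⟨rfl, -, h⟩ := this
          have hb : K b := by
            rcases B.cls b with h' | h' | h' | h' | h'
            · exact h'.elim
            · exact absurd h.symm (B.DL _ _ h' hy)
            · exact absurd h' b.2
            · exact h'
            · exact absurd h (B.LL _ _ hy h')
          have ne : x1.1 ≠ b.1 := fun e => by
            have : f d1 = f k := by rw [e1, ev]; simp [Subtype.ext e]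
            exact B.nDK hd1 (f.injective this ▸ hk)
          exact absurd ((adj f e1 ev).1 (Or.inl ⟨rfl, fun e => ne (congrArg _ e),
            B.KK _ _ c1 hb ne⟩)) (B.DK _ _ hd1 hk)
      have kk : ∀ k k', K k → K k' → k = k' := fun k k' h h' => by
        by_contra hne
        obtain ⟨s, hs⟩ := kn k h
        obtain ⟨s', hs'⟩ := kn k' h'
        exact ((adj f hs hs').2 (B.KK _ _ h h' hne)).2
      exact A3.ne (kk _ _ c1 c2)

end Pool.Agent.L0h77.HC
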