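import Pool.Agent.L0h77.HC.Br0

/-! Brooms without a universal vertex, `D` independent, `K` with at least two vertices. -/

namespace Pool.Agent.L0h77.HC

open Pool.Agent.H22.CT SimpleGraph Function

variable {m : ℕ} {H : SimpleGraph (Fin m)}

theorem hardK {D K L : Fin m → Prop} {q : Fin m} (B : Br H (fun _ => False) q D K L)
    (DD : ∀ d d', D d → D d' → ¬ H.Adj d d') {k0 k1 : Fin m} (hk0 : K k0) (hk1 : K k1)
    (k01 : k1 ≠ k0) : W2Hard (Con₁ H) := by
  obtain ⟨l0, hl0⟩ := B.L0
  obtain ⟨d0, hd0⟩ := B.D0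
  refine SX.hard (u := k0) (T := fun v => v = d0) (ξ := False) fun inc => ⟨fun f => ?_⟩
  have ak := B.KK _ _ hk1 hk0 k01
  -- non-neighbours of the root
  have nW : ∀ v, f v ≠ .root → ¬ (SX H k0 (fun v => v = d0) False).dad inc .root (f v) →
      ∃ a i, f v = .cp a i ∧ D a ∧ a.1 ≠ d0 := fun v h1 h2 => by
    rcases ev : f v with _ | s | ⟨a, i⟩
    · exact absurd ev h1
    · rw [ev] at h2; exact absurd trivial h2
    · rw [ev] at h2
      simp only [TG.dad, MT, not_or] at h2
      refine ⟨a, i, rfl, ?_, h2.2⟩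
      rcases B.cls a with h | h | h | h | h
      · exact h.elim
      · exact h
      · exact absurd (h ▸ B.qK _ hk0).symm h2.1
      · exact absurd (B.KK _ _ hk0 h (Ne.symm a.2)) h2.1
      · exact absurd (B.KL _ _ hk0 h) h2.1
  have nA : ∀ v v', f v ≠ .root → ¬ (SX H k0 (fun v => v = d0) False).dad inc .root (f v) →
      f v' ≠ .root → ¬ (SX H k0 (fun v => v = d0) False).dad inc .root (f v') → ¬ H.Adj v v' :=
      fun v v' h1 h2 h3 h4 h => by
    obtain ⟨a, i, e1, k1, -⟩ := nW v h1 h2
    obtain ⟨b, j, e2, k2, -⟩ := nW v' h3 h4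
    have := (adj f e1 e2).2 h
    rcases this with ⟨-, -, h⟩ | ⟨-, h⟩
    · exact DD _ _ k1 k2 h
    · exact h
  have nx : ∀ x v, f x = .root → v ≠ x → ¬ H.Adj x v → f v ≠ .root ∧
      ¬ (SX H k0 (fun v => v = d0) False).dad inc .root (f v) := fun x v hx h1 h2 =>
    ⟨fun e => h1 (f.injective (e.trans hx.symm)), fun h => h2 ((adj f hx rfl).1 h)⟩
  -- neighbours of copies of `D`
  have nD : ∀ v v' a i, f v = .cp a i → D a → a.1 ≠ d0 → H.Adj v v' → f v' ≠ .root →
      ∃ b, f v' = .cp b i ∧ b.1 = q := fun v v' a i h1 h2 h3 h4 h5 => by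
    rcases ev : f v' with _ | s | ⟨b, j⟩
    · exact absurd ev h5
    · have := (adj f h1 ev).2 h4
      simp only [TG.dad, MT, false_and, or_false] at this
      exact absurd this.1 h3
    · have := (adj f h1 ev).2 h4
      simp only [TG.dad, MT, and_false, or_false] at this
      obtain ⟨rfl, -, h⟩ := this
      refine ⟨b, rfl, ?_⟩
      rcases B.cls b with h' | h' | h' | h' | h'
      · exact h'.elim
      · exact absurd h (DD _ _ h2 h')
      · exact h'
      · exact absurd h (B.DK _ _ h2 h')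
      · exact absurd h (B.DL _ _ h2 h')
  by_cases hW : ∃ x, f x = .root
  · obtain ⟨x, hx⟩ := hW
    rcases B.cls x with h | h | rfl | h | h
    · exact h
    · obtain ⟨a1, a2⟩ := nx x k0 hx (fun e => B.nDK h (e ▸ hk0)) (B.DK _ _ h hk0)
      obtain ⟨b1, b2⟩ := nx x l0 hx (fun e => B.nDL h (e ▸ hl0)) (B.DL _ _ h hl0)
      exact nA _ _ a1 a2 b1 b2 (B.KL _ _ hk0 hl0)
    · obtain ⟨a1, a2⟩ := nx x l0 hx (fun e => B.Lq (e ▸ hl0)) (B.qL _ hl0)
      obtain ⟨a, i, e, h1, h2⟩ := nW _ a1 a2
      obtain ⟨b, e2, h3⟩ := nD _ k0 _ _ e h1 h2 (B.KL _ _ hk0 hl0).symm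
        (fun e => B.Kq (f.injective (e.trans hx.symm) ▸ hk0))
      obtain ⟨b', e2', h3'⟩ := nD _ k1 _ _ e h1 h2 (B.KL _ _ hk1 hl0).symm
        (fun e => B.Kq (f.injective (e.trans hx.symm) ▸ hk1))
      refine k01 (f.injective ?_)
      rw [e2, e2', Subtype.ext (h3.trans h3'.symm)]
    · -- the image of a vertex of `K`
      have q0 : f q ≠ .root := fun e => B.Kq (f.injective (e.trans hx.symm) ▸ h)
      have q1 : ∀ d, D d → ∃ a i, f d = .cp a i ∧ D a ∧ a.1 ≠ d0 := fun d hd =>
        nW d (nx x d hx (fun e => B.nDK hd (e ▸ h)) fun e => B.DK _ _ hd h e.symm).1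
          (nx x d hx (fun e => B.nDK hd (e ▸ h)) fun e => B.DK _ _ hd h e.symm).2
      obtain ⟨a0, i, e0, ha0, ha0'⟩ := q1 d0 hd0
      obtain ⟨b, eb, hb⟩ := nD _ q _ _ e0 ha0 ha0' (B.qD _ hd0).symm q0
      have : ∀ d, ∃ a : Fin m, D d → D a ∧ a ≠ d0 ∧ ∃ h : a ≠ k0, f d = .cp ⟨a, h⟩ i := fun d => by
        by_cases hl : D d
        · obtain ⟨a, j, e, h1, h2⟩ := q1 d hl
          have := (adj f eb e).2 (B.qD _ hl)
          simp only [TG.dad, MT, and_false, or_false] at this
          rw [← this.1] at e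
          exact ⟨a, fun _ => ⟨h1, h2, a.2, e⟩⟩
        · exact ⟨d, fun h => absurd h hl⟩
      choose g hg using this
      exact noinj hd0 g (fun v hv => ⟨(hg v hv).1, (hg v hv).2.1⟩) fun a b ha hb h => by
        obtain ⟨-, -, h1, h2⟩ := hg a ha
        obtain ⟨-, -, h3, h4⟩ := hg b hb
        apply f.injective
        rw [h2, h4]
        simp [h]
    · obtain ⟨a1, a2⟩ := nx x d0 hx (fun e => B.nDL hd0 (e ▸ h)) fun e => B.DL _ _ hd0 h e.symm
      obtain ⟨b1, b2⟩ := nx x q hx (fun e => B.Lq (e ▸ h)) fun e => B.qL _ h e.symm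
      exact nA _ _ a1 a2 b1 b2 (B.qD _ hd0).symm
  · have nr : ∀ v, f v ≠ .root := fun v h => hW ⟨v, h⟩
    have sn : ∀ v s, f v = .sel s → ∀ v', H.Adj v v' → ∃ a i, f v' = .cp a i ∧ a.1 = d0 :=
      fun v s hv v' h => by
        rcases ev : f v' with _ | s' | ⟨a, i⟩
        · exact absurd ev (nr v')
        · exact absurd ((adj f hv ev).2 h).2 id
        · have := (adj f hv ev).2 h
          simp only [TG.dad, MT, false_and, or_false] at this
          exact ⟨a, i, rfl, this.1⟩
    have st : ∀ a b c s, f a = .sel s → H.Adj a b → H.Adj a c → ¬ H.Adj b c :=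
      fun a b c s ha h1 h2 h3 => by
        obtain ⟨x, i, e1, e2⟩ := sn a s ha b h1
        obtain ⟨y, j, e3, e4⟩ := sn a s ha c h2
        have := (adj f e1 e3).2 h3
        simp only [TG.dad, MT, and_false, or_false] at this
        exact DD _ _ hd0 hd0 (by have h := this.2.2; rw [e2, e4] at h; exact h)
    -- a vertex in a triangle goes to a copy of a vertex outside `D`
    have tr : ∀ a b c, H.Adj a b → H.Adj a c → H.Adj b c → ∃ x i, f a = .cp x i ∧ ¬ D x :=
      fun a b c h1 h2 h3 => by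
        rcases ea : f a with _ | s | ⟨x, i⟩
        · exact absurd ea (nr a)
        · exact absurd h3 (st _ _ _ s ea h1 h2)
        · refine ⟨x, i, rfl, fun hx => ?_⟩
          rcases eb : f b with _ | s | ⟨y, j⟩
          · exact nr b eb
          · exact st _ _ _ s eb h1.symm h3 h2
          rcases ec : f c with _ | s | ⟨z, j'⟩
          · exact nr c ec
          · exact st _ _ _ s ec h2.symm h3.symm h1
          have A1 := (adj f ea eb).2 h1
          have A2 := (adj f ea ec).2 h2
          have A3 := (adj f eb ec).2 h3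
          simp only [TG.dad, MT, and_false, or_false] at A1 A2 A3
          have yq : y.1 = q := by
            rcases B.cls y with h' | h' | h' | h' | h'
            · exact h'.elim
            · exact absurd A1.2.2 (DD _ _ hx h')
            · exact h'
            · exact absurd A1.2.2 (B.DK _ _ hx h')
            · exact absurd A1.2.2 (B.DL _ _ hx h')
          have zq : z.1 = q := by
            rcases B.cls z with h' | h' | h' | h' | h'
            · exact h'.elim
            · exact absurd A2.2.2 (DD _ _ hx h')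
            · exact h'
            · exact absurd A2.2.2 (B.DK _ _ hx h')
            · exact absurd A2.2.2 (B.DL _ _ hx h')
          exact A3.2.1 (Subtype.ext (yq.trans zq.symm))
    obtain ⟨y, i, e0, hy⟩ := tr k0 q k1 (B.qK _ hk0).symm ak.symm (B.qK _ hk1)
    have all : ∀ v, ¬ D v → ∃ x, f v = .cp x i ∧ ¬ D x := fun v hv => by
      have step : ∀ v b, H.Adj v k0 → H.Adj v b → H.Adj k0 b → ∃ x, f v = .cp x i ∧ ¬ D x :=
        fun v b h1 h2 h3 => by
          obtain ⟨x, j, e, hx⟩ := tr v k0 b h1 h2 h3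
          have := (adj f e e0).2 h1
          simp only [TG.dad, MT, and_false, or_false] at this
          rw [this.1] at e
          exact ⟨x, e, hx⟩
      rcases B.cls v with h | h | rfl | h | h
      · exact h.elim
      · exact absurd h hv
      · exact step v k1 (B.qK _ hk0) (B.qK _ hk1) ak.symm
      · by_cases e : v = k0
        · rw [e]; exact ⟨y, e0, hy⟩
        · exact step v q (B.KK _ _ h hk0 e) (B.qK _ h).symm (B.qK _ hk0).symm
      · exact step v k1 (B.KL _ _ hk0 h).symm (B.KL _ _ hk1 h).symm ak.symm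
    have : ∀ v, ∃ a : Fin m, ¬ D v → ¬ D a ∧ ∃ h : a ≠ k0, f v = .cp ⟨a, h⟩ i := fun v => by
      by_cases hl : D v
      · exact ⟨v, fun h => absurd hl h⟩
      · obtain ⟨a, e, h1⟩ := all v hl
        exact ⟨a, fun _ => ⟨h1, a.2, e⟩⟩
    choose g hg using this
    exact noinj (P := fun v => ¬ D v) (l0 := k0) (fun h => B.nDK h hk0) g
      (fun v hv => ⟨(hg v hv).1, (hg v hv).2.choose⟩) fun a b ha hb h => by
        obtain ⟨-, h1, h2⟩ := hg a ha
        obtain ⟨-, h3, h4⟩ := hg b hb
        apply f.injective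
        rw [h2, h4]
        simp [h]

end Pool.Agent.L0h77.HC
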