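import Pool.Agent.L0h77.HC.Main

/-! One universal vertex, plain constructs, some triangle outside it. -/

namespace Pool.Agent.L0h77.HC

open Pool.Agent.H22.CT SimpleGraph Function

variable {m : ℕ} {H : SimpleGraph (Fin m)}

def Disc (H : SimpleGraph (Fin m)) (w : Fin m) : Prop :=
  ∃ P : Fin m → Prop, (∀ a b, a ≠ w → b ≠ w → H.Adj a b → (P a ↔ P b)) ∧ (∃ p, p ≠ w ∧ P p) ∧
    ∃ q, q ≠ w ∧ ¬ P q

theorem Disc.nu {w : Fin m} (h : Disc H w) : ∀ v, v ≠ w → ∃ v', v' ≠ w ∧ v ≠ v' ∧ ¬ H.Adj v v' := by
  obtain ⟨P, h1, ⟨p, hp, hp'⟩, q, hq, hq'⟩ := h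
  intro v hv
  by_cases hv' : P v
  · exact ⟨q, hq, fun e => hq' (e ▸ hv'), fun e => hq' ((h1 v q hv hq e).1 hv')⟩
  · exact ⟨p, hp, fun e => hv' (e ▸ hp'), fun e => hv' ((h1 v p hv hp e).2 hp')⟩

/-- The image of the universal vertex is not a copy of a vertex other than `t`. -/
theorem SX.cnt {w u t : Fin m} {T : Fin m → Prop} {ξ : Prop} {inc : ℕ → ℕ × ℕ → Prop}
    (f : H ↪g (SX H u T ξ).DG inc) (hw : Univ H w) (htu : t ≠ u) (hT : T t) (hn : ¬ H.Adj u t)
    {x : {v : Fin m // v ≠ u}} {i : ℕ × ℕ} (ew : f w = .cp x i) (hx : ¬ T x) : False := by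
  refine MT.count f i (fun v => ?_) htu hT hn
  by_cases h1 : v = w
  · exact Or.inr ⟨x, h1 ▸ ew⟩
  rcases ev : f v with _ | s' | ⟨z, k⟩
  · exact Or.inl rfl
  · have := (adj f ew ev).2 (hw v h1)
    simp only [TG.dad, MT, false_and, or_false] at this
    exact absurd this.1 hx
  · have := (adj f ew ev).2 (hw v h1)
    simp only [TG.dad, MT, and_false, or_false] at this
    exact Or.inr ⟨z, by rw [this.1]⟩

theorem three {p q r : Prop} (h1 : (p ↔ q) → False) (h2 : (p ↔ r) → False)
    (h3 : (q ↔ r) → False) : False := by tauto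

open Classical in
theorem hardB1 {w u t : Fin m} (hw : Univ H w) (huw : u ≠ w) (htw : t ≠ w) (htu : t ≠ u)
    (hn : ¬ H.Adj u t) (hcn : ∀ v, v ≠ w → H.Adj u v → ¬ H.Adj t v)
    (ind : ∀ a b, a ≠ w → b ≠ w → H.Adj u a → H.Adj u b → ¬ H.Adj a b)
    (tri : ∃ a b c, a ≠ w ∧ b ≠ w ∧ c ≠ w ∧ H.Adj a b ∧ H.Adj a c ∧ H.Adj b c)
    (dc : Disc H w)
    (cnt : (Finset.univ.filter fun v => v ≠ w ∧ ∀ v', v' ≠ w → ¬ H.Adj v v').card +
      (Finset.univ.filter fun v => v ≠ w ∧ H.Adj t v).card + 2 < m) :
    W2Hard (Con₁ H) := by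
  refine SX.hard (u := u) (T := fun v => v = t) (ξ := False) fun inc => ⟨fun f => ?_⟩
  have nu := dc.nu
  rcases ew : f w with _ | s | ⟨x, i⟩
  · have ty : ∀ v, v ≠ w → (∃ s, f v = .sel s) ∨ ∃ z i, f v = .cp z i ∧
        (H.Adj u z ∨ z.val = t) := fun v h => by
      rcases ev : f v with _ | s' | ⟨z, k⟩
      · exact absurd (f.injective (ev.trans ew.symm)) h
      · exact Or.inl ⟨_, rfl⟩
      · exact Or.inr ⟨z, k, rfl, (adj f ew ev).2 (hw v h)⟩
    -- two colours
    let κ : Fin m → Prop := fun v => (∃ s, f v = .sel s) ∨ ∃ z i, f v = .cp z i ∧ z.val = w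
    have κ1 : ∀ a b, a ≠ w → b ≠ w → H.Adj a b → (κ a ↔ κ b) → False := fun a b ha hb hab h => by
      rcases ty a ha with ⟨s, ea⟩ | ⟨z, j, ea, za⟩ <;> rcases ty b hb with ⟨s', eb⟩ | ⟨z', j', eb, zb⟩
      · exact absurd ((adj f ea eb).2 hab) (by simp [TG.dad, MT])
      · have h1 : κ b := h.1 (Or.inl ⟨s, ea⟩)
        have h2 := (adj f ea eb).2 hab
        simp only [TG.dad, MT, false_and, or_false] at h2
        rcases h1 with ⟨s2, h1⟩ | ⟨z2, j2, h1, h3⟩
        · rw [eb] at h1; cases h1
        · rw [eb] at h1; cases h1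
          exact htw (h2.1.symm.trans h3)
      · have h1 : κ a := h.2 (Or.inl ⟨s', eb⟩)
        have h2 := (adj f ea eb).2 hab
        simp only [TG.dad, MT, false_and, or_false] at h2
        rcases h1 with ⟨s2, h1⟩ | ⟨z2, j2, h1, h3⟩
        · rw [ea] at h1; cases h1
        · rw [ea] at h1; cases h1
          exact htw (h2.1.symm.trans h3)
      · have h2 := (adj f ea eb).2 hab
        simp only [TG.dad, MT, and_false, or_false] at h2
        obtain ⟨rfl, h3, h4⟩ := h2
        have hκ : ∀ c y, f c = .cp y j → (κ c ↔ y.val = w) := fun c y ec => by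
          constructor
          · rintro (⟨s, h⟩ | ⟨z, j, h, h'⟩)
            · rw [ec] at h; cases h
            · rw [ec] at h; cases h; exact h'
          · exact fun h => Or.inr ⟨y, j, ec, h⟩
        rw [hκ a z ea, hκ b z' eb] at h
        by_cases h5 : z.val = w
        · exact h3 (Subtype.ext (h5.trans (h.1 h5).symm))
        have h6 : z'.val ≠ w := fun e => h5 (h.2 e)
        rcases za with za | za <;> rcases zb with zb | zb
        · exact ind z z' h5 h6 za zb h4
        · exact hcn z h5 za (by rw [← zb]; exact h4.symm)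
        · exact hcn z' h6 zb (by rw [← za]; exact h4)
        · exact h3 (Subtype.ext (za.trans zb.symm))
    obtain ⟨a, b, c, ha, hb, hc, hab, hac, hbc⟩ := tri
    have k1 := κ1 a b ha hb hab
    have k2 := κ1 a c ha hc hac
    have k3 := κ1 b c hb hc hbc
    exact three k1 k2 k3
  · have ty : ∀ v, v ≠ w → f v = .root ∨ ∃ z i, f v = .cp z i ∧ z.val = t := fun v h => by
      rcases ev : f v with _ | s' | ⟨z, k⟩
      · exact Or.inl rfl
      · exact absurd ((adj f ew ev).2 (hw v h)) (by simp [TG.dad, MT])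
      · have := (adj f ew ev).2 (hw v h)
        simp only [TG.dad, MT, false_and, or_false] at this
        exact Or.inr ⟨z, k, rfl, this.1⟩
    have nr : ∀ v, v ≠ w → f v ≠ .root := fun v hv ev => by
      obtain ⟨v', h1, h2, h3⟩ := nu v hv
      rcases ty v' h1 with h4 | ⟨z, k, h4, h5⟩
      · exact h2 (f.injective (ev.trans h4.symm))
      · exact h3 ((adj f ev h4).1 (Or.inr h5))
    obtain ⟨a, b, c, ha, hb, hc, hab, hac, hbc⟩ := tri
    obtain ⟨z, k, h4, h5⟩ := (ty a ha).resolve_left (nr a ha)
    obtain ⟨z', k', h6, h7⟩ := (ty b hb).resolve_left (nr b hb)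
    have := (adj f h4 h6).2 hab
    simp only [TG.dad, MT, and_false, or_false] at this
    exact this.2.1 (Subtype.ext (h5.trans h7.symm))
  · by_cases hx : x.val = t
    swap
    · exact SX.cnt f hw htu rfl hn ew hx
    have ty : ∀ v, v ≠ w → f v = .root ∨ (∃ s, f v = .sel s) ∨ ∃ z, f v = .cp z i ∧
        H.Adj t z := fun v h => by
      rcases ev : f v with _ | s' | ⟨z, k⟩
      · exact Or.inl rfl
      · exact Or.inr (Or.inl ⟨_, rfl⟩)
      · have := (adj f ew ev).2 (hw v h)
        simp only [TG.dad, MT, and_false, or_false] at this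
        exact Or.inr (Or.inr ⟨z, by rw [this.1], hx ▸ this.2.2⟩)
    let ζ : Fin m → Fin m := fun v => match f v with
      | .cp z _ => z.1
      | _ => w
    have ζe : ∀ v z, f v = .cp z i → ζ v = z.1 := fun v z h => by simp only [ζ, h]
    have ζi : ∀ v v' z z', f v = .cp z i → f v' = .cp z' i → ζ v = ζ v' → v = v' :=
      fun v v' z z' h h' e => f.injective (by
        rw [ζe v z h, ζe v' z' h'] at e
        rw [h, h', Subtype.ext e])
    -- selectors are not adjacent to copies
    have sc : ∀ v v' s z, f v = .sel s → f v' = .cp z i → H.Adj t z → ¬ H.Adj v v' :=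
      fun v v' s z h h' h'' h3 => by
        have := (adj f h h').2 h3
        simp only [TG.dad, MT, false_and, or_false] at this
        exact h''.ne this.1.symm
    have ss : ∀ v v' s s', f v = .sel s → f v' = .sel s' → ¬ H.Adj v v' := fun v v' s s' h h' h3 =>
      absurd ((adj f h h').2 h3) (by simp [TG.dad, MT])
    by_cases hv0 : ∃ v0, v0 ≠ w ∧ ∃ z, f v0 = .cp z i ∧ z.val = w
    · obtain ⟨v0, h01, z0, h02, h03⟩ := hv0
      have v0c : ∀ v z, v ≠ w → v ≠ v0 → f v = .cp z i → H.Adj v0 v := fun v z h h' ev => by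
        have : z0 ≠ z := fun e => h' (f.injective (by rw [ev, h02, e]))
        have h4 : H.Adj z0.1 z.1 := by
          rw [h03]; exact hw z fun e => this (Subtype.ext (h03.trans e.symm))
        exact (adj f h02 ev).1 (Or.inl ⟨rfl, this, h4⟩)
      by_cases hb : ∃ b, b ≠ w ∧ f b = .root
      · obtain ⟨b, hb1, hb2⟩ := hb
        obtain ⟨P, h1, ⟨p, hp, hp'⟩, q, hq, hq'⟩ := dc
        have b0 : H.Adj b v0 := (adj f hb2 h02).1 (Or.inl (by
          show H.Adj u z0.1
          rw [h03]; exact (hw u huw).symm))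
        have all : ∀ v, v ≠ w → (P v ↔ P v0) := fun v hv => by
          by_cases e : v = v0
          · rw [e]
          rcases ty v hv with ev | ⟨s, ev⟩ | ⟨z, ev, -⟩
          · rw [f.injective (ev.trans hb2.symm)]; exact h1 _ _ hb1 h01 b0
          · exact (h1 _ _ hv hb1 ((adj f ev hb2).1 trivial)).trans (h1 _ _ hb1 h01 b0)
          · exact (h1 _ _ h01 hv (v0c v z hv e ev)).symm
        exact hq' ((all q hq).2 ((all p hp).1 hp'))
      · set I := Finset.univ.filter fun v => v ≠ w ∧ ∀ v', v' ≠ w → ¬ H.Adj v v'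
        set N := Finset.univ.filter fun v => v ≠ w ∧ H.Adj t v
        set X := Finset.univ.filter fun v => v ≠ w ∧ v ≠ v0 ∧ v ∉ I
        have hX : ∀ v ∈ X, ∃ z, f v = .cp z i ∧ H.Adj t z ∧ z.val ≠ w := fun v hv => by
          obtain ⟨h4, h5, h6⟩ := (Finset.mem_filter.1 hv).2
          rcases ty v h4 with ev | ⟨s, ev⟩ | ⟨z, ev, h7⟩
          · exact absurd ⟨v, h4, ev⟩ hb
          · refine absurd (Finset.mem_filter.2 ⟨Finset.mem_univ _, h4, fun v' h8 h9 => ?_⟩) h6
            rcases ty v' h8 with ev' | ⟨s', ev'⟩ | ⟨z, ev', h7⟩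
            · exact hb ⟨v', h8, ev'⟩
            · exact ss v v' s s' ev ev' h9
            · exact sc v v' s z ev ev' h7 h9
          · exact ⟨z, ev, h7, fun e => h5 (f.injective (by rw [ev, h02, Subtype.ext (e.trans h03.symm)]))⟩
        have c1 : X.card ≤ N.card := Finset.card_le_card_of_injOn ζ (fun v hv => by
            obtain ⟨z, ev, h7, h8⟩ := hX v hv
            rw [ζe v z ev]
            exact Finset.mem_coe.2 (Finset.mem_filter.2 ⟨Finset.mem_univ _, h8, h7⟩))
          fun v hv v' hv' e => by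
            obtain ⟨z, ev, -, -⟩ := hX v hv
            obtain ⟨z', ev', -, -⟩ := hX v' hv'
            exact ζi v v' z z' ev ev' e
        have c2 : (Finset.univ : Finset (Fin m)) ⊆ insert w (insert v0 (I ∪ X)) := fun v _ => by
          by_cases h4 : v = w
          · simp [h4]
          by_cases h5 : v = v0
          · simp [h5]
          by_cases h6 : v ∈ I
          · simp [h6]
          · have : v ∈ X := Finset.mem_filter.2 ⟨Finset.mem_univ _, h4, h5, h6⟩
            simp [this]
        have c3 := Finset.card_le_card c2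
        have c4 := Finset.card_insert_le w (insert v0 (I ∪ X))
        have c5 := Finset.card_insert_le v0 (I ∪ X)
        have c6 := Finset.card_union_le I X
        rw [Finset.card_univ, Fintype.card_fin] at c3
        omega
    · have nw : ∀ v z, v ≠ w → f v = .cp z i → z.val ≠ w := fun v z h h' e => hv0 ⟨v, h, z, h', e⟩
      have rc : ∀ v v' z, v' ≠ w → f v = .root → f v' = .cp z i → H.Adj t z → ¬ H.Adj v v' :=
        fun v v' z h0 h h' h'' h3 => by
          rcases (adj f h h').2 h3 with h4 | h4
          · exact hcn z (nw v' z h0 h') h4 h''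
          · exact h''.ne h4.symm
      have tc : ∀ a b c, a ≠ w → b ≠ w → c ≠ w → H.Adj a b → H.Adj a c → H.Adj b c →
          ∃ z, f a = .cp z i ∧ H.Adj t z := fun a b c ha hb hc hab hac hbc => by
        rcases ty a ha with ea | ⟨s, ea⟩ | ⟨z, ea, h7⟩
        · rcases ty b hb with eb | ⟨s, eb⟩ | ⟨z, eb, h7⟩
          · exact absurd (f.injective (ea.trans eb.symm)) hab.ne
          · rcases ty c hc with ec | ⟨s', ec⟩ | ⟨z, ec, h7⟩
            · exact absurd (f.injective (ea.trans ec.symm)) hac.ne
            · exact absurd hbc (ss b c s s' eb ec)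
            · exact absurd hac (rc a c z hc ea ec h7)
          · exact absurd hab (rc a b z hb ea eb h7)
        · rcases ty b hb with eb | ⟨s', eb⟩ | ⟨z, eb, h7⟩
          · rcases ty c hc with ec | ⟨s', ec⟩ | ⟨z, ec, h7⟩
            · exact absurd (f.injective (eb.trans ec.symm)) hbc.ne
            · exact absurd hac (ss a c s s' ea ec)
            · exact absurd hac (sc a c s z ea ec h7)
          · exact absurd hab (ss a b s s' ea eb)
          · exact absurd hab (sc a b s z ea eb h7)
        · exact ⟨z, ea, h7⟩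
      obtain ⟨a, b, c, ha, hb, hc, hab, hac, hbc⟩ := tri
      obtain ⟨za, ea, ta⟩ := tc a b c ha hb hc hab hac hbc
      obtain ⟨zb, eb, tb⟩ := tc b a c hb ha hc hab.symm hbc hac
      by_cases ht : ∃ z, f t = .cp z i
      · obtain ⟨zt, et⟩ := ht
        have htt : H.Adj t zt := by
          rcases ty t htw with e | ⟨s, e⟩ | ⟨z, e, h⟩
          · rw [et] at e; cases e
          · rw [et] at e; cases e
          · rw [et] at e; cases e; exact h
        set A := Finset.univ.filter fun v => v ≠ w ∧ ∃ z, f v = .cp z i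
        have tA : t ∈ A := Finset.mem_filter.2 ⟨Finset.mem_univ _, htw, zt, et⟩
        have : A.card ≤ (A.erase t).card := Finset.card_le_card_of_injOn ζ (fun v hv => by
            obtain ⟨h4, z, ev⟩ := (Finset.mem_filter.1 hv).2
            have h5 : H.Adj t z := by
              rcases ty v h4 with e | ⟨s, e⟩ | ⟨z, e, h⟩
              · rw [ev] at e; cases e
              · rw [ev] at e; cases e
              · rw [ev] at e; cases e; exact h
            have h6 := nw v z h4 ev
            rw [ζe v z ev]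
            refine Finset.mem_coe.2 (Finset.mem_erase.2 ⟨h5.ne', Finset.mem_filter.2
              ⟨Finset.mem_univ _, h6, ?_⟩⟩)
            rcases ty z h6 with e | ⟨s, e⟩ | ⟨z', e, h⟩
            · exact absurd h5.symm (rc z t zt htw e et htt)
            · exact absurd h5.symm (sc z t s zt e et htt)
            · exact ⟨z', e⟩)
          fun v hv v' hv' e => by
            obtain ⟨-, z, ev⟩ := (Finset.mem_filter.1 hv).2
            obtain ⟨-, z', ev'⟩ := (Finset.mem_filter.1 hv').2
            exact ζi v v' z z' ev ev' e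
        rw [Finset.card_erase_of_mem tA] at this
        have := Finset.card_pos.2 ⟨t, tA⟩
        omega
      · have hab' : H.Adj za zb := by
          have := (adj f ea eb).2 hab
          simp only [TG.dad, MT, and_false, or_false] at this
          exact this.2.2
        have na := nw a za ha ea
        have nb := nw b zb hb eb
        rcases ty t htw with et | ⟨s, et⟩ | ⟨z, et, h⟩
        · rcases ty za na with e | ⟨s, e⟩ | ⟨z, e, h⟩
          · exact absurd (f.injective (et.trans e.symm)) ta.ne
          · rcases ty zb nb with e' | ⟨s', e'⟩ | ⟨z', e', h'⟩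
            · exact absurd (f.injective (et.trans e'.symm)) tb.ne
            · exact absurd hab' (ss _ _ s s' e e')
            · exact absurd tb (rc _ _ z' nb et e' h')
          · exact absurd ta (rc _ _ z na et e h)
        · rcases ty za na with e | ⟨s', e⟩ | ⟨z, e, h⟩
          · rcases ty zb nb with e' | ⟨s', e'⟩ | ⟨z', e', h'⟩
            · exact absurd (f.injective (e.trans e'.symm)) hab'.ne
            · exact absurd tb (ss _ _ s s' et e')
            · exact absurd tb (sc _ _ s z' et e' h')
          · exact absurd ta (ss _ _ s s' et e)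
          · exact absurd ta (sc _ _ s z et e h)
        · exact ht ⟨z, et⟩

end Pool.Agent.L0h77.HC
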