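import Pool.Agent.L0h77.HC.Br0
import Pool.Agent.L0h77.HC.One2

/-! Brooms with a universal vertex. -/

namespace Pool.Agent.L0h77.HC

open Pool.Agent.H22.CT SimpleGraph Function

variable {m : ℕ} {H : SimpleGraph (Fin m)}

theorem hardN {D K L : Fin m → Prop} {w q d0 : Fin m} (B : Br H (fun v => v = w) q D K L)
    (hd0 : D d0) (hyp : (∃ k1 k2, K k1 ∧ K k2 ∧ k1 ≠ k2) ∨
      (∃ d1 d2 ds, D d1 ∧ D d2 ∧ H.Adj d1 d2 ∧ D ds ∧ ds ≠ d0 ∧ ¬ H.Adj d0 ds)) :
    W2Hard (Con₁ H) := by
  obtain ⟨l0, hl0⟩ := B.L0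
  obtain ⟨k0, hk0⟩ := B.K0
  have hw := B.pu w rfl
  have wq : q ≠ w := fun e => B.Pq e
  have wD : ∀ d, D d → d ≠ w := fun d h e => B.PD e h
  have wK : ∀ d, K d → d ≠ w := fun d h e => B.PK e h
  have wL : ∀ d, L d → d ≠ w := fun d h e => B.PL e h
  have ld : l0 ≠ d0 := fun e => B.nDL hd0 (e ▸ hl0)
  have nld : ¬ H.Adj d0 l0 := B.DL _ _ hd0 hl0
  have tri : ∃ a b, a ≠ w ∧ b ≠ w ∧ H.Adj q a ∧ H.Adj q b ∧ H.Adj a b := by
    rcases hyp with ⟨k1, k2, h1, h2, h3⟩ | ⟨d1, d2, -, h1, h2, h3, -⟩
    · exact ⟨k1, k2, wK _ h1, wK _ h2, B.qK _ h1, B.qK _ h2, B.KK _ _ h1 h2 h3⟩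
    · exact ⟨d1, d2, wD _ h1, wD _ h2, B.qD _ h1, B.qD _ h2, h3⟩
  obtain ⟨a0, b0, ha0, hb0, qa, qb, ab⟩ := tri
  refine SX.hard (u := d0) (T := fun v => v = l0) (ξ := False) fun inc => ⟨fun f => ?_⟩
  rcases ew : f w with _ | s | ⟨x, i⟩
  · -- the root
    have nr : ∀ v, v ≠ w → f v ≠ .root := fun v h e => h (f.injective (e.trans ew.symm))
    have ty : ∀ v x i, v ≠ w → f v = .cp x i → H.Adj d0 x ∨ x.1 = l0 := fun v x i h e =>
      (adj f ew e).2 (hw v h)
    have sn : ∀ v s, v ≠ w → f v = .sel s → ∀ v', v' ≠ w → H.Adj v v' →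
        ∃ a i, f v' = .cp a i ∧ a.1 = l0 := fun v s h hv v' h' hvv => by
      rcases ev : f v' with _ | s' | ⟨a, i⟩
      · exact absurd ev (nr v' h')
      · exact absurd ((adj f hv ev).2 hvv).2 id
      · have := (adj f hv ev).2 hvv
        simp only [TG.dad, MT, false_and, or_false] at this
        exact ⟨a, i, rfl, this.1⟩
    have st : ∀ a b c s, a ≠ w → b ≠ w → c ≠ w → f a = .sel s → H.Adj a b → H.Adj a c →
        ¬ H.Adj b c := fun a b c s haw hbw hcw ha h1 h2 h3 => by
      obtain ⟨x, i, e1, e2⟩ := sn a s haw ha b hbw h1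
      obtain ⟨y, j, e3, e4⟩ := sn a s haw ha c hcw h2
      have := (adj f e1 e3).2 h3
      simp only [TG.dad, MT, and_false, or_false] at this
      exact B.LL _ _ hl0 hl0 (by have h := this.2.2; rw [e2, e4] at h; exact h)
    -- neighbours of the copies of `l0`
    have ln : ∀ v x i, f v = .cp x i → x.1 = l0 → ∀ v', v' ≠ w → H.Adj v v' →
        (∃ s, f v' = .sel s) ∨ ∃ y, f v' = .cp y i ∧ y.1 = w := fun v x i h1 h2 v' h3 h4 => by
      rcases ev : f v' with _ | s' | ⟨a, j⟩
      · exact absurd ev (nr v' h3)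
      · exact Or.inl ⟨s', rfl⟩
      · have := (adj f h1 ev).2 h4
        simp only [TG.dad, MT, and_false, or_false] at this
        obtain ⟨rfl, -, h⟩ := this
        refine Or.inr ⟨a, rfl, ?_⟩
        rw [h2] at h
        have hty := ty v' a i h3 ev
        rcases B.cls a with h' | h' | h' | h' | h'
        · exact h'
        · exact absurd h.symm (B.DL _ _ h' hl0)
        · exact absurd (h' ▸ h.symm) (B.qL _ hl0)
        · exact (hty.elim (fun h => B.DK _ _ hd0 h' h) fun h => B.nKL h' (h ▸ hl0)).elim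
        · exact absurd h (B.LL _ _ hl0 h')
    obtain ⟨y, i, ey, hy⟩ : ∃ y i, f q = .cp y i ∧ H.Adj d0 y := by
      rcases eq : f q with _ | s | ⟨y, i⟩
      · exact absurd eq (nr q wq)
      · exact absurd ab (st _ _ _ s wq ha0 hb0 eq qa qb)
      · refine ⟨y, i, rfl, (ty q y i wq eq).resolve_right fun h => ?_⟩
        rcases ln q y i eq h a0 ha0 qa with ⟨s, hs⟩ | ⟨z, ez, hz⟩
        · exact st _ _ _ s ha0 wq hb0 hs qa.symm ab qb
        rcases ln q y i eq h b0 hb0 qb with ⟨s, hs⟩ | ⟨z', ez', hz'⟩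
        · exact st _ _ _ s hb0 wq ha0 hs qb.symm ab.symm qa
        · refine ab.ne (f.injective ?_)
          rw [ez, ez', Subtype.ext (hz.trans hz'.symm)]
    have bl : ∀ v v' x i, f v = .cp x i → H.Adj d0 x → x.1 ≠ w → v' ≠ w → H.Adj v v' →
        ∃ x', f v' = .cp x' i ∧ H.Adj d0 x' := fun v v' x i h1 h2 h3 h4 h5 => by
      have nxl : ¬ H.Adj x l0 := by
        rcases B.cls x with h' | h' | h' | h' | h'
        · exact absurd h' h3
        · exact B.DL _ _ h' hl0
        · rw [h']; exact B.qL _ hl0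
        · exact absurd h2 (B.DK _ _ hd0 h')
        · exact absurd h2 (B.DL _ _ hd0 h')
      rcases ev : f v' with _ | s' | ⟨a, j⟩
      · exact absurd ev (nr v' h4)
      · have := (adj f h1 ev).2 h5
        simp only [TG.dad, MT, false_and, or_false] at this
        exact absurd (this.1 ▸ h2) nld
      · have := (adj f h1 ev).2 h5
        simp only [TG.dad, MT, and_false, or_false] at this
        obtain ⟨rfl, -, h⟩ := this
        exact ⟨a, rfl, (ty v' a i h4 ev).resolve_right fun e => nxl (e ▸ h)⟩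
    by_cases yw : y.1 = w
    · have kl : ∀ k, K k → ∃ x, f k = .cp x i ∧ x.1 = l0 := fun k hk => by
        rcases ev : f k with _ | s' | ⟨a, j⟩
        · exact absurd ev (nr k (wK k hk))
        · have := (adj f ey ev).2 (B.qK _ hk)
          simp only [TG.dad, MT, false_and, or_false] at this
          exact absurd (this.1 ▸ hy) nld
        · have := (adj f ey ev).2 (B.qK _ hk)
          simp only [TG.dad, MT, and_false, or_false] at this
          obtain ⟨rfl, -, h⟩ := this
          refine ⟨a, rfl, (ty k a i (wK k hk) ev).resolve_left fun h' => ?_⟩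
          obtain ⟨b, hb, hb'⟩ := bl k l0 a i ev h' (fun e => by
            have : f k = f q := by rw [ev, ey, Subtype.ext (e.trans yw.symm)]
            exact B.Kq (f.injective this ▸ hk)) (wL _ hl0) (B.KL _ _ hk hl0)
          have hne : b.1 ≠ w := fun e => by
            have : f l0 = f q := by rw [hb, ey, Subtype.ext (e.trans yw.symm)]
            exact B.Lq (f.injective this ▸ hl0)
          exact B.qL _ hl0 ((adj f ey hb).1 (Or.inl ⟨rfl, fun e => hne (by rw [← e, yw]),
            by show H.Adj y.1 b.1; rw [yw]; exact hw _ hne⟩))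
      have ks : ∀ k k', K k → K k' → k = k' := fun k k' h h' => by
        obtain ⟨x, e1, e2⟩ := kl k h
        obtain ⟨x', e3, e4⟩ := kl k' h'
        exact f.injective (by rw [e1, e3, Subtype.ext (e2.trans e4.symm)])
      rcases hyp with ⟨k1, k2, h1, h2, h3⟩ | ⟨-, -, ds, -, -, -, hds, hds', hds''⟩
      · exact h3 (ks _ _ h1 h2)
      have dl : ∀ d, D d → ∃ x, f d = .cp x i ∧ (x.1 = q ∨ (D x ∧ H.Adj d0 x)) := fun d hd => by
        rcases ev : f d with _ | s' | ⟨a, j⟩
        · exact absurd ev (nr d (wD d hd))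
        · have := (adj f ey ev).2 (B.qD _ hd)
          simp only [TG.dad, MT, false_and, or_false] at this
          exact absurd (this.1 ▸ hy) nld
        · have := (adj f ey ev).2 (B.qD _ hd)
          simp only [TG.dad, MT, and_false, or_false] at this
          obtain ⟨rfl, -, h⟩ := this
          refine ⟨a, rfl, ?_⟩
          have ha : H.Adj d0 a := (ty d a i (wD d hd) ev).resolve_right fun e => by
            obtain ⟨x, e1, e2⟩ := kl k0 hk0
            have : f d = f k0 := by rw [ev, e1, Subtype.ext (e.trans e2.symm)]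
            exact B.nDK hd (f.injective this ▸ hk0)
          rcases B.cls a with h' | h' | h' | h' | h'
          · have : f d = f q := by rw [ev, ey, Subtype.ext (h'.trans yw.symm)]
            exact absurd (f.injective this ▸ hd) B.Dq
          · exact Or.inr ⟨h', ha⟩
          · exact Or.inl h'
          · exact absurd ha (B.DK _ _ hd0 h')
          · exact absurd ha (B.DL _ _ hd0 h')
      classical
      have : ∀ d, ∃ a : Fin m, D d → ∃ h : a ≠ d0, f d = .cp ⟨a, h⟩ i ∧
          (a = q ∨ (D a ∧ H.Adj d0 a)) := fun d => by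
        by_cases hl : D d
        · obtain ⟨a, e, h1⟩ := dl d hl
          exact ⟨a, fun _ => ⟨a.2, e, h1⟩⟩
        · exact ⟨d, fun h => absurd h hl⟩
      choose g hg using this
      refine noinj hd0 (fun v => if g v = q then ds else g v) (fun v hv => ?_) fun a b ha hb h => ?_
      · obtain ⟨h1, h2, h3⟩ := hg v hv
        by_cases e : g v = q
        · simp only [e, if_true]; exact ⟨hds, hds'⟩
        · simp only [e, if_false]
          exact ⟨(h3.resolve_left e).1, h1⟩
      · obtain ⟨h1, h2, h3⟩ := hg a ha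
        obtain ⟨h4, h5, h6⟩ := hg b hb
        have : g a = g b := by
          by_cases e : g a = q
          · by_cases e' : g b = q
            · rw [e, e']
            · simp only [e, e', if_true, if_false] at h
              exact absurd (h ▸ (h6.resolve_left e').2) hds''
          · by_cases e' : g b = q
            · simp only [e, e', if_true, if_false] at h
              exact absurd (h ▸ (h3.resolve_left e).2) hds''
            · simpa only [e, e', if_false] using h
        apply f.injective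
        rw [h2, h5]
        simp [this]
    · have nq : ∀ v, v ≠ w → H.Adj q v → ∃ x, f v = .cp x i ∧ H.Adj d0 x := fun v h h' =>
        bl q v y i ey hy yw h h'
      have kw : ∀ k x, K k → f k = .cp x i → x.1 ≠ w := fun k x hk h e => by
        obtain ⟨z, hz, hz'⟩ := nq d0 (wD _ hd0) (B.qD _ hd0)
        have hne : z.1 ≠ w := fun e' => by
          have : f d0 = f k := by rw [hz, h, Subtype.ext (e'.trans e.symm)]
          exact B.nDK hd0 (f.injective this ▸ hk)
        exact B.DK _ _ hd0 hk ((adj f hz h).1 (Or.inl ⟨rfl, fun e' => hne (by rw [e', e]),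
          (e ▸ hw _ hne).symm⟩))
      refine MT.count f i (fun v => ?_) ld rfl nld
      rcases B.cls v with h | h | h | h | h
      · rw [h]; exact Or.inl ew
      · obtain ⟨x, hx, -⟩ := nq v (wD v h) (B.qD _ h)
        exact Or.inr ⟨x, hx⟩
      · rw [h]; exact Or.inr ⟨y, ey⟩
      · obtain ⟨x, hx, -⟩ := nq v (wK v h) (B.qK _ h)
        exact Or.inr ⟨x, hx⟩
      · obtain ⟨x, hx, hx'⟩ := nq k0 (wK k0 hk0) (B.qK _ hk0)
        obtain ⟨x', hx'', -⟩ := bl k0 v x i hx hx' (kw k0 x hk0 hx) (wL v h) (B.KL _ _ hk0 h)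
        exact Or.inr ⟨x', hx''⟩
  · -- a selector
    have ty : ∀ v, v ≠ w → f v = .root ∨ ∃ x i, f v = .cp x i ∧ x.1 = l0 := fun v h => by
      rcases ev : f v with _ | s' | ⟨a, i⟩
      · exact Or.inl rfl
      · exact absurd ((adj f ew ev).2 (hw v h)).2 id
      · have := (adj f ew ev).2 (hw v h)
        simp only [TG.dad, MT, false_and, or_false] at this
        exact Or.inr ⟨a, i, rfl, this.1⟩
    have ra : ∀ v v' x i, f v = .root → f v' = .cp x i → x.1 = l0 → H.Adj v v' :=
      fun v v' x i h1 h2 h3 => (adj f h1 h2).1 (Or.inr h3)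
    have cc : ∀ v v' x i x' i', f v = .cp x i → x.1 = l0 → f v' = .cp x' i' → x'.1 = l0 →
        ¬ H.Adj v v' := fun v v' x i x' i' h1 h2 h3 h4 h => by
      have := (adj f h1 h3).2 h
      simp only [TG.dad, MT, and_false, or_false] at this
      exact this.2.1 (Subtype.ext (h2.trans h4.symm))
    rcases ty q wq with h1 | ⟨x, i, h1, h1'⟩
    · rcases ty l0 (wL _ hl0) with h2 | ⟨x, i, h2, h2'⟩
      · exact B.Lq (f.injective (h1.trans h2.symm) ▸ hl0)
      · exact B.qL _ hl0 (ra _ _ _ _ h1 h2 h2')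
    · rcases ty k0 (wK _ hk0) with h2 | ⟨x', i', h2, h2'⟩
      · rcases ty d0 (wD _ hd0) with h3 | ⟨x', i', h3, h3'⟩
        · exact B.nDK hd0 (f.injective (h3.trans h2.symm) ▸ hk0)
        · exact B.DK _ _ hd0 hk0 (ra _ _ _ _ h2 h3 h3').symm
      · exact cc _ _ _ _ _ _ h1 h1' h2 h2' (B.qK _ hk0)
  · by_cases xl : x.1 = l0
    · -- a copy of `l0`
      have ty : ∀ v, v ≠ w → f v = .root ∨ (∃ s, f v = .sel s) ∨
          ∃ x, f v = .cp x i ∧ (K x ∨ x.1 = w) := fun v h => by
        rcases ev : f v with _ | s' | ⟨a, j⟩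
        · exact Or.inl rfl
        · exact Or.inr (Or.inl ⟨s', rfl⟩)
        · have := (adj f ew ev).2 (hw v h)
          simp only [TG.dad, MT, and_false, or_false] at this
          obtain ⟨rfl, -, h⟩ := this
          rw [xl] at h
          refine Or.inr (Or.inr ⟨a, rfl, ?_⟩)
          rcases B.cls a with h' | h' | h' | h' | h'
          · exact Or.inr h'
          · exact absurd h.symm (B.DL _ _ h' hl0)
          · exact absurd (h' ▸ h.symm) (B.qL _ hl0)
          · exact Or.inl h'
          · exact absurd h (B.LL _ _ hl0 h')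
      have sr : ∀ v s v', v ≠ w → v' ≠ w → f v = .sel s → H.Adj v v' → f v' = .root :=
        fun v s v' h1 h2 h3 h4 => by
          rcases ty v' h2 with h | ⟨s', h⟩ | ⟨z, h, hz⟩
          · exact h
          · exact absurd ((adj f h3 h).2 h4).2 id
          · have := (adj f h3 h).2 h4
            simp only [TG.dad, MT, false_and, or_false] at this
            rcases hz with hz | hz
            · exact absurd (this.1 ▸ hz) fun h => B.nKL h hl0
            · exact absurd (this.1.symm.trans hz) (wL _ hl0)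
      have rn : ∀ v v', v ≠ w → v' ≠ w → f v = .root → H.Adj v v' → (∃ s, f v' = .sel s) ∨
          ∃ x, f v' = .cp x i ∧ x.1 = w := fun v v' h1 h2 h3 h4 => by
        rcases ty v' h2 with h | ⟨s', h⟩ | ⟨z, h, hz⟩
        · exact absurd (f.injective (h3.trans h.symm)) h4.ne
        · exact Or.inl ⟨s', h⟩
        · refine Or.inr ⟨z, h, hz.resolve_left fun hz => ?_⟩
          have := (adj f h3 h).2 h4
          rcases this with h' | h'
          · exact B.DK _ _ hd0 hz h'
          · exact B.nKL hz (h'.symm ▸ hl0)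
      have tr : ∀ a b c, a ≠ w → b ≠ w → c ≠ w → H.Adj a b → H.Adj a c → H.Adj b c →
          ∃ x, f a = .cp x i ∧ (K x ∨ x.1 = w) := fun a b c h1 h2 h3 h4 h5 h6 => by
        rcases ty a h1 with h | ⟨s', h⟩ | h
        · rcases rn a b h1 h2 h h4 with ⟨s, hs⟩ | ⟨z, ez, hz⟩
          · exact absurd (f.injective ((sr b s c h2 h3 hs h6).trans h.symm)) h5.ne'
          rcases rn a c h1 h3 h h5 with ⟨s, hs⟩ | ⟨z', ez', hz'⟩
          · exact absurd (f.injective ((sr c s b h3 h2 hs h6.symm).trans h.symm)) h4.ne'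
          · exact absurd (f.injective (by rw [ez, ez', Subtype.ext (hz.trans hz'.symm)])) h6.ne
        · have e1 := sr a s' b h1 h2 h h4
          have e2 := sr a s' c h1 h3 h h5
          exact absurd (f.injective (e1.trans e2.symm)) h6.ne
        · exact h
      have cl : ∀ v v' x x', f v = .cp x i → f v' = .cp x' i → (K x ∨ x.1 = w) →
          (K x' ∨ x'.1 = w) → v ≠ v' → H.Adj v v' := fun v v' x x' h1 h2 h3 h4 h5 => by
        have hne : x.1 ≠ x'.1 := fun e => h5 (f.injective (by rw [h1, h2, Subtype.ext e]))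
        refine (adj f h1 h2).1 (Or.inl ⟨rfl, fun e => hne (by rw [e]), ?_⟩)
        rcases h3 with h3 | h3
        · rcases h4 with h4 | h4
          · exact B.KK _ _ h3 h4 hne
          · show H.Adj x.1 x'.1
            rw [h4]; exact (hw _ (wK _ h3)).symm
        · show H.Adj x.1 x'.1
          rw [h3]; exact hw _ fun e => hne (h3.trans e.symm)
      by_cases hKK : ∃ k1 k2, K k1 ∧ K k2 ∧ k1 ≠ k2
      · obtain ⟨k1, k2, h1, h2, h3⟩ := hKK
        obtain ⟨x1, e1, g1⟩ := tr q k1 k2 wq (wK _ h1) (wK _ h2) (B.qK _ h1) (B.qK _ h2)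
          (B.KK _ _ h1 h2 h3)
        obtain ⟨x2, e2, g2⟩ := tr l0 k1 k2 (wL _ hl0) (wK _ h1) (wK _ h2) (B.KL _ _ h1 hl0).symm
          (B.KL _ _ h2 hl0).symm (B.KK _ _ h1 h2 h3)
        exact B.qL _ hl0 (cl _ _ _ _ e1 e2 g1 g2 fun e => B.Lq (e ▸ hl0))
      · obtain ⟨x1, e1, g1⟩ := tr q a0 b0 wq ha0 hb0 qa qb ab
        obtain ⟨x2, e2, g2⟩ := tr a0 q b0 ha0 wq hb0 qa.symm ab qb
        obtain ⟨x3, e3, g3⟩ := tr b0 q a0 hb0 wq ha0 qb.symm ab.symm qa
        have n12 : x1.1 ≠ x2.1 := fun e => qa.ne (f.injective (by rw [e1, e2, Subtype.ext e]))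
        have n13 : x1.1 ≠ x3.1 := fun e => qb.ne (f.injective (by rw [e1, e3, Subtype.ext e]))
        have n23 : x2.1 ≠ x3.1 := fun e => ab.ne (f.injective (by rw [e2, e3, Subtype.ext e]))
        have kk : ∀ k k', K k → K k' → k = k' := fun k k' h h' => by
          by_contra e
          exact hKK ⟨k, k', h, h', e⟩
        rcases g1 with g1 | g1 <;> rcases g2 with g2 | g2 <;> rcases g3 with g3 | g3
        · exact n12 (kk _ _ g1 g2)
        · exact n12 (kk _ _ g1 g2)
        · exact n13 (kk _ _ g1 g3)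
        · exact n23 (g2.trans g3.symm)
        · exact n23 (kk _ _ g2 g3)
        · exact n13 (g1.trans g3.symm)
        · exact n12 (g1.trans g2.symm)
        · exact n12 (g1.trans g2.symm)
    · exact SX.cnt f hw ld rfl nld ew xl

end Pool.Agent.L0h77.HC
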