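import Pool.Agent.L0h77.HC.Br0
import Pool.Agent.L0h77.HC.One2

/-! Brooms with a universal vertex, `K` a single vertex, `D` a clique. -/

namespace Pool.Agent.L0h77.HC

open Pool.Agent.H22.CT SimpleGraph Function

variable {m : ℕ} {H : SimpleGraph (Fin m)}

theorem hardO {D K L : Fin m → Prop} {w q d0 d1 k0 l0 l1 : Fin m}
    (B : Br H (fun v => v = w) q D K L) (hd0 : D d0) (hd1 : D d1) (d01 : H.Adj d0 d1)
    (hD : ∀ d, D d → d = d0 ∨ d = d1) (hk0 : K k0) (hK : ∀ k, K k → k = k0) (hl0 : L l0)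
    (hl1 : L l1) (l01 : l0 ≠ l1) : W2Hard (Con₁ H) := by
  have hw := B.pu w rfl
  have wq : q ≠ w := fun e => B.Pq e
  have wD : ∀ d, D d → d ≠ w := fun d h e => B.PD e h
  have wK : ∀ d, K d → d ≠ w := fun d h e => B.PK e h
  have wL : ∀ d, L d → d ≠ w := fun d h e => B.PL e h
  have ld : l0 ≠ d0 := fun e => B.nDL hd0 (e ▸ hl0)
  have nld : ¬ H.Adj d0 l0 := B.DL _ _ hd0 hl0
  refine SX.hard (u := d0) (T := fun v => v = l0) (ξ := True) fun inc => ⟨fun f => ?_⟩
  have ss : ∀ v v' s s', f v = .sel s → f v' = .sel s' → v ≠ v' → H.Adj v v' :=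
    fun v v' s s' h1 h2 h3 => (adj f h1 h2).1 ⟨fun e => h3 (f.injective (by rw [h1, h2, e])), trivial⟩
  rcases ew : f w with _ | s | ⟨x, i⟩
  · -- the root
    have nr : ∀ v, v ≠ w → f v ≠ .root := fun v h e => h (f.injective (e.trans ew.symm))
    have ty : ∀ v x i, v ≠ w → f v = .cp x i → x.1 = w ∨ x.1 = q ∨ x.1 = d1 ∨ x.1 = l0 :=
      fun v x i h e => by
        rcases (adj f ew e).2 (hw v h) with h' | h'
        · change H.Adj d0 x at h'
          rcases B.cls x with h1 | h1 | h1 | h1 | h1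
          · exact Or.inl h1
          · exact Or.inr (Or.inr (Or.inl ((hD _ h1).resolve_left x.2)))
          · exact Or.inr (Or.inl h1)
          · exact absurd h' (B.DK _ _ hd0 h1)
          · exact absurd h' (B.DL _ _ hd0 h1)
        · exact Or.inr (Or.inr (Or.inr h'))
    have sn : ∀ v s, v ≠ w → f v = .sel s → ∀ v', v' ≠ w → H.Adj v v' →
        (∃ s', f v' = .sel s') ∨ ∃ a i, f v' = .cp a i ∧ a.1 = l0 := fun v s h hv v' h' hvv => by
      rcases ev : f v' with _ | s' | ⟨a, i⟩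
      · exact absurd ev (nr v' h')
      · exact Or.inl ⟨s', rfl⟩
      · have := (adj f hv ev).2 hvv
        simp only [TG.dad, MT, false_and, or_false] at this
        exact Or.inr ⟨a, i, rfl, this.1⟩
    -- neighbours of the copies of `l0`
    have ln : ∀ v x i, f v = .cp x i → x.1 = l0 → ∀ v', v' ≠ w → H.Adj v v' →
        (∃ s, f v' = .sel s) ∨ ∃ y, f v' = .cp y i ∧ y.1 = w := fun v x i h1 h2 v' h3 h4 => by
      rcases ev : f v' with _ | s' | ⟨a, j⟩
      · exact absurd ev (nr v' h3)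
      · exact Or.inl ⟨s', rfl⟩
      · have := (adj f h1 ev).2 h4
        simp only [TG.dad, MT, and_false, or_false] at this
        obtain ⟨rfl, -, h⟩ := this
        refine Or.inr ⟨a, rfl, ?_⟩
        rw [h2] at h
        rcases ty v' a i h3 ev with h' | h' | h' | h'
        · exact h'
        · rw [h'] at h; exact absurd h.symm (B.qL _ hl0)
        · rw [h'] at h; exact absurd h.symm (B.DL _ _ hd1 hl0)
        · rw [h'] at h; exact absurd h H.irrefl
    have lnn : ∀ v v' x x' i i', f v = .cp x i → x.1 = l0 → f v' = .cp x' i' → x'.1 = l0 →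
        ¬ H.Adj v v' := fun v v' x x' i i' h1 h2 h3 h4 h => by
      have := (adj f h1 h3).2 h
      simp only [TG.dad, MT, and_false, or_false] at this
      exact this.2.1 (Subtype.ext (h2.trans h4.symm))
    have tri : ∀ p : Fin m, p = q ∨ p = l0 ∨ p = l1 → H.Adj k0 p ∧ p ≠ w := fun p hp => by
      rcases hp with rfl | rfl | rfl
      · exact ⟨(B.qK _ hk0).symm, wq⟩
      · exact ⟨B.KL _ _ hk0 hl0, wL _ hl0⟩
      · exact ⟨B.KL _ _ hk0 hl1, wL _ hl1⟩
    have ind : ∀ p p' : Fin m, p = q ∨ p = l0 ∨ p = l1 → p' = q ∨ p' = l0 ∨ p' = l1 →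
        ¬ H.Adj p p' := fun p p' hp hp' => by
      rcases hp with rfl | rfl | rfl <;> rcases hp' with rfl | rfl | rfl
      · exact H.irrefl
      · exact B.qL _ hl0
      · exact B.qL _ hl1
      · exact fun h => B.qL _ hl0 h.symm
      · exact H.irrefl
      · exact B.LL _ _ hl0 hl1
      · exact fun h => B.qL _ hl1 h.symm
      · exact B.LL _ _ hl1 hl0
      · exact H.irrefl
    have nql : ∀ l, L l → q ≠ l := fun l h e => B.Lq (e ▸ h)
    -- two classes are not enough
    have two : ∀ Q1 Q2 : Fin m → Prop, (∀ p, (p = q ∨ p = l0 ∨ p = l1) → Q1 p ∨ Q2 p) →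
        (∀ p p', Q1 p → Q1 p' → p ≠ p' → H.Adj p p') → (∀ p p', Q2 p → Q2 p' → p ≠ p' → H.Adj p p') →
        False := fun Q1 Q2 h1 h2 h3 => by
      have e1 := nql _ hl0
      have e2 := nql _ hl1
      rcases h1 q (by simp) with a | a <;> rcases h1 l0 (by simp) with b | b <;>
        rcases h1 l1 (by simp) with c | c
      · exact ind q l0 (by simp) (by simp) (h2 _ _ a b e1)
      · exact ind q l0 (by simp) (by simp) (h2 _ _ a b e1)
      · exact ind q l1 (by simp) (by simp) (h2 _ _ a c e2)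
      · exact ind l0 l1 (by simp) (by simp) (h3 _ _ b c l01)
      · exact ind l0 l1 (by simp) (by simp) (h2 _ _ b c l01)
      · exact ind q l1 (by simp) (by simp) (h3 _ _ a c e2)
      · exact ind q l0 (by simp) (by simp) (h3 _ _ a b e1)
      · exact ind q l0 (by simp) (by simp) (h3 _ _ a b e1)
    rcases ek : f k0 with _ | s | ⟨y, i⟩
    · exact nr k0 (wK _ hk0) ek
    · -- `k0` goes to a selector
      have nd : ∀ d, D d → ∀ s', f d ≠ .sel s' := fun d hd s' e =>
        B.DK _ _ hd hk0 (ss _ _ _ _ e ek fun e' => B.nDK hd (e' ▸ hk0))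
      rcases sn k0 s (wK _ hk0) ek q wq (B.qK _ hk0).symm with ⟨s', hs'⟩ | ⟨a, i, ha, ha'⟩
      · rcases sn q s' wq hs' d0 (wD _ hd0) (B.qD _ hd0) with ⟨s1, h1⟩ | ⟨a, i, h1, h1'⟩
        · exact nd _ hd0 _ h1
        rcases sn q s' wq hs' d1 (wD _ hd1) (B.qD _ hd1) with ⟨s1, h2⟩ | ⟨b, j, h2, h2'⟩
        · exact nd _ hd1 _ h2
        · exact lnn _ _ _ _ _ _ h1 h1' h2 h2' d01
      · rcases ln q a i ha ha' d0 (wD _ hd0) (B.qD _ hd0) with ⟨s1, h1⟩ | ⟨z, h1, h1'⟩
        · exact nd _ hd0 _ h1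
        rcases ln q a i ha ha' d1 (wD _ hd1) (B.qD _ hd1) with ⟨s1, h2⟩ | ⟨z', h2, h2'⟩
        · exact nd _ hd1 _ h2
        · exact d01.ne (f.injective (by rw [h1, h2, Subtype.ext (h1'.trans h2'.symm)]))
    · have inj : ∀ v v' x x' j, f v = .cp x j → f v' = .cp x' j → x.1 = x'.1 → v = v' :=
        fun v v' x x' j h1 h2 h3 => f.injective (by rw [h1, h2, Subtype.ext h3])
      have cpy : y.1 ≠ l0 → ∀ p, (p = q ∨ p = l0 ∨ p = l1) → ∃ x, f p = .cp x i ∧ H.Adj y x :=
        fun hy p hp => by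
          rcases ev : f p with _ | s' | ⟨a, j⟩
          · exact absurd ev (nr p (tri p hp).2)
          · have := (adj f ek ev).2 (tri p hp).1
            simp only [TG.dad, MT, false_and, or_false] at this
            exact absurd this.1 hy
          · have := (adj f ek ev).2 (tri p hp).1
            simp only [TG.dad, MT, and_false, or_false] at this
            obtain ⟨rfl, -, h⟩ := this
            exact ⟨a, rfl, h⟩
      have wqd : ∀ v v' x x' j, f v = .cp x j → f v' = .cp x' j → (x.1 = w ∨ x.1 = q ∨ x.1 = d1) →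
          (x'.1 = w ∨ x'.1 = q ∨ x'.1 = d1) → v ≠ v' → H.Adj v v' :=
        fun v v' x x' j h1 h2 h3 h4 h5 => by
          have hne : x.1 ≠ x'.1 := fun e => h5 (inj _ _ _ _ _ h1 h2 e)
          refine (adj f h1 h2).1 (Or.inl ⟨rfl, fun e => hne (by rw [e]), ?_⟩)
          show H.Adj x.1 x'.1
          rcases h3 with h3 | h3 | h3 <;> rcases h4 with h4 | h4 | h4 <;> rw [h3, h4] at hne ⊢
          · exact absurd rfl hne
          · exact hw _ wq
          · exact hw _ (wD _ hd1)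
          · exact (hw _ wq).symm
          · exact absurd rfl hne
          · exact B.qD _ hd1
          · exact (hw _ (wD _ hd1)).symm
          · exact (B.qD _ hd1).symm
          · exact absurd rfl hne
      by_cases yl : y.1 = l0
      · refine two (fun p => ∃ s, f p = .sel s) (fun p => ∃ z, f p = .cp z i ∧ z.1 = w)
          (fun p hp => ln k0 y i ek yl p (tri p hp).2 (tri p hp).1) (fun p p' ⟨s, h⟩ ⟨s', h'⟩ hn =>
            ss _ _ _ _ h h' hn) fun p p' ⟨z, h1, h2⟩ ⟨z', h3, h4⟩ hn => ?_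
        exact absurd (inj _ _ _ _ _ h1 h3 (h2.trans h4.symm)) hn
      · have c := cpy yl
        refine two (fun p => ∃ z, f p = .cp z i ∧ (z.1 = w ∨ z.1 = q ∨ z.1 = d1))
          (fun p => ∃ z, f p = .cp z i ∧ z.1 = l0) (fun p hp => ?_)
          (fun p p' ⟨z, h1, h2⟩ ⟨z', h3, h4⟩ hn => wqd _ _ _ _ _ h1 h3 h2 h4 hn)
          fun p p' ⟨z, h1, h2⟩ ⟨z', h3, h4⟩ hn => absurd (inj _ _ _ _ _ h1 h3 (h2.trans h4.symm)) hn
        obtain ⟨z, h1, -⟩ := c p hp
        rcases ty p z i (tri p hp).2 h1 with h | h | h | h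
        · exact Or.inl ⟨z, h1, Or.inl h⟩
        · exact Or.inl ⟨z, h1, Or.inr (Or.inl h)⟩
        · exact Or.inl ⟨z, h1, Or.inr (Or.inr h)⟩
        · exact Or.inr ⟨z, h1, h⟩
  · -- a selector
    have ty : ∀ v, v ≠ w → f v = .root ∨ (∃ s, f v = .sel s) ∨ ∃ x i, f v = .cp x i ∧ x.1 = l0 :=
      fun v h => by
        rcases ev : f v with _ | s' | ⟨a, i⟩
        · exact Or.inl rfl
        · exact Or.inr (Or.inl ⟨s', rfl⟩)
        · have := (adj f ew ev).2 (hw v h)
          simp only [TG.dad, MT, false_and, or_false] at this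
          exact Or.inr (Or.inr ⟨a, i, rfl, this.1⟩)
    have nr : ∀ v v', v ≠ w → v' ≠ w → v ≠ v' → ¬ H.Adj v v' → f v ≠ .root :=
      fun v v' h1 h2 h3 h4 h => by
        rcases ty v' h2 with h5 | ⟨s', h5⟩ | ⟨x, i, h5, h6⟩
        · exact h3 (f.injective (h.trans h5.symm))
        · exact h4 ((adj f h h5).1 trivial)
        · exact h4 ((adj f h h5).1 (Or.inr h6))
    have cc : ∀ v v' x i x' i', f v = .cp x i → x.1 = l0 → f v' = .cp x' i' → x'.1 = l0 →
        ¬ H.Adj v v' := fun v v' x i x' i' h1 h2 h3 h4 h => by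
      have := (adj f h1 h3).2 h
      simp only [TG.dad, MT, and_false, or_false] at this
      exact this.2.1 (Subtype.ext (h2.trans h4.symm))
    have ed : ∀ v v', v ≠ w → v' ≠ w → f v ≠ .root → f v' ≠ .root → H.Adj v v' →
        (∃ s, f v = .sel s) ∨ ∃ s, f v' = .sel s := fun v v' h1 h2 h3 h4 h5 => by
      rcases ty v h1 with h | h | ⟨x, i, h6, h7⟩
      · exact absurd h h3
      · exact Or.inl h
      rcases ty v' h2 with h | h | ⟨x', i', h8, h9⟩
      · exact absurd h h4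
      · exact Or.inr h
      · exact absurd h5 (cc _ _ _ _ _ _ h6 h7 h8 h9)
    have dk : ∀ d, D d → d ≠ k0 := fun d h e => B.nDK h (e ▸ hk0)
    have dl : ∀ d, D d → d ≠ l0 := fun d h e => B.nDL h (e ▸ hl0)
    obtain ⟨d, hd, s1, hs1⟩ : ∃ d, D d ∧ ∃ s, f d = .sel s := by
      rcases ed d0 d1 (wD _ hd0) (wD _ hd1)
        (nr _ k0 (wD _ hd0) (wK _ hk0) (dk _ hd0) (B.DK _ _ hd0 hk0))
        (nr _ k0 (wD _ hd1) (wK _ hk0) (dk _ hd1) (B.DK _ _ hd1 hk0)) d01 with h | h
      · exact ⟨d0, hd0, h⟩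
      · exact ⟨d1, hd1, h⟩
    rcases ed k0 l0 (wK _ hk0) (wL _ hl0)
      (nr _ d0 (wK _ hk0) (wD _ hd0) (dk _ hd0).symm fun h => B.DK _ _ hd0 hk0 h.symm)
      (nr _ d0 (wL _ hl0) (wD _ hd0) (dl _ hd0).symm fun h => B.DL _ _ hd0 hl0 h.symm)
      (B.KL _ _ hk0 hl0) with ⟨s2, hs2⟩ | ⟨s2, hs2⟩
    · exact B.DK _ _ hd hk0 (ss _ _ _ _ hs1 hs2 (dk _ hd))
    · exact B.DL _ _ hd hl0 (ss _ _ _ _ hs1 hs2 (dl _ hd))
  · by_cases xl : x.1 = l0
    · have ty : ∀ v, v ≠ w → (f v = .root ∨ ∃ s, f v = .sel s) ∨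
          ∃ x, f v = .cp x i ∧ (x.1 = k0 ∨ x.1 = w) := fun v h => by
        rcases ev : f v with _ | s' | ⟨a, j⟩
        · exact Or.inl (Or.inl rfl)
        · exact Or.inl (Or.inr ⟨s', rfl⟩)
        · have := (adj f ew ev).2 (hw v h)
          simp only [TG.dad, MT, and_false, or_false] at this
          obtain ⟨rfl, -, h⟩ := this
          rw [xl] at h
          refine Or.inr ⟨a, rfl, ?_⟩
          rcases B.cls a with h' | h' | h' | h' | h'
          · exact Or.inr h'
          · exact absurd h.symm (B.DL _ _ h' hl0)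
          · exact absurd (h' ▸ h.symm) (B.qL _ hl0)
          · exact Or.inl (hK _ h')
          · exact absurd h (B.LL _ _ hl0 h')
      have c1 : ∀ v v', (f v = .root ∨ ∃ s, f v = .sel s) → (f v' = .root ∨ ∃ s, f v' = .sel s) →
          v ≠ v' → H.Adj v v' := fun v v' h1 h2 h3 => by
        rcases h1 with h1 | ⟨s, h1⟩ <;> rcases h2 with h2 | ⟨s', h2⟩
        · exact absurd (f.injective (h1.trans h2.symm)) h3
        · exact (adj f h1 h2).1 trivial
        · exact (adj f h1 h2).1 trivial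
        · exact ss _ _ _ _ h1 h2 h3
      have c2 : ∀ v v', (∃ x, f v = .cp x i ∧ (x.1 = k0 ∨ x.1 = w)) →
          (∃ x, f v' = .cp x i ∧ (x.1 = k0 ∨ x.1 = w)) → v ≠ v' → H.Adj v v' :=
        fun v v' ⟨x, h1, h2⟩ ⟨x', h3, h4⟩ h5 => by
          have hne : x.1 ≠ x'.1 := fun e => h5 (f.injective (by rw [h1, h3, Subtype.ext e]))
          refine (adj f h1 h3).1 (Or.inl ⟨rfl, fun e => hne (by rw [e]), ?_⟩)
          show H.Adj x.1 x'.1
          rcases h2 with h2 | h2 <;> rcases h4 with h4 | h4 <;> rw [h2, h4] at hne ⊢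
          · exact absurd rfl hne
          · exact (hw _ (wK _ hk0)).symm
          · exact hw _ (wK _ hk0)
          · exact absurd rfl hne
      have n1 : d0 ≠ l0 := ld.symm
      have n2 : d0 ≠ l1 := fun e => B.nDL hd0 (e ▸ hl1)
      have a1 := B.DL _ _ hd0 hl0
      have a2 := B.DL _ _ hd0 hl1
      have a3 := B.LL _ _ hl0 hl1
      rcases ty d0 (wD _ hd0) with h1 | h1 <;> rcases ty l0 (wL _ hl0) with h2 | h2 <;>
        rcases ty l1 (wL _ hl1) with h3 | h3
      · exact a1 (c1 _ _ h1 h2 n1)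
      · exact a1 (c1 _ _ h1 h2 n1)
      · exact a2 (c1 _ _ h1 h3 n2)
      · exact a3 (c2 _ _ h2 h3 l01)
      · exact a3 (c1 _ _ h2 h3 l01)
      · exact a2 (c2 _ _ h1 h3 n2)
      · exact a1 (c2 _ _ h1 h2 n1)
      · exact a1 (c2 _ _ h1 h2 n1)
    · exact SX.cnt f hw ld rfl nld ew xl

theorem hardP {D K L : Fin m → Prop} {w q d0 d1 d2 k0 : Fin m}
    (B : Br H (fun v => v = w) q D K L) (hd0 : D d0) (hd1 : D d1) (hd2 : D d2) (n01 : d0 ≠ d1)
    (n02 : d0 ≠ d2) (n12 : d1 ≠ d2) (DD : ∀ d d', D d → D d' → d ≠ d' → H.Adj d d')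
    (hk0 : K k0) (hK : ∀ k, K k → k = k0) : W2Hard (Con₁ H) := by
  have hw := B.pu w rfl
  have wq : q ≠ w := fun e => B.Pq e
  have wD : ∀ d, D d → d ≠ w := fun d h e => B.PD e h
  have wK : ∀ d, K d → d ≠ w := fun d h e => B.PK e h
  have wL : ∀ d, L d → d ≠ w := fun d h e => B.PL e h
  have kd : k0 ≠ d0 := fun e => B.nDK hd0 (e ▸ hk0)
  have nkd : ¬ H.Adj d0 k0 := B.DK _ _ hd0 hk0
  -- cliques
  let C4 : Fin m → Prop := fun v => ∃ a b c, a ≠ w ∧ b ≠ w ∧ c ≠ w ∧ H.Adj v a ∧ H.Adj v b ∧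
    H.Adj v c ∧ H.Adj a b ∧ H.Adj a c ∧ H.Adj b c
  have q4 : C4 q := ⟨d0, d1, d2, wD _ hd0, wD _ hd1, wD _ hd2, B.qD _ hd0, B.qD _ hd1, B.qD _ hd2,
    DD _ _ hd0 hd1 n01, DD _ _ hd0 hd2 n02, DD _ _ hd1 hd2 n12⟩
  have d4 : ∀ d, D d → C4 d := fun d hd => by
    have : ∀ a b, D a → D b → d ≠ a → d ≠ b → a ≠ b → C4 d := fun a b ha hb h1 h2 h3 =>
      ⟨q, a, b, wq, wD _ ha, wD _ hb, (B.qD _ hd).symm, DD _ _ hd ha h1, DD _ _ hd hb h2,
        B.qD _ ha, B.qD _ hb, DD _ _ ha hb h3⟩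
    by_cases e0 : d = d0
    · exact this d1 d2 hd1 hd2 (e0 ▸ n01) (e0 ▸ n02) n12
    by_cases e1 : d = d1
    · exact this d0 d2 hd0 hd2 e0 (e1 ▸ n12) n02
    · exact this d0 d1 hd0 hd1 e0 e1 n01
  refine SX.hard (u := d0) (T := fun v => v = k0) (ξ := False) fun inc => ⟨fun f => ?_⟩
  have inj : ∀ v v' x x' j, f v = .cp x j → f v' = .cp x' j → x.1 = x'.1 → v = v' :=
    fun v v' x x' j h1 h2 h3 => f.injective (by rw [h1, h2, Subtype.ext h3])
  have kk : ∀ v v' x x' i i', f v = .cp x i → x.1 = k0 → f v' = .cp x' i' → x'.1 = k0 →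
      ¬ H.Adj v v' := fun v v' x x' i i' h1 h2 h3 h4 h => by
    have := (adj f h1 h3).2 h
    simp only [TG.dad, MT, and_false, or_false] at this
    exact this.2.1 (Subtype.ext (h2.trans h4.symm))
  rcases ew : f w with _ | s | ⟨x, i⟩
  · have nr : ∀ v, v ≠ w → f v ≠ .root := fun v h e => h (f.injective (e.trans ew.symm))
    have ty : ∀ v x i, v ≠ w → f v = .cp x i → (x.1 = w ∨ x.1 = q ∨ D x) ∨ x.1 = k0 :=
      fun v x i h e => by
        rcases (adj f ew e).2 (hw v h) with h' | h'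
        · change H.Adj d0 x at h'
          rcases B.cls x with h1 | h1 | h1 | h1 | h1
          · exact Or.inl (Or.inl h1)
          · exact Or.inl (Or.inr (Or.inr h1))
          · exact Or.inl (Or.inr (Or.inl h1))
          · exact absurd h' (B.DK _ _ hd0 h1)
          · exact absurd h' (B.DL _ _ hd0 h1)
        · exact Or.inr h'
    have sn : ∀ v s, v ≠ w → f v = .sel s → ∀ v', v' ≠ w → H.Adj v v' →
        ∃ a i, f v' = .cp a i ∧ a.1 = k0 := fun v s h hv v' h' hvv => by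
      rcases ev : f v' with _ | s' | ⟨a, i⟩
      · exact absurd ev (nr v' h')
      · exact absurd ((adj f hv ev).2 hvv).2 id
      · have := (adj f hv ev).2 hvv
        simp only [TG.dad, MT, false_and, or_false] at this
        exact ⟨a, i, rfl, this.1⟩
    have kn : ∀ v x i, v ≠ w → f v = .cp x i → x.1 = k0 → ∀ v', v' ≠ w → H.Adj v v' →
        (∃ s, f v' = .sel s) ∨ ∃ y, f v' = .cp y i ∧ (y.1 = w ∨ y.1 = q) :=
      fun v x i h0 h1 h2 v' h3 h4 => by
        rcases ev : f v' with _ | s' | ⟨a, j⟩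
        · exact absurd ev (nr v' h3)
        · exact Or.inl ⟨s', rfl⟩
        · have := (adj f h1 ev).2 h4
          simp only [TG.dad, MT, and_false, or_false] at this
          obtain ⟨rfl, -, h⟩ := this
          refine Or.inr ⟨a, rfl, ?_⟩
          change H.Adj x.1 a.1 at h
          rw [h2] at h
          rcases ty v' a i h3 ev with (h' | h' | h') | h'
          · exact Or.inl h'
          · exact Or.inr h'
          · exact absurd h.symm (B.DK _ _ h' hk0)
          · exact absurd (h' ▸ h) H.irrefl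
    -- vertices in a 4-clique
    have c4 : ∀ v, v ≠ w → C4 v → ∃ x i, f v = .cp x i ∧ (x.1 = w ∨ x.1 = q ∨ D x) :=
      fun v hv ⟨a, b, c, ha, hb, hc, va, vb, vc, ab, ac, bc⟩ => by
        rcases ev : f v with _ | s | ⟨x, i⟩
        · exact absurd ev (nr v hv)
        · obtain ⟨x, i, e1, e2⟩ := sn v s hv ev a ha va
          obtain ⟨x', i', e3, e4⟩ := sn v s hv ev b hb vb
          exact absurd ab (kk _ _ _ _ _ _ e1 e2 e3 e4)
        · refine ⟨x, i, rfl, (ty v x i hv ev).resolve_right fun e => ?_⟩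
          have ns : ∀ p p', p ≠ w → p' ≠ w → H.Adj v p → H.Adj v p' → H.Adj p p' →
              ∃ y, f p = .cp y i ∧ (y.1 = w ∨ y.1 = q) := fun p p' hp hp' h1 h2 h3 => by
            rcases kn v x i hv ev e p hp h1 with ⟨s, hs⟩ | h
            · obtain ⟨z, j, g1, g2⟩ := sn p s hp hs p' hp' h3
              exact absurd h2 (kk _ _ _ _ _ _ ev e g1 g2)
            · exact h
          obtain ⟨y1, e1, g1⟩ := ns a b ha hb va vb ab
          obtain ⟨y2, e2, g2⟩ := ns b a hb ha vb va ab.symm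
          obtain ⟨y3, e3, g3⟩ := ns c a hc ha vc va ac.symm
          rcases g1 with g1 | g1 <;> rcases g2 with g2 | g2 <;> rcases g3 with g3 | g3
          · exact ab.ne (inj _ _ _ _ _ e1 e2 (g1.trans g2.symm))
          · exact ab.ne (inj _ _ _ _ _ e1 e2 (g1.trans g2.symm))
          · exact ac.ne (inj _ _ _ _ _ e1 e3 (g1.trans g3.symm))
          · exact bc.ne (inj _ _ _ _ _ e2 e3 (g2.trans g3.symm))
          · exact bc.ne (inj _ _ _ _ _ e2 e3 (g2.trans g3.symm))
          · exact ac.ne (inj _ _ _ _ _ e1 e3 (g1.trans g3.symm))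
          · exact ab.ne (inj _ _ _ _ _ e1 e2 (g1.trans g2.symm))
          · exact ab.ne (inj _ _ _ _ _ e1 e2 (g1.trans g2.symm))
    obtain ⟨y, i, ey, hy⟩ := c4 q wq q4
    have yk : y.1 ≠ k0 := fun e => by
      rcases hy with h | h | h
      · exact wK _ hk0 (e.symm.trans h)
      · exact B.Kq (h ▸ e ▸ hk0)
      · exact B.nDK h (e ▸ hk0)
    have dcl : ∀ d, D d → ∃ x, f d = .cp x i ∧ (x.1 = w ∨ x.1 = q ∨ D x) := fun d hd => by
      obtain ⟨x, j, h1, h2⟩ := c4 d (wD _ hd) (d4 d hd)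
      have := (adj f ey h1).2 (B.qD _ hd)
      simp only [TG.dad, MT, and_false, or_false] at this
      rw [← this.1] at h1
      exact ⟨x, h1, h2⟩
    have blk : ∀ v v' x x' j, f v = .cp x j → f v' = .cp x' j → (x.1 = w ∨ x.1 = q ∨ D x) →
        (x'.1 = w ∨ x'.1 = q ∨ D x') → v ≠ v' → H.Adj v v' := fun v v' x x' j h1 h2 h3 h4 h5 => by
      have hne : x.1 ≠ x'.1 := fun e => h5 (inj _ _ _ _ _ h1 h2 e)
      refine (adj f h1 h2).1 (Or.inl ⟨rfl, fun e => hne (by rw [e]), ?_⟩)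
      show H.Adj x.1 x'.1
      rcases h3 with h3 | h3 | h3
      · rw [h3] at hne ⊢; exact hw _ hne.symm
      · rcases h4 with h4 | h4 | h4
        · rw [h4] at hne ⊢; exact (hw _ hne).symm
        · exact absurd (h3.trans h4.symm) hne
        · rw [h3]; exact B.qD _ h4
      · rcases h4 with h4 | h4 | h4
        · rw [h4] at hne ⊢; exact (hw _ hne).symm
        · rw [h4]; exact (B.qD _ h3).symm
        · exact DD _ _ h3 h4 hne
    obtain ⟨z, ez, hz⟩ : ∃ z, f k0 = .cp z i ∧ z.1 = k0 := by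
      rcases ev : f k0 with _ | s' | ⟨a, j⟩
      · exact absurd ev (nr k0 (wK _ hk0))
      · have := (adj f ey ev).2 (B.qK _ hk0)
        simp only [TG.dad, MT, false_and, or_false] at this
        exact absurd this.1 yk
      · have := (adj f ey ev).2 (B.qK _ hk0)
        simp only [TG.dad, MT, and_false, or_false] at this
        obtain ⟨rfl, -, h⟩ := this
        refine ⟨a, rfl, (ty k0 a i (wK _ hk0) ev).resolve_left fun h' => ?_⟩
        obtain ⟨x, h1, h2⟩ := dcl d0 hd0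
        exact B.DK _ _ hd0 hk0 (blk _ _ _ _ _ h1 ev h2 h' kd.symm)
    have : ∀ d, ∃ a : Fin m, D d → ∃ h : a ≠ d0, f d = .cp ⟨a, h⟩ i ∧ D a := fun d => by
      by_cases hd : D d
      · obtain ⟨x, h1, h2⟩ := dcl d hd
        refine ⟨x, fun _ => ⟨x.2, h1, ?_⟩⟩
        have key : x.1 ≠ z.1 → H.Adj x.1 z.1 → False := fun hne h =>
          B.DK _ _ hd hk0 ((adj f h1 ez).1 (Or.inl ⟨rfl, fun e => hne (by rw [e]), h⟩))
        rw [hz] at key
        rcases h2 with h2 | h2 | h2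
        · rw [h2] at key
          exact (key (wK _ hk0).symm (hw _ (wK _ hk0))).elim
        · rw [h2] at key
          exact (key (fun e => B.Kq (e ▸ hk0)) (B.qK _ hk0)).elim
        · exact h2
      · exact ⟨d, fun h => absurd h hd⟩
    choose g hg using this
    exact noinj hd0 g (fun v hv => ⟨(hg v hv).choose_spec.2, (hg v hv).choose⟩)
      fun a b ha hb h => by
        obtain ⟨h1, h2, h3⟩ := hg a ha
        obtain ⟨h4, h5, h6⟩ := hg b hb
        exact inj _ _ _ _ _ h2 h5 h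
  · have ty : ∀ v, v ≠ w → f v = .root ∨ ∃ x i, f v = .cp x i ∧ x.1 = k0 := fun v h => by
      rcases ev : f v with _ | s' | ⟨a, i⟩
      · exact Or.inl rfl
      · exact absurd ((adj f ew ev).2 (hw v h)).2 id
      · have := (adj f ew ev).2 (hw v h)
        simp only [TG.dad, MT, false_and, or_false] at this
        exact Or.inr ⟨a, i, rfl, this.1⟩
    have h01 := DD _ _ hd0 hd1 n01
    have h02 := DD _ _ hd0 hd2 n02
    have h12 := DD _ _ hd1 hd2 n12
    rcases ty d0 (wD _ hd0) with h1 | ⟨x, i, h1, h1'⟩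
    · rcases ty d1 (wD _ hd1) with h2 | ⟨x, i, h2, h2'⟩
      · exact n01 (f.injective (h1.trans h2.symm))
      rcases ty d2 (wD _ hd2) with h3 | ⟨x', i', h3, h3'⟩
      · exact n02 (f.injective (h1.trans h3.symm))
      · exact kk _ _ _ _ _ _ h2 h2' h3 h3' h12
    · rcases ty d1 (wD _ hd1) with h2 | ⟨x', i', h2, h2'⟩
      · rcases ty d2 (wD _ hd2) with h3 | ⟨x'', i'', h3, h3'⟩
        · exact n12 (f.injective (h2.trans h3.symm))
        · exact kk _ _ _ _ _ _ h1 h1' h3 h3' h02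
      · exact kk _ _ _ _ _ _ h1 h1' h2 h2' h01
  · by_cases xl : x.1 = k0
    · have ty : ∀ v, v ≠ w → (f v = .root ∨ ∃ s, f v = .sel s) ∨
          ∃ x, f v = .cp x i ∧ ((x.1 = w ∨ x.1 = q) ∨ L x) := fun v h => by
        rcases ev : f v with _ | s' | ⟨a, j⟩
        · exact Or.inl (Or.inl rfl)
        · exact Or.inl (Or.inr ⟨s', rfl⟩)
        · have := (adj f ew ev).2 (hw v h)
          simp only [TG.dad, MT, and_false, or_false] at this
          obtain ⟨rfl, -, h⟩ := this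
          change H.Adj x.1 a.1 at h
          rw [xl] at h
          refine Or.inr ⟨a, rfl, ?_⟩
          rcases B.cls a with h' | h' | h' | h' | h'
          · exact Or.inl (Or.inl h')
          · exact absurd h.symm (B.DK _ _ h' hk0)
          · exact Or.inl (Or.inr h')
          · exact absurd (hK _ h' ▸ h) H.irrefl
          · exact Or.inr h'
      have Lk : ∀ x, L x → x ≠ k0 := fun x h e => B.nKL hk0 (e ▸ h)
      have qk : q ≠ k0 := fun e => B.Kq (e ▸ hk0)
      have sr : ∀ v s v', v ≠ w → v' ≠ w → f v = .sel s → H.Adj v v' → f v' = .root :=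
        fun v s v' h1 h2 h3 h4 => by
          rcases ty v' h2 with (h | ⟨s', h⟩) | ⟨z, h, hz⟩
          · exact h
          · exact absurd ((adj f h3 h).2 h4).2 id
          · have := (adj f h3 h).2 h4
            simp only [TG.dad, MT, false_and, or_false] at this
            rcases hz with (hz | hz) | hz
            · exact absurd (hz.symm.trans this.1) (wK _ hk0).symm
            · exact absurd (hz.symm.trans this.1) qk
            · exact absurd this.1 (Lk _ hz)
      have lw : ∀ v x v', v ≠ w → v' ≠ w → f v = .cp x i → L x → H.Adj v v' →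
          ∃ y, f v' = .cp y i ∧ y.1 = w := fun v x v' h1 h2 h3 h5 h4 => by
        rcases ty v' h2 with (h | ⟨s', h⟩) | ⟨z, h, hz⟩
        · rcases (adj f h3 h).2 h4 with h' | h'
          · exact absurd h' (B.DL _ _ hd0 h5)
          · exact absurd h' (Lk _ h5)
        · have := (adj f h3 h).2 h4
          simp only [TG.dad, MT, false_and, or_false] at this
          exact absurd this.1 (Lk _ h5)
        · have := (adj f h3 h).2 h4
          simp only [TG.dad, MT, and_false, or_false] at this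
          have h7 : H.Adj x.1 z.1 := this.2.2
          rcases hz with (hz | hz) | hz
          · exact ⟨z, h, hz⟩
          · exact absurd (hz ▸ h7).symm (B.qL _ h5)
          · exact absurd h7 (B.LL _ _ h5 hz)
      have c4 : ∀ v, v ≠ w → C4 v → f v = .root ∨ ∃ x, f v = .cp x i ∧ (x.1 = w ∨ x.1 = q) :=
        fun v hv ⟨a, b, c, ha, hb, hc, va, vb, vc, ab, ac, bc⟩ => by
          rcases ty v hv with (h | ⟨s', h⟩) | ⟨z, h, hz | hz⟩
          · exact Or.inl h
          · exact absurd (f.injective ((sr v s' a hv ha h va).trans (sr v s' b hv hb h vb).symm)) ab.ne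
          · exact Or.inr ⟨z, h, hz⟩
          · obtain ⟨y, e1, e2⟩ := lw v z a hv ha h hz va
            obtain ⟨y', e3, e4⟩ := lw v z b hv hb h hz vb
            exact absurd (inj _ _ _ _ _ e1 e3 (e2.trans e4.symm)) ab.ne
      have cls : ∀ v, v ≠ w → C4 v → f v = .root ∨ (∃ x, f v = .cp x i ∧ x.1 = w) ∨
          ∃ x, f v = .cp x i ∧ x.1 = q := fun v h h' => by
        rcases c4 v h h' with h1 | ⟨x, h1, h2 | h2⟩
        · exact Or.inl h1
        · exact Or.inr (Or.inl ⟨x, h1, h2⟩)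
        · exact Or.inr (Or.inr ⟨x, h1, h2⟩)
      -- a value in `Fin 3`
      have col : ∀ v, v ≠ w → C4 v → ∃ c : Fin 3, (c = 0 ∧ f v = .root) ∨
          (c = 1 ∧ ∃ x, f v = .cp x i ∧ x.1 = w) ∨ (c = 2 ∧ ∃ x, f v = .cp x i ∧ x.1 = q) :=
        fun v h h' => by
          rcases cls v h h' with h1 | h1 | h1
          · exact ⟨0, Or.inl ⟨rfl, h1⟩⟩
          · exact ⟨1, Or.inr (Or.inl ⟨rfl, h1⟩)⟩
          · exact ⟨2, Or.inr (Or.inr ⟨rfl, h1⟩)⟩
      have same : ∀ v v' (c : Fin 3), ((c = 0 ∧ f v = .root) ∨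
          (c = 1 ∧ ∃ x, f v = .cp x i ∧ x.1 = w) ∨ (c = 2 ∧ ∃ x, f v = .cp x i ∧ x.1 = q)) →
          ((c = 0 ∧ f v' = .root) ∨
          (c = 1 ∧ ∃ x, f v' = .cp x i ∧ x.1 = w) ∨ (c = 2 ∧ ∃ x, f v' = .cp x i ∧ x.1 = q)) →
          v = v' := fun v v' c h1 h2 => by
        rcases h1 with ⟨e, h1⟩ | ⟨e, x, h1, h1'⟩ | ⟨e, x, h1, h1'⟩ <;>
          rcases h2 with ⟨e', h2⟩ | ⟨e', x', h2, h2'⟩ | ⟨e', x', h2, h2'⟩ <;>
          first
          | exact f.injective (h1.trans h2.symm)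
          | exact inj _ _ _ _ _ h1 h2 (h1'.trans h2'.symm)
          | (rw [e] at e'; exact absurd e' (by decide))
      obtain ⟨c0, g0⟩ := col q wq q4
      obtain ⟨c1, g1⟩ := col d0 (wD _ hd0) (d4 _ hd0)
      obtain ⟨c2, g2⟩ := col d1 (wD _ hd1) (d4 _ hd1)
      obtain ⟨c3, g3⟩ := col d2 (wD _ hd2) (d4 _ hd2)
      have e01 : c0 ≠ c1 := fun e => (B.qD _ hd0).ne (same _ _ _ g0 (e ▸ g1))
      have e02 : c0 ≠ c2 := fun e => (B.qD _ hd1).ne (same _ _ _ g0 (e ▸ g2))
      have e03 : c0 ≠ c3 := fun e => (B.qD _ hd2).ne (same _ _ _ g0 (e ▸ g3))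
      have e12 : c1 ≠ c2 := fun e => n01 (same _ _ _ g1 (e ▸ g2))
      have e13 : c1 ≠ c3 := fun e => n02 (same _ _ _ g1 (e ▸ g3))
      have e23 : c2 ≠ c3 := fun e => n12 (same _ _ _ g2 (e ▸ g3))
      omega
    · exact SX.cnt f hw kd rfl nkd ew xl

end Pool.Agent.L0h77.HC
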