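import Pool.Agent.L0h77.HC.Br0

/-! A triangle with a tail of two edges, and a universal vertex. -/

namespace Pool.Agent.L0h77.HC

open Pool.Agent.H22.CT SimpleGraph Function

variable {m : ℕ} {H : SimpleGraph (Fin m)}

theorem hardQ {D K L : Fin m → Prop} {w q d0 d1 k0 l0 : Fin m}
    (B : Br H (fun v => v = w) q D K L) (hd0 : D d0) (hd1 : D d1) (d01 : H.Adj d0 d1)
    (hD : ∀ d, D d → d = d0 ∨ d = d1) (hk0 : K k0) (hK : ∀ k, K k → k = k0) (hl0 : L l0)
    (hL : ∀ l, L l → l = l0) : W2Hard (Con₁ H) := by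
  have hw := B.pu w rfl
  have wq : q ≠ w := fun e => B.Pq e
  have wd0 : d0 ≠ w := fun e => B.PD e hd0
  have wd1 : d1 ≠ w := fun e => B.PD e hd1
  have wk : k0 ≠ w := fun e => B.PK e hk0
  have wl : l0 ≠ w := fun e => B.PL e hl0
  have dk0 : d0 ≠ k0 := fun e => B.nDK hd0 (e ▸ hk0)
  have dk1 : d1 ≠ k0 := fun e => B.nDK hd1 (e ▸ hk0)
  have dl0 : d0 ≠ l0 := fun e => B.nDL hd0 (e ▸ hl0)
  have dl1 : d1 ≠ l0 := fun e => B.nDL hd1 (e ▸ hl0)
  have kl : k0 ≠ l0 := fun e => B.nKL hk0 (e ▸ hl0)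
  have qd0 : q ≠ d0 := fun e => B.Dq (e ▸ hd0)
  have qd1 : q ≠ d1 := fun e => B.Dq (e ▸ hd1)
  have qk : q ≠ k0 := fun e => B.Kq (e ▸ hk0)
  have ql : q ≠ l0 := fun e => B.Lq (e ▸ hl0)
  have cls : ∀ v, v = w ∨ v = d0 ∨ v = d1 ∨ v = q ∨ v = k0 ∨ v = l0 := fun v => by
    rcases B.cls v with h | h | h | h | h
    · exact Or.inl h
    · exact (hD v h).elim (fun h => Or.inr (Or.inl h)) fun h => Or.inr (Or.inr (Or.inl h))
    · exact Or.inr (Or.inr (Or.inr (Or.inl h)))
    · exact Or.inr (Or.inr (Or.inr (Or.inr (Or.inl (hK v h)))))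
    · exact Or.inr (Or.inr (Or.inr (Or.inr (Or.inr (hL v h)))))
  -- adjacencies
  have a_qd0 := B.qD _ hd0
  have a_qd1 := B.qD _ hd1
  have a_qk := B.qK _ hk0
  have a_kl := B.KL _ _ hk0 hl0
  have n_ql := B.qL _ hl0
  have n_d0k := B.DK _ _ hd0 hk0
  have n_d1k := B.DK _ _ hd1 hk0
  have n_d0l := B.DL _ _ hd0 hl0
  have n_d1l := B.DL _ _ hd1 hl0
  let Z : Fin m → Prop := fun v => v = d1 ∨ v = k0 ∨ v = w
  have hZ : ∀ v, Z v → H.Adj q v := fun v h => by
    rcases h with rfl | rfl | rfl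
    · exact a_qd1
    · exact a_qk
    · exact (hw _ wq).symm
  refine fin_hard q.pos H (MT H q (fun a b => Z a ∧ Z b) (fun _ _ h => h.symm) (fun _ => True) Z hZ
    True) (fun inc => ⟨fun f => ?_⟩) fun Y _ => MT.main q _ _ _ _ _ _ Y fun y a _ h => hZ _ h.2
  have inj : ∀ v v' x x' j, f v = .cp x j → f v' = .cp x' j → x.1 = x'.1 → v = v' :=
    fun v v' x x' j h1 h2 h3 => f.injective (by rw [h1, h2, Subtype.ext h3])
  let I : Fin m → Prop := fun v => ∃ a i, f v = .cp a i ∧ (a.1 = d0 ∨ a.1 = l0)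
  -- the other vertices
  have nI : ∀ v, ¬ I v → f v = .root ∨ (∃ s, f v = .sel s) ∨ ∃ a i, f v = .cp a i ∧ Z a := fun v h => by
    rcases ev : f v with _ | s | ⟨a, i⟩
    · exact Or.inl rfl
    · exact Or.inr (Or.inl ⟨s, rfl⟩)
    · refine Or.inr (Or.inr ⟨a, i, rfl, ?_⟩)
      rcases cls a with h' | h' | h' | h' | h' | h'
      · exact Or.inr (Or.inr h')
      · exact absurd ⟨a, i, ev, Or.inl h'⟩ h
      · exact Or.inl h'
      · exact absurd h' a.2
      · exact Or.inr (Or.inl h')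
      · exact absurd ⟨a, i, ev, Or.inr h'⟩ h
  -- non-adjacent pairs outside `I`
  have mt : ∀ v v', ¬ I v → ¬ I v' → v ≠ v' → ¬ H.Adj v v' → ∃ a b i, f v = .cp a i ∧
      f v' = .cp b i ∧ ((a.1 = d1 ∧ b.1 = k0) ∨ (a.1 = k0 ∧ b.1 = d1)) := fun v v' h1 h2 h3 h4 => by
    rcases nI v h1 with e1 | ⟨s, e1⟩ | ⟨a, i, e1, za⟩ <;>
      rcases nI v' h2 with e2 | ⟨s', e2⟩ | ⟨b, j, e2, zb⟩
    · exact absurd (f.injective (e1.trans e2.symm)) h3
    · exact absurd ((adj f e1 e2).1 trivial) h4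
    · exact absurd ((adj f e1 e2).1 (Or.inr trivial)) h4
    · exact absurd ((adj f e1 e2).1 trivial) h4
    · exact absurd ((adj f e1 e2).1 ⟨fun e => h3 (f.injective (by rw [e1, e2, e])), trivial⟩) h4
    · refine absurd ((adj f e1 e2).1 ?_) h4
      by_cases hi : inc s j
      · exact Or.inl ⟨trivial, hi⟩
      · exact Or.inr ⟨zb, hi⟩
    · exact absurd ((adj f e1 e2).1 (Or.inr trivial)) h4
    · refine absurd ((adj f e1 e2).1 ?_) h4
      by_cases hi : inc s' i
      · exact Or.inl ⟨trivial, hi⟩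
      · exact Or.inr ⟨za, hi⟩
    · by_cases hij : i = j
      · subst hij
        refine ⟨a, b, i, e1, e2, ?_⟩
        have hne : a.1 ≠ b.1 := fun e => h3 (inj _ _ _ _ _ e1 e2 e)
        have key : ¬ H.Adj a.1 b.1 := fun h =>
          h4 ((adj f e1 e2).1 (Or.inl ⟨rfl, fun e => hne (by rw [e]), h⟩))
        rcases za with za | za | za <;> rcases zb with zb | zb | zb
        · exact absurd (za.trans zb.symm) hne
        · exact Or.inl ⟨za, zb⟩
        · rw [zb] at key hne; exact absurd (hw _ hne).symm key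
        · exact Or.inr ⟨za, zb⟩
        · exact absurd (za.trans zb.symm) hne
        · rw [zb] at key hne; exact absurd (hw _ hne).symm key
        · rw [za] at key hne; exact absurd (hw _ hne.symm) key
        · rw [za] at key hne; exact absurd (hw _ hne.symm) key
        · exact absurd (za.trans zb.symm) hne
      · exact absurd ((adj f e1 e2).1 (Or.inr ⟨hij, za, zb⟩)) h4
  have uni : ∀ a b c, ¬ I a → ¬ I b → ¬ I c → a ≠ b → a ≠ c → ¬ H.Adj a b → ¬ H.Adj a c → b = c :=
    fun a b c h1 h2 h3 h4 h5 h6 h7 => by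
      obtain ⟨x, y, i, e1, e2, e3⟩ := mt a b h1 h2 h4 h6
      obtain ⟨x', y', i', e1', e2', e3'⟩ := mt a c h1 h3 h5 h7
      rw [e1] at e1'
      cases e1'
      refine inj _ _ _ _ _ e2 e2' ?_
      rcases e3 with ⟨h8, h9⟩ | ⟨h8, h9⟩ <;> rcases e3' with ⟨h8', h9'⟩ | ⟨h8', h9'⟩
      · exact h9.trans h9'.symm
      · exact absurd (h8.symm.trans h8') dk1
      · exact absurd (h8'.symm.trans h8) dk1
      · exact h9.trans h9'.symm
  -- neighbours of the vertices of `I`
  have nb : ∀ v v' a i, f v = .cp a i → (a.1 = d0 ∨ a.1 = l0) → H.Adj v v' →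
      f v' = .root ∨ (∃ s, f v' = .sel s ∧ inc s i) ∨ ∃ b, f v' = .cp b i ∧
        (b.1 = w ∨ (a.1 = d0 ∧ b.1 = d1) ∨ (a.1 = l0 ∧ b.1 = k0)) := fun v v' a i h1 h2 h3 => by
    have nZ : ¬ Z a := fun h => by
      rcases h with h | h | h <;> rcases h2 with h2 | h2
      · exact d01.ne (h2.symm.trans h)
      · exact dl1 (h.symm.trans h2)
      · exact dk0 (h2.symm.trans h)
      · exact kl (h.symm.trans h2)
      · exact wd0 (h2.symm.trans h)
      · exact wl (h2.symm.trans h)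
    rcases ev : f v' with _ | s | ⟨b, j⟩
    · exact Or.inl rfl
    · rcases (adj f h1 ev).2 h3 with ⟨-, h⟩ | ⟨h, -⟩
      · exact Or.inr (Or.inl ⟨s, rfl, h⟩)
      · exact absurd h nZ
    · rcases (adj f h1 ev).2 h3 with ⟨rfl, -, h⟩ | ⟨-, h⟩
      · refine Or.inr (Or.inr ⟨b, rfl, ?_⟩)
        change H.Adj a.1 b.1 at h
        rcases h2 with h2 | h2 <;> rw [h2] at h ⊢ <;>
          rcases cls b with h' | h' | h' | h' | h' | h' <;> rw [h'] at h ⊢
        · exact Or.inl rfl
        · exact absurd h H.irrefl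
        · exact Or.inr (Or.inl ⟨rfl, rfl⟩)
        · exact absurd h' b.2
        · exact absurd h n_d0k
        · exact absurd h n_d0l
        · exact Or.inl rfl
        · exact absurd h.symm n_d0l
        · exact absurd h.symm n_d1l
        · exact absurd h' b.2
        · exact Or.inr (Or.inr ⟨rfl, rfl⟩)
        · exact absurd h H.irrefl
      · exact absurd h.1 nZ
  have sim : ∀ v a b, I v → H.Adj v a → H.Adj v b → a ≠ b → H.Adj a b := fun v a b hv h1 h2 h3 => by
    obtain ⟨x, i, e, hx⟩ := hv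
    by_contra hn
    have Ia : ∀ v', H.Adj v v' → ¬ I v' := fun v' hv' ⟨y, j, e', hy⟩ => by
      rcases nb v v' x i e hx hv' with h | ⟨s, h, -⟩ | ⟨z, h, hz⟩
      · rw [e'] at h; cases h
      · rw [e'] at h; cases h
      · rw [e'] at h; cases h
        rcases hz with hz | ⟨-, hz⟩ | ⟨-, hz⟩ <;> rcases hy with hy | hy
        · exact wd0 (hy.symm.trans hz)
        · exact wl (hy.symm.trans hz)
        · exact d01.ne (hy.symm.trans hz)
        · exact dl1 (hz.symm.trans hy)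
        · exact dk0 (hy.symm.trans hz)
        · exact kl (hz.symm.trans hy)
    obtain ⟨y, z, j, e1, e2, e3⟩ := mt a b (Ia a h1) (Ia b h2) h3 hn
    rcases nb v a x i e hx h1 with h | ⟨s, h, -⟩ | ⟨y', h, hy⟩
    · rw [e1] at h; cases h
    · rw [e1] at h; cases h
    rcases nb v b x i e hx h2 with h' | ⟨s, h', -⟩ | ⟨z', h', hz⟩
    · rw [e2] at h'; cases h'
    · rw [e2] at h'; cases h'
    rw [e1] at h; cases h
    rw [e2] at h'; cases h'
    rcases e3 with ⟨g1, g2⟩ | ⟨g1, g2⟩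
    · rw [g1] at hy; rw [g2] at hz
      rcases hy with hy | ⟨hy, -⟩ | ⟨-, hy⟩
      · exact wd1 hy
      · rcases hz with hz | ⟨-, hz⟩ | ⟨hz, -⟩
        · exact wk hz
        · exact dk1 hz.symm
        · exact dl0 (hy.symm.trans hz)
      · exact dk1 hy
    · rw [g1] at hy; rw [g2] at hz
      rcases hz with hz | ⟨hz, -⟩ | ⟨-, hz⟩
      · exact wd1 hz
      · rcases hy with hy | ⟨-, hy⟩ | ⟨hy, -⟩
        · exact wk hy
        · exact dk1 hy.symm
        · exact dl0 (hz.symm.trans hy)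
      · exact dk1 hz
  have nq : ¬ I q := fun h => n_d0k (sim q d0 k0 h a_qd0 a_qk dk0)
  have nk : ¬ I k0 := fun h => n_ql (sim k0 q l0 h a_qk.symm a_kl ql)
  -- the main part of the argument, for `{d, d'} = {d0, d1}`
  have main : ∀ d d', H.Adj d d' → H.Adj q d → H.Adj q d' → ¬ H.Adj d k0 → ¬ H.Adj d' k0 →
      ¬ H.Adj d l0 → ¬ H.Adj d' l0 → d ≠ k0 → d' ≠ k0 → d ≠ l0 → d' ≠ l0 → ¬ I d → False :=
    fun d d' h1 h2 h3 h4 h5 h6 h7 h8 h9 h10 h11 hI => by
      have Id' : I d' := by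
        by_contra hn
        exact h1.ne (uni k0 d d' nk hI hn h8.symm h9.symm (fun h => h4 h.symm) fun h => h5 h.symm)
      have Il : I l0 := by
        by_contra hn
        exact h2.ne (uni l0 q d hn nq hI ql.symm h10.symm (fun h => n_ql h.symm) fun h => h6 h.symm)
      obtain ⟨x, y, i, e1, e2, e3⟩ := mt d k0 hI nk h8 h4
      obtain ⟨z, j, e4, hz⟩ := Id'
      obtain ⟨z', j', e5, hz'⟩ := Il
      -- `d'` sees `d`
      rcases nb d' d z j e4 hz h1.symm with h | ⟨s, h, -⟩ | ⟨x', h, g1⟩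
      · rw [e1] at h; cases h
      · rw [e1] at h; cases h
      rw [e1] at h; cases h
      rcases nb l0 k0 z' j' e5 hz' a_kl.symm with h | ⟨s, h, -⟩ | ⟨x', h, g2⟩
      · rw [e2] at h; cases h
      · rw [e2] at h; cases h
      rw [e2] at h; cases h
      -- the types of `d'` and `l0` are different, and the copy is the same
      have g3 : (z.1 = d0 ∧ z'.1 = l0) ∨ (z.1 = l0 ∧ z'.1 = d0) := by
        rcases e3 with ⟨g4, g5⟩ | ⟨g4, g5⟩
        · rw [g4] at g1; rw [g5] at g2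
          refine Or.inl ⟨?_, ?_⟩
          · rcases g1 with g | ⟨g, -⟩ | ⟨-, g⟩
            · exact absurd g wd1
            · exact g
            · exact absurd g dk1
          · rcases g2 with g | ⟨-, g⟩ | ⟨g, -⟩
            · exact absurd g wk
            · exact absurd g dk1.symm
            · exact g
        · rw [g4] at g1; rw [g5] at g2
          refine Or.inr ⟨?_, ?_⟩
          · rcases g1 with g | ⟨-, g⟩ | ⟨g, -⟩
            · exact absurd g wk
            · exact absurd g dk1.symm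
            · exact g
          · rcases g2 with g | ⟨g, -⟩ | ⟨-, g⟩
            · exact absurd g wd1
            · exact g
            · exact absurd g dk1
      -- `q` sees `d'` but not `l0`
      rcases nb d' q z i e4 hz h3.symm with h | ⟨s, h, hs⟩ | ⟨x', h, g4⟩
      · exact n_ql ((adj f h e5).1 (Or.inr trivial))
      · exact n_ql ((adj f h e5).1 (Or.inl ⟨trivial, hs⟩))
      · rcases g4 with g | ⟨g, g'⟩ | ⟨g, g'⟩
        · refine n_ql ((adj f h e5).1 (Or.inl ⟨rfl, fun e => ?_, ?_⟩))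
          · rcases hz' with g5 | g5
            · exact wd0 (g5.symm.trans (e ▸ g))
            · exact wl (g5.symm.trans (e ▸ g))
          · show H.Adj x'.1 z'.1
            rw [g]
            rcases hz' with g5 | g5 <;> rw [g5]
            · exact hw _ wd0
            · exact hw _ wl
        · -- then `q` and `d` coincide
          rcases e3 with ⟨g5, -⟩ | ⟨g5, g6⟩
          · exact h2.ne (inj _ _ _ _ _ h e1 (g'.trans g5.symm))
          · exact qk (inj _ _ _ _ _ h e2 (g'.trans g6.symm))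
        · rcases e3 with ⟨-, g5⟩ | ⟨g5, -⟩
          · exact qk (inj _ _ _ _ _ h e2 (g'.trans g5.symm))
          · exact h2.ne (inj _ _ _ _ _ h e1 (g'.trans g5.symm))
  by_cases h0 : I d0
  · by_cases h1 : I d1
    · obtain ⟨x, i, e, hx⟩ := h0
      obtain ⟨y, j, e', hy⟩ := h1
      rcases nb d0 d1 x i e hx d01 with h | ⟨s, h, -⟩ | ⟨z, h, g⟩
      · rw [e'] at h; cases h
      · rw [e'] at h; cases h
      · rw [e'] at h; cases h
        rcases hy with hy | hy <;> rw [hy] at g <;> rcases g with g | ⟨-, g⟩ | ⟨-, g⟩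
        · exact wd0 g
        · exact d01.ne g
        · exact dk0 g
        · exact wl g
        · exact dl1 g.symm
        · exact kl g.symm
    · exact main d1 d0 d01.symm a_qd1 a_qd0 n_d1k n_d0k n_d1l n_d0l dk1 dk0 dl1 dl0 h1
  · exact main d0 d1 d01 a_qd0 a_qd1 n_d0k n_d1k n_d0l n_d1l dk0 dk1 dl0 dl1 h0

end Pool.Agent.L0h77.HC
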