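import Pool.Agent.L0h77.HC.Cone3
import Pool.Agent.L0h77.HC.Br1
import Pool.Agent.L0h77.HC.Br2
import Pool.Agent.L0h77.HC.Br3
import Pool.Agent.L0h77.HC.Br4

/-! All brooms except the double stars without a universal vertex. -/

namespace Pool.Agent.L0h77.HC

open Pool.Agent.H22.CT SimpleGraph Function

variable {m : ℕ} {H : SimpleGraph (Fin m)}

/-- `D` and `L` independent, `K` a single vertex, with a universal vertex. -/
theorem hardRS (hm : 6 ≤ m) {D K L : Fin m → Prop} {w q k0 : Fin m}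
    (B : Br H (fun v => v = w) q D K L) (hk0 : K k0) (hK : ∀ k, K k → k = k0)
    (DD : ∀ d d', D d → D d' → ¬ H.Adj d d') : W2Hard (Con₁ H) := by
  classical
  have hw := B.pu w rfl
  have wq : q ≠ w := fun e => B.Pq e
  have wD : ∀ d, D d → d ≠ w := fun d h e => B.PD e h
  have wk : k0 ≠ w := fun e => B.PK e hk0
  have wL : ∀ d, L d → d ≠ w := fun d h e => B.PL e h
  have qk : q ≠ k0 := fun e => B.Kq (e ▸ hk0)
  have dk : ∀ d, D d → d ≠ k0 := fun d h e => B.nDK h (e ▸ hk0)
  have lk : ∀ d, L d → d ≠ k0 := fun d h e => B.nKL hk0 (e ▸ h)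
  have dq : ∀ d, D d → d ≠ q := fun d h e => B.Dq (e ▸ h)
  have lq : ∀ d, L d → d ≠ q := fun d h e => B.Lq (e ▸ h)
  have dl : ∀ d l, D d → L l → d ≠ l := fun d l h h' e => B.nDL h (e ▸ h')
  obtain ⟨d0, hd0⟩ := B.D0
  obtain ⟨l0, hl0⟩ := B.L0
  have ed : ∀ x y, x ≠ w → y ≠ w → H.Adj x y → (x = q ∧ (D y ∨ y = k0)) ∨
      (x = k0 ∧ (y = q ∨ L y)) ∨ (D x ∧ y = q) ∨ (L x ∧ y = k0) := fun x y hx hy h => by
    rcases B.cls x with h1 | h1 | h1 | h1 | h1
    · exact absurd h1 hx
    · rcases B.cls y with h2 | h2 | h2 | h2 | h2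
      · exact absurd h2 hy
      · exact absurd h (DD _ _ h1 h2)
      · exact Or.inr (Or.inr (Or.inl ⟨h1, h2⟩))
      · exact absurd h (B.DK _ _ h1 h2)
      · exact absurd h (B.DL _ _ h1 h2)
    · rcases B.cls y with h2 | h2 | h2 | h2 | h2
      · exact absurd h2 hy
      · exact Or.inl ⟨h1, Or.inl h2⟩
      · exact absurd (h1.trans h2.symm) h.ne
      · exact Or.inl ⟨h1, Or.inr (hK _ h2)⟩
      · exact absurd (h1 ▸ h) (B.qL _ h2)
    · rcases B.cls y with h2 | h2 | h2 | h2 | h2
      · exact absurd h2 hy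
      · exact absurd h.symm (B.DK _ _ h2 h1)
      · exact Or.inr (Or.inl ⟨hK _ h1, Or.inl h2⟩)
      · exact absurd ((hK _ h1).trans (hK _ h2).symm) h.ne
      · exact Or.inr (Or.inl ⟨hK _ h1, Or.inr h2⟩)
    · rcases B.cls y with h2 | h2 | h2 | h2 | h2
      · exact absurd h2 hy
      · exact absurd h.symm (B.DL _ _ h2 h1)
      · exact absurd (h2 ▸ h).symm (B.qL _ h1)
      · exact Or.inr (Or.inr (Or.inr ⟨h1, hK _ h2⟩))
      · exact absurd h (B.LL _ _ h1 h2)
  have dlf : ∀ x v, D x → v ≠ w → H.Adj x v → v = q := fun x v hx hv h => by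
    rcases ed x v (wD _ hx) hv h with ⟨h1, -⟩ | ⟨h1, -⟩ | ⟨-, h1⟩ | ⟨h1, -⟩
    · exact absurd h1 (dq _ hx)
    · exact absurd h1 (dk _ hx)
    · exact h1
    · exact absurd h1 (B.nDL hx)
  have llf : ∀ x v, L x → v ≠ w → H.Adj x v → v = k0 := fun x v hx hv h => by
    rcases ed x v (wL _ hx) hv h with ⟨h1, -⟩ | ⟨h1, -⟩ | ⟨h1, -⟩ | ⟨-, h1⟩
    · exact absurd h1 (lq _ hx)
    · exact absurd h1 (lk _ hx)
    · exact absurd hx (B.nDL h1)
    · exact h1
  by_cases hD : ∃ d1, D d1 ∧ d1 ≠ d0
  · obtain ⟨d1, hd1, hd1'⟩ := hD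
    by_cases hL : ∃ l1, L l1 ∧ l1 ≠ l0
    · obtain ⟨l1, hl1, hl1'⟩ := hL
      refine hardD (w := w) (u := d0) (z := q) (B.qD _ hd0).symm (T := fun v => v = l0) hw
        (wD _ hd0) wq (fun v hv h => dlf _ _ hd0 hv h) (fun a b c ha hb hc h1 h2 h3 => ?_)
        (fun a b c d ha hb hc hd h1 h2 h3 h4 h5 h6 => ?_) ?_ ⟨l0, rfl⟩
        (fun x y c hx hy hc hxy hcx hcy => ?_) ⟨d1, wD _ hd1, hd1', dq _ hd1, B.qD _ hd1⟩ ?_
        ⟨l1, wL _ hl1, (dl _ _ hd0 hl1).symm, lq _ hl1, hl1'⟩
        ⟨l0, wL _ hl0, (dl _ _ hd0 hl0).symm, lq _ hl0, B.qL _ hl0⟩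
      · -- no triangle
        have bp : ∀ x y, x ≠ w → y ≠ w → H.Adj x y → ((x = q ∨ L x) ↔ ¬ (y = q ∨ L y)) :=
          fun x y hx hy h => by
            rcases ed x y hx hy h with ⟨h1, h2 | h2⟩ | ⟨h1, h2 | h2⟩ | ⟨h1, h2⟩ | ⟨h1, h2⟩
            · exact iff_of_true (Or.inl h1) fun h => h.elim (dq _ h2) (B.nDL h2)
            · exact iff_of_true (Or.inl h1) (h2 ▸ fun h => h.elim (fun h => qk h.symm) fun h => B.nKL hk0 h)
            · exact iff_of_false (h1 ▸ fun h => h.elim (fun h => qk h.symm) fun h => B.nKL hk0 h)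
                (not_not.2 (Or.inl h2))
            · exact iff_of_false (h1 ▸ fun h => h.elim (fun h => qk h.symm) fun h => B.nKL hk0 h)
                (not_not.2 (Or.inr h2))
            · exact iff_of_false (fun h => h.elim (dq _ h1) (B.nDL h1)) (not_not.2 (Or.inl h2))
            · exact iff_of_true (Or.inr h1) (h2 ▸ fun h => h.elim (fun h => qk h.symm) fun h => B.nKL hk0 h)
        have e1 := bp a b ha hb h1
        have e2 := bp a c ha hc h2
        have e3 := bp b c hb hc h3
        tauto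
      · -- no 4-cycle
        have two : ∀ x y z, x ≠ w → y ≠ w → z ≠ w → y ≠ z → H.Adj x y → H.Adj x z → x = q ∨ x = k0 :=
          fun x y z hx hy hz hyz h1 h2 => by
            rcases B.cls x with h | h | h | h | h
            · exact absurd h hx
            · exact absurd ((dlf _ _ h hy h1).trans (dlf _ _ h hz h2).symm) hyz
            · exact Or.inl h
            · exact Or.inr (hK _ h)
            · exact absurd ((llf _ _ h hy h1).trans (llf _ _ h hz h2).symm) hyz
        have ea := two a b d ha hb hd h2 h3 h6.symm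
        have eb := two b a c hb ha hc h1 h3.symm h4
        have ec := two c b d hc hb hd h2 h4.symm h5
        rcases ea with rfl | rfl <;> rcases eb with rfl | rfl <;> rcases ec with rfl | rfl <;>
          first
          | exact h1 rfl
          | exact h3.ne rfl
          | exact h4.ne rfl
      · rintro t rfl; exact ⟨wL _ hl0, (dl _ _ hd0 hl0).symm, lq _ hl0⟩
      · -- a further non-neighbour
        rcases B.cls c with h | h | h | h | h
        · exact absurd h hc
        · -- `c` in `D`: avoid `q`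
          have : ∃ v, v ≠ w ∧ v ≠ x ∧ v ≠ y ∧ v ≠ c ∧ v ≠ q := by
            by_contra hcon
            have hall : (Finset.univ : Finset (Fin m)) ⊆ {w, x, y, c, q} := fun v _ => by
              by_contra hv
              simp only [Finset.mem_insert, Finset.mem_singleton, not_or] at hv
              exact hcon ⟨v, hv.1, hv.2.1, hv.2.2.1, hv.2.2.2.1, hv.2.2.2.2⟩
            have := Finset.card_le_card hall
            rw [Finset.card_univ, Fintype.card_fin] at this
            have h5 : ({w, x, y, c, q} : Finset (Fin m)).card ≤ 5 := Finset.card_le_five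
            omega
          obtain ⟨v, h1, h2, h3, h4, h5⟩ := this
          exact ⟨v, h1, h2, h3, h4, fun h' => h5 (dlf _ _ h h1 h')⟩
        · -- `c = q`: use `L`
          have : ∃ l, L l ∧ l ≠ x ∧ l ≠ y := by
            by_contra hcon
            have e0 : l0 = x ∨ l0 = y := by
              by_contra h'; rw [not_or] at h'; exact hcon ⟨l0, hl0, h'.1, h'.2⟩
            have e1 : l1 = x ∨ l1 = y := by
              by_contra h'; rw [not_or] at h'; exact hcon ⟨l1, hl1, h'.1, h'.2⟩
            rcases e0 with rfl | rfl <;> rcases e1 with rfl | rfl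
            · exact hl1' rfl
            · rcases hxy with h' | h'
              · exact hl1' h'.symm
              · exact B.LL _ _ hl0 hl1 h'
            · rcases hxy with h' | h'
              · exact hl1' h'
              · exact B.LL _ _ hl1 hl0 h'
            · exact hl1' rfl
          obtain ⟨l, h1, h2, h3⟩ := this
          exact ⟨l, wL _ h1, h2, h3, h ▸ lq _ h1, h ▸ B.qL _ h1⟩
        · -- `c = k0`: use `D`
          have hck := hK _ h
          have : ∃ l, D l ∧ l ≠ x ∧ l ≠ y := by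
            by_contra hcon
            have e0 : d0 = x ∨ d0 = y := by
              by_contra h'; rw [not_or] at h'; exact hcon ⟨d0, hd0, h'.1, h'.2⟩
            have e1 : d1 = x ∨ d1 = y := by
              by_contra h'; rw [not_or] at h'; exact hcon ⟨d1, hd1, h'.1, h'.2⟩
            rcases e0 with rfl | rfl <;> rcases e1 with rfl | rfl
            · exact hd1' rfl
            · rcases hxy with h' | h'
              · exact hd1' h'.symm
              · exact DD _ _ hd0 hd1 h'
            · rcases hxy with h' | h'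
              · exact hd1' h'
              · exact DD _ _ hd1 hd0 h'
            · exact hd1' rfl
          obtain ⟨l, h1, h2, h3⟩ := this
          exact ⟨l, wD _ h1, h2, h3, hck ▸ dk _ h1, hck ▸ fun h' => B.DK _ _ h1 hk0 h'.symm⟩
        · have : ∃ v, v ≠ w ∧ v ≠ x ∧ v ≠ y ∧ v ≠ c ∧ v ≠ k0 := by
            by_contra hcon
            have hall : (Finset.univ : Finset (Fin m)) ⊆ {w, x, y, c, k0} := fun v _ => by
              by_contra hv
              simp only [Finset.mem_insert, Finset.mem_singleton, not_or] at hv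
              exact hcon ⟨v, hv.1, hv.2.1, hv.2.2.1, hv.2.2.2.1, hv.2.2.2.2⟩
            have := Finset.card_le_card hall
            rw [Finset.card_univ, Fintype.card_fin] at this
            have h5 : ({w, x, y, c, k0} : Finset (Fin m)).card ≤ 5 := Finset.card_le_five
            omega
          obtain ⟨v, h1, h2, h3, h4, h5⟩ := this
          exact ⟨v, h1, h2, h3, h4, fun h' => h5 (llf _ _ h h1 h')⟩
      · -- the numbers
        refine ne_of_gt (lt_of_le_of_lt (b := 1) ?_ ?_)
        · exact Finset.card_le_one.2 fun a ha b hb => by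
            simp only [Finset.mem_filter, Finset.mem_univ, true_and] at ha hb
            exact ha.2.2.2.trans hb.2.2.2.symm
        · exact Finset.one_lt_card.2 ⟨d1, by simp [wD _ hd1, hd1', dq _ hd1, B.qD _ hd1], k0,
            by simp [wk, (dk _ hd0).symm, qk.symm, B.qK _ hk0], dk _ hd1⟩
    · -- `L` is a single vertex
      have hL' : ∀ l, L l → l = l0 := fun l h => by
        by_contra h'; exact hL ⟨l, h, h'⟩
      refine hardV2' (w0 := w) (z := q) (u1 := d0) (u2 := d1) (b := k0) (E := L)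
        (fun x y h h' => (hL' x h).trans (hL' y h').symm) wq (wD _ hd0) (dq _ hd0) (wD _ hd1)
        (dq _ hd1) hd1' wk qk.symm (dk _ hd0).symm (dk _ hd1).symm (fun h => wL _ h rfl) B.Lq
        (B.nDL hd0) (B.nDL hd1) (B.nKL hk0) 1 hw (fun v h1 h2 => ?_) (fun v h => ?_) (fun v h => ?_)
        fun x y hx hx' hy hy' h => ?_
      · rcases B.cls v with h | h | h | h | h
        · rw [show v = w from h]; exact (hw _ wq).symm
        · exact B.qD _ h
        · exact absurd h h1
        · exact B.qK _ h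
        · exact absurd h h2
      · exact iff_of_false (B.qL _ h) (by decide)
      · exact iff_of_true (B.KL _ _ hk0 h).symm (by decide)
      · rcases ed x y hx hy h with ⟨h1, -⟩ | ⟨h1, h2 | h2⟩ | ⟨-, h2⟩ | ⟨h1, h2⟩
        · exact absurd h1 hx'
        · exact absurd h2 hy'
        · exact Or.inr ⟨h2, h1⟩
        · exact absurd h2 hy'
        · exact Or.inl ⟨h1, h2⟩
  · -- `D` is a single vertex
    have hD' : ∀ d, D d → d = d0 := fun l h => by
      by_contra h'; exact hD ⟨l, h, h'⟩
    have hLL : ∃ l1, L l1 ∧ l1 ≠ l0 := by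
      by_contra hcon
      have hall : (Finset.univ : Finset (Fin m)) ⊆ {w, d0, q, k0, l0} := fun v _ => by
        simp only [Finset.mem_insert, Finset.mem_singleton]
        rcases B.cls v with h | h | h | h | h
        · exact Or.inl h
        · exact Or.inr (Or.inl (hD' _ h))
        · exact Or.inr (Or.inr (Or.inl h))
        · exact Or.inr (Or.inr (Or.inr (Or.inl (hK _ h))))
        · refine Or.inr (Or.inr (Or.inr (Or.inr ?_)))
          by_contra h'; exact hcon ⟨v, h, h'⟩
      have := Finset.card_le_card hall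
      rw [Finset.card_univ, Fintype.card_fin] at this
      have h5 : ({w, d0, q, k0, l0} : Finset (Fin m)).card ≤ 5 := Finset.card_le_five
      omega
    obtain ⟨l1, hl1, hl1'⟩ := hLL
    refine hardV2' (w0 := w) (z := k0) (u1 := l0) (u2 := l1) (b := q) (E := D)
      (fun x y h h' => (hD' x h).trans (hD' y h').symm) wk (wL _ hl0) (lk _ hl0) (wL _ hl1)
      (lk _ hl1) hl1' wq qk (lq _ hl0).symm (lq _ hl1).symm (fun h => wD _ h rfl)
      (fun h => B.nDK h hk0) (fun h => B.nDL h hl0) (fun h => B.nDL h hl1) B.Dq 1 hw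
      (fun v h1 h2 => ?_) (fun v h => ?_) (fun v h => ?_) fun x y hx hx' hy hy' h => ?_
    · rcases B.cls v with h | h | h | h | h
      · rw [show v = w from h]; exact (hw _ wk).symm
      · exact absurd h h2
      · rw [h]; exact (B.qK _ hk0).symm
      · exact absurd (hK _ h) h1
      · exact B.KL _ _ hk0 h
    · exact iff_of_false (fun h' => B.DK _ _ h hk0 h'.symm) (by decide)
    · exact iff_of_true (B.qD _ h).symm (by decide)
    · rcases ed x y hx hy h with ⟨h1, h2 | h2⟩ | ⟨h1, -⟩ | ⟨h1, h2⟩ | ⟨-, h2⟩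
      · exact Or.inr ⟨h2, h1⟩
      · exact absurd h2 hy'
      · exact absurd h1 hx'
      · exact Or.inl ⟨h1, h2⟩
      · exact absurd h2 hy'

/-- the double stars with at least two leaves on either side, and no universal vertex -/
def DS (H : SimpleGraph (Fin m)) : Prop := ∃ q D K L, Br H (fun _ => False) q D K L ∧
  (∀ d d', D d → D d' → ¬ H.Adj d d') ∧ (∀ k k', K k → K k' → k = k') ∧
  (∃ d d', D d ∧ D d' ∧ d ≠ d') ∧ ∃ l l', L l ∧ L l' ∧ l ≠ l'

theorem hard_broom (hm : 6 ≤ m) (hb : Broom H) (hM : ¬ DS H) : W2Hard (Con₁ H) := by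
  classical
  obtain ⟨q, U, D, K, L, h1, h2, h3, h4, h5, h6, h7, h8, h9, h10, h11, h12, h13, h14, h15⟩ := hb
  have B : Br H (fun v => v ∈ U) q (fun v => v ∈ D) (fun v => v ∈ K) (fun v => v ∈ L) :=
    ⟨h3, h2, fun _ _ a b => h1 a b, h4, h5, h6, h7, fun k k' hk hk' hne => h8 hk hk' hne, h9, h10,
      fun k l hk hl => h11 k hk l hl, h12, fun l l' hl hl' => h13 l hl l' hl',
      fun d k hd hk => h14 d hd k hk, fun d l hd hl => h15 d hd l hl⟩
  obtain ⟨d0, hd0⟩ := h4
  obtain ⟨k0, hk0⟩ := h5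
  obtain ⟨l0, hl0⟩ := h6
  by_cases hU : ∃ w, w ∈ U
  · obtain ⟨w, hwU⟩ := hU
    have e : (fun v => v ∈ U) = fun v => v = w := funext fun v => propext
      ⟨fun h => h1 h hwU, fun h => h ▸ hwU⟩
    rw [e] at B
    by_cases hKK : ∃ k1 k2, k1 ∈ K ∧ k2 ∈ K ∧ k1 ≠ k2
    · exact hardN B hd0 (Or.inl hKK)
    have hK : ∀ k, k ∈ K → k = k0 := fun k hk => by
      by_contra h; exact hKK ⟨k, k0, hk, hk0, h⟩
    by_cases hDe : ∃ d1 d2, d1 ∈ D ∧ d2 ∈ D ∧ H.Adj d1 d2
    · obtain ⟨d1, d2, hd1, hd2, h12'⟩ := hDe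
      by_cases hDn : ∃ d ds, d ∈ D ∧ ds ∈ D ∧ ds ≠ d ∧ ¬ H.Adj d ds
      · obtain ⟨d, ds, hd, hds, hne, hna⟩ := hDn
        exact hardN B hd (Or.inr ⟨d1, d2, ds, hd1, hd2, h12', hds, hne, hna⟩)
      have hDc : ∀ d d', d ∈ D → d' ∈ D → d ≠ d' → H.Adj d d' := fun d d' hd hd' hne => by
        by_contra h; exact hDn ⟨d, d', hd, hd', hne.symm, h⟩
      by_cases hD3 : ∃ d3, d3 ∈ D ∧ d3 ≠ d1 ∧ d3 ≠ d2
      · obtain ⟨d3, hd3, h31, h32⟩ := hD3
        exact hardP B hd1 hd2 hd3 h12'.ne h31.symm h32.symm hDc hk0 hK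
      have hD2 : ∀ d, d ∈ D → d = d1 ∨ d = d2 := fun d hd => by
        by_contra h; rw [not_or] at h; exact hD3 ⟨d, hd, h.1, h.2⟩
      by_cases hLL : ∃ l1 l2, l1 ∈ L ∧ l2 ∈ L ∧ l1 ≠ l2
      · obtain ⟨l1, l2, hl1, hl2, h12''⟩ := hLL
        exact hardO B hd1 hd2 h12' hD2 hk0 hK hl1 hl2 h12''
      · exact hardQ B hd1 hd2 h12' hD2 hk0 hK hl0 fun l hl => by
          by_contra h; exact hLL ⟨l, l0, hl, hl0, h⟩
    · exact hardRS hm B hk0 hK fun d d' hd hd' h => hDe ⟨d, d', hd, hd', h⟩
  · have e : (fun v => v ∈ U) = fun _ => False := funext fun v => propext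
      ⟨fun h => hU ⟨v, h⟩, False.elim⟩
    rw [e] at B
    by_cases hDe : ∃ d1 d2, d1 ∈ D ∧ d2 ∈ D ∧ H.Adj d1 d2
    · obtain ⟨d1, d2, hd1, hd2, h12'⟩ := hDe
      exact hardJ B hd1 hd2 h12'
    have DD : ∀ d d', d ∈ D → d' ∈ D → ¬ H.Adj d d' := fun d d' hd hd' h =>
      hDe ⟨d, d', hd, hd', h⟩
    by_cases hKK : ∃ k1 k2, k1 ∈ K ∧ k2 ∈ K ∧ k1 ≠ k2
    · obtain ⟨k1, k2, hk1, hk2, h12'⟩ := hKK
      exact hardK B DD hk1 hk2 h12'.symm
    have hK : ∀ k, k ∈ K → k = k0 := fun k hk => by
      by_contra h; exact hKK ⟨k, k0, hk, hk0, h⟩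
    by_cases hLL : ∃ l1 l2, l1 ∈ L ∧ l2 ∈ L ∧ l1 ≠ l2
    · by_cases hD2 : ∃ d1 d2, d1 ∈ D ∧ d2 ∈ D ∧ d1 ≠ d2
      · exact absurd ⟨q, _, _, _, B, DD, fun k k' hk hk' => (hK k hk).trans (hK k' hk').symm,
          hD2, hLL⟩ hM
      have hD : ∀ d, d ∈ D → d = d0 := fun d hd => by
        by_contra h; exact hD2 ⟨d, d0, hd, hd0, h⟩
      refine hardV3 (z0 := k0) (b := q) (e := d0) (fun e => B.Kq (e ▸ hk0))
        (fun e => B.nDK hd0 (e ▸ hk0)) (B.qD _ hd0) (fun h => B.DK _ _ hd0 hk0 h.symm)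
        (fun v hv hv' => ?_) (fun x y hx hy h => ?_) hm
      · rcases B.cls v with h | h | h | h | h
        · exact h.elim
        · exact absurd (hD _ h) hv'
        · rw [h]; exact (B.qK _ hk0).symm
        · exact absurd (hK _ h) hv
        · exact B.KL _ _ hk0 h
      · rcases B.cls x with h1 | h1 | h1 | h1 | h1 <;>
          rcases B.cls y with h2 | h2 | h2 | h2 | h2
        all_goals first
          | exact h1.elim
          | exact h2.elim
          | exact absurd h (DD _ _ h1 h2)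
          | exact Or.inr ⟨hD _ h1, h2⟩
          | exact absurd (hK _ h2) hy
          | exact absurd (hK _ h1) hx
          | exact absurd h (B.DL _ _ h1 h2)
          | exact Or.inl ⟨h1, hD _ h2⟩
          | exact absurd (h1.trans h2.symm) h.ne
          | exact absurd h.symm (B.DL _ _ h2 h1)
          | exact absurd h (B.LL _ _ h1 h2)
          | (rw [h1] at h; exact absurd h (B.qL _ h2))
          | (rw [h2] at h; exact absurd h.symm (B.qL _ h1))
    · have hL : ∀ l, l ∈ L → l = l0 := fun l hl => by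
        by_contra h; exact hLL ⟨l, l0, hl, hl0, h⟩
      refine hardV3 (z0 := q) (b := k0) (e := l0) (fun e => B.Kq (e ▸ hk0))
        (fun e => B.Lq (e ▸ hl0)) (B.KL _ _ hk0 hl0) (B.qL _ hl0)
        (fun v hv hv' => ?_) (fun x y hx hy h => ?_) hm
      · rcases B.cls v with h | h | h | h | h
        · exact h.elim
        · exact B.qD _ h
        · exact absurd h hv
        · exact B.qK _ h
        · exact absurd (hL _ h) hv'
      · rcases B.cls x with h1 | h1 | h1 | h1 | h1 <;>
          rcases B.cls y with h2 | h2 | h2 | h2 | h2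
        all_goals first
          | exact h1.elim
          | exact h2.elim
          | exact absurd h1 hx
          | exact absurd h2 hy
          | exact absurd h (DD _ _ h1 h2)
          | exact absurd h (B.DK _ _ h1 h2)
          | exact absurd h (B.DL _ _ h1 h2)
          | exact absurd h.symm (B.DK _ _ h2 h1)
          | exact absurd h.symm (B.DL _ _ h2 h1)
          | exact absurd ((hK _ h1).trans (hK _ h2).symm) h.ne
          | exact absurd h (B.LL _ _ h1 h2)
          | exact Or.inl ⟨hK _ h1, hL _ h2⟩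
          | exact Or.inr ⟨hL _ h1, hK _ h2⟩

/-- Everything except the double stars. -/
theorem hard_main (hm : 6 ≤ m) (hc : H.Connected) (hn : H ≠ ⊤) (hM : ¬ DS H) :
    W2Hard (Con₁ H) := by
  by_cases h1 : Cone H
  · exact hard_cone hm hc h1
  by_cases h2 : Broom H
  · exact hard_broom hm h2 hM
  · exact hard_gen hn h1 h2

end Pool.Agent.L0h77.HC
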