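import Pool.Agent.L0h77.HC.Main

/-! The chain gadget for double stars. -/

namespace Pool.Agent.L0h77.HC

open Pool.Agent.H22.CT SimpleGraph Function

theorem dsy {Ty : Type} {D : TG Ty} {inc : ℕ → ℕ × ℕ → Prop} {a b : Vx Ty}
    (h : D.dad inc a b) : D.dad inc b a := (D.DG inc).adj_symm (u := a) (v := b) h

/-- right end of the interval of a point of the line -/
def rN (p : ℕ) : ℕ := if p % 3 = 2 ∨ p = 1 then p + 4 else if p % 3 = 0 then p + 2 else p + 1

theorem rN_spec (p : ℕ) : ((p % 3 = 2 ∨ p = 1) ∧ rN p = p + 4) ∨ (p % 3 = 0 ∧ rN p = p + 2) ∨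
    (p % 3 = 1 ∧ p ≠ 1 ∧ rN p = p + 1) := by
  unfold rN; split_ifs <;> omega

/-- adjacency (or equality) on the line -/
def la (a b : ℕ) : Prop := b ≤ rN a ∧ a ≤ rN b

theorem la_L1 {p p' p1 p2 : ℕ} (h : p < p') (h' : la p p') (h1 : 1 ≤ p)
    (hc : p % 3 ≠ 2 ∨ p' = p + 3) (a1 : la p p1) (a2 : ¬ la p' p1) (b1 : la p p2)
    (b2 : ¬ la p' p2) : la p1 p2 := by
  unfold la at *
  have := rN_spec p; have := rN_spec p'; have := rN_spec p1; have := rN_spec p2
  omega

theorem la_L2 {p p' p1 p2 : ℕ} (h : p < p') (h' : la p p') (h1 : p % 3 = 2) (hc : p' ≠ p + 3)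
    (a1 : la p' p1) (a2 : ¬ la p p1) (b1 : la p' p2) (b2 : ¬ la p p2) : la p1 p2 := by
  unfold la at *
  have := rN_spec p; have := rN_spec p'; have := rN_spec p1; have := rN_spec p2
  omega

inductive Sl
  | pi (i : ℕ)
  | t
  | ln (p : ℕ)

namespace Sl

/-- adjacency (or equality) of slots -/
def G : Sl → Sl → Prop
  | pi i, pi j => i = j
  | t, t => True
  | t, ln p => p = 0 ∨ p = 2
  | ln p, t => p = 0 ∨ p = 2
  | ln p, ln p' => la p p'
  | _, _ => False

def R : Sl → Prop
  | pi _ => True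
  | ln p => p = 0
  | _ => False

theorem G_symm {a b : Sl} (h : G a b) : G b a := by
  cases a <;> cases b <;> first | exact h | exact Eq.symm h | exact h.elim | exact And.symm h

theorem G_refl (a : Sl) : G a a := by
  cases a with
  | pi i => exact rfl
  | t => trivial
  | ln p => have := rN_spec p; exact ⟨by omega, by omega⟩

end Sl

open Sl

/-- the type graph: slots, and `J` private pendants for each of them -/
def CH (J : ℕ) : TG (Sl × Option (Fin J)) where
  S a b := (a.2 = none ∧ b.2 = none ∧ G a.1 b.1) ∨ (a.1 = b.1 ∧ (a.2 = none ∨ b.2 = none))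
  C a b := a.2 = none ∧ b.2 = none ∧ G a.1 b.1
  R a := a.2 = none ∧ Sl.R a.1
  A a := a.2 = none ∧ a.1 = t
  B _ := False
  ξ := True
  Ss h := h.imp (fun h => ⟨h.2.1, h.1, G_symm h.2.2⟩) fun h => ⟨h.1.symm, h.2.symm⟩
  Cs h := ⟨h.2.1, h.1, G_symm h.2.2⟩
  BR h := h.elim

section
variable {J : ℕ} {inc : ℕ → ℕ × ℕ → Prop}

/-- the colour of a vertex -/
def CH.κ : Vx (Sl × Option (Fin J)) → Option (Fin J)
  | .cp a _ => a.2
  | _ => none

theorem CH.pend {σ : Sl} {j : Fin J} {i : ℕ × ℕ} {v : Vx (Sl × Option (Fin J))}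
    (h : (CH J).dad inc (.cp (σ, some j) i) v) : v = .cp (σ, none) i := by
  rcases v with _ | s | ⟨⟨τ, o⟩, k⟩
  · rcases h with h | h
    · exact absurd h.1 (by simp)
    · exact absurd h.1 (by simp)
  · rcases h with ⟨h, -⟩ | ⟨h, -⟩
    · exact absurd h.1 (by simp)
    · exact h.elim
  · rcases h with ⟨rfl, -, h | h⟩ | ⟨-, h⟩
    · exact absurd h.1 (by simp)
    · obtain ⟨rfl, h⟩ := h
      have ho : o = none := h.resolve_left (by simp)
      subst ho
      rfl
    · exact absurd h.1 (by simp)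

theorem CH.cpcp {σ τ : Sl} {i j : ℕ × ℕ} (h : G σ τ)
    (hne : (.cp (σ, none) i : Vx (Sl × Option (Fin J))) ≠ .cp (τ, none) j) :
    (CH J).dad inc (.cp (σ, none) i) (.cp (τ, none) j) := by
  by_cases e : i = j
  · exact Or.inl ⟨e, fun e' => hne (by rw [e, e']), Or.inl ⟨rfl, rfl, h⟩⟩
  · exact Or.inr ⟨e, rfl, rfl, h⟩

theorem CH.cpcp' {σ τ : Sl} {i j : ℕ × ℕ}
    (h : (CH J).dad inc (.cp (σ, none) i) (.cp (τ, none) j)) : G σ τ := by
  rcases h with ⟨-, -, h | h⟩ | ⟨-, h⟩
  · exact h.2.2
  · have e : σ = τ := h.1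
    subst e; exact G_refl _
  · exact h.2.2

/-- the private neighbours of `v` with respect to `v'` -/
def CH.P (J : ℕ) (inc : ℕ → ℕ × ℕ → Prop) (v v' z : Vx (Sl × Option (Fin J))) : Prop :=
  (CH J).dad inc v z ∧ ¬ (CH J).dad inc v' z ∧ z ≠ v'

/-- the private neighbours of `v` with colour `none` form a clique -/
def CH.Good (J : ℕ) (inc : ℕ → ℕ × ℕ → Prop) (v v' : Vx (Sl × Option (Fin J))) : Prop :=
  ∀ z1 z2, CH.P J inc v v' z1 → CH.P J inc v v' z2 → CH.κ z1 = none → CH.κ z2 = none → z1 ≠ z2 →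
    (CH J).dad inc z1 z2

/-- private neighbours of a copy with respect to another copy -/
theorem CH.Pcp {σ σ' : Sl} {i j : ℕ × ℕ} {z : Vx (Sl × Option (Fin J))}
    (h : CH.P J inc (.cp (σ, none) i) (.cp (σ', none) j) z) (hz : CH.κ z = none) :
    (z = .root ∧ (Sl.R σ ∨ σ = t) ∧ ¬ (Sl.R σ' ∨ σ' = t)) ∨
    (∃ s, z = .sel s ∧ σ = t ∧ inc s i ∧ ¬ (σ' = t ∧ inc s j)) ∨
    ∃ τ k, z = .cp (τ, none) k ∧ G σ τ ∧ ¬ G σ' τ := by
  obtain ⟨h1, h2, h3⟩ := h
  rcases z with _ | s | ⟨⟨τ, o⟩, k⟩
  · refine Or.inl ⟨rfl, h1.imp (fun h => h.2) fun h => h.2, fun h => h2 ?_⟩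
    exact h.imp (fun h => ⟨rfl, h⟩) fun h => ⟨rfl, h⟩
  · refine Or.inr (Or.inl ⟨s, rfl, ?_⟩)
    rcases h1 with ⟨h, h'⟩ | ⟨h, -⟩
    · exact ⟨h.2, h', fun h'' => h2 (Or.inl ⟨⟨rfl, h''.1⟩, h''.2⟩)⟩
    · exact h.elim
  · change o = none at hz
    subst hz
    exact Or.inr (Or.inr ⟨τ, k, rfl, CH.cpcp' h1, fun h => h2 (CH.cpcp h (Ne.symm h3))⟩)

theorem CH.rt {i : ℕ × ℕ} : (CH J).dad inc .root (.cp (t, none) i) := Or.inr ⟨rfl, rfl⟩

/-- it is enough to look at slots -/
theorem CH.good_of {σ σ' : Sl} {i j : ℕ × ℕ}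
    (h1 : (Sl.R σ ∨ σ = t) → ¬ (Sl.R σ' ∨ σ' = t) → ∀ τ, G σ τ → ¬ G σ' τ → τ = t)
    (h2 : σ = t → ∀ τ, G σ τ → G σ' τ)
    (h3 : ∀ τ τ', G σ τ → ¬ G σ' τ → G σ τ' → ¬ G σ' τ' → G τ τ') :
    CH.Good J inc (.cp (σ, none) i) (.cp (σ', none) j) := by
  intro z1 z2 p1 p2 c1 c2 hne
  rcases CH.Pcp p1 c1 with ⟨rfl, a1, a2⟩ | ⟨s, rfl, a1, a2, a3⟩ | ⟨τ, k, rfl, a1, a2⟩ <;>
    rcases CH.Pcp p2 c2 with ⟨rfl, b1, b2⟩ | ⟨s', rfl, b1, b2, b3⟩ | ⟨τ', k', rfl, b1, b2⟩
  · exact absurd rfl hne
  · exact trivial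
  · rw [h1 a1 a2 τ' b1 b2]; exact CH.rt
  · exact trivial
  · exact ⟨fun e => hne (by rw [e]), trivial⟩
  · exact absurd (h2 a1 τ' b1) b2
  · rw [h1 b1 b2 τ a1 a2]
    exact Or.inr ⟨rfl, rfl⟩
  · exact absurd (h2 b1 τ a1) a2
  · exact CH.cpcp (h3 _ _ a1 a2 b1 b2) hne

theorem CH.good_cp {σ σ' : Sl} (h : G σ σ') (i j : ℕ × ℕ) :
    CH.Good J inc (.cp (σ, none) i) (.cp (σ', none) j) ∨
    CH.Good J inc (.cp (σ', none) j) (.cp (σ, none) i) := by
  -- the case of two points of the line
  have line : ∀ p p' : ℕ, p < p' → la p p' → ∀ i j : ℕ × ℕ,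
      CH.Good J inc (.cp (ln p, none) i) (.cp (ln p', none) j) ∨
      CH.Good J inc (.cp (ln p', none) j) (.cp (ln p, none) i) := fun p p' hlt hpp i j => by
    by_cases hp : p = 0
    · subst hp
      have hp' : p' = 1 ∨ p' = 2 := by
        have h3 := hpp.1
        have : rN 0 = 2 := by decide
        omega
      have key : ∀ τ, G (ln 0) τ → ¬ G (ln p') τ → τ = t := fun τ a1 a2 => by
        rcases τ with i | _ | q
        · exact a1.elim
        · rfl
        · exfalso
          have a1 : la 0 q := a1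
          have a2 : ¬ la p' q := a2
          unfold la at a1 a2
          have := rN_spec 0; have := rN_spec p'; have := rN_spec q
          omega
      refine Or.inl (CH.good_of (fun _ _ => key) (fun e => by cases e) fun τ τ' a1 a2 b1 b2 => ?_)
      rw [key τ a1 a2, key τ' b1 b2]
      trivial
    · by_cases hc : p % 3 ≠ 2 ∨ p' = p + 3
      · refine Or.inl (CH.good_of (fun e => ?_) (fun e => by cases e) fun τ τ' a1 a2 b1 b2 => ?_)
        · rcases e with e | e
          · exact absurd e hp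
          · cases e
        · rcases τ with i | _ | q <;> rcases τ' with i' | _ | q'
          · exact a1.elim
          · exact a1.elim
          · exact a1.elim
          · exact b1.elim
          · trivial
          · change p = 0 ∨ p = 2 at a1
            have a2 : ¬ (p' = 0 ∨ p' = 2) := a2
            have b1 : la p q' := b1
            have b2 : ¬ la p' q' := b2
            show q' = 0 ∨ q' = 2
            unfold la at b1 b2
            have := rN_spec p; have := rN_spec p'; have := rN_spec q'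
            omega
          · exact b1.elim
          · change p = 0 ∨ p = 2 at b1
            have b2 : ¬ (p' = 0 ∨ p' = 2) := b2
            have a1 : la p q := a1
            have a2 : ¬ la p' q := a2
            show q = 0 ∨ q = 2
            unfold la at a1 a2
            have := rN_spec p; have := rN_spec p'; have := rN_spec q
            omega
          · exact la_L1 hlt hpp (by omega) hc a1 a2 b1 b2
      · push Not at hc
        refine Or.inr (CH.good_of (fun e => ?_) (fun e => by cases e) fun τ τ' a1 a2 b1 b2 => ?_)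
        · rcases e with e | e
          · exact absurd (show p' = 0 from e) (by omega)
          · cases e
        · rcases τ with i | _ | q <;> rcases τ' with i' | _ | q'
          · exact a1.elim
          · exact a1.elim
          · exact a1.elim
          · exact b1.elim
          · trivial
          · change p' = 0 ∨ p' = 2 at a1
            omega
          · exact b1.elim
          · change p' = 0 ∨ p' = 2 at b1
            omega
          · exact la_L2 hlt hpp hc.1 hc.2 a1 a2 b1 b2
  -- a common argument for equal slots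
  have same : ∀ σ : Sl, CH.Good J inc (.cp (σ, none) i) (.cp (σ, none) j) := fun σ =>
    CH.good_of (fun a b => absurd a b) (fun _ τ h => h) fun τ _ a1 a2 _ _ => absurd a1 a2
  -- `t` against the line
  have tl : ∀ p : ℕ, (p = 0 ∨ p = 2) → ∀ i j : ℕ × ℕ,
      CH.Good J inc (.cp (t, none) i) (.cp (ln p, none) j) ∨
      CH.Good J inc (.cp (ln p, none) j) (.cp (t, none) i) := fun p hp i j => by
    rcases hp with rfl | rfl
    · have key : ∀ τ, G (ln 0) τ → ¬ G t τ → τ = ln 1 := fun τ a1 a2 => by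
        rcases τ with i | _ | q
        · exact a1.elim
        · exact absurd trivial a2
        · have a1 : la 0 q := a1
          have a2 : ¬ (q = 0 ∨ q = 2) := a2
          unfold la at a1
          have := rN_spec 0
          have : q = 1 := by omega
          rw [this]
      refine Or.inr (CH.good_of (fun _ e => absurd (Or.inr rfl) e) (fun e => by cases e)
        fun τ τ' a1 a2 b1 b2 => ?_)
      rw [key τ a1 a2, key τ' b1 b2]
      exact G_refl _
    · have key : ∀ τ, G t τ → G (ln 2) τ := fun τ a1 => by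
        rcases τ with i | _ | q
        · exact a1.elim
        · exact Or.inr rfl
        · rcases a1 with rfl | rfl
          · exact ⟨by decide, by decide⟩
          · exact G_refl _
      exact Or.inl (CH.good_of (fun _ _ τ a1 a2 => absurd (key τ a1) a2) (fun _ => key)
        fun τ τ' a1 a2 b1 b2 => absurd (key τ a1) a2)
  rcases σ with a | _ | p <;> rcases σ' with a' | _ | p'
  · have e : a = a' := h
    subst e; exact Or.inl (same _)
  · exact h.elim
  · exact h.elim
  · exact h.elim
  · exact Or.inl (same _)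
  · exact tl p' h i j
  · exact h.elim
  · exact (tl p h j i).symm
  · rcases Nat.lt_trichotomy p p' with h' | rfl | h'
    · exact line p p' h' h i j
    · exact Or.inl (same _)
    · exact (line p' p h' (G_symm h) j i).symm

theorem CH.good (v v' : Vx (Sl × Option (Fin J))) (h : (CH J).dad inc v v') :
    CH.Good J inc v v' ∨ CH.Good J inc v' v := by
  -- a pendant vertex
  have pe : ∀ σ (o : Fin J) i v, (CH J).dad inc (.cp (σ, some o) i) v →
      CH.Good J inc (.cp (σ, some o) i) v := fun σ o i v hv z1 z2 p1 _ _ _ _ =>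
    absurd ((CH.pend p1.1).trans (CH.pend hv).symm) p1.2.2
  -- the root against a copy
  have ro : ∀ σ i, (CH J).dad inc .root (.cp (σ, none) i) →
      CH.Good J inc (.cp (σ, none) i) .root := fun σ i hσ z1 z2 p1 p2 c1 c2 hne => by
    have key : ∀ z, CH.P J inc (.cp (σ, none) i) .root z → CH.κ z = none →
        ∃ q k, z = .cp (ln q, none) k ∧ (q = 1 ∨ q = 2) := fun z ⟨h1, h2, h3⟩ hz => by
      rcases z with _ | s | ⟨⟨τ, o⟩, k⟩
      · exact absurd rfl h3
      · exact absurd trivial h2
      · change o = none at hz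
        subst hz
        have hG := CH.cpcp' h1
        have hn : ¬ (Sl.R τ ∨ τ = t) := fun h => h2 (h.imp (fun h => ⟨rfl, h⟩) fun h => ⟨rfl, h⟩)
        have hσ' : Sl.R σ ∨ σ = t := hσ.imp (fun h => h.2) fun h => h.2
        rcases τ with a | _ | q
        · exact absurd (Or.inl trivial) hn
        · exact absurd (Or.inr rfl) hn
        · refine ⟨q, k, rfl, ?_⟩
          have hq : q ≠ 0 := fun e => hn (Or.inl e)
          rcases σ with a | _ | p
          · exact hG.elim
          · exact Or.inr (hG.resolve_left hq)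
          · rcases hσ' with e | e
            · change p = 0 at e
              subst e
              have hG : la 0 q := hG
              unfold la at hG
              have := rN_spec 0
              omega
            · cases e
    obtain ⟨q, k, rfl, hq⟩ := key z1 p1 c1
    obtain ⟨q', k', rfl, hq'⟩ := key z2 p2 c2
    refine CH.cpcp ?_ hne
    show la q q'
    unfold la
    have := rN_spec q; have := rN_spec q'
    omega
  -- a selector against a copy
  have se : ∀ s σ i, (CH J).dad inc (.sel s) (.cp (σ, none) i) →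
      CH.Good J inc (.sel s) (.cp (σ, none) i) := fun s σ i hσ z1 z2 p1 p2 c1 c2 hne => by
    have hσ' : σ = t := by
      rcases hσ with ⟨h, -⟩ | ⟨h, -⟩
      · exact h.2
      · exact h.elim
    subst hσ'
    have key : ∀ z, CH.P J inc (.sel s) (.cp (t, none) i) z → CH.κ z = none →
        ∃ s', z = .sel s' := fun z ⟨h1, h2, h3⟩ hz => by
      rcases z with _ | s | ⟨⟨τ, o⟩, k⟩
      · exact absurd (Or.inr ⟨rfl, rfl⟩) h2
      · exact ⟨s, rfl⟩
      · change o = none at hz
        subst hz
        rcases h1 with ⟨h, -⟩ | ⟨h, -⟩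
        · obtain ⟨-, h⟩ := h
          have h : τ = t := h
          subst h
          exact absurd (CH.cpcp (G_refl _) (Ne.symm h3)) h2
        · exact h.elim
    obtain ⟨s1, rfl⟩ := key z1 p1 c1
    obtain ⟨s2, rfl⟩ := key z2 p2 c2
    exact ⟨fun e => hne (by rw [e]), trivial⟩
  rcases v with _ | s | ⟨⟨σ, o⟩, i⟩ <;> rcases v' with _ | s' | ⟨⟨σ', o'⟩, i'⟩
  · exact h.elim
  · refine Or.inr fun z1 z2 p1 p2 _ _ hne => ?_
    have key : ∀ z, ¬ CH.P J inc (.sel s') .root z := fun z ⟨h1, h2, h3⟩ => by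
      rcases z with _ | s | ⟨⟨τ, o⟩, k⟩
      · exact h3 rfl
      · exact h2 trivial
      · rcases h1 with ⟨h, -⟩ | ⟨h, -⟩
        · exact h2 (Or.inr h)
        · exact h
    exact absurd p1 (key z1)
  · rcases o' with _ | o'
    · exact Or.inr (ro _ _ h)
    · exact Or.inr (pe _ _ _ _ (dsy h))
  · refine Or.inl fun z1 z2 p1 p2 _ _ hne => ?_
    have key : ∀ z, ¬ CH.P J inc (.sel s) .root z := fun z ⟨h1, h2, h3⟩ => by
      rcases z with _ | s | ⟨⟨τ, o⟩, k⟩
      · exact h3 rfl
      · exact h2 trivial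
      · rcases h1 with ⟨h, -⟩ | ⟨h, -⟩
        · exact h2 (Or.inr h)
        · exact h
    exact absurd p1 (key z1)
  · refine Or.inl fun z1 z2 p1 p2 c1 c2 hne => ?_
    have key : ∀ z, CH.P J inc (.sel s) (.sel s') z → CH.κ z = none →
        ∃ k, z = .cp (t, none) k := fun z ⟨h1, h2, h3⟩ hz => by
      rcases z with _ | s | ⟨⟨τ, o⟩, k⟩
      · exact absurd trivial h2
      · exact absurd ⟨fun e => h3 (by rw [e]), trivial⟩ h2
      · change o = none at hz
        subst hz
        rcases h1 with ⟨h, -⟩ | ⟨h, -⟩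
        · obtain ⟨-, h⟩ := h
          have h : τ = t := h
          subst h
          exact ⟨k, rfl⟩
        · exact h.elim
    obtain ⟨k, rfl⟩ := key z1 p1 c1
    obtain ⟨k', rfl⟩ := key z2 p2 c2
    exact CH.cpcp (G_refl _) hne
  · rcases o' with _ | o'
    · exact Or.inl (se _ _ _ h)
    · exact Or.inr (pe _ _ _ _ (dsy h))
  · rcases o with _ | o
    · exact Or.inl (ro _ _ (dsy h))
    · exact Or.inl (pe _ _ _ _ h)
  · rcases o with _ | o
    · exact Or.inr (se _ _ _ (dsy h))
    · exact Or.inl (pe _ _ _ _ h)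
  · rcases o with _ | o
    · rcases o' with _ | o'
      · exact CH.good_cp (CH.cpcp' h) _ _
      · exact Or.inr (pe _ _ _ _ (dsy h))
    · exact Or.inl (pe _ _ _ _ h)

/-- `J + 2` independent private neighbours on one side are impossible on one of the sides. -/
theorem CH.few {m : ℕ} {H : SimpleGraph (Fin m)} (f : H ↪g (CH J).DG inc) {a b : Fin m}
    (hab : H.Adj a b) : (∀ I : Finset (Fin m), (∀ v ∈ I, H.Adj a v) → (∀ v ∈ I, ¬ H.Adj b v) →
      (∀ v ∈ I, v ≠ b) → (∀ v ∈ I, ∀ v' ∈ I, ¬ H.Adj v v') → I.card ≤ J + 1) ∨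
    (∀ I : Finset (Fin m), (∀ v ∈ I, H.Adj b v) → (∀ v ∈ I, ¬ H.Adj a v) →
      (∀ v ∈ I, v ≠ a) → (∀ v ∈ I, ∀ v' ∈ I, ¬ H.Adj v v') → I.card ≤ J + 1) := by
  have main : ∀ a b : Fin m, CH.Good J inc (f a) (f b) → ∀ I : Finset (Fin m),
      (∀ v ∈ I, H.Adj a v) → (∀ v ∈ I, ¬ H.Adj b v) →
      (∀ v ∈ I, v ≠ b) → (∀ v ∈ I, ∀ v' ∈ I, ¬ H.Adj v v') → I.card ≤ J + 1 :=
    fun a b hg I h1 h2 h3 h4 => by
      have := Finset.card_le_card_of_injOn (s := I) (t := (Finset.univ : Finset (Option (Fin J))))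
        (fun v => CH.κ (f v)) (fun _ _ => Finset.mem_coe.2 (Finset.mem_univ _)) fun v hv v' hv' e => by
          by_contra hne
          have e : CH.κ (f v) = CH.κ (f v') := e
          have hP : ∀ v ∈ I, CH.P J inc (f a) (f b) (f v) := fun v hv =>
            ⟨f.map_adj_iff.2 (h1 v hv), fun h => h2 v hv (f.map_adj_iff.1 h),
              fun h => h3 v hv (f.injective h)⟩
          rcases ho : CH.κ (f v) with _ | o
          · exact h4 v hv v' hv' (f.map_adj_iff.1 (hg _ _ (hP v hv) (hP v' hv') ho (e ▸ ho)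
              fun h => hne (f.injective h)))
          · -- both are the same pendant vertex
            have pn : ∀ v ∈ I, CH.κ (f v) = some o → ∃ σ i, f v = .cp (σ, some o) i ∧
                f a = .cp (σ, none) i := fun v hv hk => by
              rcases ev : f v with _ | s | ⟨⟨σ, o'⟩, i⟩
              · rw [ev] at hk; cases hk
              · rw [ev] at hk; cases hk
              · rw [ev] at hk
                change o' = some o at hk
                subst hk
                refine ⟨σ, i, rfl, CH.pend (inc := inc) (j := o) ?_⟩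
                have := dsy (hP v hv).1
                rw [ev] at this
                exact this
            obtain ⟨σ, i, g1, g2⟩ := pn v hv ho
            obtain ⟨σ', i', g3, g4⟩ := pn v' hv' (e ▸ ho)
            rw [g2] at g4
            cases g4
            exact hne (f.injective (g1.trans g3.symm))
      rwa [Finset.card_univ, Fintype.card_option, Fintype.card_fin] at this
  rcases CH.good _ _ (f.map_adj_iff.2 hab) with h | h
  · exact Or.inl (main a b h)
  · exact Or.inr (main b a h)

end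

end Pool.Agent.L0h77.HC
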