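import Pool.Agent.L0h77.HC.Ch1
import Pool.Agent.L0h77.HC.Br0

/-! Double stars. -/

namespace Pool.Agent.L0h77.HC

open Pool.Agent.H22.CT Pool.Agent.H38.NP Pool.Agent.H36.Par SimpleGraph Function Sl

/-- restriction of a type graph to some of its types -/
def TG.sub {Ty : Type} (D : TG Ty) (P : Ty → Prop) : TG {a // P a} where
  S a b := D.S a.1 b.1
  C a b := D.C a.1 b.1
  R a := D.R a.1
  A a := D.A a.1
  B a := D.B a.1
  ξ := D.ξ
  Ss h := D.Ss h
  Cs h := D.Cs h
  BR h := D.BR h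

def TG.subEmb {Ty : Type} (D : TG Ty) (P : Ty → Prop) (inc : ℕ → ℕ × ℕ → Prop) :
    (D.sub P).DG inc ↪g D.DG inc where
  toFun v := match v with
    | .root => .root
    | .sel s => .sel s
    | .cp a i => .cp a.1 i
  inj' a b h := by
    rcases a with _ | s | ⟨⟨a, ha⟩, i⟩ <;> rcases b with _ | s' | ⟨⟨b, hb⟩, j⟩ <;>
      simp_all
  map_rel_iff' := by
    intro a b
    rcases a with _ | s | ⟨⟨a, ha⟩, i⟩ <;> rcases b with _ | s' | ⟨⟨b, hb⟩, j⟩
    all_goals first
      | exact Iff.rfl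
      | skip
    show ((i = j ∧ a ≠ b ∧ D.S a b) ∨ (i ≠ j ∧ D.C a b)) ↔
      ((i = j ∧ (⟨a, ha⟩ : {a // P a}) ≠ ⟨b, hb⟩ ∧ D.S a b) ∨ (i ≠ j ∧ D.C a b))
    simp [Subtype.ext_iff]

section
variable (m J : ℕ)

/-- the slots used for the parameter `k` -/
def bd (k : ℕ) : Sl → Prop
  | pi i => i < m
  | t => True
  | ln p => p < 8 * k + 9

/-- code of a slot -/
def cs : Sl → ℕ
  | pi i => i
  | t => m
  | ln p => m + 1 + p

def co : Option (Fin J) → ℕ
  | none => 0
  | some j => j.val + 1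

def code (a : Sl × Option (Fin J)) : ℕ := cs m a.1 * (J + 1) + co J a.2

theorem co_lt (o : Option (Fin J)) : co J o < J + 1 := by
  rcases o with _ | ⟨j, hj⟩ <;> simp [co]
  exact hj

theorem co_zero (o : Option (Fin J)) : co J o = 0 ↔ o = none := by
  rcases o with _ | ⟨j, hj⟩ <;> simp [co]

theorem co_inj {o o' : Option (Fin J)} (h : co J o = co J o') : o = o' := by
  rcases o with _ | ⟨j, hj⟩ <;> rcases o' with _ | ⟨j', hj'⟩ <;> simp_all [co]

theorem cs_inj {k : ℕ} {a b : Sl} (ha : bd m k a) (hb : bd m k b) (h : cs m a = cs m b) : a = b := by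
  rcases a with i | _ | p <;> rcases b with j | _ | p' <;> simp_all [cs, bd] <;> omega

theorem code_div (a : Sl × Option (Fin J)) : code m J a / (J + 1) = cs m a.1 := by
  have := co_lt J a.2
  rw [code, mul_comm, Nat.mul_add_div (by omega), Nat.div_eq_of_lt this, add_zero]

theorem code_mod (a : Sl × Option (Fin J)) : code m J a % (J + 1) = co J a.2 := by
  have := co_lt J a.2
  rw [code, mul_comm, Nat.mul_add_mod, Nat.mod_eq_of_lt this]

/-- number of types -/
def Mk (k : ℕ) : ℕ := (m + (8 * k + 10)) * (J + 1)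

theorem code_lt {k : ℕ} {a : Sl × Option (Fin J)} (h : bd m k a.1) : code m J a < Mk m J k := by
  have h1 := co_lt J a.2
  have h2 : cs m a.1 + 1 ≤ m + (8 * k + 10) := by
    rcases ha : a.1 with i | _ | p <;> rw [ha] at h <;> simp only [bd, cs] at h ⊢ <;> omega
  calc code m J a < cs m a.1 * (J + 1) + (J + 1) := by rw [code]; omega
    _ = (cs m a.1 + 1) * (J + 1) := by ring
    _ ≤ _ := Nat.mul_le_mul_right _ h2

noncomputable def ek (k : ℕ) : {a : Sl × Option (Fin J) // bd m k a.1} ≃ Fin (Mk m J k) :=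
  Equiv.ofBijective (fun a => ⟨code m J a.1, code_lt m J a.2⟩) ⟨fun a b h => by
    have h : code m J a.1 = code m J b.1 := congrArg Fin.val h
    have h1 : cs m a.1.1 = cs m b.1.1 := by rw [← code_div, ← code_div, h]
    have h2 : co J a.1.2 = co J b.1.2 := by rw [← code_mod m, ← code_mod m, h]
    exact Subtype.ext (Prod.ext (cs_inj m a.2 b.2 h1) (co_inj J h2)), fun ⟨n, hn⟩ => by
    have hq : n / (J + 1) < m + (8 * k + 10) := (Nat.div_lt_iff_lt_mul (by omega)).2 hn
    have hr : n % (J + 1) < J + 1 := Nat.mod_lt _ (by omega)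
    obtain ⟨σ, h1, h2⟩ : ∃ σ, bd m k σ ∧ cs m σ = n / (J + 1) := by
      rcases Nat.lt_trichotomy (n / (J + 1)) m with h | h | h
      · exact ⟨pi _, h, rfl⟩
      · exact ⟨t, trivial, h.symm⟩
      · exact ⟨ln (n / (J + 1) - (m + 1)), by simp only [bd]; omega, by simp only [cs]; omega⟩
    obtain ⟨o, h3⟩ : ∃ o, co J o = n % (J + 1) := by
      by_cases h : n % (J + 1) = 0
      · exact ⟨none, h.symm⟩
      · exact ⟨some ⟨n % (J + 1) - 1, by omega⟩, by simp only [co]; omega⟩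
    refine ⟨⟨(σ, o), h1⟩, Fin.ext ?_⟩
    show code m J (σ, o) = n
    rw [code, h2, h3, mul_comm]
    exact Nat.div_add_mod n (J + 1)⟩

theorem ek_val {k : ℕ} (a : {a : Sl × Option (Fin J) // bd m k a.1}) :
    (ek m J k a).val = code m J a.1 := rfl

/-- adjacency of slot codes -/
def Gc (s s' : ℕ) : Bool :=
  decide ((s < m ∧ s = s') ∨ (s = m ∧ (s' = m ∨ s' = m + 1 ∨ s' = m + 3)) ∨
    (s' = m ∧ (s = m + 1 ∨ s = m + 3)) ∨ (m < s ∧ m < s' ∧ s' - (m + 1) ≤ rN (s - (m + 1)) ∧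
      s - (m + 1) ≤ rN (s' - (m + 1))))

theorem Gc_iff {k : ℕ} {a b : Sl} (ha : bd m k a) (hb : bd m k b) :
    G a b ↔ Gc m (cs m a) (cs m b) = true := by
  rw [Gc, decide_eq_true_eq]
  rcases a with i | _ | p <;> rcases b with j | _ | p' <;> simp only [bd, cs, G, la] at ha hb ⊢
  · omega
  · exact ⟨False.elim, fun h => by omega⟩
  · exact ⟨False.elim, fun h => by omega⟩
  · exact ⟨False.elim, fun h => by omega⟩
  · exact ⟨fun _ => by simp, fun _ => trivial⟩
  · exact ⟨fun h => by simp; omega, fun h => by omega⟩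
  · exact ⟨False.elim, fun h => by omega⟩
  · exact ⟨fun h => by simp; omega, fun h => by omega⟩
  · rw [show m + 1 + p' - (m + 1) = p' by omega, show m + 1 + p - (m + 1) = p by omega]
    omega

def bSc (a b : ℕ) : Bool :=
  (decide (a % (J + 1) = 0) && decide (b % (J + 1) = 0) && Gc m (a / (J + 1)) (b / (J + 1))) ||
    (decide (a / (J + 1) = b / (J + 1)) && (decide (a % (J + 1) = 0) || decide (b % (J + 1) = 0)))

def bCc (a b : ℕ) : Bool :=
  decide (a % (J + 1) = 0) && decide (b % (J + 1) = 0) && Gc m (a / (J + 1)) (b / (J + 1))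

def bRc (a : ℕ) : Bool := decide (a % (J + 1) = 0) && decide (a / (J + 1) < m ∨ a / (J + 1) = m + 1)

def bAc (a : ℕ) : Bool := decide (a % (J + 1) = 0) && decide (a / (J + 1) = m)

@[fun_prop] theorem pt_rN {α : Type} [Enc α] {f : α → ℕ} (hf : PT f) : PT fun a => rN (f a) := by
  unfold rN; fun_prop

@[fun_prop] theorem pt_Gc {α : Type} [Enc α] {f g : α → ℕ} (hf : PT f) (hg : PT g) :
    PT fun a => Gc m (f a) (g a) := by
  unfold Gc; fun_prop

end

theorem sub_fw {m J : ℕ} {H : SimpleGraph (Fin m)} (P : Sl × Option (Fin J) → Prop)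
    (inc : ℕ → ℕ × ℕ → Prop) (h : IsEmpty (H ↪g (CH J).DG inc)) :
    IsEmpty (H ↪g ((CH J).sub P).DG inc) := ⟨fun f => h.elim (((CH J).subEmb P inc).comp f)⟩

/-- position of a slot on the line -/
def pos : Sl → ℕ
  | ln p => p
  | _ => 0

theorem pos_G {a b : Sl} (h : G a b) : pos b ≤ pos a + 4 := by
  rcases a with i | _ | p <;> rcases b with j | _ | p' <;> simp only [pos, G, la] at h ⊢ <;>
    (try have := rN_spec p) <;> omega

theorem rch_pos {m J k : ℕ} {Y : {a : Sl × Option (Fin J) // bd m k a.1} → Prop} {l : ℕ}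
    {a : {a : Sl × Option (Fin J) // bd m k a.1}}
    (h : ((CH J).sub fun a => bd m k a.1).Rch Y l a) : 1 ≤ l ∧ pos a.1.1 ≤ 4 * (l - 1) := by
  induction h with
  | @base a _ h =>
    refine ⟨le_rfl, ?_⟩
    obtain ⟨⟨σ, o⟩, ha⟩ := a
    rcases h with h | h
    · have h : Sl.R σ := h.2
      rcases σ with i | _ | p
      · exact Nat.zero_le _
      · exact Nat.zero_le _
      · have h : p = 0 := h
        subst h; exact Nat.zero_le _
    · have h : σ = t := h.2
      subst h; exact Nat.zero_le _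
  | @step l a b _ _ h ih =>
    have : pos b.1.1 ≤ pos a.1.1 + 4 := by
      rcases h with (h | h) | h
      · exact pos_G h.2.2
      · have h : a.1.1 = b.1.1 := h.1
        rw [h]; omega
      · exact pos_G h.2.2
    omega

/-- The slots that are used for a copy of the double star. -/
theorem threat (m k : ℕ) (Y : Sl → Prop) (hY : ∀ a, Y a → pos a ≤ 8 * k) :
    ∃ ζ ζ1 ζ2 : Sl, bd m k ζ ∧ bd m k ζ1 ∧ bd m k ζ2 ∧ (Sl.R ζ ∨ ∃ τ, Y τ ∧ G τ ζ) ∧
      ¬ (Sl.R ζ1 ∨ ∃ τ, Y τ ∧ G τ ζ1) ∧ ¬ (Sl.R ζ2 ∨ ∃ τ, Y τ ∧ G τ ζ2) ∧ G ζ ζ1 ∧ G ζ ζ2 ∧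
      ¬ G ζ1 ζ2 ∧ (∀ i, ¬ G ζ (pi i)) ∧ (∀ i, ¬ G ζ1 (pi i)) ∧ (∀ i, ¬ G ζ2 (pi i)) ∧
      ζ ≠ ζ1 ∧ ζ ≠ ζ2 ∧ ζ1 ≠ ζ2 := by
  by_cases h0 : ∃ τ, Y τ ∧ ∀ i, τ ≠ pi i
  · let S : Set ℕ := {n | ∃ τ, Y τ ∧ ((τ = t ∧ n = 2) ∨ ∃ p, τ = ln p ∧ n = rN p)}
    have hne : S.Nonempty := by
      obtain ⟨τ, h1, h2⟩ := h0
      rcases τ with i | _ | p
      · exact absurd rfl (h2 i)
      · exact ⟨2, t, h1, Or.inl ⟨rfl, rfl⟩⟩
      · exact ⟨rN p, ln p, h1, Or.inr ⟨p, rfl, rfl⟩⟩
    have hb : ∀ n ∈ S, n ≤ 8 * k + 4 := by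
      rintro n ⟨τ, h1, ⟨-, rfl⟩ | ⟨p, rfl, rfl⟩⟩
      · omega
      · have h2 : p ≤ 8 * k := hY _ h1
        have := rN_spec p
        omega
    have hM := Nat.sSup_mem hne ⟨8 * k + 4, hb⟩
    have hle : ∀ n ∈ S, n ≤ sSup S := fun n hn => le_csSup ⟨8 * k + 4, hb⟩ hn
    have hMb := hb _ hM
    generalize sSup S = M at hM hle hMb
    have hz : ∃ z, z % 3 = 2 ∧ z + 2 > M ∧ z ≤ M ∧ (∃ τ, Y τ ∧ G τ (ln z)) := by
      obtain ⟨τ, h1, ⟨rfl, h2⟩ | ⟨p, rfl, h2⟩⟩ := hM
      · exact ⟨2, by omega, by omega, by omega, t, h1, Or.inr rfl⟩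
      · rcases rN_spec p with ⟨h3, h4⟩ | ⟨h3, h4⟩ | ⟨h3, h5, h4⟩
        · by_cases h6 : p = 1
          · subst h6
            exact ⟨5, by omega, by omega, by omega, _, h1, by
              have := rN_spec 5
              show la 1 5
              unfold la; omega⟩
          · exact ⟨p + 3, by omega, by omega, by omega, _, h1, by
              have := rN_spec (p + 3)
              show la p (p + 3)
              unfold la; omega⟩
        · exact ⟨p + 2, by omega, by omega, by omega, _, h1, by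
            have := rN_spec (p + 2)
            show la p (p + 2)
            unfold la; omega⟩
        · exact ⟨p + 1, by omega, by omega, by omega, _, h1, by
            have := rN_spec (p + 1)
            show la p (p + 1)
            unfold la; omega⟩
    obtain ⟨z, z1, z2, z3, hz⟩ := hz
    have ina : ∀ w, M < w → w ≠ 0 → w ≠ 2 → ¬ (Sl.R (ln w) ∨ ∃ τ, Y τ ∧ G τ (ln w)) := by
      rintro w hw h2 h3 (h | ⟨τ, h, h'⟩)
      · exact h2 h
      · rcases τ with i | _ | p
        · exact h'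
        · rcases h' with h' | h'
          · exact h2 h'
          · exact h3 h'
        · have := hle (rN p) ⟨_, h, Or.inr ⟨p, rfl, rfl⟩⟩
          have h' : la p w := h'
          unfold la at h'
          omega
    have r1 := rN_spec z
    have r2 := rN_spec (z + 2)
    have r3 := rN_spec (z + 4)
    refine ⟨ln z, ln (z + 2), ln (z + 4), ?_, ?_, ?_, Or.inr hz, ina _ (by omega) (by omega)
      (by omega), ina _ (by omega) (by omega) (by omega), ?_, ?_, ?_, fun i h => h, fun i h => h,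
      fun i h => h, fun h => ?_, fun h => ?_, fun h => ?_⟩
    · simp only [bd]; omega
    · simp only [bd]; omega
    · simp only [bd]; omega
    · show la z (z + 2)
      unfold la; omega
    · show la z (z + 4)
      unfold la; omega
    · show ¬ la (z + 2) (z + 4)
      unfold la; omega
    · injection h; omega
    · injection h; omega
    · injection h; omega
  · push Not at h0
    have ina : ∀ ζ, (∀ i, ¬ G ζ (pi i)) → ¬ ∃ τ, Y τ ∧ G τ ζ := by
      rintro ζ hζ ⟨τ, h1, h2⟩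
      obtain ⟨i, rfl⟩ := h0 τ h1
      exact hζ i (G_symm h2)
    refine ⟨ln 0, t, ln 1, ?_, trivial, ?_, Or.inl rfl, ?_, ?_, Or.inl rfl, ?_, ?_,
      fun i h => h, fun i h => h, fun i h => h, by simp, by simp, by simp⟩
    · simp only [bd]; omega
    · simp only [bd]; omega
    · rintro (h | h)
      · exact h
      · exact ina t (fun i h => h) h
    · rintro (h | h)
      · exact absurd (show (1 : ℕ) = 0 from h) (by omega)
      · exact ina (ln 1) (fun i h => h) h
    · exact ⟨by decide, by decide⟩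
    · rintro (h | h)
      · exact absurd h (by decide)
      · exact absurd h (by decide)

end Pool.Agent.L0h77.HC
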