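import Pool.Agent.L0h77.HC.Ch2
import Pool.Agent.L0h77.HC.Br5

/-! Double stars: hardness, and the full theorem. -/

namespace Pool.Agent.L0h77.HC

open Pool.Agent.H22.CT Pool.Agent.H38.NP Pool.Agent.H36.Par SimpleGraph Function Sl

variable {m : ℕ} {H : SimpleGraph (Fin m)}

theorem hardM {D K L : Fin m → Prop} {q : Fin m} (B : Br H (fun _ => False) q D K L)
    (DD : ∀ d d', D d → D d' → ¬ H.Adj d d') (hK : ∀ k k', K k → K k' → k = k') {l1 l2 : Fin m}
    (hl1 : L l1) (hl2 : L l2) (l12 : l1 ≠ l2)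
    (hcard : Nat.card {v // L v} ≤ Nat.card {v // D v}) : W2Hard (Con₁ H) := by
  classical
  obtain ⟨k0, hk0⟩ := B.K0
  set X : Finset (Fin m) := ((Finset.univ.filter L).erase l1).erase l2 with hX
  have cL : (Finset.univ.filter L).card = X.card + 2 := by
    have h1 : l2 ∈ (Finset.univ.filter L).erase l1 := by simp [hl2, l12.symm]
    have h2 : l1 ∈ Finset.univ.filter L := by simp [hl1]
    have h3 := Finset.card_pos.2 ⟨_, h1⟩
    have h4 := Finset.card_pos.2 ⟨_, h2⟩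
    rw [hX, Finset.card_erase_of_mem h1]
    rw [Finset.card_erase_of_mem h2] at h3 ⊢
    omega
  have cD : X.card + 2 ≤ (Finset.univ.filter D).card := by
    rw [← cL]
    rw [Nat.card_eq_fintype_card, Nat.card_eq_fintype_card, Fintype.card_subtype,
      Fintype.card_subtype] at hcard
    exact hcard
  have mX : ∀ v, v ∈ X ↔ v ≠ l2 ∧ v ≠ l1 ∧ L v := fun v => by simp [hX]
  have qk : H.Adj q k0 := B.qK _ hk0
  have fw : ∀ inc, IsEmpty (H ↪g (CH X.card).DG inc) := fun inc => ⟨fun f => by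
    rcases CH.few f qk with h | h
    · have := h (Finset.univ.filter D) (fun v hv => B.qD v (by simpa using hv))
        (fun v hv h' => B.DK v k0 (by simpa using hv) hk0 h'.symm)
        (fun v hv e => B.nDK (by simpa using hv) (e ▸ hk0))
        fun v hv v' hv' => DD v v' (by simpa using hv) (by simpa using hv')
      omega
    · have := h (Finset.univ.filter L) (fun v hv => B.KL k0 v hk0 (by simpa using hv))
        (fun v hv h' => B.qL v (by simpa using hv) h')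
        (fun v hv e => B.Lq (e ▸ (by simpa using hv : L v)))
        fun v hv v' hv' => B.LL v v' (by simpa using hv) (by simpa using hv')
      omega⟩
  refine hard5 q.pos H (fun k => (CH X.card).sub fun a => bd m k a.1) (Mk m X.card)
    (fun _ => bSc m X.card) (fun _ => bCc m X.card) (fun _ => bRc m X.card)
    (fun _ => bAc m X.card) (fun _ _ => false) true (ek m X.card) (fun k a b => ?_)
    (fun k a b => ?_) (fun k a => ?_) (fun k a => ?_) (fun k a => ?_) (fun k => ?_) ?_ ?_ ?_ ?_ ?_ ?_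
    (fun k inc => sub_fw _ inc (fw inc)) fun k Y hY => ?_
  · rw [ek_val, ek_val, bSc, code_div, code_mod, code_div, code_mod]
    simp only [Bool.or_eq_true, Bool.and_eq_true, decide_eq_true_eq, co_zero]
    rw [← Gc_iff m a.2 b.2]
    have e : cs m a.1.1 = cs m b.1.1 ↔ a.1.1 = b.1.1 := ⟨cs_inj m a.2 b.2, fun h => by rw [h]⟩
    rw [e]
    exact ⟨fun h => h.imp (fun h => ⟨⟨h.1, h.2.1⟩, h.2.2⟩) id,
      fun h => h.imp (fun h => ⟨h.1.1, h.1.2, h.2⟩) id⟩
  · rw [ek_val, ek_val, bCc, code_div, code_mod, code_div, code_mod]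
    simp only [Bool.and_eq_true, decide_eq_true_eq, co_zero]
    rw [← Gc_iff m a.2 b.2]
    exact ⟨fun h => ⟨⟨h.1, h.2.1⟩, h.2.2⟩, fun h => ⟨h.1.1, h.1.2, h.2⟩⟩
  · rw [ek_val, bRc, code_div, code_mod]
    simp only [Bool.and_eq_true, decide_eq_true_eq, co_zero]
    refine and_congr_right fun _ => ?_
    obtain ⟨⟨σ, o⟩, ha⟩ := a
    change Sl.R σ ↔ cs m σ < m ∨ cs m σ = m + 1
    rcases σ with i | _ | p
    · exact iff_of_true trivial (Or.inl ha)
    · exact iff_of_false (fun h => h) (by simp only [cs]; omega)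
    · change p = 0 ↔ m + 1 + p < m ∨ m + 1 + p = m + 1
      omega
  · rw [ek_val, bAc, code_div, code_mod]
    simp only [Bool.and_eq_true, decide_eq_true_eq, co_zero]
    refine and_congr_right fun _ => ?_
    obtain ⟨⟨σ, o⟩, ha⟩ := a
    change σ = t ↔ cs m σ = m
    rcases σ with i | _ | p
    · exact iff_of_false (by simp) (fun h => absurd (show i < m from ha) (by
        have : i = m := h
        omega))
    · exact iff_of_true rfl rfl
    · exact iff_of_false (by simp) (by simp only [cs]; omega)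
  · exact iff_of_false (fun h => h) (by simp)
  · exact iff_of_true trivial rfl
  · unfold Mk; fun_prop
  · unfold bSc; fun_prop
  · unfold bCc; fun_prop
  · unfold bRc; fun_prop
  · unfold bAc; fun_prop
  · fun_prop
  -- the penalty
  let Y' : Sl → Prop := fun σ => ∃ h : bd m k σ, Y ⟨(σ, none), h⟩
  obtain ⟨ζ, ζ1, ζ2, b0, b1, b2, act, in1, in2, g1, g2, g12, p0, p1, p2, n1, n2, n12⟩ :=
    threat m k Y' fun σ ⟨h, hσ⟩ => by
      obtain ⟨l, hl, hr⟩ := hY _ hσ
      have := rch_pos hr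
      simp only at this
      omega
  -- adjacency to the root
  have rt : ∀ σ (h : bd m k σ) (κ : Type) (i : κ), (Sl.R σ ∨ ∃ τ, Y' τ ∧ G τ σ) ↔
      ((CH X.card).sub fun a => bd m k a.1).wad Y none (some (⟨(σ, none), h⟩, i)) :=
    fun σ h κ i => by
      constructor
      · rintro (h' | ⟨τ, ⟨hτ, h1⟩, h2⟩)
        · exact Or.inl ⟨rfl, h'⟩
        · exact Or.inr ⟨_, h1, rfl, rfl, h2⟩
      · rintro (h' | ⟨⟨⟨τ, o⟩, hτ⟩, h1, h2⟩)
        · exact Or.inl h'.2
        · obtain ⟨h3, -, h4⟩ := h2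
          have h3 : o = none := h3
          subst h3
          exact Or.inr ⟨τ, ⟨hτ, h1⟩, h4⟩
  have rt' : ∀ σ (j : Fin X.card) (h : bd m k σ) (κ : Type) (i : κ),
      ¬ ((CH X.card).sub fun a => bd m k a.1).wad Y none (some (⟨(σ, some j), h⟩, i)) := by
    rintro σ j h κ i (h' | ⟨y, -, h2⟩)
    · exact absurd h'.1 (by simp)
    · exact absurd h2.2.1 (by simp)
  have bpi : ∀ v : Fin m, bd m k (pi v.val) := fun v => v.2
  let g : Fin m → Option ({a : Sl × Option (Fin X.card) // bd m k a.1} × Fin m) := fun v =>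
    if v = q then none else if D v then some (⟨(pi v.val, none), bpi v⟩, q) else
    if v = k0 then some (⟨(ζ, none), b0⟩, q) else if v = l1 then some (⟨(ζ1, none), b1⟩, q) else
    if v = l2 then some (⟨(ζ2, none), b2⟩, q) else
    if h : v ∈ X then some (⟨(ζ, some (X.equivFin ⟨v, h⟩)), b0⟩, q) else none
  -- the vertices of `H` and their images
  have fo : ∀ v, (v = q ∧ g v = none) ∨ (D v ∧ g v = some (⟨(pi v.val, none), bpi v⟩, q)) ∨
      (v = k0 ∧ g v = some (⟨(ζ, none), b0⟩, q)) ∨ (v = l1 ∧ g v = some (⟨(ζ1, none), b1⟩, q)) ∨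
      (v = l2 ∧ g v = some (⟨(ζ2, none), b2⟩, q)) ∨
      ∃ h : v ∈ X, g v = some (⟨(ζ, some (X.equivFin ⟨v, h⟩)), b0⟩, q) := fun v => by
    by_cases h1 : v = q
    · exact Or.inl ⟨h1, if_pos h1⟩
    by_cases h2 : D v
    · exact Or.inr (Or.inl ⟨h2, by simp only [g, if_neg h1, if_pos h2]⟩)
    by_cases h3 : v = k0
    · exact Or.inr (Or.inr (Or.inl ⟨h3, by simp only [g, if_neg h1, if_neg h2, if_pos h3]⟩))
    by_cases h4 : v = l1
    · exact Or.inr (Or.inr (Or.inr (Or.inl ⟨h4, by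
        simp only [g, if_neg h1, if_neg h2, if_neg h3, if_pos h4]⟩)))
    by_cases h5 : v = l2
    · exact Or.inr (Or.inr (Or.inr (Or.inr (Or.inl ⟨h5, by
        simp only [g, if_neg h1, if_neg h2, if_neg h3, if_neg h4, if_pos h5]⟩))))
    have h6 : v ∈ X := by
      rw [mX]
      refine ⟨h5, h4, ?_⟩
      rcases B.cls v with h | h | h | h | h
      · exact h.elim
      · exact absurd h h2
      · exact absurd h h1
      · exact absurd (hK _ _ h hk0) h3
      · exact h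
    exact Or.inr (Or.inr (Or.inr (Or.inr (Or.inr ⟨h6, by
      simp only [g, if_neg h1, if_neg h2, if_neg h3, if_neg h4, if_neg h5, dif_pos h6]⟩))))
  -- adjacency between copies
  have mm : ∀ σ τ (hσ : bd m k σ) (hτ : bd m k τ), σ ≠ τ →
      ((some (⟨(σ, none), hσ⟩, q) : Option ({a : Sl × Option (Fin X.card) // bd m k a.1} × Fin m)) ≠
        some (⟨(τ, none), hτ⟩, q)) ∧ (((CH X.card).sub fun a => bd m k a.1).wad Y
        (some (⟨(σ, none), hσ⟩, q)) (some (⟨(τ, none), hτ⟩, q)) ↔ G σ τ) := fun σ τ hσ hτ hne => by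
    refine ⟨fun h => ?_, ?_⟩
    · simp only [Option.some.injEq, Prod.mk.injEq, Subtype.mk.injEq, and_true] at h
      exact hne h
    · constructor
      · rintro (⟨-, -, h | h⟩ | ⟨h, -⟩)
        · exact h.2.2
        · exact absurd h.1 hne
        · exact absurd rfl h
      · exact fun h => Or.inl ⟨rfl, fun e => hne (congrArg (fun z => z.1.1) e), Or.inl ⟨rfl, rfl, h⟩⟩
  have mp : ∀ σ τ j (hσ : bd m k σ) (hτ : bd m k τ),
      ((some (⟨(σ, none), hσ⟩, q) : Option ({a : Sl × Option (Fin X.card) // bd m k a.1} × Fin m)) ≠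
        some (⟨(τ, some j), hτ⟩, q)) ∧ (((CH X.card).sub fun a => bd m k a.1).wad Y
        (some (⟨(σ, none), hσ⟩, q)) (some (⟨(τ, some j), hτ⟩, q)) ↔ σ = τ) :=
    fun σ τ j hσ hτ => by
      refine ⟨fun h => ?_, ?_⟩
      · simp at h
      · constructor
        · rintro (⟨-, -, h | h⟩ | ⟨h, -⟩)
          · exact absurd h.2.1 (by simp)
          · exact h.1
          · exact absurd rfl h
        · exact fun h => Or.inl ⟨rfl, fun e => by simp at e, Or.inr ⟨h, Or.inl rfl⟩⟩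
  have sy : ∀ a b, a ≠ b → (g a ≠ g b ∧
      (((CH X.card).sub fun a => bd m k a.1).wad Y (g a) (g b) ↔ H.Adj a b)) → (g b ≠ g a ∧
      (((CH X.card).sub fun a => bd m k a.1).wad Y (g b) (g a) ↔ H.Adj b a)) := fun a b _ h =>
    ⟨h.1.symm, by
      rw [H.adj_comm b a, ← h.2]
      exact (((CH X.card).sub fun a => bd m k a.1).WG (Fin m) Y).adj_comm _ _⟩
  have kq : k0 ≠ q := qk.ne'
  have np : ∀ ζ : Sl, (∀ i, ¬ G ζ (pi i)) → ∀ i, pi i ≠ ζ := fun ζ h i e =>
    h i (e ▸ G_refl _)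
  refine mkEmb g fun x y hxy => ?_
  -- `q` against the others
  have Aq : ∀ y, q ≠ y → g q ≠ g y ∧
      (((CH X.card).sub fun a => bd m k a.1).wad Y (g q) (g y) ↔ H.Adj q y) := fun y hy => by
    have gq : g q = none := if_pos rfl
    rw [gq]
    rcases fo y with ⟨h, -⟩ | ⟨h, e⟩ | ⟨h, e⟩ | ⟨h, e⟩ | ⟨h, e⟩ | ⟨h, e⟩
    · exact absurd h.symm hy
    · rw [e]
      exact ⟨by simp, iff_of_true ((rt _ _ _ _).1 (Or.inl trivial)) (B.qD _ h)⟩
    · rw [e]
      exact ⟨by simp, iff_of_true ((rt _ _ _ _).1 act) (h ▸ qk)⟩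
    · rw [e]
      exact ⟨by simp, iff_of_false (fun h' => in1 ((rt _ _ _ _).2 h')) (h ▸ B.qL _ hl1)⟩
    · rw [e]
      exact ⟨by simp, iff_of_false (fun h' => in2 ((rt _ _ _ _).2 h')) (h ▸ B.qL _ hl2)⟩
    · rw [e]
      exact ⟨by simp, iff_of_false (rt' _ _ _ _ _) (B.qL _ ((mX _).1 h).2.2)⟩
  have gD : ∀ x, D x → g x = some (⟨(pi x.val, none), bpi x⟩, q) := fun x hx => by
    simp only [g, if_neg (fun e : x = q => B.Dq (e ▸ hx)), if_pos hx]
  have gk : g k0 = some (⟨(ζ, none), b0⟩, q) := by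
    simp only [g, if_neg kq, if_neg (fun h : D k0 => B.nDK h hk0), if_pos]
  have g1' : g l1 = some (⟨(ζ1, none), b1⟩, q) := by
    simp only [g, if_neg (fun e : l1 = q => B.Lq (e ▸ hl1)), if_neg (fun h : D l1 => B.nDL h hl1),
      if_neg (fun e : l1 = k0 => B.nKL hk0 (e ▸ hl1)), if_pos]
  have g2' : g l2 = some (⟨(ζ2, none), b2⟩, q) := by
    simp only [g, if_neg (fun e : l2 = q => B.Lq (e ▸ hl2)), if_neg (fun h : D l2 => B.nDL h hl2),
      if_neg (fun e : l2 = k0 => B.nKL hk0 (e ▸ hl2)), if_neg l12.symm, if_pos]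
  have AD : ∀ x y, D x → q ≠ y → x ≠ y → g x ≠ g y ∧
      (((CH X.card).sub fun a => bd m k a.1).wad Y (g x) (g y) ↔ H.Adj x y) := fun x y hx hq hy => by
    rw [gD x hx]
    rcases fo y with ⟨h, -⟩ | ⟨h, e⟩ | ⟨h, e⟩ | ⟨h, e⟩ | ⟨h, e⟩ | ⟨h, e⟩
    · exact absurd h.symm hq
    · rw [e]
      have hv : x.val ≠ y.val := fun e => hy (Fin.ext e)
      obtain ⟨u1, u2⟩ := mm (pi x.val) (pi y.val) (bpi x) (bpi y) fun e => hv (by injection e)
      exact ⟨u1, u2.trans (iff_of_false hv (DD _ _ hx h))⟩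
    · rw [e]
      obtain ⟨u1, u2⟩ := mm (pi x.val) ζ (bpi x) b0 (np _ p0 _)
      exact ⟨u1, u2.trans (iff_of_false (fun h' => p0 _ (G_symm h')) (h ▸ B.DK _ _ hx hk0))⟩
    · rw [e]
      obtain ⟨u1, u2⟩ := mm (pi x.val) ζ1 (bpi x) b1 (np _ p1 _)
      exact ⟨u1, u2.trans (iff_of_false (fun h' => p1 _ (G_symm h')) (h ▸ B.DL _ _ hx hl1))⟩
    · rw [e]
      obtain ⟨u1, u2⟩ := mm (pi x.val) ζ2 (bpi x) b2 (np _ p2 _)
      exact ⟨u1, u2.trans (iff_of_false (fun h' => p2 _ (G_symm h')) (h ▸ B.DL _ _ hx hl2))⟩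
    · rw [e]
      obtain ⟨u1, u2⟩ := mp (pi x.val) ζ (X.equivFin ⟨y, h⟩) (bpi x) b0
      exact ⟨u1, u2.trans (iff_of_false (np _ p0 _) (B.DL _ _ hx ((mX _).1 h).2.2))⟩
  have Ak : ∀ y, q ≠ y → ¬ D y → k0 ≠ y → g k0 ≠ g y ∧
      (((CH X.card).sub fun a => bd m k a.1).wad Y (g k0) (g y) ↔ H.Adj k0 y) :=
    fun y hq hD hy => by
      rw [gk]
      rcases fo y with ⟨h, -⟩ | ⟨h, e⟩ | ⟨h, e⟩ | ⟨h, e⟩ | ⟨h, e⟩ | ⟨h, e⟩
      · exact absurd h.symm hq
      · exact absurd h hD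
      · exact absurd h.symm hy
      · rw [e]
        obtain ⟨u1, u2⟩ := mm ζ ζ1 b0 b1 n1
        exact ⟨u1, u2.trans (iff_of_true g1 (h ▸ B.KL _ _ hk0 hl1))⟩
      · rw [e]
        obtain ⟨u1, u2⟩ := mm ζ ζ2 b0 b2 n2
        exact ⟨u1, u2.trans (iff_of_true g2 (h ▸ B.KL _ _ hk0 hl2))⟩
      · rw [e]
        obtain ⟨u1, u2⟩ := mp ζ ζ (X.equivFin ⟨y, h⟩) b0 b0
        exact ⟨u1, u2.trans (iff_of_true rfl (B.KL _ _ hk0 ((mX _).1 h).2.2))⟩
  have A1 : ∀ y, q ≠ y → ¬ D y → k0 ≠ y → l1 ≠ y → g l1 ≠ g y ∧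
      (((CH X.card).sub fun a => bd m k a.1).wad Y (g l1) (g y) ↔ H.Adj l1 y) :=
    fun y hq hD hk hy => by
      rw [g1']
      rcases fo y with ⟨h, -⟩ | ⟨h, e⟩ | ⟨h, e⟩ | ⟨h, e⟩ | ⟨h, e⟩ | ⟨h, e⟩
      · exact absurd h.symm hq
      · exact absurd h hD
      · exact absurd h.symm hk
      · exact absurd h.symm hy
      · rw [e]
        obtain ⟨u1, u2⟩ := mm ζ1 ζ2 b1 b2 n12
        exact ⟨u1, u2.trans (iff_of_false g12 (h ▸ B.LL _ _ hl1 hl2))⟩
      · rw [e]
        obtain ⟨u1, u2⟩ := mp ζ1 ζ (X.equivFin ⟨y, h⟩) b1 b0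
        exact ⟨u1, u2.trans (iff_of_false n1.symm (B.LL _ _ hl1 ((mX _).1 h).2.2))⟩
  have A2 : ∀ y, q ≠ y → ¬ D y → k0 ≠ y → l1 ≠ y → l2 ≠ y → g l2 ≠ g y ∧
      (((CH X.card).sub fun a => bd m k a.1).wad Y (g l2) (g y) ↔ H.Adj l2 y) :=
    fun y hq hD hk hl hy => by
      rw [g2']
      rcases fo y with ⟨h, -⟩ | ⟨h, e⟩ | ⟨h, e⟩ | ⟨h, e⟩ | ⟨h, e⟩ | ⟨h, e⟩
      · exact absurd h.symm hq
      · exact absurd h hD
      · exact absurd h.symm hk
      · exact absurd h.symm hl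
      · exact absurd h.symm hy
      · rw [e]
        obtain ⟨u1, u2⟩ := mp ζ2 ζ (X.equivFin ⟨y, h⟩) b2 b0
        exact ⟨u1, u2.trans (iff_of_false n2.symm (B.LL _ _ hl2 ((mX _).1 h).2.2))⟩
  have AX : ∀ x y (hx : x ∈ X) (hy : y ∈ X), x ≠ y → g x = some (⟨(ζ, some (X.equivFin ⟨x, hx⟩)),
      b0⟩, q) → g y = some (⟨(ζ, some (X.equivFin ⟨y, hy⟩)), b0⟩, q) → g x ≠ g y ∧
      (((CH X.card).sub fun a => bd m k a.1).wad Y (g x) (g y) ↔ H.Adj x y) :=
    fun x y hx hy hne e1 e2 => by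
      rw [e1, e2]
      refine ⟨fun h => ?_, iff_of_false ?_ (B.LL _ _ ((mX _).1 hx).2.2 ((mX _).1 hy).2.2)⟩
      · simp only [Option.some.injEq, Prod.mk.injEq, Subtype.mk.injEq, and_true, true_and,
          EmbeddingLike.apply_eq_iff_eq] at h
        exact hne h
      · rintro (⟨-, -, h | h⟩ | ⟨h, -⟩)
        · exact absurd h.1 (by simp)
        · rcases h.2 with h | h
          · exact absurd h (by simp)
          · exact absurd h (by simp)
        · exact absurd rfl h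
  by_cases x1 : x = q
  · subst x1; exact Aq y hxy
  by_cases y1 : y = q
  · subst y1; exact sy _ _ (Ne.symm x1) (Aq x (Ne.symm x1))
  by_cases x2 : D x
  · exact AD x y x2 (Ne.symm y1) hxy
  by_cases y2 : D y
  · exact sy _ _ (Ne.symm hxy) (AD y x y2 (Ne.symm x1) (Ne.symm hxy))
  by_cases x3 : x = k0
  · subst x3; exact Ak y (Ne.symm y1) y2 hxy
  by_cases y3 : y = k0
  · subst y3; exact sy _ _ (Ne.symm x3) (Ak x (Ne.symm x1) x2 (Ne.symm x3))
  by_cases x4 : x = l1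
  · subst x4; exact A1 y (Ne.symm y1) y2 (Ne.symm y3) hxy
  by_cases y4 : y = l1
  · subst y4; exact sy _ _ (Ne.symm x4) (A1 x (Ne.symm x1) x2 (Ne.symm x3) (Ne.symm x4))
  by_cases x5 : x = l2
  · subst x5; exact A2 y (Ne.symm y1) y2 (Ne.symm y3) (Ne.symm y4) hxy
  by_cases y5 : y = l2
  · subst y5
    exact sy _ _ (Ne.symm x5) (A2 x (Ne.symm x1) x2 (Ne.symm x3) (Ne.symm x4) (Ne.symm x5))
  rcases fo x with ⟨h, -⟩ | ⟨h, -⟩ | ⟨h, -⟩ | ⟨h, -⟩ | ⟨h, -⟩ | ⟨hx, e1⟩
  · exact absurd h x1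
  · exact absurd h x2
  · exact absurd h x3
  · exact absurd h x4
  · exact absurd h x5
  rcases fo y with ⟨h, -⟩ | ⟨h, -⟩ | ⟨h, -⟩ | ⟨h, -⟩ | ⟨h, -⟩ | ⟨hy, e2⟩
  · exact absurd h y1
  · exact absurd h y2
  · exact absurd h y3
  · exact absurd h y4
  · exact absurd h y5
  exact AX x y hx hy hxy e1 e2

/-- Double stars with at least two leaves at each centre. -/
theorem hard_ds (h : DS H) : W2Hard (Con₁ H) := by
  obtain ⟨q, D, K, L, B, DD, hK, ⟨d, d', hd, hd', hdd⟩, l, l', hl, hl', hll⟩ := h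
  rcases le_total (Nat.card {v // L v}) (Nat.card {v // D v}) with hc | hc
  · exact hardM B DD hK hl hl' hll hc
  · obtain ⟨k, hk⟩ := B.K0
    have B' : Br H (fun _ => False) k L (fun v => v = q) D := {
      cls := fun v => by
        rcases B.cls v with h | h | h | h | h
        · exact h.elim
        · exact Or.inr (Or.inr (Or.inr (Or.inr h)))
        · exact Or.inr (Or.inr (Or.inr (Or.inl h)))
        · exact Or.inr (Or.inr (Or.inl (hK _ _ h hk)))
        · exact Or.inr (Or.inl h)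
      pu := fun w h => h.elim
      ps := fun w w' h => h.elim
      D0 := ⟨l, hl⟩
      K0 := ⟨q, rfl⟩
      L0 := ⟨d, hd⟩
      Lq := fun h => B.nDK h hk
      KK := fun a b ha hb hne => absurd (ha.trans hb.symm) hne
      qD := fun v hv => B.KL _ _ hk hv
      qK := fun v hv => by rw [hv]; exact (B.qK _ hk).symm
      KL := fun a b ha hb => by rw [ha]; exact B.qD _ hb
      qL := fun v hv h => B.DK _ _ hv hk h.symm
      LL := DD
      DK := fun a b ha hb h => by rw [hb] at h; exact B.qL _ ha h.symm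
      DL := fun a b ha hb h => B.DL _ _ hb ha h.symm }
    exact hardM B' B.LL (fun a b ha hb => ha.trans hb.symm) hd hd' hdd hc

/-- `H`-free contraction is W[2]-hard for every connected non-complete graph with at least six
vertices. -/
theorem hard_full (hm : 6 ≤ m) (hc : H.Connected) (hn : H ≠ ⊤) : W2Hard (Con₁ H) := by
  by_cases h : DS H
  · exact hard_ds h
  · exact hard_main hm hc hn h

end Pool.Agent.L0h77.HC
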