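import Pool.Agent.L0h77.HC.Main

/-! One universal vertex, plain constructs. -/

namespace Pool.Agent.L0h77.HC

open Pool.Agent.H22.CT SimpleGraph Function

variable {m : ℕ} {H : SimpleGraph (Fin m)}

/-- triangle-free with a nonempty subset of minimum degree at least two -/
theorem hardC {w u t : Fin m} (hw : Univ H w) (huw : u ≠ w) (htw : t ≠ w) (htu : t ≠ u)
    (hn : ¬ H.Adj u t) (hcn : ∀ v, v ≠ w → H.Adj u v → ¬ H.Adj t v)
    (tf : ∀ a b c, a ≠ w → b ≠ w → c ≠ w → H.Adj a b → H.Adj a c → ¬ H.Adj b c)
    (Y : Fin m → Prop) (Yw : ∀ v, Y v → v ≠ w)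
    (hY : ∀ v, Y v → ∃ a b, Y a ∧ Y b ∧ a ≠ b ∧ H.Adj v a ∧ H.Adj v b) (Y0 : ∃ v, Y v) :
    W2Hard (Con₁ H) := by
  refine SX.hard (u := u) (T := fun v => v = t) (ξ := True) fun inc => ⟨fun f => ?_⟩
  have uw : H.Adj u w := (hw u huw).symm
  have tw : H.Adj t w := (hw t htw).symm
  -- no vertex of `Y` whose possible images of neighbours are pairwise adjacent or equal
  have key : ∀ v, Y v → ∀ Q : Vx {v : Fin m // v ≠ u} → Prop,
      (∀ a, Y a → H.Adj v a → Q (f a)) →
      (∀ x y, Q x → Q y → x ≠ y → (SX H u (fun v => v = t) True).dad inc x y) → False :=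
    fun v hv Q h1 h2 => by
      obtain ⟨a, b, ha, hb, hab, h3, h4⟩ := hY v hv
      exact tf v a b (Yw _ hv) (Yw _ ha) (Yw _ hb) h3 h4
        ((adj f rfl rfl).1 (h2 _ _ (h1 a ha h3) (h1 b hb h4) fun e => hab (f.injective e)))
  rcases ew : f w with _ | s | ⟨x, i⟩
  · have ty : ∀ v, v ≠ w → (∃ s, f v = .sel s) ∨ ∃ z i, f v = .cp z i ∧
        (H.Adj u z ∨ z.val = t) := fun v h => by
      rcases ev : f v with _ | s' | ⟨z, k⟩
      · exact absurd (f.injective (ev.trans ew.symm)) h
      · exact Or.inl ⟨_, rfl⟩
      · exact Or.inr ⟨z, k, rfl, (adj f ew ev).2 (hw v h)⟩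
    have n1 : ∀ v z i, Y v → f v = .cp z i → H.Adj u z → z.val ≠ w → False := fun v z i hv ev h h' => by
      refine key v hv (fun x => ∃ z', x = .cp z' i ∧ z'.val = w) (fun a ha hva => ?_) ?_
      · rcases ty a (Yw _ ha) with ⟨s, es⟩ | ⟨z', k, ea, h5⟩
        · have := (adj f ev es).2 hva
          simp only [TG.dad, MT, false_and, or_false] at this
          exact absurd h (this.1 ▸ hn)
        · have := (adj f ev ea).2 hva
          simp only [TG.dad, MT, and_false, or_false] at this
          obtain ⟨rfl, -, h6⟩ := this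
          refine ⟨z', ea, by_contra fun h7 => ?_⟩
          rcases h5 with h5 | h5
          · exact tf u z z' huw h' h7 h h5 h6
          · exact hcn z h' h (h5 ▸ h6.symm)
      · rintro _ _ ⟨z1, rfl, h1⟩ ⟨z2, rfl, h2⟩ hne
        exact absurd (by rw [Subtype.ext (h1.trans h2.symm)]) hne
    have n2 : ∀ v z i, Y v → f v = .cp z i → z.val = w → False := fun v z i hv ev h => by
      refine key v hv (fun x => ∃ z', x = .cp z' i ∧ z'.val = t) (fun a ha hva => ?_) ?_
      · rcases ty a (Yw _ ha) with ⟨s, es⟩ | ⟨z', k, ea, h5⟩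
        · have := (adj f ev es).2 hva
          simp only [TG.dad, MT, false_and, or_false] at this
          exact absurd (this.1.symm.trans h) htw
        · have := (adj f ev ea).2 hva
          simp only [TG.dad, MT, and_false, or_false] at this
          obtain ⟨rfl, h8, h6⟩ := this
          refine ⟨z', ea, h5.resolve_left fun h5 => n1 a z' i ha ea h5 fun e => h8 (Subtype.ext (h.trans e.symm))⟩
      · rintro _ _ ⟨z1, rfl, h1⟩ ⟨z2, rfl, h2⟩ hne
        exact absurd (by rw [Subtype.ext (h1.trans h2.symm)]) hne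
    have n3 : ∀ v z i, Y v → f v = .cp z i → z.val = t → False := fun v z i hv ev h => by
      refine key v hv (fun x => ∃ s, x = .sel s) (fun a ha hva => ?_) ?_
      · rcases ty a (Yw _ ha) with ⟨s, es⟩ | ⟨z', k, ea, h5⟩
        · exact ⟨s, es⟩
        · have := (adj f ev ea).2 hva
          simp only [TG.dad, MT, and_false, or_false] at this
          obtain ⟨rfl, h8, h6⟩ := this
          have h5 := h5.resolve_right fun e => h8 (Subtype.ext (h.trans e.symm))
          by_cases e : z'.val = w
          · exact (n2 a z' i ha ea e).elim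
          · exact (n1 a z' i ha ea h5 e).elim
      · rintro _ _ ⟨s1, rfl⟩ ⟨s2, rfl⟩ hne
        exact ⟨fun e => hne (by rw [e]), trivial⟩
    obtain ⟨v, hv⟩ := Y0
    rcases ty v (Yw _ hv) with ⟨s, ev⟩ | ⟨z, k, ev, h5⟩
    · refine key v hv (fun x => ∃ s, x = .sel s) (fun a ha hva => ?_) ?_
      · rcases ty a (Yw _ ha) with ⟨s, es⟩ | ⟨z', k, ea, h5⟩
        · exact ⟨s, es⟩
        · rcases h5 with h5 | h5
          · by_cases e : z'.val = w
            · exact (n2 a z' k ha ea e).elim
            · exact (n1 a z' k ha ea h5 e).elim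
          · exact (n3 a z' k ha ea h5).elim
      · rintro _ _ ⟨s1, rfl⟩ ⟨s2, rfl⟩ hne
        exact ⟨fun e => hne (by rw [e]), trivial⟩
    · rcases h5 with h5 | h5
      · by_cases e : z.val = w
        · exact n2 v z k hv ev e
        · exact n1 v z k hv ev h5 e
      · exact n3 v z k hv ev h5
  · -- the universal vertex is a selector
    have ty : ∀ v, v ≠ w → (f v = .root ∨ ∃ s, f v = .sel s) ∨ ∃ z i, f v = .cp z i ∧
        z.val = t := fun v h => by
      rcases ev : f v with _ | s' | ⟨z, k⟩
      · exact Or.inl (Or.inl rfl)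
      · exact Or.inl (Or.inr ⟨_, rfl⟩)
      · have := (adj f ew ev).2 (hw v h)
        simp only [TG.dad, MT, false_and, or_false] at this
        exact Or.inr ⟨z, k, rfl, this.1⟩
    have pw : ∀ x y : Vx {v : Fin m // v ≠ u}, (x = .root ∨ ∃ s, x = .sel s) →
        (y = .root ∨ ∃ s, y = .sel s) → x ≠ y → (SX H u (fun v => v = t) True).dad inc x y := by
      rintro _ _ (rfl | ⟨s1, rfl⟩) (rfl | ⟨s2, rfl⟩) hne
      · exact absurd rfl hne
      · trivial
      · trivial
      · exact ⟨fun e => hne (by rw [e]), trivial⟩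
    have n3 : ∀ v z i, Y v → f v = .cp z i → z.val = t → False := fun v z i hv ev h => by
      refine key v hv _ (fun a ha hva => ?_) pw
      rcases ty a (Yw _ ha) with h5 | ⟨z', k, ea, h5⟩
      · exact h5
      · have := (adj f ev ea).2 hva
        simp only [TG.dad, MT, and_false, or_false] at this
        exact absurd (Subtype.ext (h.trans h5.symm)) this.2.1
    obtain ⟨v, hv⟩ := Y0
    rcases ty v (Yw _ hv) with ev | ⟨z, k, ev, h5⟩
    · refine key v hv _ (fun a ha hva => ?_) pw
      rcases ty a (Yw _ ha) with h5 | ⟨z', k, ea, h5⟩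
      · exact h5
      · exact (n3 a z' k ha ea h5).elim
    · exact n3 v z k hv ev h5
  · -- the universal vertex is in a copy
    by_cases hx : x.val = t
    · have ty : ∀ v, v ≠ w → f v = .root ∨ (∃ s, f v = .sel s) ∨ ∃ z, f v = .cp z i ∧
          H.Adj t z := fun v h => by
        rcases ev : f v with _ | s' | ⟨z, k⟩
        · exact Or.inl rfl
        · exact Or.inr (Or.inl ⟨_, rfl⟩)
        · have := (adj f ew ev).2 (hw v h)
          simp only [TG.dad, MT, and_false, or_false] at this
          exact Or.inr (Or.inr ⟨z, by rw [this.1], hx ▸ this.2.2⟩)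
      have n1 : ∀ v z, Y v → f v = .cp z i → H.Adj t z → z.val ≠ w → False := fun v z hv ev h h' => by
        refine key v hv (fun x => ∃ z', x = .cp z' i ∧ z'.val = w) (fun a ha hva => ?_) ?_
        · rcases ty a (Yw _ ha) with ea | ⟨s, es⟩ | ⟨z', ea, h5⟩
          · rcases (adj f ev ea).2 hva with h6 | h6
            · exact absurd h (hcn z h' h6)
            · exact absurd h6.symm h.ne
          · have := (adj f ev es).2 hva
            simp only [TG.dad, MT, false_and, or_false] at this
            exact absurd this.1.symm h.ne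
          · have := (adj f ev ea).2 hva
            simp only [TG.dad, MT, and_false, or_false] at this
            exact ⟨z', ea, by_contra fun h7 => tf t z z' htw h' h7 h h5 this.2.2⟩
        · rintro _ _ ⟨z1, rfl, h1⟩ ⟨z2, rfl, h2⟩ hne
          exact absurd (by rw [Subtype.ext (h1.trans h2.symm)]) hne
      have n2 : ∀ v z, Y v → f v = .cp z i → z.val = w → False := fun v z hv ev h => by
        refine key v hv (fun x => x = .root) (fun a ha hva => ?_) fun x y h1 h2 hne =>
          absurd (h1.trans h2.symm) hne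
        rcases ty a (Yw _ ha) with ea | ⟨s, es⟩ | ⟨z', ea, h5⟩
        · exact ea
        · have := (adj f ev es).2 hva
          simp only [TG.dad, MT, false_and, or_false] at this
          exact absurd (this.1.symm.trans h) htw
        · have := (adj f ev ea).2 hva
          simp only [TG.dad, MT, and_false, or_false] at this
          exact (n1 a z' ha ea h5 fun e => this.2.1 (Subtype.ext (h.trans e.symm))).elim
      have pw : ∀ x y : Vx {v : Fin m // v ≠ u}, (x = .root ∨ ∃ s, x = .sel s) →
          (y = .root ∨ ∃ s, y = .sel s) → x ≠ y → (SX H u (fun v => v = t) True).dad inc x y := by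
        rintro _ _ (rfl | ⟨s1, rfl⟩) (rfl | ⟨s2, rfl⟩) hne
        · exact absurd rfl hne
        · trivial
        · trivial
        · exact ⟨fun e => hne (by rw [e]), trivial⟩
      have cp : ∀ a z, Y a → f a = .cp z i → H.Adj t z → False := fun a z ha ea h => by
        by_cases e : z.val = w
        · exact n2 a z ha ea e
        · exact n1 a z ha ea h e
      obtain ⟨v, hv⟩ := Y0
      have nb : ∀ a, Y a → f a = .root ∨ ∃ s, f a = .sel s := fun a ha => by
        rcases ty a (Yw _ ha) with ea | ⟨s, es⟩ | ⟨z', ea, h5⟩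
        · exact Or.inl ea
        · exact Or.inr ⟨s, es⟩
        · exact (cp a z' ha ea h5).elim
      exact key v hv _ (fun a ha _ => nb a ha) pw
    · refine MT.count f i (fun v => ?_) htu rfl hn
      by_cases h1 : v = w
      · exact Or.inr ⟨x, h1 ▸ ew⟩
      rcases ev : f v with _ | s' | ⟨z, k⟩
      · exact Or.inl rfl
      · have := (adj f ew ev).2 (hw v h1)
        simp only [TG.dad, MT, false_and, or_false] at this
        exact absurd this.1 hx
      · have := (adj f ew ev).2 (hw v h1)
        simp only [TG.dad, MT, and_false, or_false] at this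
        exact Or.inr ⟨z, by rw [this.1]⟩

end Pool.Agent.L0h77.HC
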