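import Pool.Agent.L0h77.HC.One2

/-! One universal vertex: an isolated vertex and a clique; all vertices in triangles. -/

namespace Pool.Agent.L0h77.HC

open Pool.Agent.H22.CT SimpleGraph Function

variable {m : ℕ} {H : SimpleGraph (Fin m)}

open Classical in
theorem hardB2 {w u t1 t2 : Fin m} (hw : Univ H w) (huw : u ≠ w) (h1w : t1 ≠ w) (h1u : t1 ≠ u)
    (h2w : t2 ≠ w) (h2u : t2 ≠ u) (h12 : t1 ≠ t2) (iso : ∀ v, v ≠ w → ¬ H.Adj u v)
    (cl : ∀ a b, a ≠ w → a ≠ u → b ≠ w → b ≠ u → a ≠ b → H.Adj a b) (hm : 6 ≤ m) :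
    W2Hard (Con₁ H) := by
  refine SX.hard (u := u) (T := fun v => v = t1 ∨ v = t2) (ξ := False) fun inc => ⟨fun f => ?_⟩
  set K := Finset.univ.filter fun v => v ≠ w ∧ v ≠ u with hK
  have cK : K.card = m - 2 := by
    have : K = (Finset.univ.erase w).erase u := by ext v; simp [hK, and_comm]
    rw [this, Finset.card_erase_of_mem (by simp [huw]), Finset.card_erase_of_mem (by simp)]
    simp; omega
  have mK : ∀ v, v ≠ w → v ≠ u → v ∈ K := fun v h h' => by simp [hK, h, h']
  have pig : ∀ c : Fin m → ℕ, (∀ v, v ≠ w → v ≠ u → c v < 3) →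
      (∀ a b, a ≠ w → a ≠ u → b ≠ w → b ≠ u → H.Adj a b → c a ≠ c b) → False := fun c h1 h2 => by
    have := Finset.card_le_card_of_injOn (s := K) (t := Finset.range 3) c (fun v hv => by
      have := (Finset.mem_filter.1 hv).2
      simpa using h1 v this.1 this.2) fun a ha b hb e => by
        have h3 := (Finset.mem_filter.1 ha).2
        have h4 := (Finset.mem_filter.1 hb).2
        by_contra hne
        exact h2 a b h3.1 h3.2 h4.1 h4.2 (cl a b h3.1 h3.2 h4.1 h4.2 hne) e
    rw [cK] at this
    simp at this; omega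
  rcases ew : f w with _ | s | ⟨x, i⟩
  · have ty : ∀ v, v ≠ w → (∃ s, f v = .sel s) ∨ ∃ z i, f v = .cp z i ∧
        (z.val = w ∨ z.val = t1 ∨ z.val = t2) := fun v h => by
      rcases ev : f v with _ | s' | ⟨z, k⟩
      · exact absurd (f.injective (ev.trans ew.symm)) h
      · exact Or.inl ⟨_, rfl⟩
      · refine Or.inr ⟨z, k, rfl, ?_⟩
        rcases (adj f ew ev).2 (hw v h) with h4 | h4
        · exact Or.inl (by_contra fun h5 => iso z h5 h4)
        · exact Or.inr h4
    refine pig (fun v => match f v with
      | .cp z _ => if z.val = t1 then 1 else if z.val = t2 then 2 else 0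
      | _ => 0) (fun v _ _ => ?_) fun a b ha _ hb _ hab => ?_
    · rcases f v with _ | s | ⟨z, k⟩ <;> simp only <;> (try split_ifs) <;> omega
    · rcases ty a ha with ⟨s, ea⟩ | ⟨z, j, ea, za⟩ <;> rcases ty b hb with ⟨s', eb⟩ | ⟨z', j', eb, zb⟩ <;>
        have h2 := (adj f ea eb).2 hab <;> simp only [TG.dad, MT, false_and, and_false, or_false] at h2 <;>
        simp only [ea, eb]
      · rcases h2.1 with h | h <;> simp [h, h12.symm]
      · rcases h2.1 with h | h <;> simp [h, h12.symm]
      · have h3 : z.val ≠ z'.val := fun e => h2.2.1 (Subtype.ext e)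
        rcases za with h | h | h <;> rcases zb with h' | h' | h' <;> rw [h, h'] at h3 ⊢ <;>
          first | exact absurd rfl h3 | simp [h1w.symm, h2w.symm, h12, h12.symm]
  · have ty : ∀ v, v ≠ w → f v = .root ∨ ∃ z i, f v = .cp z i ∧ (z.val = t1 ∨ z.val = t2) := fun v h => by
      rcases ev : f v with _ | s' | ⟨z, k⟩
      · exact Or.inl rfl
      · exact absurd ((adj f ew ev).2 (hw v h)) (by simp [TG.dad, MT])
      · have := (adj f ew ev).2 (hw v h)
        simp only [TG.dad, MT, false_and, or_false] at this
        exact Or.inr ⟨z, k, rfl, this.1⟩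
    refine pig (fun v => match f v with
      | .cp z _ => if z.val = t1 then 1 else 2
      | _ => 0) (fun v _ _ => ?_) fun a b ha _ hb _ hab => ?_
    · rcases f v with _ | s | ⟨z, k⟩ <;> simp only <;> (try split_ifs) <;> omega
    · rcases ty a ha with ea | ⟨z, j, ea, za⟩ <;> rcases ty b hb with eb | ⟨z', j', eb, zb⟩ <;>
        have h2 := (adj f ea eb).2 hab <;> simp only [TG.dad, MT, false_and, and_false, or_false] at h2 <;>
        simp only [ea, eb]
      · rcases zb with h | h <;> simp [h, h12.symm]
      · rcases za with h | h <;> simp [h, h12.symm]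
      · have h3 : z.val ≠ z'.val := fun e => h2.2.1 (Subtype.ext e)
        rcases za with h | h <;> rcases zb with h' | h' <;> rw [h, h'] at h3 ⊢ <;>
          first | exact absurd rfl h3 | simp [h12, h12.symm]
  · by_cases hx : x.val = t1 ∨ x.val = t2
    swap
    · exact SX.cnt f hw h1u (Or.inl rfl) (iso t1 h1w) ew hx
    have ty : ∀ v, v ≠ w → f v = .root ∨ (∃ s, f v = .sel s ∧ inc s i) ∨ ∃ z, f v = .cp z i ∧
        z ≠ x := fun v h => by
      rcases ev : f v with _ | s' | ⟨z, k⟩
      · exact Or.inl rfl
      · have := (adj f ew ev).2 (hw v h)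
        simp only [TG.dad, MT, false_and, or_false] at this
        exact Or.inr (Or.inl ⟨_, rfl, this.2⟩)
      · have := (adj f ew ev).2 (hw v h)
        simp only [TG.dad, MT, and_false, or_false] at this
        exact Or.inr (Or.inr ⟨z, by rw [this.1], this.2.1.symm⟩)
    -- the other vertex of `T`
    obtain ⟨t', ht', htw', htu', ho⟩ : ∃ t', (t' = t1 ∨ t' = t2) ∧ t' ≠ w ∧ t' ≠ u ∧
        ∀ z : {v : Fin m // v ≠ u}, (z.val = t1 ∨ z.val = t2) → z ≠ x → z.val = t' := by
      rcases hx with hx | hx
      · refine ⟨t2, Or.inr rfl, h2w, h2u, fun z h h' => h.resolve_left fun e => h' (Subtype.ext (e.trans hx.symm))⟩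
      · refine ⟨t1, Or.inl rfl, h1w, h1u, fun z h h' => h.resolve_right fun e => h' (Subtype.ext (e.trans hx.symm))⟩
    have hxt' : x.val ≠ t' := by
      by_contra e
      have : ∀ z : {v : Fin m // v ≠ u}, (z.val = t1 ∨ z.val = t2) → z = x := fun z h =>
        by_contra fun h' => h' (Subtype.ext ((ho z h h').trans e.symm))
      exact h12 ((congrArg Subtype.val (this ⟨t1, h1u⟩ (Or.inl rfl))).trans
        (congrArg Subtype.val (this ⟨t2, h2u⟩ (Or.inr rfl))).symm)
    by_cases hs : ∃ v1, v1 ≠ w ∧ v1 ≠ u ∧ ∃ s, f v1 = .sel s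
    · obtain ⟨v1, h1, h2, s1, e1⟩ := hs
      -- everything else is the root or `t'`
      have ty' : ∀ v, v ≠ w → v ≠ u → v = v1 ∨ f v = .root ∨ ∃ z, f v = .cp z i ∧ z.val = t' :=
        fun v h h' => by
          by_cases e : v = v1
          · exact Or.inl e
          rcases ty v h with ev | ⟨s, ev, -⟩ | ⟨z, ev, hz⟩
          · exact Or.inr (Or.inl ev)
          · exact absurd ((adj f ev e1).2 (cl v v1 h h' h1 h2 e)) (by simp [TG.dad, MT])
          · have := (adj f ev e1).2 (cl v v1 h h' h1 h2 e)
            simp only [TG.dad, MT, false_and, or_false] at this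
            exact Or.inr (Or.inr ⟨z, ev, ho z this.1 hz⟩)
      refine pig (fun v => match f v with
        | .cp _ _ => 2
        | .sel _ => 1
        | _ => 0) (fun v _ _ => ?_) fun a b ha ha' hb hb' hab => ?_
      · rcases f v with _ | s | ⟨z, k⟩ <;> simp
      · rcases ty' a ha ha' with ea | ea | ⟨z, ea, za⟩ <;> rcases ty' b hb hb' with eb | eb | ⟨z', eb, zb⟩
        · exact absurd (ea.trans eb.symm) hab.ne
        · simp only [ea, e1, eb]; omega
        · simp only [ea, e1, eb]; omega
        · simp only [ea, e1, eb]; omega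
        · exact absurd (f.injective (ea.trans eb.symm)) hab.ne
        · simp only [ea, eb]; omega
        · simp only [ea, e1, eb]; omega
        · simp only [ea, eb]; omega
        · exact absurd (f.injective (ea.trans (by rw [eb, Subtype.ext (za.trans zb.symm)]))) hab.ne
    · by_cases hr : ∃ v1, v1 ≠ w ∧ v1 ≠ u ∧ f v1 = .root
      · obtain ⟨v1, h1, h2, e1⟩ := hr
        have ty' : ∀ v, v ≠ w → v ≠ u → v = v1 ∨ ∃ z, f v = .cp z i ∧ (z.val = w ∨ z.val = t') :=
          fun v h h' => by
            by_cases e : v = v1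
            · exact Or.inl e
            rcases ty v h with ev | ⟨s, ev, -⟩ | ⟨z, ev, hz⟩
            · exact absurd (f.injective (ev.trans e1.symm)) e
            · exact absurd ⟨v, h, h', s, ev⟩ hs
            · refine Or.inr ⟨z, ev, ?_⟩
              rcases (adj f ev e1).2 (cl v v1 h h' h1 h2 e) with h4 | h4
              · exact Or.inl (by_contra fun h5 => iso z h5 h4)
              · exact Or.inr (ho z h4 hz)
        refine pig (fun v => match f v with
          | .cp z _ => if z.val = w then 2 else 1
          | _ => 0) (fun v _ _ => ?_) fun a b ha ha' hb hb' hab => ?_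
        · rcases f v with _ | s | ⟨z, k⟩ <;> simp only <;> (try split_ifs) <;> omega
        · rcases ty' a ha ha' with ea | ⟨z, ea, za⟩ <;> rcases ty' b hb hb' with eb | ⟨z', eb, zb⟩
          · exact absurd (ea.trans eb.symm) hab.ne
          · simp only [ea, e1, eb]; (try split_ifs) <;> omega
          · simp only [eb, e1, ea]; (try split_ifs) <;> omega
          · simp only [ea, eb]
            have h3 : z.val ≠ z'.val := fun e => hab.ne (f.injective (by rw [ea, eb, Subtype.ext e]))
            rcases za with h | h <;> rcases zb with h' | h' <;> rw [h, h'] at h3 ⊢ <;>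
              first | exact absurd rfl h3 | simp [htw', htw'.symm]
      · have all : ∀ v, v ≠ w → v ≠ u → ∃ z, f v = .cp z i ∧ z ≠ x := fun v h h' => by
          rcases ty v h with ev | ⟨s, ev, -⟩ | ⟨z, ev, hz⟩
          · exact absurd ⟨v, h, h', ev⟩ hr
          · exact absurd ⟨v, h, h', s, ev⟩ hs
          · exact ⟨z, ev, hz⟩
        have cnt : (f u = .root ∨ ∃ a, f u = .cp a i) → False := fun hu =>
          MT.count f i (fun v => by
            by_cases h1 : v = w
            · exact Or.inr ⟨x, h1 ▸ ew⟩
            by_cases h2 : v = u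
            · exact h2 ▸ hu
            obtain ⟨z, ev, -⟩ := all v h1 h2
            exact Or.inr ⟨z, ev⟩) h1u (Or.inl rfl) (iso t1 h1w)
        rcases ty u huw with eu | ⟨s, eu, hs'⟩ | ⟨z, eu, -⟩
        · exact cnt (Or.inl eu)
        · let ζ : Fin m → Fin m := fun v => match f v with
            | .cp z _ => z.1
            | _ => w
          have ζe : ∀ v z, f v = .cp z i → ζ v = z.1 := fun v z h => by simp only [ζ, h]
          set X := (Finset.univ.erase u).erase x.val
          have cX : X.card = m - 2 := by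
            rw [Finset.card_erase_of_mem (by simp [x.2]), Finset.card_erase_of_mem (by simp)]
            simp; omega
          have mp : Set.MapsTo ζ K X := fun v hv => by
            have := (Finset.mem_filter.1 hv).2
            obtain ⟨z, ev, hz⟩ := all v this.1 this.2
            rw [ζe v z ev]
            exact Finset.mem_coe.2 (Finset.mem_erase.2 ⟨fun e => hz (Subtype.ext e),
              Finset.mem_erase.2 ⟨z.2, Finset.mem_univ _⟩⟩)
          have ij : Set.InjOn ζ K := fun a ha b hb e => by
            have h3 := (Finset.mem_filter.1 ha).2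
            have h4 := (Finset.mem_filter.1 hb).2
            obtain ⟨z, ea, -⟩ := all a h3.1 h3.2
            obtain ⟨z', eb, -⟩ := all b h4.1 h4.2
            rw [ζe a z ea, ζe b z' eb] at e
            exact f.injective (by rw [ea, eb, Subtype.ext e])
          obtain ⟨v, hv, hv'⟩ := Finset.surjOn_of_injOn_of_card_le ζ mp ij (by rw [cK, cX])
            (show t' ∈ (X : Set (Fin m)) from Finset.mem_coe.2 (Finset.mem_erase.2 ⟨hxt'.symm,
              Finset.mem_erase.2 ⟨htu', Finset.mem_univ _⟩⟩))
          have := (Finset.mem_filter.1 hv).2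
          obtain ⟨z, ev, hz⟩ := all v this.1 this.2
          rw [ζe v z ev] at hv'
          exact iso v this.1 ((adj f eu ev).1 (Or.inl ⟨by
            show z.val = t1 ∨ z.val = t2
            rw [hv']; exact ht', hs'⟩))
        · exact cnt (Or.inr ⟨z, eu⟩)

end Pool.Agent.L0h77.HC
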