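import Pool.Agent.L0h77.HC.One2

/-! One universal vertex, every other vertex in a triangle. -/

namespace Pool.Agent.L0h77.HC

open Pool.Agent.H22.CT SimpleGraph Function

variable {m : ℕ} {H : SimpleGraph (Fin m)}

def Cl (H : SimpleGraph (Fin m)) (w : Fin m) (X : Finset (Fin m)) : Prop :=
  (∀ v ∈ X, v ≠ w) ∧ ∀ v ∈ X, ∀ v', v' ≠ w → H.Adj v v' → v' ∈ X

open Classical in
theorem hardB3 {w u t : Fin m} (hw : Univ H w) (huw : u ≠ w) (htw : t ≠ w) (htu : t ≠ u)
    (hn : ¬ H.Adj u t) (hcn : ∀ v, v ≠ w → H.Adj u v → ¬ H.Adj t v)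
    (tri : ∀ v, v ≠ w → ∃ a b, a ≠ w ∧ b ≠ w ∧ H.Adj v a ∧ H.Adj v b ∧ H.Adj a b)
    (hX : ∀ X : Finset (Fin m), X.Nonempty → Cl H w X →
      (Finset.univ.filter fun v => H.Adj u v).card ≤ X.card)
    (hne : (∀ X : Finset (Fin m), X.Nonempty → Cl H w X →
      (Finset.univ.filter fun v => H.Adj u v).card < X.card) ∨
      ((∀ a b, a ≠ w → b ≠ w → H.Adj u a → H.Adj u b → a ≠ b → H.Adj a b) ∧
      ∃ v0, v0 ≠ w ∧ ∀ X : Finset (Fin m), Cl H w X → v0 ∈ X →
        (∀ a ∈ X, ∀ b ∈ X, a ≠ b → H.Adj a b) →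
        X.card ≠ (Finset.univ.filter fun v => H.Adj u v).card)) :
    W2Hard (Con₁ H) := by
  refine SX.hard (u := u) (T := fun v => v = t) (ξ := False) fun inc => ⟨fun f => ?_⟩
  rcases ew : f w with _ | s | ⟨x, i⟩
  · have ty : ∀ v, v ≠ w → (∃ s, f v = .sel s) ∨ ∃ z i, f v = .cp z i ∧
        (H.Adj u z ∨ z.val = t) := fun v h => by
      rcases ev : f v with _ | s' | ⟨z, k⟩
      · exact absurd (f.injective (ev.trans ew.symm)) h
      · exact Or.inl ⟨_, rfl⟩
      · exact Or.inr ⟨z, k, rfl, (adj f ew ev).2 (hw v h)⟩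
    have ty' : ∀ v, v ≠ w → ∃ z i, f v = .cp z i ∧ H.Adj u z := fun v h => by
      obtain ⟨a, b, ha, hb, h1, h2, h3⟩ := tri v h
      rcases ty v h with ⟨s, ev⟩ | ⟨z, k, ev, hz⟩
      · have : ∀ a, a ≠ w → H.Adj v a → ∃ z i, f a = .cp z i ∧ z.val = t := fun a ha h1 => by
          rcases ty a ha with ⟨s', ea⟩ | ⟨z, k, ea, hz⟩
          · exact absurd ((adj f ev ea).2 h1) (by simp [TG.dad, MT])
          · have := (adj f ev ea).2 h1
            simp only [TG.dad, MT, false_and, or_false] at this
            exact ⟨z, k, ea, this.1⟩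
        obtain ⟨z, k, ea, hz⟩ := this a ha h1
        obtain ⟨z', k', eb, hz'⟩ := this b hb h2
        have := (adj f ea eb).2 h3
        simp only [TG.dad, MT, and_false, or_false] at this
        exact absurd (Subtype.ext (hz.trans hz'.symm)) this.2.1
      · rcases hz with hz | hz
        · exact ⟨z, k, ev, hz⟩
        · -- a copy of `t`
          have : ∀ a, a ≠ w → H.Adj v a → (∃ s, f a = .sel s) ∨ ∃ z, f a = .cp z k ∧ z.val = w :=
            fun a ha h1 => by
            rcases ty a ha with ⟨s', ea⟩ | ⟨z', k', ea, hz'⟩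
            · exact Or.inl ⟨s', ea⟩
            · have := (adj f ev ea).2 h1
              simp only [TG.dad, MT, and_false, or_false] at this
              obtain ⟨rfl, h4, h5⟩ := this
              refine Or.inr ⟨z', ea, by_contra fun h6 => ?_⟩
              rcases hz' with h7 | h7
              · exact hcn z' h6 h7 (hz ▸ h5)
              · exact h4 (Subtype.ext (hz.trans h7.symm))
          rcases this a ha h1 with ⟨s, ea⟩ | ⟨za, ea, hza⟩ <;>
            rcases this b hb h2 with ⟨s', eb⟩ | ⟨zb, eb, hzb⟩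
          · exact absurd ((adj f ea eb).2 h3) (by simp [TG.dad, MT])
          · have := (adj f ea eb).2 h3
            simp only [TG.dad, MT, false_and, or_false] at this
            exact absurd (this.1.symm.trans hzb) htw
          · have := (adj f ea eb).2 h3
            simp only [TG.dad, MT, false_and, or_false] at this
            exact absurd (this.1.symm.trans hza) htw
          · exact absurd (f.injective (by rw [ea, eb, Subtype.ext (hza.trans hzb.symm)])) h3.ne
    let ζ : Fin m → Fin m := fun v => match f v with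
      | .cp z _ => z.1
      | _ => w
    have ζe : ∀ v z i, f v = .cp z i → ζ v = z.1 := fun v z i h => by simp only [ζ, h]
    have blk : ∀ v0, v0 ≠ w → ∃ X : Finset (Fin m), v0 ∈ X ∧ Cl H w X ∧
        X.card ≤ (Finset.univ.filter fun v => H.Adj u v).card ∧
        ((∀ a b, a ≠ w → b ≠ w → H.Adj u a → H.Adj u b → a ≠ b → H.Adj a b) →
          ∀ a ∈ X, ∀ b ∈ X, a ≠ b → H.Adj a b) := fun v0 h0 => by
      obtain ⟨z0, i0, e0, -⟩ := ty' v0 h0
      refine ⟨Finset.univ.filter fun v => v ≠ w ∧ ∃ z, f v = .cp z i0, Finset.mem_filter.2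
        ⟨Finset.mem_univ _, h0, z0, e0⟩, ⟨fun v hv => (Finset.mem_filter.1 hv).2.1,
        fun v hv v' hv' h => ?_⟩, ?_, fun hc a ha b hb hab => ?_⟩
      · obtain ⟨h1, z, ev⟩ := (Finset.mem_filter.1 hv).2
        obtain ⟨z', i', ev', -⟩ := ty' v' hv'
        have := (adj f ev ev').2 h
        simp only [TG.dad, MT, and_false, or_false] at this
        exact Finset.mem_filter.2 ⟨Finset.mem_univ _, hv', z', by rw [ev', this.1]⟩
      · refine Finset.card_le_card_of_injOn ζ (fun v hv => ?_) fun v hv v' hv' e => ?_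
        · obtain ⟨h1, z, ev⟩ := (Finset.mem_filter.1 hv).2
          obtain ⟨z', i', ev', h2⟩ := ty' v h1
          rw [ζe v z' i' ev']
          exact Finset.mem_coe.2 (Finset.mem_filter.2 ⟨Finset.mem_univ _, h2⟩)
        · obtain ⟨h1, z, ev⟩ := (Finset.mem_filter.1 hv).2
          obtain ⟨h2, z', ev'⟩ := (Finset.mem_filter.1 hv').2
          rw [ζe v z _ ev, ζe v' z' _ ev'] at e
          exact f.injective (by rw [ev, ev', Subtype.ext e])
      · obtain ⟨h1, z, ea⟩ := (Finset.mem_filter.1 ha).2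
        obtain ⟨h2, z', eb⟩ := (Finset.mem_filter.1 hb).2
        obtain ⟨y, j, ea', h3⟩ := ty' a h1
        obtain ⟨y', j', eb', h4⟩ := ty' b h2
        rw [ea] at ea'; cases ea'
        rw [eb] at eb'; cases eb'
        have h5 : z ≠ z' := fun e => hab (f.injective (by rw [ea, eb, e]))
        have h6 : z.val ≠ z'.val := fun e => h5 (Subtype.ext e)
        refine (adj f ea eb).1 (Or.inl ⟨rfl, h5, ?_⟩)
        show H.Adj z.val z'.val
        by_cases h7 : z.val = w
        · rw [h7]; exact hw _ fun e => h6 (h7.trans e.symm)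
        by_cases h8 : z'.val = w
        · rw [h8]; exact (hw _ h7).symm
        · exact hc _ _ h7 h8 h3 h4 h6
    rcases hne with h | ⟨h, v0, h0, h1⟩
    · obtain ⟨X, h1, h2, h3, -⟩ := blk t htw
      have := h X ⟨_, h1⟩ h2
      omega
    · obtain ⟨X, h2, h3, h4, h5⟩ := blk v0 h0
      exact h1 X h3 h2 (h5 h) (le_antisymm h4 (hX X ⟨_, h2⟩ h3))
  · have ty : ∀ v, v ≠ w → f v = .root ∨ ∃ z i, f v = .cp z i ∧ z.val = t := fun v h => by
      rcases ev : f v with _ | s' | ⟨z, k⟩
      · exact Or.inl rfl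
      · exact absurd ((adj f ew ev).2 (hw v h)) (by simp [TG.dad, MT])
      · have := (adj f ew ev).2 (hw v h)
        simp only [TG.dad, MT, false_and, or_false] at this
        exact Or.inr ⟨z, k, rfl, this.1⟩
    have tt : ∀ a b, (∃ z i, f a = .cp z i ∧ z.val = t) → (∃ z i, f b = .cp z i ∧ z.val = t) →
        ¬ H.Adj a b := fun a b ⟨z, i, ea, hz⟩ ⟨z', i', eb, hz'⟩ h => by
      have := (adj f ea eb).2 h
      simp only [TG.dad, MT, and_false, or_false] at this
      exact this.2.1 (Subtype.ext (hz.trans hz'.symm))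
    obtain ⟨a, b, ha, hb, h1, h2, h3⟩ := tri t htw
    rcases ty t htw with e1 | e1 <;> rcases ty a ha with e2 | e2 <;> rcases ty b hb with e3 | e3
    · exact h1.ne (f.injective (e1.trans e2.symm))
    · exact h1.ne (f.injective (e1.trans e2.symm))
    · exact h2.ne (f.injective (e1.trans e3.symm))
    · exact tt _ _ e2 e3 h3
    · exact h3.ne (f.injective (e2.trans e3.symm))
    · exact tt _ _ e1 e3 h2
    · exact tt _ _ e1 e2 h1
    · exact tt _ _ e1 e2 h1
  · by_cases hx : x.val = t
    swap
    · exact SX.cnt f hw htu rfl hn ew hx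
    have ty : ∀ v, v ≠ w → f v = .root ∨ (∃ s, f v = .sel s) ∨ ∃ z, f v = .cp z i ∧
        H.Adj t z := fun v h => by
      rcases ev : f v with _ | s' | ⟨z, k⟩
      · exact Or.inl rfl
      · exact Or.inr (Or.inl ⟨_, rfl⟩)
      · have := (adj f ew ev).2 (hw v h)
        simp only [TG.dad, MT, and_false, or_false] at this
        exact Or.inr (Or.inr ⟨z, by rw [this.1], hx ▸ this.2.2⟩)
    refine MT.count f i (fun v => ?_) htu rfl hn
    by_cases h1 : v = w
    · exact Or.inr ⟨x, h1 ▸ ew⟩
    rcases ty v h1 with ev | ⟨s, ev⟩ | ⟨z, ev, -⟩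
    · exact Or.inl ev
    · obtain ⟨a, b, ha, hb, h1, h2, h3⟩ := tri v h1
      have : ∀ a, a ≠ w → H.Adj v a → f a = .root := fun a ha h => by
        rcases ty a ha with ea | ⟨s', ea⟩ | ⟨z, ea, hz⟩
        · exact ea
        · exact absurd ((adj f ev ea).2 h) (by simp [TG.dad, MT])
        · have := (adj f ev ea).2 h
          simp only [TG.dad, MT, false_and, or_false] at this
          exact absurd this.1.symm hz.ne
      exact absurd (f.injective ((this a ha h1).trans (this b hb h2).symm)) h3.ne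
    · exact Or.inr ⟨z, ev⟩

open Classical in
/-- disjoint union of at least two cliques of the same size at least three -/
theorem hardB4 {w u t : Fin m} (hw : Univ H w) (huw : u ≠ w) (htw : t ≠ w) (htu : t ≠ u)
    (hn : ¬ H.Adj u t)
    (tr : ∀ a b c, a ≠ w → b ≠ w → c ≠ w → a ≠ c → H.Adj a b → H.Adj b c → H.Adj a c) (d : ℕ)
    (hd : ∀ v, v ≠ w → (Finset.univ.filter fun v' => H.Adj v v').card = d) (h3 : 3 ≤ d) :
    W2Hard (Con₁ H) := by
  have hcn : ∀ v, v ≠ w → H.Adj u v → ¬ H.Adj t v := fun v h h1 h2 =>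
    hn (tr u v t huw h htw htu.symm h1 h2.symm)
  have tri : ∀ v, v ≠ w → ∃ a b, a ≠ w ∧ b ≠ w ∧ H.Adj v a ∧ H.Adj v b ∧ H.Adj a b := fun v h => by
    have h1 := hd v h
    have h4 : w ∈ Finset.univ.filter fun v' => H.Adj v v' := by simp [(hw v h).symm]
    have h5 : 1 < ((Finset.univ.filter fun v' => H.Adj v v').erase w).card := by
      rw [Finset.card_erase_of_mem h4]; omega
    obtain ⟨a, ha, b, hb, hab⟩ := Finset.one_lt_card.1 h5
    simp only [Finset.mem_erase, Finset.mem_filter, Finset.mem_univ, true_and] at ha hb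
    exact ⟨a, b, ha.1, hb.1, ha.2, hb.2, tr a v b ha.1 h hb.1 hab ha.2.symm hb.2⟩
  obtain ⟨z1, -, hz1, -, hu1, -⟩ := tri u huw
  let D : TG {v : Fin m // v ≠ u} := MT H u (fun a b => a = z1 ∧ b = z1) (fun _ _ h => h.symm)
    (fun v => v = t) (fun _ => False) (fun _ h => h.elim) False
  refine fin_hard u.pos H D (fun inc => ⟨fun f => ?_⟩) fun Y _ => MT.main u
    (fun a b => a = z1 ∧ b = z1) (fun _ _ h => h.symm) (fun v => v = t) (fun _ => False)
    (fun _ h => h.elim) False Y fun _ a _ h => h.2 ▸ hu1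
  have tz1 : t ≠ z1 := fun e => hn (e ▸ hu1)
  let ζ : Fin m → Fin m := fun v => match f v with
    | .cp z _ => z.1
    | _ => w
  have ζe : ∀ v z i, f v = .cp z i → ζ v = z.1 := fun v z i h => by simp only [ζ, h]
  -- a clique all of whose members are copies with one index, avoiding a type
  have small : ∀ v i, v ≠ w → (∃ z, f v = .cp z i) → ∀ z0 : Fin m, z0 ≠ w → ∀ y, y ≠ w →
      H.Adj z0 y → (∀ v', v' ≠ w → (v' = v ∨ H.Adj v v') → ∃ z, f v' = .cp z i ∧ H.Adj z0 z ∧
        z.val ≠ y) → False := fun v i hv _ z0 hz0 y hy hy' hall => by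
    have h1 : ((insert v ((Finset.univ.filter fun v' => H.Adj v v').erase w))).card ≤
        ((Finset.univ.filter fun v' => H.Adj z0 v').erase y).card := by
      have mem : ∀ a ∈ insert v ((Finset.univ.filter fun v' => H.Adj v v').erase w),
          ∃ z, f a = .cp z i ∧ H.Adj z0 z ∧ z.val ≠ y := fun a ha => by
        simp only [Finset.mem_insert, Finset.mem_erase, Finset.mem_filter, Finset.mem_univ,
          true_and] at ha
        rcases ha with rfl | ha
        · exact hall a hv (Or.inl rfl)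
        · exact hall a ha.1 (Or.inr ha.2)
      refine Finset.card_le_card_of_injOn ζ (fun a ha => ?_) fun a ha b hb e => ?_
      · obtain ⟨z, ea, h1, h2⟩ := mem a ha
        rw [ζe a z i ea]
        simp [h1, h2]
      · obtain ⟨z, ea, -⟩ := mem a ha
        obtain ⟨z', eb, -⟩ := mem b hb
        rw [ζe a z i ea, ζe b z' i eb] at e
        exact f.injective (by rw [ea, eb, Subtype.ext e])
    rw [Finset.card_insert_of_notMem (by simp), Finset.card_erase_of_mem (by simp [(hw v hv).symm]),
      Finset.card_erase_of_mem (by simpa using hy'), hd v hv, hd z0 hz0] at h1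
    omega
  rcases ew : f w with _ | s | ⟨x, i⟩
  · have ty : ∀ v, v ≠ w → (∃ s, f v = .sel s) ∨ ∃ z i, f v = .cp z i ∧
        (H.Adj u z ∨ z.val = t) := fun v h => by
      rcases ev : f v with _ | s' | ⟨z, k⟩
      · exact absurd (f.injective (ev.trans ew.symm)) h
      · exact Or.inl ⟨_, rfl⟩
      · exact Or.inr ⟨z, k, rfl, (adj f ew ev).2 (hw v h)⟩
    have ty' : ∀ v, v ≠ w → ∃ z i, f v = .cp z i ∧ H.Adj u z := fun v h => by
      obtain ⟨a, b, ha, hb, h1, h2, h3⟩ := tri v h
      rcases ty v h with ⟨s, ev⟩ | ⟨z, k, ev, hz⟩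
      · have : ∀ a, a ≠ w → H.Adj v a → ∃ z i, f a = .cp z i ∧ z.val = t := fun a ha h1 => by
          rcases ty a ha with ⟨s', ea⟩ | ⟨z, k, ea, hz⟩
          · exact absurd ((adj f ev ea).2 h1) (by simp [TG.dad, D, MT])
          · have := (adj f ev ea).2 h1
            simp only [TG.dad, D, MT, false_and, or_false] at this
            exact ⟨z, k, ea, this.1⟩
        obtain ⟨z, k, ea, hz⟩ := this a ha h1
        obtain ⟨z', k', eb, hz'⟩ := this b hb h2
        rcases (adj f ea eb).2 h3 with h4 | h4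
        · exact absurd (Subtype.ext (hz.trans hz'.symm)) h4.2.1
        · exact absurd (hz.symm.trans h4.2.1) tz1
      · rcases hz with hz | hz
        · exact ⟨z, k, ev, hz⟩
        · -- a copy of `t`
          have : ∀ a, a ≠ w → H.Adj v a → (∃ s, f a = .sel s) ∨ ∃ z, f a = .cp z k ∧ z.val = w :=
            fun a ha h1 => by
            rcases ty a ha with ⟨s', ea⟩ | ⟨z', k', ea, hz'⟩
            · exact Or.inl ⟨s', ea⟩
            · rcases (adj f ev ea).2 h1 with h6 | h6
              · obtain ⟨rfl, h4, h5⟩ := h6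
                refine Or.inr ⟨z', ea, by_contra fun h6 => ?_⟩
                rcases hz' with h7 | h7
                · exact hcn z' h6 h7 (hz ▸ h5)
                · exact h4 (Subtype.ext (hz.trans h7.symm))
              · exact absurd (hz.symm.trans h6.2.1) tz1
          rcases this a ha h1 with ⟨s, ea⟩ | ⟨za, ea, hza⟩ <;>
            rcases this b hb h2 with ⟨s', eb⟩ | ⟨zb, eb, hzb⟩
          · exact absurd ((adj f ea eb).2 h3) (by simp [TG.dad, D, MT])
          · have := (adj f ea eb).2 h3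
            simp only [TG.dad, D, MT, false_and, or_false] at this
            exact absurd (this.1.symm.trans hzb) htw
          · have := (adj f ea eb).2 h3
            simp only [TG.dad, D, MT, false_and, or_false] at this
            exact absurd (this.1.symm.trans hza) htw
          · exact absurd (f.injective (by rw [ea, eb, Subtype.ext (hza.trans hzb.symm)])) h3.ne
    have cz : ∀ v, v ≠ w → ∃ v', v' ≠ w ∧ (v' = v ∨ H.Adj v v') ∧ ∃ z j, f v' = .cp z j ∧
        z.val = z1 := fun v hv => by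
      by_contra hcon
      have hc : ∀ v', v' ≠ w → (v' = v ∨ H.Adj v v') → ∀ z j, f v' = .cp z j → z.val ≠ z1 :=
        fun v' h h' z j h4 h5 => hcon ⟨v', h, h', z, j, h4, h5⟩
      obtain ⟨z, i, ev, hz⟩ := ty' v hv
      refine small v i hv ⟨z, ev⟩ u huw z1 hz1 hu1 fun v' h h' => ?_
      obtain ⟨z', i', ev', hz'⟩ := ty' v' h
      have h5 := hc v' h h' z' i' ev'
      rcases h' with rfl | h'
      · rw [ev] at ev'; cases ev'; exact ⟨z, ev, hz, h5⟩
      · rcases (adj f ev ev').2 h' with h6 | h6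
        · obtain ⟨rfl, -⟩ := h6; exact ⟨z', ev', hz', h5⟩
        · exact absurd h6.2.2 h5
    obtain ⟨u', hu1', hu2', z, j, eu, hz⟩ := cz u huw
    obtain ⟨t', ht1', ht2', z', j', et, hz'⟩ := cz t htw
    have hR : ∀ a b c, a ≠ w → b ≠ w → c ≠ w → (a = b ∨ H.Adj a b) → (b = c ∨ H.Adj b c) →
        (a = c ∨ H.Adj a c) := fun a b c h1 h2 h3 h4 h5 => by
      rcases h4 with rfl | h4
      · exact h5
      rcases h5 with rfl | h5
      · exact Or.inr h4
      by_cases e : a = c
      · exact Or.inl e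
      · exact Or.inr (tr a b c h1 h2 h3 e h4 h5)
    have h6 : u' = t' ∨ H.Adj u' t' := by
      by_cases e : j = j'
      · exact Or.inl (f.injective (by rw [eu, et, e, Subtype.ext (hz.trans hz'.symm)]))
      · exact Or.inr ((adj f eu et).1 (Or.inr ⟨e, hz, hz'⟩))
    rcases hR u t' t huw ht1' htw (hR u u' t' huw hu1' ht1' (hu2'.imp Eq.symm id) h6)
      (ht2'.imp id fun h => h.symm) with h | h
    · exact htu h.symm
    · exact hn h
  · have ty : ∀ v, v ≠ w → f v = .root ∨ ∃ z i, f v = .cp z i ∧ z.val = t := fun v h => by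
      rcases ev : f v with _ | s' | ⟨z, k⟩
      · exact Or.inl rfl
      · exact absurd ((adj f ew ev).2 (hw v h)) (by simp [TG.dad, D, MT])
      · have := (adj f ew ev).2 (hw v h)
        simp only [TG.dad, D, MT, false_and, or_false] at this
        exact Or.inr ⟨z, k, rfl, this.1⟩
    have tt : ∀ a b, (∃ z i, f a = .cp z i ∧ z.val = t) → (∃ z i, f b = .cp z i ∧ z.val = t) →
        ¬ H.Adj a b := fun a b ⟨z, i, ea, hz⟩ ⟨z', i', eb, hz'⟩ h => by
      rcases (adj f ea eb).2 h with h4 | h4
      · exact h4.2.1 (Subtype.ext (hz.trans hz'.symm))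
      · exact tz1 (hz.symm.trans h4.2.1)
    obtain ⟨a, b, ha, hb, h1, h2, h3⟩ := tri t htw
    rcases ty t htw with e1 | e1 <;> rcases ty a ha with e2 | e2 <;> rcases ty b hb with e3 | e3
    · exact h1.ne (f.injective (e1.trans e2.symm))
    · exact h1.ne (f.injective (e1.trans e2.symm))
    · exact h2.ne (f.injective (e1.trans e3.symm))
    · exact tt _ _ e2 e3 h3
    · exact h3.ne (f.injective (e2.trans e3.symm))
    · exact tt _ _ e1 e3 h2
    · exact tt _ _ e1 e2 h1
    · exact tt _ _ e1 e2 h1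
  · by_cases hx : x.val = t
    · have ty : ∀ v, v ≠ w → f v = .root ∨ (∃ s, f v = .sel s) ∨ ∃ z, f v = .cp z i ∧
          H.Adj t z := fun v h => by
        rcases ev : f v with _ | s' | ⟨z, k⟩
        · exact Or.inl rfl
        · exact Or.inr (Or.inl ⟨_, rfl⟩)
        · rcases (adj f ew ev).2 (hw v h) with h4 | h4
          · exact Or.inr (Or.inr ⟨z, by rw [h4.1], hx ▸ h4.2.2⟩)
          · exact absurd (hx.symm.trans h4.2.1) tz1
      refine MT.count f i (fun v => ?_) htu rfl hn
      by_cases h1 : v = w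
      · exact Or.inr ⟨x, h1 ▸ ew⟩
      rcases ty v h1 with ev | ⟨s, ev⟩ | ⟨z, ev, -⟩
      · exact Or.inl ev
      · obtain ⟨a, b, ha, hb, h1, h2, h3⟩ := tri v h1
        have : ∀ a, a ≠ w → H.Adj v a → f a = .root := fun a ha h => by
          rcases ty a ha with ea | ⟨s', ea⟩ | ⟨z, ea, hz⟩
          · exact ea
          · exact absurd ((adj f ev ea).2 h) (by simp [TG.dad, D, MT])
          · have := (adj f ev ea).2 h
            simp only [TG.dad, D, MT, false_and, or_false] at this
            exact absurd this.1.symm hz.ne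
        exact absurd (f.injective ((this a ha h1).trans (this b hb h2).symm)) h3.ne
      · exact Or.inr ⟨z, ev⟩
    by_cases hx1 : x.val = z1
    · have ty : ∀ v, v ≠ w → f v = .root ∨ ∃ z j, f v = .cp z j ∧
          ((i = j ∧ H.Adj z1 z) ∨ (i ≠ j ∧ z.val = z1)) := fun v h => by
        rcases ev : f v with _ | s' | ⟨z, k⟩
        · exact Or.inl rfl
        · have := (adj f ew ev).2 (hw v h)
          simp only [TG.dad, D, MT, false_and, or_false] at this
          exact absurd this.1 hx
        · rcases (adj f ew ev).2 (hw v h) with h4 | h4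
          · exact Or.inr ⟨z, k, rfl, Or.inl ⟨h4.1, hx1 ▸ h4.2.2⟩⟩
          · exact Or.inr ⟨z, k, rfl, Or.inr ⟨h4.1, h4.2.2⟩⟩
      have nr : ∀ v, v ≠ w → f v ≠ .root := fun v hv ev => by
        have h4 : ∀ v', v' ≠ w → v' ≠ v → H.Adj v v' := fun v' h h' => by
          rcases ty v' h with ev' | ⟨z, j, ev', h5⟩
          · exact absurd (f.injective (ev'.trans ev.symm)) h'
          · refine (adj f ev ev').1 (Or.inl ?_)
            show H.Adj u z
            rcases h5 with ⟨-, h5⟩ | ⟨-, h5⟩
            · by_cases e : z.val = w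
              · rw [e]; exact (hw u huw).symm
              · exact tr u z1 z huw hz1 e z.2.symm hu1 h5
            · rw [h5]; exact hu1
        by_cases e1 : u = v
        · exact hn (e1 ▸ h4 t htw fun e => htu (e.trans e1.symm))
        by_cases e2 : t = v
        · exact hn (e2 ▸ (h4 u huw e1).symm)
        · exact hn (tr u v t huw hv htw htu.symm (h4 u huw e1).symm (h4 t htw e2))
      have far : ∀ v, v ≠ w → ∃ z j, f v = .cp z j ∧ z.val = z1 := fun v hv => by
        obtain ⟨z, j, ev, h5⟩ := (ty v hv).resolve_left (nr v hv)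
        rcases h5 with ⟨rfl, h5⟩ | ⟨h4, h5⟩
        · refine (small v i hv ⟨z, ev⟩ z1 hz1 u huw hu1.symm fun v' h h' => ?_).elim
          rcases h' with rfl | h'
          · exact ⟨z, ev, h5, z.2⟩
          · obtain ⟨z', j', ev', h6⟩ := (ty v' h).resolve_left (nr v' h)
            rcases (adj f ev ev').2 h' with h7 | h7
            · obtain ⟨rfl, -⟩ := h7
              rcases h6 with ⟨-, h6⟩ | ⟨h6, -⟩
              · exact ⟨z', ev', h6, z'.2⟩
              · exact absurd rfl h6
            · exact absurd h7.2.1.symm h5.ne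
        · exact ⟨z, j, ev, h5⟩
      obtain ⟨z, j, eu, hz⟩ := far u huw
      obtain ⟨z', j', et, hz'⟩ := far t htw
      by_cases e : j = j'
      · exact htu (f.injective (by rw [eu, et, e, Subtype.ext (hz.trans hz'.symm)])).symm
      · exact hn ((adj f eu et).1 (Or.inr ⟨e, hz, hz'⟩))
    · refine MT.count f i (fun v => ?_) htu rfl hn
      by_cases h1 : v = w
      · exact Or.inr ⟨x, h1 ▸ ew⟩
      rcases ev : f v with _ | s' | ⟨z, k⟩
      · exact Or.inl rfl
      · have := (adj f ew ev).2 (hw v h1)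
        simp only [TG.dad, D, MT, false_and, or_false] at this
        exact absurd this.1 hx
      · rcases (adj f ew ev).2 (hw v h1) with h4 | h4
        · exact Or.inr ⟨z, by rw [h4.1]⟩
        · exact absurd h4.2.1 hx1

end Pool.Agent.L0h77.HC
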