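import Pool.Agent.L0h77.HC.One2

/-! An isolated edge and a star. -/

namespace Pool.Agent.L0h77.HC

open Pool.Agent.H22.CT SimpleGraph Function

variable {m : ℕ} {H : SimpleGraph (Fin m)}

theorem hardR {w u z x t t' : Fin m} (hw : Univ H w) (huw : u ≠ w) (hzw : z ≠ w) (hxw : x ≠ w)
    (htw : t ≠ w) (htw' : t' ≠ w) (hux : u ≠ x) (huz : H.Adj u z) (hxz : H.Adj x z)
    (htt : H.Adj t t') (nzt : ¬ H.Adj z t) (nzt' : ¬ H.Adj z t') (ztn : z ≠ t) (ztn' : z ≠ t')
    (lf : ∀ v, v ≠ w → v ≠ z → v ≠ t → v ≠ t' → H.Adj z v)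
    (ed : ∀ a b, a ≠ w → b ≠ w → H.Adj a b → a = z ∨ b = z ∨ (a = t ∧ b = t') ∨ (a = t' ∧ b = t)) :
    W2Hard (Con₁ H) := by
  classical
  have htu : t ≠ u := fun e => nzt (e ▸ huz.symm)
  have htu' : t' ≠ u := fun e => nzt' (e ▸ huz.symm)
  have htx : t ≠ x := fun e => nzt (e ▸ hxz.symm)
  have htx' : t' ≠ x := fun e => nzt' (e ▸ hxz.symm)
  have nut : ¬ H.Adj u t := fun h => by
    rcases ed u t huw htw h with e | e | ⟨e, -⟩ | ⟨e, -⟩
    · exact huz.ne e
    · exact ztn e.symm
    · exact htu e.symm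
    · exact htu' e.symm
  have nut' : ¬ H.Adj u t' := fun h => by
    rcases ed u t' huw htw' h with e | e | ⟨e, -⟩ | ⟨e, -⟩
    · exact huz.ne e
    · exact ztn' e.symm
    · exact htu e.symm
    · exact htu' e.symm
  have Nu : ∀ v, v ≠ w → H.Adj u v → v = z := fun v hv h => by
    rcases ed u v huw hv h with e | e | ⟨e, -⟩ | ⟨e, -⟩
    · exact absurd e huz.ne
    · exact e
    · exact absurd e.symm htu
    · exact absurd e.symm htu'
  have Nx : ∀ v, v ≠ w → H.Adj x v → v = z := fun v hv h => by
    rcases ed x v hxw hv h with e | e | ⟨e, -⟩ | ⟨e, -⟩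
    · exact absurd e hxz.ne
    · exact e
    · exact absurd e.symm htx
    · exact absurd e.symm htx'
  have Nt : ∀ v, v ≠ w → H.Adj t v → v = t' := fun v hv h => by
    rcases ed t v htw hv h with e | e | ⟨-, e⟩ | ⟨e, -⟩
    · exact absurd e.symm ztn
    · exact absurd (e ▸ h.symm) nzt
    · exact e
    · exact absurd e htt.ne
  have Nt' : ∀ v, v ≠ w → H.Adj t' v → v = t := fun v hv h => by
    rcases ed t' v htw' hv h with e | e | ⟨e, -⟩ | ⟨-, e⟩
    · exact absurd e.symm ztn'
    · exact absurd (e ▸ h.symm) nzt'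
    · exact absurd e.symm htt.ne
    · exact e
  -- two disjoint edges without edges between them
  have two : ∀ K : Fin m → Prop, (∀ a b, a ≠ w → b ≠ w → a ≠ b → K a → K b → H.Adj a b) →
      (∀ a b, a ≠ w → b ≠ w → ¬ K a → ¬ K b → ¬ H.Adj a b) → False := fun K h1 h2 => by
    have c1 : K u ∨ K z := by
      by_contra h
      rw [not_or] at h
      exact h2 u z huw hzw h.1 h.2 huz
    have c2 : K t ∨ K t' := by
      by_contra h
      rw [not_or] at h
      exact h2 t t' htw htw' h.1 h.2 htt
    rcases c1 with c1 | c1 <;> rcases c2 with c2 | c2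
    · exact nut (h1 u t huw htw htu.symm c1 c2)
    · exact nut' (h1 u t' huw htw' htu'.symm c1 c2)
    · exact nzt (h1 z t hzw htw ztn c1 c2)
    · exact nzt' (h1 z t' hzw htw' ztn' c1 c2)
  have P4 : ∀ a b c d, a ≠ w → b ≠ w → c ≠ w → d ≠ w → a ≠ c → b ≠ d → H.Adj a b → H.Adj b c →
      H.Adj c d → False := fun a b c d ha hb hc hd hac hbd h1 h2 h3 => by
    rcases ed b c hb hc h2 with e | e | ⟨e, e'⟩ | ⟨e, e'⟩
    · rcases ed c d hc hd h3 with g | g | ⟨g, -⟩ | ⟨g, -⟩
      · exact h2.ne (e.trans g.symm)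
      · exact hbd (e.trans g.symm)
      · exact nzt (by rw [← e, ← g]; exact h2)
      · exact nzt' (by rw [← e, ← g]; exact h2)
    · rcases ed a b ha hb h1 with g | g | ⟨-, g⟩ | ⟨-, g⟩
      · exact hac (g.trans e.symm)
      · exact h2.ne (g.trans e.symm)
      · exact nzt' (by rw [← e, ← g]; exact h2.symm)
      · exact nzt (by rw [← e, ← g]; exact h2.symm)
    · exact hac ((Nt a ha (e ▸ h1.symm)).trans e'.symm)
    · exact hac ((Nt' a ha (e ▸ h1.symm)).trans e'.symm)
  have tf : ∀ a b c, a ≠ w → b ≠ w → c ≠ w → H.Adj a b → H.Adj a c → H.Adj b c → False :=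
    fun a b c ha hb hc h1 h2 h3 => by
      -- the path `z' - b - c - a` degenerates; use the classification directly
      rcases ed a b ha hb h1 with e | e | ⟨e, e'⟩ | ⟨e, e'⟩
      · rcases ed b c hb hc h3 with g | g | ⟨g, -⟩ | ⟨g, -⟩
        · exact h1.ne (e.trans g.symm)
        · exact h2.ne (e.trans g.symm)
        · exact nzt (by rw [← e, ← g]; exact h1)
        · exact nzt' (by rw [← e, ← g]; exact h1)
      · rcases ed a c ha hc h2 with g | g | ⟨g, -⟩ | ⟨g, -⟩
        · exact h1.ne (g.trans e.symm)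
        · exact h3.ne (e.trans g.symm)
        · exact nzt (by rw [← e, ← g]; exact h1.symm)
        · exact nzt' (by rw [← e, ← g]; exact h1.symm)
      · exact h3.ne (e'.trans (Nt c hc (e ▸ h2)).symm)
      · exact h3.ne (e'.trans (Nt' c hc (e ▸ h2)).symm)
  have niso : ∀ v, v ≠ w → ∃ v', v' ≠ w ∧ H.Adj v v' := fun v hv => by
    by_cases e1 : v = z
    · exact ⟨u, huw, e1 ▸ huz.symm⟩
    by_cases e2 : v = t
    · exact ⟨t', htw', e2 ▸ htt⟩
    by_cases e3 : v = t'
    · exact ⟨t, htw, e3 ▸ htt.symm⟩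
    · exact ⟨z, hzw, (lf v hv e1 e2 e3).symm⟩
  have Rz : ∀ a : Fin m, H.Adj u a → a = w ∨ a = z := fun a h => by
    by_cases e : a = w
    · exact Or.inl e
    · exact Or.inr (Nu a e h)
  let D : TG {v : Fin m // v ≠ u} := MT H u (fun a b => a = w ∧ b = w) (fun _ _ h => h.symm)
    (fun v => v = w ∨ v = z ∨ v = t) (fun v => v = w) (fun _ h => h ▸ (hw u huw).symm) True
  refine fin_hard u.pos H D (fun inc => ⟨fun f => ?_⟩) fun Y _ => MT.main u
    (fun a b => a = w ∧ b = w) (fun _ _ h => h.symm) (fun v => v = w ∨ v = z ∨ v = t)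
    (fun v => v = w) (fun _ h => h ▸ (hw u huw).symm) True Y fun _ a _ h => h.2 ▸ (hw u huw).symm
  -- the clique part: root, selectors, copies of `w`
  let K : Fin m → Prop := fun v => f v = .root ∨ (∃ s, f v = .sel s) ∨ ∃ a i, f v = .cp a i ∧
    a.val = w
  have dich : ∀ v, K v ∨ ∃ a i, f v = .cp a i ∧ a.val ≠ w := fun v => by
    rcases ev : f v with _ | s | ⟨a, i⟩
    · exact Or.inl (Or.inl ev)
    · exact Or.inl (Or.inr (Or.inl ⟨s, ev⟩))
    · by_cases h : a.val = w
      · exact Or.inl (Or.inr (Or.inr ⟨a, i, ev, h⟩))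
      · exact Or.inr ⟨a, i, rfl, h⟩
  have KK : ∀ a b, a ≠ w → b ≠ w → a ≠ b → K a → K b → H.Adj a b := fun v v' _ _ hne h h' => by
    rcases h with h | ⟨s, h⟩ | ⟨a, i, h, ha⟩ <;> rcases h' with h' | ⟨s', h'⟩ | ⟨b, j, h', hb⟩ <;>
      rw [← adj f h h']
    · exact hne (f.injective (h.trans h'.symm))
    · trivial
    · exact Or.inr (Or.inl hb)
    · trivial
    · exact ⟨fun e => hne (f.injective (by rw [h, h', e])), trivial⟩
    · by_cases hi : inc s j
      · exact Or.inl ⟨Or.inl hb, hi⟩
      · exact Or.inr ⟨hb, hi⟩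
    · exact Or.inr (Or.inl ha)
    · by_cases hi : inc s' i
      · exact Or.inl ⟨Or.inl ha, hi⟩
      · exact Or.inr ⟨ha, hi⟩
    · exact Or.inr ⟨fun e => hne (f.injective (by rw [h, h', e, Subtype.ext (ha.trans hb.symm)])),
        ha, hb⟩
  -- outside the clique part only vertices of one copy can be adjacent
  have II : ∀ a b x i y j, f a = .cp x i → f b = .cp y j → x.val ≠ w → H.Adj a b →
      i = j ∧ H.Adj x.val y.val := fun a b x i y j ea eb hx h => by
    rcases (adj f ea eb).2 h with ⟨h1, -, h2⟩ | ⟨-, h1⟩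
    · exact ⟨h1, h2⟩
    · exact absurd h1.1 hx
  rcases ew : f w with _ | s | ⟨y, i⟩
  · have ty : ∀ v, v ≠ w → ¬ K v → ∃ a i, f v = .cp a i ∧ a.val ≠ w ∧ (a.val = z ∨ a.val = t) :=
      fun v hv hK => by
        obtain ⟨a, i, ea, ha⟩ := (dich v).resolve_left hK
        refine ⟨a, i, ea, ha, ?_⟩
        rcases (adj f ew ea).2 (hw v hv) with h | h | h
        · exact Or.inl ((Rz _ h).resolve_left ha)
        · exact absurd h ha
        · exact h
    refine two K KK fun a b ha hb hKa hKb h => ?_
    obtain ⟨x, i, ea, h1, h2⟩ := ty a ha hKa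
    obtain ⟨y, j, eb, h3, h4⟩ := ty b hb hKb
    have := (II a b x i y j ea eb h1 h).2
    rcases h2 with h2 | h2 <;> rcases h4 with h4 | h4 <;> rw [h2, h4] at this
    · exact this.ne rfl
    · exact nzt this
    · exact nzt this.symm
    · exact this.ne rfl
  · have ty : ∀ v, v ≠ w → ¬ K v → ∃ a i, f v = .cp a i ∧ a.val ≠ w ∧ (a.val = z ∨ a.val = t) :=
      fun v hv hK => by
        obtain ⟨a, i, ea, ha⟩ := (dich v).resolve_left hK
        refine ⟨a, i, ea, ha, ?_⟩
        rcases (adj f ew ea).2 (hw v hv) with ⟨h | h, -⟩ | ⟨h, -⟩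
        · exact absurd h ha
        · exact h
        · exact absurd h ha
    refine two K KK fun a b ha hb hKa hKb h => ?_
    obtain ⟨x, i, ea, h1, h2⟩ := ty a ha hKa
    obtain ⟨y, j, eb, h3, h4⟩ := ty b hb hKb
    have := (II a b x i y j ea eb h1 h).2
    rcases h2 with h2 | h2 <;> rcases h4 with h4 | h4 <;> rw [h2, h4] at this
    · exact this.ne rfl
    · exact nzt this
    · exact nzt this.symm
    · exact this.ne rfl
  · by_cases hyw : y.val = w
    swap
    · -- the image of `w` is a copy of another vertex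
      have ty : ∀ v, v ≠ w → ¬ K v → ∃ a, f v = .cp a i ∧ a.val ≠ w ∧ H.Adj y.val a.val :=
        fun v hv hK => by
          obtain ⟨a, j, ea, ha⟩ := (dich v).resolve_left hK
          obtain ⟨rfl, h⟩ := II w v y i a j ew ea hyw (hw v hv)
          exact ⟨a, ea, ha, h⟩
      by_cases hzt : y.val = z ∨ y.val = t
      · refine two K KK fun a b ha hb hKa hKb h => ?_
        obtain ⟨x, ea, h1, h2⟩ := ty a ha hKa
        obtain ⟨x', eb, h3, h4⟩ := ty b hb hKb
        have h5 := (II a b x i x' i ea eb h1 h).2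
        exact tf y.val x.val x'.val hyw h1 h3 h2 h4 h5
      · rw [not_or] at hzt
        refine MT.count f i (fun v => ?_) htu (Or.inr (Or.inr rfl)) nut
        by_cases h1 : v = w
        · exact Or.inr ⟨y, h1 ▸ ew⟩
        rcases dich v with h | ⟨a, j, ea, ha⟩
        · rcases h with h | ⟨s, h⟩ | ⟨a, j, h, ha⟩
          · exact Or.inl h
          · rcases (adj f ew h).2 (hw v h1) with ⟨g | g | g, -⟩ | ⟨g, -⟩
            · exact absurd g hyw
            · exact absurd g hzt.1
            · exact absurd g hzt.2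
            · exact absurd g hyw
          · obtain ⟨rfl, -⟩ := II w v y i a j ew h hyw (hw v h1)
            exact Or.inr ⟨a, h⟩
        · obtain ⟨rfl, -⟩ := II w v y i a j ew ea hyw (hw v h1)
          exact Or.inr ⟨a, ea⟩
    · -- the image of `w` is a copy of `w`
      have hJ : ∀ v, v ≠ w → ¬ K v → ∃ a, f v = .cp a i ∧ a.val ≠ w := fun v hv hK => by
        obtain ⟨a, j, ea, ha⟩ := (dich v).resolve_left hK
        rcases (adj f ew ea).2 (hw v hv) with ⟨rfl, -⟩ | ⟨-, h⟩
        · exact ⟨a, ea, ha⟩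
        · exact absurd h.2 ha
      have Kw : ∀ v a j, v ≠ w → f v = .cp a j → a.val = w → i ≠ j := fun v a j hv ev ha e =>
        hv (f.injective (by rw [ev, ew, ← e, Subtype.ext (ha.trans hyw.symm)]))
      let ζ : Fin m → Fin m := fun v => match f v with
        | .cp z _ => z.1
        | _ => w
      have ζe : ∀ v z i, f v = .cp z i → ζ v = z.1 := fun v z i h => by simp only [ζ, h]
      have K3 : ∀ a b c, a ≠ w → b ≠ w → c ≠ w → a ≠ b → a ≠ c → b ≠ c → K a → K b → K c → False :=
        fun a b c ha hb hc h1 h2 h3 ka kb kc => tf a b c ha hb hc (KK _ _ ha hb h1 ka kb)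
          (KK _ _ ha hc h2 ka kc) (KK _ _ hb hc h3 kb kc)
      set KF := Finset.univ.filter fun v => v ≠ w ∧ K v with hKF
      have cK : KF.card ≤ 2 := by
        by_contra h
        obtain ⟨a, ha, b, hb, c, hc, h1, h2, h3⟩ := Finset.two_lt_card.1 (not_le.1 h)
        have ha := (Finset.mem_filter.1 ha).2
        have hb := (Finset.mem_filter.1 hb).2
        have hc := (Finset.mem_filter.1 hc).2
        exact K3 a b c ha.1 hb.1 hc.1 h1 h2 h3 ha.2 hb.2 hc.2
      set JF := Finset.univ.filter fun v => v ≠ w ∧ ¬ K v with hJF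
      have cJ : JF.card + KF.card + 1 = m := by
        have h1 : Disjoint JF KF := Finset.disjoint_left.2 fun v h h' =>
          (Finset.mem_filter.1 h).2.2 (Finset.mem_filter.1 h').2.2
        have h2 : JF ∪ KF = Finset.univ.erase w := by
          ext v; simp only [hJF, hKF, Finset.mem_union, Finset.mem_filter, Finset.mem_univ, true_and,
            Finset.mem_erase, and_true]
          by_cases h : K v <;> simp [h]
        rw [← Finset.card_union_of_disjoint h1, h2, Finset.card_erase_of_mem (by simp)]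
        have := u.pos
        simp; omega
      have ijJ : Set.InjOn ζ JF := fun a ha b hb e => by
        have h3 := (Finset.mem_filter.1 ha).2
        have h4 := (Finset.mem_filter.1 hb).2
        obtain ⟨x, ea, -⟩ := hJ a h3.1 h3.2
        obtain ⟨x', eb, -⟩ := hJ b h4.1 h4.2
        rw [ζe a x i ea, ζe b x' i eb] at e
        exact f.injective (by rw [ea, eb, Subtype.ext e])
      have mJ : ∀ v ∈ JF, ζ v ≠ w ∧ ζ v ≠ u := fun v hv => by
        have h3 := (Finset.mem_filter.1 hv).2
        obtain ⟨x, ea, h⟩ := hJ v h3.1 h3.2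
        rw [ζe v x i ea]; exact ⟨h, x.2⟩
      -- at most one type is missing
      have M : ∀ y1 y2 : Fin m, y1 ≠ w → y1 ≠ u → y2 ≠ w → y2 ≠ u → y1 ≠ y2 →
          (∃ v, v ∈ JF ∧ ζ v = y1) ∨ ∃ v, v ∈ JF ∧ ζ v = y2 := fun y1 y2 h1 h2 h3 h4 h5 => by
        by_contra hcon
        rw [not_or] at hcon
        have mp : Set.MapsTo ζ JF ((((Finset.univ.erase w).erase u).erase y1).erase y2 :
            Finset (Fin m)) := fun v hv => by
          have := mJ v hv
          simp only [Finset.coe_erase, Finset.coe_univ, Set.mem_diff, Set.mem_univ,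
            Set.mem_singleton_iff, true_and]
          exact ⟨⟨this, fun e => hcon.1 ⟨v, hv, e⟩⟩, fun e => hcon.2 ⟨v, hv, e⟩⟩
        have := Finset.card_le_card_of_injOn ζ mp ijJ
        rw [Finset.card_erase_of_mem (by simp [h3, h4, h5.symm]), Finset.card_erase_of_mem
          (by simp [h1, h2]), Finset.card_erase_of_mem (by simp [huw]),
          Finset.card_erase_of_mem (by simp)] at this
        simp only [Finset.card_univ, Fintype.card_fin] at this
        have h6 : 0 < (((Finset.univ.erase w).erase u).erase y1 : Finset (Fin m)).card :=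
          Finset.card_pos.2 ⟨y2, by simp [h3, h4, h5.symm]⟩
        rw [Finset.card_erase_of_mem (by simp [h1, h2]), Finset.card_erase_of_mem (by simp [huw]),
          Finset.card_erase_of_mem (by simp)] at h6
        simp only [Finset.card_univ, Fintype.card_fin] at h6
        omega
      have pre : ∀ v, v ∈ JF → v ≠ w ∧ ∃ a, f v = .cp a i ∧ a.val = ζ v := fun v hv => by
        have h3 := (Finset.mem_filter.1 hv).2
        obtain ⟨x, ea, h⟩ := hJ v h3.1 h3.2
        exact ⟨h3.1, x, ea, (ζe v x i ea).symm⟩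
      -- neighbours between the clique part and the copy
      have KJ : ∀ k v, k ≠ w → K k → v ∈ JF → H.Adj k v → (ζ v = z ∨ ζ v = t) ∧
          (f k = .root ∨ ∃ s, f k = .sel s ∧ inc s i) := fun k v hk hK hv h => by
        obtain ⟨hvw, a, ev, ha⟩ := pre v hv
        have haw : a.val ≠ w := by rw [ha]; exact (mJ v hv).1
        rw [← ha]
        rcases hK with h1 | ⟨s, h1⟩ | ⟨b, j, h1, hb⟩
        · rcases (adj f h1 ev).2 h with h2 | h2 | h2
          · exact ⟨Or.inl ((Rz _ h2).resolve_left haw), Or.inl h1⟩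
          · exact absurd h2 haw
          · exact ⟨h2, Or.inl h1⟩
        · rcases (adj f h1 ev).2 h with ⟨h2 | h2, h3⟩ | ⟨h2, -⟩
          · exact absurd h2 haw
          · exact ⟨h2, Or.inr ⟨s, h1, h3⟩⟩
          · exact absurd h2 haw
        · rcases (adj f h1 ev).2 h with ⟨rfl, -⟩ | ⟨-, h2⟩
          · exact absurd rfl (Kw k b j hk h1 hb)
          · exact absurd h2.2 haw
      have at' : ∀ k v, (f k = .root ∨ ∃ s, f k = .sel s ∧ inc s i) → v ∈ JF →
          (ζ v = z ∨ ζ v = t) → H.Adj k v := fun k v hk hv h => by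
        obtain ⟨hvw, a, ev, ha⟩ := pre v hv
        rw [← ha] at h
        rcases hk with h1 | ⟨s, h1, hs⟩
        · exact (adj f h1 ev).1 (Or.inr (Or.inr h))
        · exact (adj f h1 ev).1 (Or.inl ⟨Or.inr h, hs⟩)
      have JJ : ∀ v v', v ∈ JF → v' ∈ JF → (H.Adj v v' ↔ H.Adj (ζ v) (ζ v')) := fun v v' hv hv' => by
        obtain ⟨-, a, ev, ha⟩ := pre v hv
        obtain ⟨-, b, ev', hb⟩ := pre v' hv'
        rw [← adj f ev ev', ← ha, ← hb]
        constructor
        · rintro (⟨-, -, h⟩ | ⟨h, -⟩)
          · exact h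
          · exact absurd rfl h
        · exact fun h => Or.inl ⟨rfl, fun e => h.ne (congrArg Subtype.val e), h⟩
      have JK : ∀ v, v ≠ w → v ∈ JF ∨ K v := fun v hv => by
        by_cases h : K v
        · exact Or.inr h
        · exact Or.inl (Finset.mem_filter.2 ⟨Finset.mem_univ _, hv, h⟩)
      by_cases hat : ∃ k, k ≠ w ∧ K k ∧ (f k = .root ∨ ∃ s, f k = .sel s ∧ inc s i)
      · obtain ⟨k, hk, hKk, hat⟩ := hat
        have kJ : ∀ v ∈ JF, k ≠ v := fun v hv e => (Finset.mem_filter.1 hv).2.2 (e ▸ hKk)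
        by_cases hz : ∃ v, v ∈ JF ∧ ζ v = z
        · obtain ⟨a, ha, hza⟩ := hz
          by_cases ht : ∃ v, v ∈ JF ∧ ζ v = t
          · obtain ⟨b, hb, htb⟩ := ht
            have ka := at' k a hat ha (Or.inl hza)
            have kb := at' k b hat hb (Or.inr htb)
            have hab : a ≠ b := fun e => ztn (by rw [← hza, ← htb, e])
            rcases M x t' hxw hux.symm htw' htu' htx'.symm with ⟨c, hc, hxc⟩ | ⟨c, hc, htc⟩
            · refine P4 c a k b (pre c hc).1 (pre a ha).1 hk (pre b hb).1 (kJ c hc).symm hab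
                ((JJ c a hc ha).2 (by rw [hxc, hza]; exact hxz)) ka.symm kb
            · refine P4 c b k a (pre c hc).1 (pre b hb).1 hk (pre a ha).1 (kJ c hc).symm hab.symm
                ((JJ c b hc hb).2 (by rw [htc, htb]; exact htt.symm)) kb.symm ka
          · obtain ⟨c, hc, htc⟩ := (M t t' htw htu htw' htu' htt.ne).resolve_left ht
            obtain ⟨v', h1, h2⟩ := niso c (pre c hc).1
            rcases JK v' h1 with h3 | h3
            · have := (JJ c v' hc h3).1 h2
              rw [htc] at this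
              exact ht ⟨v', h3, Nt' _ (mJ v' h3).1 this⟩
            · rcases (KJ v' c h1 h3 hc h2.symm).1 with h4 | h4
              · exact ztn' (h4.symm.trans htc)
              · exact htt.ne (h4.symm.trans htc)
        · obtain ⟨c, hc, hxc⟩ := (M z x hzw huz.ne' hxw hux.symm hxz.ne').resolve_left hz
          obtain ⟨v', h1, h2⟩ := niso c (pre c hc).1
          rcases JK v' h1 with h3 | h3
          · have := (JJ c v' hc h3).1 h2
            rw [hxc] at this
            exact hz ⟨v', h3, Nx _ (mJ v' h3).1 this⟩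
          · rcases (KJ v' c h1 h3 hc h2.symm).1 with h4 | h4
            · exact hxz.ne (hxc.symm.trans h4)
            · exact htx (h4.symm.trans hxc)
      · -- no vertex of the clique part is attached to the copy
        have nKJ : ∀ k v, k ≠ w → K k → v ∈ JF → ¬ H.Adj k v := fun k v hk hK hv h =>
          hat ⟨k, hk, hK, (KJ k v hk hK hv h).2⟩
        have hzJ : z ∈ JF := by
          rcases JK z hzw with h | h
          · exact h
          · have hu : K u := (JK u huw).resolve_left fun h' => nKJ z u hzw h h' huz.symm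
            have hx : K x := (JK x hxw).resolve_left fun h' => nKJ z x hzw h h' hxz.symm
            exact (K3 z u x hzw huw hxw huz.ne' hxz.ne' hux h hu hx).elim
        have Nz : ∀ v, v ≠ w → H.Adj z v → v ∈ JF := fun v hv h =>
          (JK v hv).resolve_right fun h' => nKJ v z hv h' hzJ h.symm
        by_cases hζ : ζ z = z
        · -- neighbours of `z` inject into neighbours other than `u`
          have mp : Set.MapsTo ζ (Finset.univ.filter fun v => v ≠ w ∧ H.Adj z v)
              ((Finset.univ.filter fun v => v ≠ w ∧ H.Adj z v).erase u) := fun v hv => by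
            have h1 := (Finset.mem_filter.1 hv).2
            have h2 := Nz v h1.1 h1.2
            have h3 := (JJ z v hzJ h2).1 h1.2
            rw [hζ] at h3
            exact Finset.mem_coe.2 (Finset.mem_erase.2 ⟨(mJ v h2).2, Finset.mem_filter.2
              ⟨Finset.mem_univ _, (mJ v h2).1, h3⟩⟩)
          have ij : Set.InjOn ζ (Finset.univ.filter fun v => v ≠ w ∧ H.Adj z v) :=
            fun a ha b hb e => by
              have h1 := (Finset.mem_filter.1 ha).2
              have h2 := (Finset.mem_filter.1 hb).2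
              exact ijJ (Nz a h1.1 h1.2) (Nz b h2.1 h2.2) e
          have := Finset.card_le_card_of_injOn ζ mp ij
          have hu : u ∈ Finset.univ.filter fun v => v ≠ w ∧ H.Adj z v :=
            Finset.mem_filter.2 ⟨Finset.mem_univ _, huw, huz.symm⟩
          rw [Finset.card_erase_of_mem hu] at this
          have := Finset.card_pos.2 ⟨u, hu⟩
          omega
        · have huJ := Nz u huw huz.symm
          have hxJ := Nz x hxw hxz.symm
          have a1 := (JJ z u hzJ huJ).1 huz.symm
          have a2 := (JJ z x hzJ hxJ).1 hxz.symm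
          have m1 := mJ z hzJ
          have m2 := mJ u huJ
          have m3 := mJ x hxJ
          have one : ∀ a b c : Fin m, a ≠ w → b ≠ w → c ≠ w → a ≠ z → H.Adj a b → H.Adj a c → b = c :=
            fun a b c ha hb hc haz h1 h2 => by
              rcases ed a b ha hb h1 with g | g | ⟨g, g'⟩ | ⟨g, g'⟩
              · exact absurd g haz
              · rcases ed a c ha hc h2 with k | k | ⟨k, -⟩ | ⟨k, -⟩
                · exact absurd k haz
                · exact g.trans k.symm
                · exact absurd (by rw [← g, ← k]; exact h1.symm) nzt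
                · exact absurd (by rw [← g, ← k]; exact h1.symm) nzt'
              · exact g'.trans (Nt c hc (g ▸ h2)).symm
              · exact g'.trans (Nt' c hc (g ▸ h2)).symm
          exact hux (ijJ huJ hxJ (one _ _ _ m1.1 m2.1 m3.1 hζ a1 a2))

end Pool.Agent.L0h77.HC
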