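import Pool.Agent.L0h77.HC.PS

/-! Forests and long cycles: the joined construct. -/

namespace Pool.Agent.L0h77.HC

open Pool.Agent.H22.CT SimpleGraph Function

variable {m : ℕ} {H : SimpleGraph (Fin m)}

open Classical in
theorem hardD {w u z : Fin m} (huz : H.Adj u z) {T : Fin m → Prop} (hw : Univ H w)
    (huw : u ≠ w) (hzw : z ≠ w) (leaf : ∀ v, v ≠ w → H.Adj u v → v = z)
    (tf : ∀ a b c, a ≠ w → b ≠ w → c ≠ w → H.Adj a b → H.Adj a c → ¬ H.Adj b c)
    (c4 : ∀ a b c d, a ≠ w → b ≠ w → c ≠ w → d ≠ w → a ≠ c → b ≠ d → H.Adj a b → H.Adj b c →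
      H.Adj c d → ¬ H.Adj d a)
    (Tn : ∀ t, T t → t ≠ w ∧ t ≠ u ∧ t ≠ z) (T0 : ∃ t, T t)
    (hs : ∀ p q c, p ≠ w → q ≠ w → c ≠ w → (p = q ∨ H.Adj p q) → c ≠ p → c ≠ q →
      ∃ v, v ≠ w ∧ v ≠ p ∧ v ≠ q ∧ v ≠ c ∧ ¬ H.Adj c v)
    (hd1 : ∃ y, y ≠ w ∧ y ≠ u ∧ y ≠ z ∧ H.Adj z y)
    (hdT : (Finset.univ.filter fun v => v ≠ w ∧ v ≠ u ∧ v ≠ z ∧ H.Adj z v).card ≠
      (Finset.univ.filter fun v => v ≠ w ∧ v ≠ u ∧ v ≠ z ∧ T v).card)
    (hW : ∃ y, y ≠ w ∧ y ≠ u ∧ y ≠ z ∧ ¬ T y) (hz : ∃ y, y ≠ w ∧ y ≠ u ∧ y ≠ z ∧ ¬ H.Adj z y) :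
    W2Hard (Con₁ H) := by
  refine PS.hard huz (T := T) (ξ := True) hw huw leaf fun inc => ⟨fun f => ?_⟩
  let Qc : Fin m → Prop := fun v => f v = .root ∨ (∃ s, f v = .sel s) ∨ ∃ a i, f v = .cp a i ∧
    a.val = z
  have dich : ∀ v, Qc v ∨ ∃ a i, f v = .cp a i ∧ a.val ≠ z := fun v => by
    rcases ev : f v with _ | s | ⟨a, i⟩
    · exact Or.inl (Or.inl ev)
    · exact Or.inl (Or.inr (Or.inl ⟨s, ev⟩))
    · by_cases h : a.val = z
      · exact Or.inl (Or.inr (Or.inr ⟨a, i, ev, h⟩))
      · exact Or.inr ⟨a, i, rfl, h⟩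
  have nQJ : ∀ v a i, Qc v → f v = .cp a i → a.val ≠ z → False := fun v a i h ev h' => by
    rcases h with h | ⟨s, h⟩ | ⟨b, j, h, h''⟩ <;> rw [ev] at h <;> cases h
    exact h' h''
  have QQ : ∀ v v', v ≠ v' → Qc v → Qc v' → H.Adj v v' := fun v v' hne h h' => by
    rcases h with h | ⟨s, h⟩ | ⟨a, i, h, ha⟩ <;> rcases h' with h' | ⟨s', h'⟩ | ⟨b, j, h', hb⟩ <;>
      rw [← adj f h h']
    · exact hne (f.injective (h.trans h'.symm))
    · trivial
    · exact Or.inr (Or.inl hb)
    · trivial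
    · exact ⟨fun e => hne (f.injective (by rw [h, h', e])), trivial⟩
    · by_cases hi : inc s j
      · exact Or.inl ⟨Or.inl hb, hi⟩
      · exact Or.inr ⟨hb, hi⟩
    · exact Or.inr (Or.inl ha)
    · by_cases hi : inc s' i
      · exact Or.inl ⟨Or.inl ha, hi⟩
      · exact Or.inr ⟨ha, hi⟩
    · refine Or.inr ⟨fun e => hne (f.injective (by rw [h, h', e, Subtype.ext (ha.trans hb.symm)])),
        iff_of_true ha hb⟩
  have q3 : ∀ a b c, a ≠ w → b ≠ w → c ≠ w → a ≠ b → a ≠ c → b ≠ c → Qc a → Qc b → Qc c → False :=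
    fun a b c ha hb hc h1 h2 h3 qa qb qc => tf a b c ha hb hc (QQ _ _ h1 qa qb) (QQ _ _ h2 qa qc)
      (QQ _ _ h3 qb qc)
  have pq : ∀ d, d ≠ w → ∃ p q, p ≠ w ∧ q ≠ w ∧ (p = q ∨ H.Adj p q) ∧
      (∀ v, v ≠ w → Qc v → v = p ∨ v = q) ∧ (p = d ∨ Qc p) ∧ (q = d ∨ Qc q) := fun d hd => by
    by_cases h1 : ∃ p, p ≠ w ∧ Qc p
    · obtain ⟨p, hp, hp'⟩ := h1
      by_cases h2 : ∃ q, q ≠ w ∧ q ≠ p ∧ Qc q
      · obtain ⟨q, hq, hqp, hq'⟩ := h2
        refine ⟨p, q, hp, hq, Or.inr (QQ _ _ hqp.symm hp' hq'), fun v hv hv' => ?_, Or.inr hp', Or.inr hq'⟩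
        by_contra h
        rw [not_or] at h
        exact q3 v p q hv hp hq h.1 h.2 hqp.symm hv' hp' hq'
      · exact ⟨p, p, hp, hp, Or.inl rfl, fun v hv hv' => by_contra fun h => h2 ⟨v, hv, fun e =>
          h (Or.inl e), hv'⟩, Or.inr hp', Or.inr hp'⟩
    · exact ⟨d, d, hd, hd, Or.inl rfl, fun v hv hv' => absurd ⟨v, hv, hv'⟩ h1, Or.inl rfl, Or.inl rfl⟩
  have huz' : u ≠ z := huz.ne
  have star : ∀ c, c ≠ w → (∃ a i, f c = .cp a i ∧ a.val ≠ z) → (∀ v, v ≠ w → v ≠ c →
      (∃ a i, f v = .cp a i ∧ a.val ≠ z) → H.Adj c v) → False := fun c hc ⟨a, i, ec, ha⟩ h => by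
    obtain ⟨d, hd, hdc⟩ : ∃ d, d ≠ w ∧ d ≠ c := by
      by_cases e : u = c
      · exact ⟨z, hzw, fun e' => huz' (e.trans e'.symm)⟩
      · exact ⟨u, huw, e⟩
    obtain ⟨p, q, hp, hq, hpq, hQ, dp, dq⟩ := pq d hd
    have h1 : c ≠ p := fun e => by
      rcases dp with h | h
      · exact hdc (h.symm.trans e.symm)
      · exact nQJ c a i (e ▸ h) ec ha
    have h2 : c ≠ q := fun e => by
      rcases dq with h | h
      · exact hdc (h.symm.trans e.symm)
      · exact nQJ c a i (e ▸ h) ec ha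
    obtain ⟨v, h3, h4, h5, h6, h7⟩ := hs p q c hp hq hc hpq h1 h2
    rcases dich v with h8 | h8
    · rcases hQ v h3 h8 with h9 | h9
      · exact h4 h9
      · exact h5 h9
    · exact h7 (h v h3 h6 h8)
  by_cases hI : ∃ a b x y i j, a ≠ w ∧ b ≠ w ∧ f a = .cp x i ∧ f b = .cp y j ∧ x.val ≠ z ∧
      y.val ≠ z ∧ i ≠ j
  · obtain ⟨a, b, x, y, i, j, ha, hb, ea, eb, hx, hy, hij⟩ := hI
    have hab : H.Adj a b := (adj f ea eb).1 (Or.inr ⟨hij, iff_of_false hx hy⟩)
    have idx : ∀ v v1 k, v ≠ w → f v = .cp v1 k → v1.val ≠ z → k = i ∨ k = j := fun v v1 k hv ev h => by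
      by_contra h'
      rw [not_or] at h'
      exact tf v a b hv ha hb ((adj f ev ea).1 (Or.inr ⟨h'.1, iff_of_false h hx⟩))
        ((adj f ev eb).1 (Or.inr ⟨h'.2, iff_of_false h hy⟩)) hab
    by_cases h1 : ∃ a' x', a' ≠ w ∧ a' ≠ a ∧ f a' = .cp x' i ∧ x'.val ≠ z
    · by_cases h2 : ∃ b' y', b' ≠ w ∧ b' ≠ b ∧ f b' = .cp y' j ∧ y'.val ≠ z
      · obtain ⟨a', x', g1, g2, g3, g4⟩ := h1
        obtain ⟨b', y', k1, k2, k3, k4⟩ := h2
        exact c4 a b a' b' ha hb g1 k1 g2.symm k2.symm hab
          ((adj f eb g3).1 (Or.inr ⟨hij.symm, iff_of_false hy g4⟩))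
          ((adj f g3 k3).1 (Or.inr ⟨hij, iff_of_false g4 k4⟩))
          ((adj f k3 ea).1 (Or.inr ⟨hij.symm, iff_of_false k4 hx⟩))
      · refine star b hb ⟨y, j, eb, hy⟩ fun v hv hvb ⟨v1, k, ev, h⟩ => ?_
        rcases idx v v1 k hv ev h with rfl | rfl
        · exact (adj f eb ev).1 (Or.inr ⟨hij.symm, iff_of_false hy h⟩)
        · exact absurd ⟨v, v1, hv, hvb, ev, h⟩ h2
    · refine star a ha ⟨x, i, ea, hx⟩ fun v hv hva ⟨v1, k, ev, h⟩ => ?_
      rcases idx v v1 k hv ev h with rfl | rfl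
      · exact absurd ⟨v, v1, hv, hva, ev, h⟩ h1
      · exact (adj f ea ev).1 (Or.inr ⟨hij, iff_of_false hx h⟩)
  · obtain ⟨t, ht⟩ := T0
    obtain ⟨i, hi⟩ : ∃ i, ∀ v a k, v ≠ w → f v = .cp a k → a.val ≠ z → k = i := by
      by_cases h1 : ∃ v a k, v ≠ w ∧ f v = .cp a k ∧ a.val ≠ z
      · obtain ⟨v, a, k, hv, ev, ha⟩ := h1
        exact ⟨k, fun v' a' k' hv' ev' ha' => by_contra fun h => hI ⟨v', v, a', a, k', k, hv', hv,
          ev', ev, ha', ha, h⟩⟩
      · have := Tn t ht
        have hq : ∀ v, v ≠ w → Qc v := fun v hv => (dich v).resolve_right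
          fun ⟨a, k, ev, ha⟩ => h1 ⟨v, a, k, hv, ev, ha⟩
        exact (q3 u z t huw hzw this.1 huz' this.2.1.symm this.2.2.symm (hq _ huw) (hq _ hzw)
          (hq _ this.1)).elim
    by_cases hv0 : ∃ v0 x, v0 ≠ w ∧ f v0 = .cp x i ∧ x.val = w
    · obtain ⟨v0, x, h0, e0, hx⟩ := hv0
      refine star v0 h0 ⟨x, i, e0, fun e => hzw (e.symm.trans hx)⟩ fun v hv hvb ⟨v1, k, ev, h⟩ => ?_
      have hk := hi v v1 k hv ev h
      subst hk
      have hne : x ≠ v1 := fun e => hvb (f.injective (by rw [ev, e0, e]))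
      refine (adj f e0 ev).1 (Or.inl ⟨rfl, hne, ?_⟩)
      show H.Adj x.val v1.val
      rw [hx]; exact hw _ fun e => hne (Subtype.ext (hx.trans e.symm))
    · obtain ⟨p, q, hp, hq, -, hQ, -, -⟩ := pq u huw
      have hJ : ∀ v, v ≠ w → v ≠ p → v ≠ q → ∃ a, f v = .cp a i ∧ a.val ≠ z ∧ a.val ≠ w :=
        fun v h1 h2 h3 => by
          rcases dich v with h | ⟨a, k, ev, h⟩
          · exact ((hQ v h1 h).elim h2 h3).elim
          · have := hi v a k h1 ev h
            subst this
            exact ⟨a, ev, h, fun e => hv0 ⟨v, a, h1, ev, e⟩⟩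
      obtain ⟨hpq, full⟩ := PS.full f huw hzw i hp hq hJ
      have Qp : Qc p := (dich p).resolve_right fun ⟨a, k, ev, h⟩ => by
        have := hi p a k hp ev h
        subst this
        obtain ⟨v, h1, h2, -, h3⟩ := full a (fun e => hv0 ⟨p, a, hp, ev, e⟩) h
        exact h2 (f.injective (h3.trans ev.symm))
      have Qs1 : Qc q := (dich q).resolve_right fun ⟨a, k, ev, h⟩ => by
        have := hi q a k hq ev h
        subst this
        obtain ⟨v, h1, -, h2, h3⟩ := full a (fun e => hv0 ⟨q, a, hq, ev, e⟩) h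
        exact h2 (f.injective (h3.trans ev.symm))
      have apq : H.Adj p q := QQ _ _ hpq Qp Qs1
      obtain ⟨y0, y1, y2, y3, y4⟩ := hW
      obtain ⟨v0, g1, g2, g3, g4⟩ := full ⟨y0, y2⟩ y1 y3
      have hyu : ¬ H.Adj u y0 := fun h => y3 (leaf y0 y1 h)
      rcases ew : f w with _ | s | ⟨x, j⟩
      · rcases (adj f ew g4).2 (hw v0 g1) with h | h | h
        · exact hyu h
        · exact y3 h
        · exact y4 h
      · rcases (adj f ew g4).2 (hw v0 g1) with ⟨h | h, -⟩ | ⟨h, -⟩
        · exact y3 h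
        · exact y4 h
        · exact y3 h
      · by_cases hx : x.val = z
        · obtain ⟨y5, y6, y7, y8, y9⟩ := hz
          obtain ⟨v1, k1, k2, k3, k4⟩ := full ⟨y5, y7⟩ y6 y8
          rcases (adj f ew k4).2 (hw v1 k1) with ⟨-, -, h⟩ | ⟨-, h⟩
          · exact y9 (hx ▸ h)
          · exact y8 (h.1 hx)
        by_cases hji : j = i
        · subst hji
          have hxw : x.val = w := by_contra fun h => by
            obtain ⟨v, h1, -, -, h3⟩ := full x h hx
            exact h1 (f.injective (h3.trans ew.symm))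
          have hQr : ∀ v, v ≠ w → Qc v → f v = .root ∨ ∃ a, f v = .cp a j := fun v hv h => by
            rcases h with h | ⟨s, h⟩ | ⟨a, k, h, ha⟩
            · exact Or.inl h
            · rcases (adj f ew h).2 (hw v hv) with ⟨h5 | h5, -⟩ | ⟨h5, -⟩
              · exact absurd h5 hx
              · exact absurd hxw (Tn _ h5).1
              · exact absurd h5 hx
            · rcases (adj f ew h).2 (hw v hv) with ⟨h5, -⟩ | ⟨-, h5⟩
              · exact Or.inr ⟨a, by rw [h, h5]⟩
              · exact absurd (h5.2 ha) hx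
          refine MT.count f j (fun v => ?_) (Tn t ht).2.1 (Or.inr ht)
            fun h => (Tn t ht).2.2 (leaf t (Tn t ht).1 h)
          by_cases h1 : v = w
          · exact Or.inr ⟨x, h1 ▸ ew⟩
          by_cases h2 : v = p
          · exact hQr v h1 (h2 ▸ Qp)
          by_cases h3 : v = q
          · exact hQr v h1 (h3 ▸ Qs1)
          obtain ⟨a, ea, -⟩ := hJ v h1 h2 h3
          exact Or.inr ⟨a, ea⟩
        · let ζ : Fin m → Fin m := fun v => match f v with
            | .cp z _ => z.1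
            | _ => w
          have ζe : ∀ v z i, f v = .cp z i → ζ v = z.1 := fun v z i h => by simp only [ζ, h]
          have nb : ∀ p, p ≠ w → Qc p → (∀ v a, f v = .cp a i → a.val ≠ z → a.val ≠ w →
              (H.Adj p v ↔ T a)) ∨ ∀ v a, f v = .cp a i → a.val ≠ z → a.val ≠ w →
              (H.Adj p v ↔ False) := fun p hp h => by
            have hwp := hw p hp
            rcases h with h | ⟨s, h⟩ | ⟨b, k, h, hb⟩
            · refine Or.inl fun v a ev h1 h2 => ?_
              rw [← adj f h ev]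
              constructor
              · rintro (h3 | h3 | h3)
                · exact absurd (leaf a h2 h3) h1
                · exact absurd h3 h1
                · exact h3
              · exact fun h3 => Or.inr (Or.inr h3)
            · by_cases hsi : inc s i
              · refine Or.inl fun v a ev h1 h2 => ?_
                rw [← adj f h ev]
                constructor
                · rintro (⟨h3 | h3, -⟩ | ⟨h3, -⟩)
                  · exact absurd h3 h1
                  · exact h3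
                  · exact absurd h3 h1
                · exact fun h3 => Or.inl ⟨Or.inr h3, hsi⟩
              · refine Or.inr fun v a ev h1 h2 => ?_
                rw [← adj f h ev]
                constructor
                · rintro (⟨-, h3⟩ | ⟨h3, -⟩)
                  · exact hsi h3
                  · exact h1 h3
                · exact fun h3 => h3.elim
            · have hkj : k = j := by
                rcases (adj f ew h).2 hwp with ⟨h5, -⟩ | ⟨-, h5⟩
                · exact h5.symm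
                · exact absurd (h5.2 hb) hx
              refine Or.inr fun v a ev h1 h2 => ?_
              rw [← adj f h ev]
              constructor
              · rintro (⟨h5, -⟩ | ⟨-, h5⟩)
                · exact hji (hkj.symm.trans h5)
                · exact h1 (h5.1 hb)
              · exact fun h3 => h3.elim
          have mp : ∀ v, v ≠ w → v ≠ p → v ≠ q → ζ v ≠ w ∧ ζ v ≠ u ∧ ζ v ≠ z := fun v h1 h2 h3 => by
            obtain ⟨a, ea, h4, h5⟩ := hJ v h1 h2 h3
            rw [ζe v a i ea]; exact ⟨h5, a.2, h4⟩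
          have ij : ∀ a b, a ≠ w → a ≠ p → a ≠ q → b ≠ w → b ≠ p → b ≠ q → ζ a = ζ b → a = b :=
            fun a b h1 h2 h3 h4 h5 h6 e => by
              obtain ⟨x, ea, -⟩ := hJ a h1 h2 h3
              obtain ⟨y, eb, -⟩ := hJ b h4 h5 h6
              rw [ζe a x i ea, ζe b y i eb] at e
              exact f.injective (by rw [ea, eb, Subtype.ext e])
          have ad : ∀ a b, a ≠ w → a ≠ p → a ≠ q → b ≠ w → b ≠ p → b ≠ q →
              (H.Adj a b ↔ H.Adj (ζ a) (ζ b)) := fun a b h1 h2 h3 h4 h5 h6 => by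
            obtain ⟨x, ea, -⟩ := hJ a h1 h2 h3
            obtain ⟨y, eb, -⟩ := hJ b h4 h5 h6
            rw [ζe a x i ea, ζe b y i eb, ← adj f ea eb]
            constructor
            · rintro (⟨-, -, h⟩ | ⟨h, -⟩)
              · exact h
              · exact absurd rfl h
            · exact fun h => Or.inl ⟨rfl, fun e => h.ne (congrArg Subtype.val e), h⟩
          have ec := fun P Q => ecount huw hzw hp hq apq huz leaf ζ mp ij ad P Q
          have cv : ∀ p (P : Fin m → Prop), (∀ v a, f v = .cp a i → a.val ≠ z → a.val ≠ w →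
              (H.Adj p v ↔ P a)) → ∀ a, a ≠ w → a ≠ _ → a ≠ _ → (H.Adj p a ↔ P (ζ a)) :=
            fun r P h v h1 h2 h3 => by
              obtain ⟨a, ea, h4, h5⟩ := hJ v h1 h2 h3
              rw [ζe v a i ea]; exact h v a ea h4 h5
          rcases nb p hp Qp with h1 | h1 <;> rcases nb q hq Qs1 with h2 | h2
          · have := Tn t ht
            obtain ⟨v, k1, -, -, k2⟩ := full ⟨t, this.2.1⟩ this.1 this.2.2
            exact tf p q v hp hq k1 apq ((h1 v _ k2 this.2.2 this.1).2 ht)
              ((h2 v _ k2 this.2.2 this.1).2 ht)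
          · have := ec T (fun _ => False) (cv p T h1) (cv q (fun _ => False) h2)
            simp only [and_false, Finset.filter_false, Finset.card_empty, add_zero] at this
            exact hdT this
          · have := ec (fun _ => False) T (cv p (fun _ => False) h1) (cv q T h2)
            simp only [and_false, Finset.filter_false, Finset.card_empty, zero_add] at this
            exact hdT this
          · have := ec (fun _ => False) (fun _ => False) (cv p (fun _ => False) h1) (cv q (fun _ => False) h2)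
            simp only [and_false, Finset.filter_false, Finset.card_empty, add_zero] at this
            obtain ⟨y, k1, k2, k3, k4⟩ := hd1
            have := Finset.card_eq_zero.1 this
            have h5 : y ∈ Finset.univ.filter fun v => v ≠ w ∧ v ≠ u ∧ v ≠ z ∧ H.Adj z v :=
              Finset.mem_filter.2 ⟨Finset.mem_univ y, k1, k2, k3, k4⟩
            rw [this] at h5
            simp at h5

/-- isolated vertices and at least two isolated edges -/
theorem hardE {w u z t t' : Fin m} (huz : H.Adj u z) (htt : H.Adj t t') (hw : Univ H w)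
    (huw : u ≠ w) (hzw : z ≠ w) (htw : t ≠ w) (htw' : t' ≠ w) (htu : t ≠ u) (htz : t ≠ z)
    (dg1 : ∀ v a b, v ≠ w → a ≠ w → b ≠ w → H.Adj v a → H.Adj v b → a = b)
    (hm : 6 ≤ m) : W2Hard (Con₁ H) := by
  classical
  have leaf : ∀ v, v ≠ w → H.Adj u v → v = z := fun v hv h => dg1 u v z huw hv hzw h huz
  have htu' : t' ≠ u := fun e => htz (leaf t htw (e ▸ htt.symm))
  have htz' : t' ≠ z := fun e => htu (dg1 z t u hzw htw huw (e ▸ htt.symm) huz.symm)
  refine PS.hard huz (T := fun v => v = t ∨ v = t') (ξ := False) hw huw leaf fun inc => ⟨fun f => ?_⟩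
  let Jc : Fin m → Prop := fun v => ∃ a i, f v = .cp a i ∧ a.val ≠ z
  let Qs : Fin m → Prop := fun v => f v = .root ∨ ∃ a i, f v = .cp a i ∧ a.val = z
  have dich : ∀ v, Qs v ∨ (∃ s, f v = .sel s) ∨ Jc v := fun v => by
    rcases ev : f v with _ | s | ⟨a, i⟩
    · exact Or.inl (Or.inl ev)
    · exact Or.inr (Or.inl ⟨s, rfl⟩)
    · by_cases h : a.val = z
      · exact Or.inl (Or.inr ⟨a, i, ev, h⟩)
      · exact Or.inr (Or.inr ⟨a, i, ev, h⟩)
  -- special vertices are adjacent to everything that is not joined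
  have QQ : ∀ v v', v ≠ v' → Qs v → (Qs v' ∨ ∃ s, f v' = .sel s) → H.Adj v v' :=
    fun v v' hne h h' => by
    rcases h with h | ⟨a, i, h, ha⟩ <;> rcases h' with (h' | ⟨b, j, h', hb⟩) | ⟨s', h'⟩ <;>
      rw [← adj f h h']
    · exact hne (f.injective (h.trans h'.symm))
    · exact Or.inr (Or.inl hb)
    · trivial
    · exact Or.inr (Or.inl ha)
    · refine Or.inr ⟨fun e => hne (f.injective (by rw [h, h', e, Subtype.ext (ha.trans hb.symm)])),
        iff_of_true ha hb⟩
    · by_cases hi : inc s' i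
      · exact Or.inl ⟨Or.inl ha, hi⟩
      · exact Or.inr ⟨ha, hi⟩
  have ss : ∀ v v', (∃ s, f v = .sel s) → (∃ s, f v' = .sel s) → ¬ H.Adj v v' :=
    fun v v' ⟨s, h⟩ ⟨s', h'⟩ h3 => ((adj f h h').2 h3).2
  -- not all joined vertices are among two adjacent ones
  have L : ∀ a b, a ≠ w → b ≠ w → (a = b ∨ H.Adj a b) → (∀ v, v ≠ w → Jc v → v = a ∨ v = b) →
      False := fun a b ha hb hab hJ => by
    -- at least three other vertices
    have h3 : ∃ c d e, c ≠ w ∧ d ≠ w ∧ e ≠ w ∧ c ≠ d ∧ c ≠ e ∧ d ≠ e ∧ c ≠ a ∧ c ≠ b ∧ d ≠ a ∧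
        d ≠ b ∧ e ≠ a ∧ e ≠ b := by
      have : 2 < (((Finset.univ.erase w).erase a).erase b).card := by
        have h1 : (Finset.univ : Finset (Fin m)).card = m := by simp
        have h2 := Finset.pred_card_le_card_erase (s := (Finset.univ : Finset (Fin m))) (a := w)
        have h3 := Finset.pred_card_le_card_erase (s := (Finset.univ : Finset (Fin m)).erase w) (a := a)
        have h4 := Finset.pred_card_le_card_erase
          (s := ((Finset.univ : Finset (Fin m)).erase w).erase a) (a := b)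
        omega
      obtain ⟨c, hc, d, hd, e, he, h1, h2, h3⟩ := Finset.two_lt_card.1 this
      simp only [Finset.mem_erase, Finset.mem_univ, and_true] at hc hd he
      exact ⟨c, d, e, hc.2.2, hd.2.2, he.2.2, h1, h2, h3, hc.2.1, hc.1, hd.2.1, hd.1, he.2.1, he.1⟩
    obtain ⟨c, d, e, hc, hd, he, hcd, hce, hde, ca, cb, da, db, ea, eb⟩ := h3
    have nj : ∀ v, v ≠ w → v ≠ a → v ≠ b → Qs v ∨ ∃ s, f v = .sel s := fun v h1 h2 h3 => by
      rcases dich v with h | h | h
      · exact Or.inl h
      · exact Or.inr h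
      · exact ((hJ v h1 h).elim h2 h3).elim
    have qc := nj c hc ca cb
    have qd := nj d hd da db
    have qe := nj e he ea eb
    have nq : ∀ v, v ≠ w → v ≠ a → v ≠ b → ∃ s, f v = .sel s := fun v h1 h2 h3 =>
      (nj v h1 h2 h3).resolve_left fun hv => by
        -- `v` would be adjacent to two others
        by_cases e1 : v = c
        · subst e1; exact hde (dg1 v d e h1 hd he (QQ _ _ hcd hv qd) (QQ _ _ hce hv qe))
        by_cases e2 : v = d
        · subst e2; exact hce (dg1 v c e h1 hc he (QQ _ _ e1 hv qc) (QQ _ _ hde hv qe))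
        · exact hcd (dg1 v c d h1 hc hd (QQ _ _ e1 hv qc) (QQ _ _ e2 hv qd))
    -- every edge has an end among `a`, `b`
    have edge : ∀ x y, x ≠ w → y ≠ w → H.Adj x y → (x = a ∨ x = b) ∨ (y = a ∨ y = b) :=
      fun x y hx hy h => by
        by_contra hcon
        simp only [not_or] at hcon
        exact ss x y (nq x hx hcon.1.1 hcon.1.2) (nq y hy hcon.2.1 hcon.2.2) h
    -- an edge with an end among `a`, `b` contains both
    have both : ∀ x y, x ≠ w → y ≠ w → H.Adj x y → (a = x ∨ a = y) := fun x y hx hy h => by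
      rcases hab with rfl | hab
      · rcases edge x y hx hy h with (h1 | h1) | (h1 | h1)
        · exact Or.inl h1.symm
        · exact Or.inl h1.symm
        · exact Or.inr h1.symm
        · exact Or.inr h1.symm
      · rcases edge x y hx hy h with (h1 | h1) | (h1 | h1)
        · exact Or.inl h1.symm
        · right; exact dg1 b a y hb ha hy hab.symm (h1 ▸ h)
        · exact Or.inr h1.symm
        · left; exact dg1 b a x hb ha hx hab.symm (h1 ▸ h.symm)
    rcases both u z huw hzw huz with h1 | h1 <;> rcases both t t' htw htw' htt with h2 | h2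
    · exact htu (h2.symm.trans h1)
    · exact htu' (h2.symm.trans h1)
    · exact htz (h2.symm.trans h1)
    · exact htz' (h2.symm.trans h1)
  have cross : ∀ a b x y i j, f a = .cp x i → f b = .cp y j → x.val ≠ z → y.val ≠ z → i ≠ j →
      H.Adj a b := fun a b x y i j ea eb hx hy hij =>
    (adj f ea eb).1 (Or.inr ⟨hij, iff_of_false hx hy⟩)
  by_cases hI : ∃ a b x y i j, a ≠ w ∧ b ≠ w ∧ f a = .cp x i ∧ f b = .cp y j ∧ x.val ≠ z ∧
      y.val ≠ z ∧ i ≠ j
  · obtain ⟨a, b, x, y, i, j, ha, hb, ea, eb, hx, hy, hij⟩ := hI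
    have hab := cross a b x y i j ea eb hx hy hij
    refine L a b ha hb (Or.inr hab) fun v hv ⟨v1, k, ev, h⟩ => ?_
    by_cases hk : k = i
    · subst hk
      left
      exact dg1 b v a hb hv ha (cross b v y v1 j k eb ev hy h hij.symm) hab.symm
    · right
      exact dg1 a v b ha hv hb (cross a v x v1 i k ea ev hx h (Ne.symm hk)) hab
  obtain ⟨i, hi⟩ : ∃ i, ∀ v a k, v ≠ w → f v = .cp a k → a.val ≠ z → k = i := by
    by_cases h1 : ∃ v a k, v ≠ w ∧ f v = .cp a k ∧ a.val ≠ z
    · obtain ⟨v, a, k, hv, ev, ha⟩ := h1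
      exact ⟨k, fun v' a' k' hv' ev' ha' => by_contra fun h => hI ⟨v', v, a', a, k', k, hv', hv,
        ev', ev, ha', ha, h⟩⟩
    · exact (L u u huw huw (Or.inl rfl) fun v hv ⟨a, k, ev, ha⟩ => absurd ⟨v, a, k, hv, ev, ha⟩ h1).elim
  by_cases hv0 : ∃ v0 x, v0 ≠ w ∧ f v0 = .cp x i ∧ x.val = w
  · obtain ⟨v0, x, h0, e0, hx⟩ := hv0
    have nb : ∀ v, v ≠ w → v ≠ v0 → Jc v → H.Adj v0 v := fun v hv hvb ⟨v1, k, ev, h⟩ => by
      have hk := hi v v1 k hv ev h
      subst hk
      have hne : x ≠ v1 := fun e => hvb (f.injective (by rw [ev, e0, e]))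
      refine (adj f e0 ev).1 (Or.inl ⟨rfl, hne, ?_⟩)
      show H.Adj x.val v1.val
      rw [hx]; exact hw _ fun e => hne (Subtype.ext (hx.trans e.symm))
    by_cases h1 : ∃ v1, v1 ≠ w ∧ v1 ≠ v0 ∧ Jc v1
    · obtain ⟨v1, h2, h3, h4⟩ := h1
      refine L v0 v1 h0 h2 (Or.inr (nb v1 h2 h3 h4)) fun v hv hJ => ?_
      by_cases e : v = v0
      · exact Or.inl e
      · exact Or.inr (dg1 v0 v v1 h0 hv h2 (nb v hv e hJ) (nb v1 h2 h3 h4))
    · exact L v0 v0 h0 h0 (Or.inl rfl) fun v hv hJ => Or.inl (by_contra fun e => h1 ⟨v, hv, e, hJ⟩)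
  have hJ' : ∀ v, v ≠ w → Jc v → ∃ a, f v = .cp a i ∧ a.val ≠ z ∧ a.val ≠ w := fun v hv ⟨a, k, ev, h⟩ => by
    have := hi v a k hv ev h
    subst this
    exact ⟨a, ev, h, fun e => hv0 ⟨v, a, hv, ev, e⟩⟩
  by_cases hQ : ∃ p, p ≠ w ∧ Qs p
  · obtain ⟨p, hp, hp'⟩ := hQ
    obtain ⟨q, hq, hq'⟩ : ∃ q, q ≠ w ∧ ∀ v, v ≠ w → v ≠ p → v ≠ q → Jc v := by
      by_cases h1 : ∃ q, q ≠ w ∧ q ≠ p ∧ (Qs q ∨ ∃ s, f q = .sel s)
      · obtain ⟨q, h2, h3, h4⟩ := h1
        refine ⟨q, h2, fun v hv hvp hvq => ?_⟩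
        by_contra hJ
        have h5 : Qs v ∨ ∃ s, f v = .sel s := by
          rcases dich v with h | h | h
          · exact Or.inl h
          · exact Or.inr h
          · exact absurd h hJ
        exact hvq (dg1 p v q hp hv h2 (QQ _ _ hvp.symm hp' h5) (QQ _ _ h3.symm hp' h4))
      · refine ⟨p, hp, fun v hv hvp _ => ?_⟩
        rcases dich v with h | h | h
        · exact absurd ⟨v, hv, hvp, Or.inl h⟩ h1
        · exact absurd ⟨v, hv, hvp, Or.inr h⟩ h1
        · exact h
    obtain ⟨hpq, full⟩ := PS.full f huw hzw i hp hq fun v h1 h2 h3 => hJ' v h1 (hq' v h1 h2 h3)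
    have nJ : ∀ v, v ≠ w → (v = p ∨ v = q) → ¬ Jc v := fun v hv h hJ => by
      obtain ⟨a, ea, h1, h2⟩ := hJ' v hv hJ
      obtain ⟨v', h3, h4, h5, h6⟩ := full a h2 h1
      have := f.injective (h6.trans ea.symm)
      rcases h with rfl | rfl
      · exact h4 this
      · exact h5 this
    have hq1 : Qs q ∨ ∃ s, f q = .sel s := by
      rcases dich q with h | h | h
      · exact Or.inl h
      · exact Or.inr h
      · exact absurd h (nJ q hq (Or.inr rfl))
    -- `p` is not the root
    have hr : ∀ r, r ≠ w → f r ≠ .root := fun r hr er => by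
      obtain ⟨v, h1, h2, h3, h4⟩ := full ⟨t, htu⟩ htw htz
      obtain ⟨v', k1, k2, k3, k4⟩ := full ⟨t', htu'⟩ htw' htz'
      have a1 : H.Adj r v := (adj f er h4).1 (Or.inr (Or.inr (Or.inl rfl)))
      have a2 : H.Adj r v' := (adj f er k4).1 (Or.inr (Or.inr (Or.inr rfl)))
      have := dg1 r v v' hr h1 k1 a1 a2
      rw [this, k4] at h4
      cases h4
      exact htt.ne rfl
    obtain ⟨a, j, ep, ha⟩ := hp'.resolve_left (hr p hp)
    -- a vertex outside `T`
    obtain ⟨y, y1, y2, y3, y4⟩ : ∃ y, y ≠ w ∧ y ≠ u ∧ y ≠ z ∧ ¬ (y = t ∨ y = t') := by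
      by_contra hcon
      push Not at hcon
      have h1 : (Finset.univ : Finset (Fin m)) ⊆ {w, u, z, t, t'} := fun v _ => by
        simp only [Finset.mem_insert, Finset.mem_singleton]
        by_cases e1 : v = w
        · exact Or.inl e1
        by_cases e2 : v = u
        · exact Or.inr (Or.inl e2)
        by_cases e3 : v = z
        · exact Or.inr (Or.inr (Or.inl e3))
        · exact Or.inr (Or.inr (Or.inr (hcon v e1 e2 e3)))
      have h2 := Finset.card_le_card h1
      have h3 : ({w, u, z, t, t'} : Finset (Fin m)).card ≤ 5 := Finset.card_le_five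
      rw [Finset.card_univ, Fintype.card_fin] at h2
      omega
    obtain ⟨v0, g1, g2, g3, g4⟩ := full ⟨y, y2⟩ y1 y3
    rcases ew : f w with _ | s | ⟨x, k⟩
    · rcases (adj f ew g4).2 (hw v0 g1) with h | h | h
      · exact y3 (leaf y y1 h)
      · exact y3 h
      · exact y4 h
    · rcases (adj f ew g4).2 (hw v0 g1) with ⟨h | h, -⟩ | ⟨h, -⟩
      · exact y3 h
      · exact y4 h
      · exact y3 h
    · by_cases hx : x.val = z
      · rcases (adj f ew g4).2 (hw v0 g1) with ⟨-, -, h⟩ | ⟨-, h⟩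
        · have h : H.Adj z y := by rw [← hx]; exact h
          exact y2 (dg1 z y u hzw y1 huw h huz.symm)
        · exact y3 (h.1 hx)
      by_cases hxw : x.val = w
      · -- a copy of the universal vertex
        have hjk : k = j := by
          rcases (adj f ew ep).2 (hw p hp) with ⟨h, -⟩ | ⟨-, h⟩
          · exact h
          · exact absurd (h.2 ha) hx
        rcases hq1 with (h | ⟨b, l, eq, hb⟩) | ⟨s, eq⟩
        · exact hr q hq h
        · have : k = l := by
            rcases (adj f ew eq).2 (hw q hq) with ⟨h, -⟩ | ⟨-, h⟩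
            · exact h
            · exact absurd (h.2 hb) hx
          exact hpq (f.injective (by rw [ep, eq, ← hjk, ← this, Subtype.ext (ha.trans hb.symm)]))
        · rcases (adj f ew eq).2 (hw q hq) with ⟨h | h | h, -⟩ | ⟨h, -⟩
          · exact hx h
          · exact htw (h.symm.trans hxw)
          · exact htw' (h.symm.trans hxw)
          · exact hx h
      · rcases (adj f ew ep).2 (hw p hp) with ⟨-, -, h⟩ | ⟨-, h⟩
        · have h : H.Adj x.val z := by rw [← ha]; exact h
          exact x.2 (dg1 z x.val u hzw hxw huw h.symm huz.symm)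
        · exact hx (h.2 ha)
  · -- only selectors outside the joined part
    have hS : ∀ v, v ≠ w → (∃ s, f v = .sel s) ∨ ∃ a, f v = .cp a i ∧ a.val ≠ z ∧ a.val ≠ w :=
      fun v hv => by
        rcases dich v with h | h | h
        · exact absurd ⟨v, hv, h⟩ hQ
        · exact Or.inl h
        · exact Or.inr (hJ' v hv h)
    rcases ew : f w with _ | s | ⟨x, k⟩
    · -- joined vertices have types `t`, `t'`
      have ty : ∀ v, v ≠ w → Jc v → ∃ a, f v = .cp a i ∧ (a.val = t ∨ a.val = t') := fun v hv hJ => by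
        obtain ⟨a, ea, h1, h2⟩ := hJ' v hv hJ
        rcases (adj f ew ea).2 (hw v hv) with h | h | h
        · exact absurd (leaf a h2 h) h1
        · exact absurd h h1
        · exact ⟨a, ea, h⟩
      have tad : ∀ v v', v ≠ w → v' ≠ w → v ≠ v' → Jc v → Jc v' → H.Adj v v' :=
        fun v v' hv hv' hne h h' => by
          obtain ⟨a, ea, h1⟩ := ty v hv h
          obtain ⟨b, eb, h2⟩ := ty v' hv' h'
          have hab : a ≠ b := fun e => hne (f.injective (by rw [ea, eb, e]))
          refine (adj f ea eb).1 (Or.inl ⟨rfl, hab, ?_⟩)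
          show H.Adj a.val b.val
          rcases h1 with h1 | h1 <;> rcases h2 with h2 | h2
          · exact absurd (Subtype.ext (h1.trans h2.symm)) hab
          · rw [h1, h2]; exact htt
          · rw [h1, h2]; exact htt.symm
          · exact absurd (Subtype.ext (h1.trans h2.symm)) hab
      by_cases h1 : ∃ a, a ≠ w ∧ Jc a
      · obtain ⟨a, ha, hJa⟩ := h1
        by_cases h2 : ∃ b, b ≠ w ∧ b ≠ a ∧ Jc b
        · obtain ⟨b, hb, hba, hJb⟩ := h2
          have hab := tad a b ha hb hba.symm hJa hJb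
          refine L a b ha hb (Or.inr hab) fun v hv hJv => ?_
          by_cases e : v = a
          · exact Or.inl e
          · exact Or.inr (dg1 a v b ha hv hb (tad a v ha hv (Ne.symm e) hJa hJv) hab)
        · exact L a a ha ha (Or.inl rfl) fun v hv hJv => Or.inl (by_contra fun e =>
            h2 ⟨v, hv, e, hJv⟩)
      · exact L u u huw huw (Or.inl rfl) fun v hv hJv => absurd ⟨v, hv, hJv⟩ h1
    · -- a selector: all other vertices are copies, which is too many
      have h0 : ∀ v, v ≠ w → ∃ a, f v = .cp a i ∧ a.val ≠ z ∧ a.val ≠ w := fun v hv =>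
        (hS v hv).resolve_left fun ⟨s', ev⟩ => ((adj f ew ev).2 (hw v hv)).2
      exact (PS.full f huw hzw i huw huw fun v h1 _ _ => h0 v h1).1 rfl
    · by_cases hx : x.val = z
      · refine L u u huw huw (Or.inl rfl) fun v hv hJv => ?_
        obtain ⟨a, ea, h1, h2⟩ := hJ' v hv hJv
        rcases (adj f ew ea).2 (hw v hv) with ⟨-, -, h⟩ | ⟨-, h⟩
        · have h : H.Adj z a.val := by rw [← hx]; exact h
          exact absurd (dg1 z a.val u hzw h2 huw h huz.symm) a.2
        · exact absurd (h.1 hx) h1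
      by_cases hxt : x.val = t ∨ x.val = t'
      swap
      · -- no selectors
        have h0 : ∀ v, v ≠ w → ∃ a, f v = .cp a i ∧ a.val ≠ z ∧ a.val ≠ w := fun v hv =>
          (hS v hv).resolve_left fun ⟨s', ev⟩ => by
            rcases (adj f ew ev).2 (hw v hv) with ⟨h | h, -⟩ | ⟨h, -⟩
            · exact hx h
            · exact hxt h
            · exact hx h
        exact (PS.full f huw hzw i huw huw fun v h1 _ _ => h0 v h1).1 rfl
      by_cases hki : k = i
      · -- the same copy
        subst hki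
        obtain ⟨t0, ht0w, ht0⟩ : ∃ t0 : Fin m, t0 ≠ w ∧ ∀ a : Fin m, a ≠ w → H.Adj x.val a → a = t0 := by
          rcases hxt with h | h
          · exact ⟨t', htw', fun a ha h' => dg1 t a t' htw ha htw' (h ▸ h') htt⟩
          · exact ⟨t, htw, fun a ha h' => dg1 t' a t htw' ha htw (h ▸ h') htt.symm⟩
        have ty : ∀ v, v ≠ w → Jc v → ∃ a, f v = .cp a k ∧ a.val = t0 := fun v hv hJ => by
          obtain ⟨a, ea, h1, h2⟩ := hJ' v hv hJ
          rcases (adj f ew ea).2 (hw v hv) with ⟨-, -, h⟩ | ⟨h, -⟩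
          · exact ⟨a, ea, ht0 a h2 h⟩
          · exact absurd rfl h
        by_cases h1 : ∃ a, a ≠ w ∧ Jc a
        · obtain ⟨a, ha, hJa⟩ := h1
          refine L a a ha ha (Or.inl rfl) fun v hv hJv => Or.inl ?_
          obtain ⟨b, eb, hb⟩ := ty v hv hJv
          obtain ⟨c, ec, hc⟩ := ty a ha hJa
          exact f.injective (by rw [eb, ec, Subtype.ext (hb.trans hc.symm)])
        · exact L u u huw huw (Or.inl rfl) fun v hv hJv => absurd ⟨v, hv, hJv⟩ h1
      · -- count vertices on edges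
        let ζ : Fin m → Fin m := fun v => match f v with
          | .cp a _ => a.1
          | _ => if ∃ v', v' ≠ w ∧ H.Adj v v' ∧ ∃ a, f v' = .cp a i ∧ a.val = t then t' else t
        have ζe : ∀ v z i, f v = .cp z i → ζ v = z.1 := fun v z i h => by simp only [ζ, h]
        have ζs : ∀ v s, f v = .sel s → ζ v =
          if ∃ v', v' ≠ w ∧ H.Adj v v' ∧ ∃ a, f v' = .cp a i ∧ a.val = t then t' else t :=
          fun v s h => by simp only [ζ, h]
        set N := Finset.univ.filter fun v => v ≠ w ∧ ∃ v', v' ≠ w ∧ H.Adj v v' with hN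
        -- neighbours of selectors
        have sn : ∀ v s v', v' ≠ w → f v = .sel s → H.Adj v v' → inc s i ∧ ∃ a, f v' = .cp a i ∧
            (a.val = t ∨ a.val = t') := fun v s v' hv' ev h => by
          rcases hS v' hv' with ⟨s', ev'⟩ | ⟨a, ea, h1, h2⟩
          · exact absurd h (ss v v' ⟨s, ev⟩ ⟨s', ev'⟩)
          · rcases (adj f ev ea).2 h with ⟨h5 | h5, h6⟩ | ⟨h5, -⟩
            · exact absurd h5 h1
            · exact ⟨h6, a, ea, h5⟩
            · exact absurd h5 h1
        -- the value of `ζ` at a selector on an edge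
        have sv : ∀ v s v', v' ≠ w → f v = .sel s → H.Adj v v' →
            (∃ a, f v' = .cp a i ∧ a.val = t ∧ ζ v = t') ∨ (∃ a, f v' = .cp a i ∧ a.val = t' ∧ ζ v = t) :=
          fun v s v' hv' ev h => by
            obtain ⟨-, a, ea, h1⟩ := sn v s v' hv' ev h
            rcases h1 with h1 | h1
            · exact Or.inl ⟨a, ea, h1, by rw [ζs v s ev, if_pos ⟨v', hv', h, a, ea, h1⟩]⟩
            · refine Or.inr ⟨a, ea, h1, by
                rw [ζs v s ev, if_neg]
                rintro ⟨v2, h2, h3, b, eb, h4⟩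
                have hvw : v ≠ w := fun e => by rw [e, ew] at ev; cases ev
                have := dg1 v v' v2 hvw hv' h2 h h3
                rw [this, eb] at ea
                cases ea
                exact htt.ne (h4.symm.trans h1)⟩
        -- a joined vertex of type `t` or `t'` is adjacent to every covering selector
        have cs : ∀ v s v' a, f v = .sel s → inc s i → f v' = .cp a i → (a.val = t ∨ a.val = t') →
            H.Adj v v' := fun v s v' a ev hs ev' ha => (adj f ev ev').1 (Or.inl ⟨Or.inr ha, hs⟩)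
        have mp : Set.MapsTo ζ N ((N.erase u).erase z) := fun v hv => by
          obtain ⟨hvw, v', hvw', h⟩ := (Finset.mem_filter.1 hv).2
          have mem : ∀ y, y ≠ w → y ≠ u → y ≠ z → (∃ y', y' ≠ w ∧ H.Adj y y') →
              y ∈ (N.erase u).erase z := fun y h1 h2 h3 h4 =>
            Finset.mem_erase.2 ⟨h3, Finset.mem_erase.2 ⟨h2, Finset.mem_filter.2 ⟨Finset.mem_univ _, h1, h4⟩⟩⟩
          rcases hS v hvw with ⟨s, ev⟩ | ⟨a, ea, h1, h2⟩
          · rcases sv v s v' hvw' ev h with ⟨a, -, -, h3⟩ | ⟨a, -, -, h3⟩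
            · rw [h3]; exact mem t' htw' htu' htz' ⟨t, htw, htt.symm⟩
            · rw [h3]; exact mem t htw htu htz ⟨t', htw', htt⟩
          · rw [ζe v a i ea]
            refine mem a h2 a.2 h1 ?_
            rcases hS v' hvw' with ⟨s, ev'⟩ | ⟨b, eb, h3, h4⟩
            · rcases sv v' s v hvw ev' h.symm with ⟨c, ec, hc, -⟩ | ⟨c, ec, hc, -⟩
              · rw [ea] at ec; cases ec; exact ⟨t', htw', by rw [hc]; exact htt⟩
              · rw [ea] at ec; cases ec; exact ⟨t, htw, by rw [hc]; exact htt.symm⟩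
            · rcases (adj f ea eb).2 h with ⟨-, -, h5⟩ | ⟨h5, -⟩
              · exact ⟨b, h4, h5⟩
              · exact absurd rfl h5
        -- a selector and a joined vertex get different values
        have sj : ∀ v s v' a, v ∈ N → v' ≠ w → f v = .sel s → f v' = .cp a i → ζ v = ζ v' → False :=
          fun v s v' a hv hv' ev ev' e => by
            obtain ⟨hvw, v1, h1, h2⟩ := (Finset.mem_filter.1 hv).2
            obtain ⟨hs, -⟩ := sn v s v1 h1 ev h2
            rw [ζe v' a i ev'] at e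
            rcases sv v s v1 h1 ev h2 with ⟨b, eb, hb, h3⟩ | ⟨b, eb, hb, h3⟩
            · have h4 : a.val = t' := e.symm.trans h3
              have := dg1 v v1 v' hvw h1 hv' h2 (cs v s v' a ev hs ev' (Or.inr h4))
              rw [this, ev'] at eb
              cases eb
              exact htt.ne (hb.symm.trans h4)
            · have h4 : a.val = t := e.symm.trans h3
              have := dg1 v v1 v' hvw h1 hv' h2 (cs v s v' a ev hs ev' (Or.inl h4))
              rw [this, ev'] at eb
              cases eb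
              exact htt.ne (h4.symm.trans hb)
        have ij : Set.InjOn ζ N := fun v hv v' hv' e => by
          obtain ⟨hvw, v1, h1, h2⟩ := (Finset.mem_filter.1 hv).2
          obtain ⟨hvw', v2, h3, h4⟩ := (Finset.mem_filter.1 hv').2
          rcases hS v hvw with ⟨s, ev⟩ | ⟨a, ea, -⟩ <;> rcases hS v' hvw' with ⟨s', ev'⟩ | ⟨b, eb, -⟩
          · rcases sv v s v1 h1 ev h2 with ⟨a, ea, ha, h5⟩ | ⟨a, ea, ha, h5⟩ <;>
              rcases sv v' s' v2 h3 ev' h4 with ⟨b, eb, hb, h6⟩ | ⟨b, eb, hb, h6⟩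
            · have h7 : v1 = v2 := f.injective (by rw [ea, eb, Subtype.ext (ha.trans hb.symm)])
              exact dg1 v1 v v' h1 hvw hvw' h2.symm (h7 ▸ h4.symm)
            · exact absurd (h6.symm.trans (e.symm.trans h5)) htt.ne
            · exact absurd (h5.symm.trans (e.trans h6)) htt.ne
            · have h7 : v1 = v2 := f.injective (by rw [ea, eb, Subtype.ext (ha.trans hb.symm)])
              exact dg1 v1 v v' h1 hvw hvw' h2.symm (h7 ▸ h4.symm)
          · exact (sj v s v' b hv hvw' ev eb e).elim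
          · exact (sj v' s' v a hv' hvw ev' ea e.symm).elim
          · rw [ζe v a i ea, ζe v' b i eb] at e
            exact f.injective (by rw [ea, eb, Subtype.ext e])
        have := Finset.card_le_card_of_injOn ζ mp ij
        have hu : u ∈ N := Finset.mem_filter.2 ⟨Finset.mem_univ _, huw, z, hzw, huz⟩
        have h5 := Finset.card_erase_le (s := N.erase u) (a := z)
        rw [Finset.card_erase_of_mem hu] at h5
        have := Finset.card_pos.2 ⟨u, hu⟩
        omega

end Pool.Agent.L0h77.HC
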