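import Pool.Agent.L0h77.HC.VA

/-! Stars, stars with one more edge, and subdivided stars. -/

namespace Pool.Agent.L0h77.HC

open Pool.Agent.H22.CT SimpleGraph Function

variable {m : ℕ} {H : SimpleGraph (Fin m)}

theorem VA.fw {ι : Type} [Fintype ι] {i0 i1 : ι} (h01 : i0 ≠ i1) {z0 : Fin m} {I : Finset (Fin m)}
    (hI : Fintype.card ι + 2 ≤ I.card) (hz : ∀ v ∈ I, H.Adj z0 v)
    (hi : ∀ a ∈ I, ∀ b ∈ I, ¬ H.Adj a b) (inc : ℕ → ℕ × ℕ → Prop) :
    IsEmpty (H ↪g (VA i0).DG inc) := ⟨fun f => by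
  obtain ⟨κ, h⟩ := VA.col h01 inc (f z0)
  have := Finset.card_le_card_of_injOn (s := I) (t := (Finset.univ : Finset (Option ι)))
    (fun v => κ (f v)) (fun _ _ => Finset.mem_coe.2 (Finset.mem_univ _)) fun a ha b hb e => by
      by_contra hne
      exact hi a ha b hb (f.map_adj_iff.1 (h (f a) (f b) (f.map_adj_iff.2 (hz a ha))
        (f.map_adj_iff.2 (hz b hb)) e fun e' => hne (f.injective e')))
  rw [Finset.card_univ, Fintype.card_option] at this
  omega⟩

open TA' in
theorem VA.reach {ι : Type} {i0 : ι} {Y : TA' ι → Prop} (hY : ∀ a, Y a → ∃ l, (VA i0).Rch Y l a) :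
    (∀ a, Y a → a = c1 ∨ a = c2 ∨ a = pc) ∨ ∃ y, Y y ∧ ∀ j, G y (d j) := by
  have key : ∀ l a, (VA i0).Rch Y l a → (a = c1 ∨ a = c2 ∨ a = pc) ∨ ∃ y, Y y ∧ ∀ j, G y (d j) := by
    intro l a h
    induction h with
    | @base a ha h =>
      rcases h with (rfl | rfl | rfl) | (rfl | rfl | rfl)
      · exact Or.inr ⟨_, ha, fun _ => trivial⟩
      · simp
      · simp
      · exact Or.inr ⟨_, ha, fun _ => trivial⟩
      · simp
      · simp
    | @step l a b _ hb h ih =>
      rcases ih with (rfl | rfl | rfl) | ih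
      · cases b <;> simp [VA, G, P] at h ⊢
      · cases b <;> simp [VA, G, P] at h ⊢
      · cases b <;> simp [VA, G, P] at h ⊢
      · exact Or.inr ih
  by_cases h : ∃ y, Y y ∧ ∀ j, G y (d j)
  · exact Or.inr h
  · exact Or.inl fun a ha => (key _ a (hY a ha).choose_spec).resolve_right h

open TA' in
theorem VA.none_main {ι : Type} {i0 : ι} {Y : TA' ι → Prop} (h : ∀ a, Y a → a = c1 ∨ a = c2 ∨ a = pc)
    {κ : Type} (a : TA' ι × κ) : (VA i0).wad Y none (some a) ↔ (a.1 = w ∨ a.1 = c1 ∨ a.1 = c2) := by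
  constructor
  · rintro (h' | ⟨y, hy, h'⟩)
    · exact h'
    · rcases h y hy with rfl | rfl | rfl
      · obtain ⟨a, k⟩ := a
        cases a <;> simp [VA, G] at h' ⊢
      · obtain ⟨a, k⟩ := a
        cases a <;> simp [VA, G] at h' ⊢
      · exact h'.elim
  · exact fun h => Or.inl h

/-- A universal vertex; outside it a disjoint union of cliques given by `ε`. -/
theorem hardV1 {ι : Type} [Fintype ι] {i0 i1 : ι} (h01 : i0 ≠ i1) {z0 u1 u2 : Fin m}
    (hz : Univ H z0) (h1 : u1 ≠ z0) (h2 : u2 ≠ z0) (h12 : u1 ≠ u2)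
    (iso1 : ∀ v, v ≠ z0 → ¬ H.Adj u1 v) (iso2 : ∀ v, v ≠ z0 → ¬ H.Adj u2 v) (ε : Fin m → ι)
    (hε : ∀ a b, a ≠ z0 → a ≠ u1 → a ≠ u2 → b ≠ z0 → b ≠ u1 → b ≠ u2 → a ≠ b →
      (H.Adj a b ↔ ε a = ε b)) {I : Finset (Fin m)}
    (hI : Fintype.card ι + 2 ≤ I.card) (hI0 : ∀ v ∈ I, v ≠ z0)
    (hi : ∀ a ∈ I, ∀ b ∈ I, ¬ H.Adj a b) : W2Hard (Con₁ H) := by
  classical
  refine fin_hard u1.pos H (VA i0) (VA.fw h01 hI (fun v hv => hz v (hI0 v hv)) hi) fun Y hY => ?_
  have gen : ∀ τ : Fin m → Option (TA' ι), (∀ a b, a ≠ b → τ a = none → τ b ≠ none) →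
      (∀ a b, a ≠ b → (∀ x, τ a = none → τ b = some x →
        ((VA i0).wad Y none (some (x, b)) ↔ H.Adj a b)) ∧
        ∀ x y, τ a = some x → τ b = some y → (TA'.G x y ↔ H.Adj a b)) →
      Nonempty (H ↪g (VA i0).WG (Fin m) Y) := fun τ t1 t2 => by
    refine mkEmb (fun v => (τ v).map fun x => (x, v)) fun a b hab => ?_
    rcases ha : τ a with _ | x <;> rcases hb : τ b with _ | y
    · exact absurd hb (t1 a b hab ha)
    · exact ⟨by simp, (t2 a b hab).1 y ha hb⟩
    · refine ⟨by simp, ?_⟩
      rw [H.adj_comm]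
      exact (t2 b a hab.symm).1 x hb ha
    · refine ⟨by simp [hab], ?_⟩
      rw [← (t2 a b hab).2 x y ha hb]
      constructor
      · rintro (⟨h, -⟩ | ⟨-, h⟩)
        · exact absurd h hab
        · exact h
      · exact fun h => Or.inr ⟨hab, h⟩
  have za : ∀ a, a ≠ z0 → H.Adj z0 a := fun a h => hz a h
  rcases VA.reach hY with h | ⟨y, hy, hy'⟩
  · have hn := fun a => VA.none_main (i0 := i0) h (κ := Fin m) a
    refine gen (fun v => if v = z0 then some .w else if v = u1 then none else if v = u2 then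
      some .t else some (.x (ε v))) (fun a b hab ha => ?_) fun a b hab => ⟨fun x ha hb => ?_,
      fun x y ha hb => ?_⟩
    · split_ifs at ha ⊢ with e1 e2 e3 e4 e5 e6 <;> simp_all
    · rw [hn]
      have e1 : a = u1 := by
        by_contra e
        simp only [e, if_false] at ha
        split_ifs at ha
      subst e1
      by_cases e2 : b = z0
      · rw [if_pos e2] at hb
        cases hb
        exact iff_of_true (Or.inl rfl) (e2 ▸ (hz _ h1).symm)
      · rw [if_neg e2, if_neg hab.symm] at hb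
        refine iff_of_false (fun h => ?_) (iso1 b e2)
        split_ifs at hb <;> cases hb <;> simp at h
    · by_cases a1 : a = z0
      · subst a1
        have hb0 : b ≠ a := hab.symm
        rw [if_pos rfl] at ha
        cases ha
        rw [if_neg hb0] at hb
        refine iff_of_true ?_ (hz b hb0)
        split_ifs at hb <;> cases hb <;> trivial
      by_cases b1 : b = z0
      · subst b1
        rw [if_pos rfl] at hb
        cases hb
        rw [if_neg hab] at ha
        refine iff_of_true ?_ (hz a hab).symm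
        split_ifs at ha <;> cases ha <;> trivial
      rw [if_neg a1] at ha
      rw [if_neg b1] at hb
      by_cases a2 : a = u1
      · rw [if_pos a2] at ha; cases ha
      by_cases b2 : b = u1
      · rw [if_pos b2] at hb; cases hb
      rw [if_neg a2] at ha
      rw [if_neg b2] at hb
      by_cases a3 : a = u2
      · rw [if_pos a3] at ha; cases ha
        subst a3
        rw [if_neg hab.symm] at hb; cases hb
        exact iff_of_false (fun h => h) (iso2 b b1)
      by_cases b3 : b = u2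
      · rw [if_pos b3] at hb; cases hb
        subst b3
        rw [if_neg hab] at ha; cases ha
        exact iff_of_false (fun h => h) fun h => iso2 a a1 h.symm
      rw [if_neg a3] at ha; rw [if_neg b3] at hb
      cases ha; cases hb
      exact (hε a b a1 a2 a3 b1 b2 b3 hab).symm
  · refine gen (fun v => if v = z0 then none else if v = u1 then some .c1 else if v = u2 then
      some .c2 else some (.d (ε v))) (fun a b hab ha => ?_) fun a b hab => ⟨fun x ha hb => ?_,
      fun x y ha hb => ?_⟩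
    · by_cases e : a = z0
      · have : b ≠ z0 := fun e' => hab (e.trans e'.symm)
        rw [if_neg this]
        split_ifs <;> simp
      · rw [if_neg e] at ha
        split_ifs at ha
    · have e1 : a = z0 := by
        by_contra e
        rw [if_neg e] at ha
        split_ifs at ha
      subst e1
      refine iff_of_true ?_ (hz b hab.symm)
      rw [if_neg hab.symm] at hb
      split_ifs at hb <;> cases hb
      · exact Or.inl (Or.inr (Or.inl rfl))
      · exact Or.inl (Or.inr (Or.inr rfl))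
      · exact Or.inr ⟨y, hy, hy' _⟩
    · by_cases a1 : a = z0
      · rw [if_pos a1] at ha; cases ha
      by_cases b1 : b = z0
      · rw [if_pos b1] at hb; cases hb
      rw [if_neg a1] at ha
      rw [if_neg b1] at hb
      by_cases a2 : a = u1
      · rw [if_pos a2] at ha; cases ha
        subst a2
        rw [if_neg hab.symm] at hb
        refine iff_of_false (fun h => ?_) (iso1 b b1)
        split_ifs at hb <;> cases hb <;> exact h
      by_cases b2 : b = u1
      · rw [if_pos b2] at hb; cases hb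
        subst b2
        rw [if_neg hab] at ha
        refine iff_of_false (fun h => ?_) fun h => iso1 a a1 h.symm
        split_ifs at ha <;> cases ha <;> exact h
      rw [if_neg a2] at ha
      rw [if_neg b2] at hb
      by_cases a3 : a = u2
      · rw [if_pos a3] at ha; cases ha
        subst a3
        rw [if_neg hab.symm] at hb; cases hb
        exact iff_of_false (fun h => h) (iso2 b b1)
      by_cases b3 : b = u2
      · rw [if_pos b3] at hb; cases hb
        subst b3
        rw [if_neg hab] at ha; cases ha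
        exact iff_of_false (fun h => h) fun h => iso2 a a1 h.symm
      rw [if_neg a3] at ha; rw [if_neg b3] at hb
      cases ha; cases hb
      exact (hε a b a1 a2 a3 b1 b2 b3 hab).symm

/-- A star one of whose edges is subdivided: `z0` is adjacent to everything but `e`, the only
other edge is `b e`. -/
theorem hardV3 {z0 b e : Fin m} (hzb : b ≠ z0) (hze : e ≠ z0) (hbe : H.Adj b e)
    (nze : ¬ H.Adj z0 e) (hz : ∀ v, v ≠ z0 → v ≠ e → H.Adj z0 v)
    (ed : ∀ x y, x ≠ z0 → y ≠ z0 → H.Adj x y → (x = b ∧ y = e) ∨ (x = e ∧ y = b))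
    (hm : 6 ≤ m) : W2Hard (Con₁ H) := by
  classical
  have hbe' : b ≠ e := hbe.ne
  -- choose two further neighbours of `z0`
  set N := ((Finset.univ.erase z0).erase e).erase b with hN
  have cN : N.card = m - 3 := by
    rw [Finset.card_erase_of_mem (by simp [hzb, hbe']), Finset.card_erase_of_mem (by simp [hze]),
      Finset.card_erase_of_mem (by simp)]
    simp; omega
  have mN : ∀ v, v ∈ N ↔ v ≠ z0 ∧ v ≠ e ∧ v ≠ b := fun v => by simp [hN]; tauto
  obtain ⟨u1, hu1, u2, hu2, u3, hu3, h12, h13, h23⟩ := Finset.two_lt_card.1 (by omega : 2 < N.card)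
  rw [mN] at hu1 hu2 hu3
  let ι := {v : Fin m // v ≠ z0 ∧ v ≠ e ∧ v ≠ u1 ∧ v ≠ u2}
  let i0 : ι := ⟨b, hzb, hbe', fun h => hu1.2.2 h.symm, fun h => hu2.2.2 h.symm⟩
  let i1 : ι := ⟨u3, hu3.1, hu3.2.1, h13.symm, h23.symm⟩
  have h01 : i0 ≠ i1 := fun h => hu3.2.2 (congrArg Subtype.val h).symm
  have cι : Fintype.card ι = m - 4 := by
    rw [Fintype.card_subtype]
    have : (Finset.univ.filter fun v : Fin m => v ≠ z0 ∧ v ≠ e ∧ v ≠ u1 ∧ v ≠ u2) =
        (((Finset.univ.erase z0).erase e).erase u1).erase u2 := by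
      ext v; simp; tauto
    rw [this, Finset.card_erase_of_mem (by simp [hu2.1, hu2.2.1, h12.symm]),
      Finset.card_erase_of_mem (by simp [hu1.1, hu1.2.1]), Finset.card_erase_of_mem (by simp [hze]),
      Finset.card_erase_of_mem (by simp)]
    simp; omega
  have nad : ∀ x y, x ≠ z0 → y ≠ z0 → x ≠ e → y ≠ e → ¬ H.Adj x y := fun x y h1 h2 h3 h4 h => by
    rcases ed x y h1 h2 h with ⟨-, h5⟩ | ⟨h5, -⟩
    · exact h4 h5
    · exact h3 h5
  have eN : ∀ x, x ≠ b → ¬ H.Adj e x := fun x h h' => by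
    by_cases h1 : x = z0
    · exact nze (h1 ▸ h'.symm)
    rcases ed e x hze h1 h' with ⟨h5, -⟩ | ⟨-, h5⟩
    · exact hbe' h5.symm
    · exact h h5
  refine fin_hard b.pos H (VA i0) (VA.fw h01 (I := (Finset.univ.erase z0).erase e) (z0 := z0)
    ?_ (fun v hv => ?_) fun x hx y hy => ?_) fun Y hY => ?_
  · rw [cι, Finset.card_erase_of_mem (by simp [hze]), Finset.card_erase_of_mem (by simp)]
    simp; omega
  · simp only [Finset.mem_erase, Finset.mem_univ, and_true] at hv
    exact hz v hv.2 hv.1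
  · simp only [Finset.mem_erase, Finset.mem_univ, and_true] at hx hy
    exact nad x y hx.2 hy.2 hx.1 hy.1
  -- every vertex has one of the following forms
  have forms : ∀ v, v = z0 ∨ v = e ∨ v = u1 ∨ v = u2 ∨ ∃ i : ι, v = i.1 := fun v => by
    by_cases h1 : v = z0
    · exact Or.inl h1
    by_cases h2 : v = e
    · exact Or.inr (Or.inl h2)
    by_cases h3 : v = u1
    · exact Or.inr (Or.inr (Or.inl h3))
    by_cases h4 : v = u2
    · exact Or.inr (Or.inr (Or.inr (Or.inl h4)))
    · exact Or.inr (Or.inr (Or.inr (Or.inr ⟨⟨v, h1, h2, h3, h4⟩, rfl⟩)))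
  have iz : ∀ i : ι, i.1 ≠ z0 := fun i => i.2.1
  have ie : ∀ i : ι, i.1 ≠ e := fun i => i.2.2.1
  have iu1 : ∀ i : ι, i.1 ≠ u1 := fun i => i.2.2.2.1
  have iu2 : ∀ i : ι, i.1 ≠ u2 := fun i => i.2.2.2.2
  have eb0 : ∀ i : ι, i ≠ i0 → i.1 ≠ b := fun i h h' => h (Subtype.ext h')
  have sy : ∀ g : Fin m → Option (TA' ι × Fin m), (∀ a b, a ≠ b → (g a ≠ g b ∧
      ((VA i0).wad Y (g a) (g b) ↔ H.Adj a b)) → (g b ≠ g a ∧
      ((VA i0).wad Y (g b) (g a) ↔ H.Adj b a))) := fun g a b _ h => ⟨h.1.symm, by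
    rw [H.adj_comm b a, ← h.2]; exact ((VA i0).WG (Fin m) Y).adj_comm _ _⟩
  rcases VA.reach hY with h | ⟨y, hy, hy'⟩
  · have hn := fun a => VA.none_main (i0 := i0) h (κ := Fin m) a
    let g : Fin m → Option (TA' ι × Fin m) := fun v => if hz : v = z0 then some (.w, v) else
      if he : v = e then some (.px, b) else if h1 : v = u1 then none else
      if h2 : v = u2 then some (.t, v) else some (.x ⟨v, hz, he, h1, h2⟩, v)
    have g1 : g z0 = some (.w, z0) := by simp [g]
    have g2 : g e = some (.px, b) := by simp [g, hze]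
    have g3 : g u1 = none := by simp [g, hu1.1, hu1.2.1]
    have g4 : g u2 = some (.t, u2) := by simp [g, hu2.1, hu2.2.1, h12.symm]
    have g5 : ∀ i : ι, g i.1 = some (.x i, i.1) := fun i => by simp [g, iz, ie, iu1, iu2]
    have gn : ∀ x (a : TA' ι × Fin m), x ≠ u1 → g x = some a → (((a.1 = TA'.w ∨ a.1 = TA'.c1 ∨ a.1 = TA'.c2)) ↔
        x = z0) := fun x a h1 h2 => by
      rcases forms x with rfl | rfl | rfl | rfl | ⟨i, rfl⟩
      · rw [g1] at h2; cases h2; simp
      · rw [g2] at h2; cases h2; simp [hze]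
      · exact absurd rfl h1
      · rw [g4] at h2; cases h2; simp [hu2.1]
      · rw [g5] at h2; cases h2; simp [iz]
    -- pairs of vertices
    have key : ∀ x y, x ≠ y → g x ≠ g y ∧ ((VA i0).wad Y (g x) (g y) ↔ H.Adj x y) := by
      have A : ∀ y, u1 ≠ y → g u1 ≠ g y ∧ ((VA i0).wad Y (g u1) (g y) ↔ H.Adj u1 y) := fun y hy => by
        rcases hgy : g y with _ | p
        · rcases forms y with rfl | rfl | rfl | rfl | ⟨i, rfl⟩
          · rw [g1] at hgy; cases hgy
          · rw [g2] at hgy; cases hgy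
          · exact absurd rfl hy
          · rw [g4] at hgy; cases hgy
          · rw [g5] at hgy; cases hgy
        · rw [g3]
          refine ⟨by simp, (hn p).trans ((gn y p hy.symm hgy).trans ⟨fun h => ?_, fun h => ?_⟩)⟩
          · rw [h]; exact (hz u1 hu1.1 hu1.2.1).symm
          · by_contra h'
            rcases ed u1 y hu1.1 h' h with ⟨h5, -⟩ | ⟨h5, -⟩
            · exact hu1.2.2 h5
            · exact hu1.2.1 h5
      have B : ∀ y, z0 ≠ y → u1 ≠ y → g z0 ≠ g y ∧ ((VA i0).wad Y (g z0) (g y) ↔ H.Adj z0 y) :=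
        fun y hy hy' => by
        rcases forms y with rfl | rfl | rfl | rfl | ⟨i, rfl⟩
        · exact absurd rfl hy
        · rw [g1, g2]
          refine ⟨by simp, iff_of_false ?_ nze⟩
          rintro (⟨h, -⟩ | ⟨-, h⟩)
          · exact hzb h.symm
          · exact h
        · exact absurd rfl hy'
        · rw [g1, g4]
          exact ⟨by simp, iff_of_true (Or.inr ⟨hu2.1.symm, trivial⟩) (hz _ hu2.1 hu2.2.1)⟩
        · rw [g1, g5]
          exact ⟨by simp, iff_of_true (Or.inr ⟨(iz i).symm, trivial⟩) (hz _ (iz i) (ie i))⟩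
      have C : ∀ y, z0 ≠ y → u1 ≠ y → e ≠ y → g e ≠ g y ∧
          ((VA i0).wad Y (g e) (g y) ↔ H.Adj e y) := fun y h1 h2 h3 => by
        rcases forms y with rfl | rfl | rfl | rfl | ⟨i, rfl⟩
        · exact absurd rfl h1
        · exact absurd rfl h3
        · exact absurd rfl h2
        · rw [g2, g4]
          refine ⟨by simp, iff_of_false ?_ (eN _ hu2.2.2)⟩
          rintro (⟨h, -⟩ | ⟨-, h⟩)
          · exact hu2.2.2 h.symm
          · exact h
        · rw [g2, g5]
          refine ⟨by simp, ?_⟩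
          by_cases hi : i = i0
          · subst hi
            exact iff_of_true (Or.inl ⟨rfl, by simp, Or.inr rfl⟩) hbe.symm
          · refine iff_of_false ?_ (eN _ (eb0 i hi))
            rintro (⟨h, -⟩ | ⟨-, h⟩)
            · exact eb0 i hi h.symm
            · exact h
      have E' : ∀ x y, x ≠ z0 → x ≠ e → x ≠ u1 → y ≠ z0 → y ≠ e → y ≠ u1 → x ≠ y →
          g x ≠ g y ∧ ((VA i0).wad Y (g x) (g y) ↔ H.Adj x y) := fun x y a1 a2 a3 b1 b2 b3 hxy => by
        refine (fun (q : g x ≠ g y ∧ ¬ (VA i0).wad Y (g x) (g y)) =>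
          ⟨q.1, iff_of_false q.2 (nad x y a1 b1 a2 b2)⟩) ?_
        rcases forms x with rfl | rfl | rfl | rfl | ⟨i, rfl⟩
        · exact absurd rfl a1
        · exact absurd rfl a2
        · exact absurd rfl a3
        · rcases forms y with rfl | rfl | rfl | rfl | ⟨j, rfl⟩
          · exact absurd rfl b1
          · exact absurd rfl b2
          · exact absurd rfl b3
          · exact absurd rfl hxy
          · rw [g4, g5]
            refine ⟨by simp, ?_⟩
            rintro (⟨h, -⟩ | ⟨-, h⟩)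
            · exact hxy h
            · exact h
        · rcases forms y with rfl | rfl | rfl | rfl | ⟨j, rfl⟩
          · exact absurd rfl b1
          · exact absurd rfl b2
          · exact absurd rfl b3
          · rw [g4, g5]
            refine ⟨by simp, ?_⟩
            rintro (⟨h, -⟩ | ⟨-, h⟩)
            · exact hxy h
            · exact h
          · rw [g5, g5]
            refine ⟨by simp [hxy], ?_⟩
            rintro (⟨h, -⟩ | ⟨-, h⟩)
            · exact hxy h
            · exact hxy (congrArg Subtype.val h)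
      intro x y hxy
      by_cases a3 : x = u1
      · subst a3; exact A y hxy
      by_cases b3 : y = u1
      · subst b3; exact sy g _ _ (Ne.symm a3) (A x (Ne.symm a3))
      by_cases a1 : x = z0
      · subst a1; exact B _ hxy (Ne.symm b3)
      by_cases b1 : y = z0
      · subst b1; exact sy g _ _ (Ne.symm a1) (B x (Ne.symm a1) (Ne.symm a3))
      by_cases a2 : x = e
      · subst a2; exact C y (Ne.symm b1) (Ne.symm b3) hxy
      by_cases b2 : y = e
      · subst b2; exact sy g _ _ (Ne.symm a2) (C x (Ne.symm a1) (Ne.symm a3) (Ne.symm a2))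
      · exact E' x y a1 a2 a3 b1 b2 b3 hxy
    exact mkEmb g key
  · let g : Fin m → Option (TA' ι × Fin m) := fun v => if hz : v = z0 then none else
      if he : v = e then some (.pc, b) else if h1 : v = u1 then some (.c2, v) else
      if h2 : v = u2 then some (.d i0, v) else if h3 : v = b then some (.c1, v) else
      some (.d ⟨v, hz, he, h1, h2⟩, v)
    have g1 : g z0 = none := by simp [g]
    have g2 : g e = some (.pc, b) := by simp [g, hze]
    have g3 : g u1 = some (.c2, u1) := by simp [g, hu1.1, hu1.2.1]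
    have g4 : g u2 = some (.d i0, u2) := by simp [g, hu2.1, hu2.2.1, h12.symm]
    have q1 : b ≠ u1 := hu1.2.2.symm
    have q2 : b ≠ u2 := hu2.2.2.symm
    have g6 : g b = some (.c1, b) := by simp [g, hzb, hbe', q1, q2]
    have g5 : ∀ i : ι, i ≠ i0 → g i.1 = some (.d i, i.1) := fun i h => by
      simp [g, iz, ie, iu1, iu2, eb0 i h]
    have forms' : ∀ v, v = z0 ∨ v = e ∨ v = u1 ∨ v = u2 ∨ v = b ∨ ∃ i : ι, i ≠ i0 ∧ v = i.1 :=
      fun v => by
        rcases forms v with h | h | h | h | ⟨i, h⟩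
        · exact Or.inl h
        · exact Or.inr (Or.inl h)
        · exact Or.inr (Or.inr (Or.inl h))
        · exact Or.inr (Or.inr (Or.inr (Or.inl h)))
        · by_cases h' : i = i0
          · exact Or.inr (Or.inr (Or.inr (Or.inr (Or.inl (h.trans (congrArg Subtype.val h'))))))
          · exact Or.inr (Or.inr (Or.inr (Or.inr (Or.inr ⟨i, h', h⟩))))
    have key : ∀ x y, x ≠ y → g x ≠ g y ∧ ((VA i0).wad Y (g x) (g y) ↔ H.Adj x y) := by
      have B : ∀ y, z0 ≠ y → g z0 ≠ g y ∧ ((VA i0).wad Y (g z0) (g y) ↔ H.Adj z0 y) :=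
        fun v hv => by
        rcases forms' v with rfl | rfl | rfl | rfl | rfl | ⟨i, hi, rfl⟩
        · exact absurd rfl hv
        · rw [g1, g2]
          refine ⟨by simp, iff_of_false ?_ nze⟩
          rintro (h | ⟨y', -, h⟩)
          · simp [VA] at h
          · cases y' <;> exact h
        · rw [g1, g3]
          exact ⟨by simp, iff_of_true (Or.inl (Or.inr (Or.inr rfl))) (hz _ hu1.1 hu1.2.1)⟩
        · rw [g1, g4]
          exact ⟨by simp, iff_of_true (Or.inr ⟨y, hy, hy' _⟩) (hz _ hu2.1 hu2.2.1)⟩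
        · rw [g1, g6]
          exact ⟨by simp, iff_of_true (Or.inl (Or.inr (Or.inl rfl))) (hz _ hzb hbe')⟩
        · rw [g1, g5 i hi]
          exact ⟨by simp, iff_of_true (Or.inr ⟨y, hy, hy' _⟩) (hz _ (iz i) (ie i))⟩
      have C : ∀ y, z0 ≠ y → e ≠ y → g e ≠ g y ∧
          ((VA i0).wad Y (g e) (g y) ↔ H.Adj e y) := fun v h1 h3 => by
        rcases forms' v with rfl | rfl | rfl | rfl | rfl | ⟨i, hi, rfl⟩
        · exact absurd rfl h1
        · exact absurd rfl h3
        · rw [g2, g3]
          refine ⟨by simp, iff_of_false ?_ (eN _ hu1.2.2)⟩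
          rintro (⟨h, -⟩ | ⟨-, h⟩)
          · exact hu1.2.2 h.symm
          · exact h
        · rw [g2, g4]
          refine ⟨by simp, iff_of_false ?_ (eN _ hu2.2.2)⟩
          rintro (⟨h, -⟩ | ⟨-, h⟩)
          · exact hu2.2.2 h.symm
          · exact h
        · rw [g2, g6]
          exact ⟨by simp, iff_of_true (Or.inl ⟨rfl, by simp, Or.inr trivial⟩) hbe.symm⟩
        · rw [g2, g5 i hi]
          refine ⟨by simp, iff_of_false ?_ (eN _ (eb0 i hi))⟩
          rintro (⟨h, -⟩ | ⟨-, h⟩)
          · exact eb0 i hi h.symm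
          · exact h
      have E' : ∀ x y, x ≠ z0 → x ≠ e → y ≠ z0 → y ≠ e → x ≠ y →
          g x ≠ g y ∧ ((VA i0).wad Y (g x) (g y) ↔ H.Adj x y) := fun x y a1 a2 b1 b2 hxy => by
        refine (fun (q : g x ≠ g y ∧ ¬ (VA i0).wad Y (g x) (g y)) =>
          ⟨q.1, iff_of_false q.2 (nad x y a1 b1 a2 b2)⟩) ?_
        -- the type of each vertex
        have tt : ∀ x, x ≠ z0 → x ≠ e → ∃ a, g x = some (a, x) ∧ ((a = TA'.c2 ∧ x = u1) ∨
            (a = TA'.d i0 ∧ x = u2) ∨ (a = TA'.c1 ∧ x = b) ∨ ∃ i : ι, i ≠ i0 ∧ a = TA'.d i ∧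
            x = i.1) := fun x a1 a2 => by
          rcases forms' x with rfl | rfl | rfl | rfl | rfl | ⟨i, hi, rfl⟩
          · exact absurd rfl a1
          · exact absurd rfl a2
          · exact ⟨_, g3, Or.inl ⟨rfl, rfl⟩⟩
          · exact ⟨_, g4, Or.inr (Or.inl ⟨rfl, rfl⟩)⟩
          · exact ⟨_, g6, Or.inr (Or.inr (Or.inl ⟨rfl, rfl⟩))⟩
          · exact ⟨_, g5 i hi, Or.inr (Or.inr (Or.inr ⟨i, hi, rfl, rfl⟩))⟩
        obtain ⟨a, ha, ha'⟩ := tt x a1 a2
        obtain ⟨c, hc, hc'⟩ := tt y b1 b2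
        rw [ha, hc]
        refine ⟨by simp [hxy], ?_⟩
        rintro (⟨h, -⟩ | ⟨-, h⟩)
        · exact hxy h
        · rcases ha' with ⟨rfl, e1⟩ | ⟨rfl, e1⟩ | ⟨rfl, e1⟩ | ⟨i, hi, rfl, e1⟩ <;>
            rcases hc' with ⟨rfl, e2⟩ | ⟨rfl, e2⟩ | ⟨rfl, e2⟩ | ⟨j, hj, rfl, e2⟩ <;>
            first
            | exact h
            | exact hxy (e1.trans e2.symm)
            | exact hj (Eq.symm h)
            | exact hi h
            | (have h : i = j := h
               exact hxy (by rw [e1, e2, h]))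
      intro x y hxy
      by_cases a1 : x = z0
      · subst a1; exact B _ hxy
      by_cases b1 : y = z0
      · subst b1; exact sy g _ _ (Ne.symm a1) (B x (Ne.symm a1))
      by_cases a2 : x = e
      · subst a2; exact C _ (Ne.symm b1) hxy
      by_cases b2 : y = e
      · subst b2; exact sy g _ _ (Ne.symm a2) (C x (Ne.symm a1) (Ne.symm a2))
      · exact E' x y a1 a2 b1 b2 hxy
    exact mkEmb g key

end Pool.Agent.L0h77.HC
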