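import Pool.Agent.L0h77.HC.VB

/-! Graphs containing two universal vertices over many independent ones. -/

namespace Pool.Agent.L0h77.HC

open Pool.Agent.H22.CT SimpleGraph Function

variable {m : ℕ} {H : SimpleGraph (Fin m)}

theorem VB.Cov.symm {ι : Type} {i0 : ι} {inc : ℕ → ℕ × ℕ → Prop} {c c' : Vx (TB ι)}
    (h : VB.Cov i0 inc c c') : VB.Cov i0 inc c' c :=
  let ⟨κ, h⟩ := h
  ⟨κ, fun a b h1 h2 h3 h4 => h a b h2 h1 h4 h3⟩

theorem VB.cov {ι : Type} {i0 : ι} {inc : ℕ → ℕ × ℕ → Prop} (c c' : Vx (TB ι))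
    (h : (VB i0).dad inc c c') : VB.Cov i0 inc c c' := by
  have ne : ∀ (a : TB ι) i j, (VB i0).dad inc (.cp a i) (.cp a j) → i ≠ j := fun a i j h e => by
    subst e; exact ((VB i0).DG inc).loopless.irrefl (.cp a i) h
  rcases c with _ | s | ⟨c, i⟩ <;> rcases c' with _ | s' | ⟨c', j⟩ <;> (try cases c) <;>
    (try cases c') <;>
    first
    | (simp only [TG.dad, VB, TB.G, TB.P, TB.Q, TB.R, TB.A, reduceCtorEq, or_self, and_false, false_and] at h; done)
    | exact VB.e01 _
    | exact (VB.e01 _).symm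
    | exact VB.e02 _
    | exact (VB.e02 _).symm
    | exact VB.e03 _
    | exact (VB.e03 _).symm
    | exact VB.e04 _
    | exact (VB.e04 _).symm
    | exact VB.e05 _
    | exact (VB.e05 _).symm
    | exact VB.e06 _
    | exact (VB.e06 _).symm
    | exact VB.e07 _
    | exact (VB.e07 _).symm
    | exact VB.e11 _ _
    | exact VB.e13 _ _
    | exact (VB.e13 _ _).symm
    | exact VB.eww _ _ (ne _ _ _ h)
    | exact VB.ewt _ _
    | exact (VB.ewt _ _).symm
    | exact VB.ewx _ _ _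
    | exact (VB.ewx _ _ _).symm
    | exact VB.ewd _ _ _
    | exact (VB.ewd _ _ _).symm
    | exact VB.ewy0 _ _
    | exact (VB.ewy0 _ _).symm
    | exact VB.ewy1 _ _
    | exact (VB.ewy1 _ _).symm
    | exact VB.ett _ _
    | exact VB.etd _ _ _
    | exact (VB.etd _ _ _).symm
    | exact VB.exd _ _ _ _
    | exact (VB.exd _ _ _ _).symm
    | exact VB.exy0 _ _ _
    | exact (VB.exy0 _ _ _).symm
    | exact VB.edv _ _ _
    | exact (VB.edv _ _ _).symm
    | exact VB.e11c _ _
    | exact VB.e13c _ _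
    | exact (VB.e13c _ _).symm
    | exact VB.e1v _ _
    | exact (VB.e1v _ _).symm
    | exact VB.e33c _ _
    | exact VB.e3v _ _
    | exact (VB.e3v _ _).symm
    | exact VB.e22c _ _
    | exact VB.e2v _ _
    | exact (VB.e2v _ _).symm
    | skip
  · rcases h with ⟨_, h1, h2 | h2⟩ | ⟨h1, h2 | h2⟩
    · exact absurd (congrArg _ h2) h1
    · exact h2.elim
    · exact VB.exx _ _ _ _ h1 h2
    · exact h2.elim
  · rcases h with ⟨_, h1, h2 | h2⟩ | ⟨h1, _⟩
    · exact absurd (congrArg _ h2) h1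
    · exact h2.elim
    · exact VB.edd _ _ _ _ h1

theorem VB.fw {ι : Type} [Fintype ι] {i0 : ι} {p q : Fin m} {I : Finset (Fin m)}
    (hpq : H.Adj p q) (hI : Fintype.card ι + 2 ≤ I.card) (hp : ∀ v ∈ I, H.Adj p v)
    (hq : ∀ v ∈ I, H.Adj q v) (hi : ∀ a ∈ I, ∀ b ∈ I, ¬ H.Adj a b) (inc : ℕ → ℕ × ℕ → Prop) :
    IsEmpty (H ↪g (VB i0).DG inc) := ⟨fun f => by
  obtain ⟨κ, h⟩ := VB.cov (inc := inc) (i0 := i0) (f p) (f q) (f.map_adj_iff.2 hpq)
  have := Finset.card_le_card_of_injOn (s := I) (t := (Finset.univ : Finset (Option ι)))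
    (fun v => κ (f v)) (fun _ _ => Finset.mem_coe.2 (Finset.mem_univ _)) fun a ha b hb e => by
      by_contra hne
      exact hi a ha b hb (f.map_adj_iff.1 (h (f a) (f b) (f.map_adj_iff.2 (hp a ha))
        (f.map_adj_iff.2 (hq a ha)) (f.map_adj_iff.2 (hp b hb)) (f.map_adj_iff.2 (hq b hb)) e
        fun e' => hne (f.injective e')))
  rw [Finset.card_univ, Fintype.card_option] at this
  omega⟩

open TB in
theorem VB.reach {ι : Type} {i0 : ι} {Y : TB ι → Prop} (hY : ∀ a, Y a → ∃ l, (VB i0).Rch Y l a) :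
    (∀ a, Y a → a = c1 ∨ a = c3 ∨ a = c2 ∨ a = v) ∨ ∃ y, Y y ∧ ∀ j, (VB i0).C y (d j) := by
  have key : ∀ l a, (VB i0).Rch Y l a → (a = c1 ∨ a = c3 ∨ a = c2 ∨ a = v) ∨
      ∃ y, Y y ∧ ∀ j, (VB i0).C y (d j) := by
    intro l a h
    induction h with
    | @base a ha h =>
      cases a
      · exact Or.inr ⟨_, ha, fun _ => Or.inl trivial⟩
      · exact Or.inr ⟨_, ha, fun _ => Or.inl trivial⟩
      · simp
      · simp
      · simp
      · simp
      · exact (h.elim id id).elim
      · exact (h.elim id id).elim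
      · exact (h.elim id id).elim
      · exact (h.elim id id).elim
    | @step l a b _ hb h ih =>
      rcases ih with (rfl | rfl | rfl | rfl) | ih
      · cases b <;> simp [VB, G, P, Q] at h ⊢
      · cases b <;> simp [VB, G, P, Q] at h ⊢
      · cases b <;> simp [VB, G, P, Q] at h ⊢
      · cases b with
        | d i => exact Or.inr ⟨_, hb, fun _ => Or.inr trivial⟩
        | _ => simp [VB, G, P, Q] at h ⊢
      · exact Or.inr ih
  by_cases h : ∃ y, Y y ∧ ∀ j, (VB i0).C y (d j)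
  · exact Or.inr h
  · exact Or.inl fun a ha => (key _ a (hY a ha).choose_spec).resolve_right h

open TB in
theorem VB.none_main {ι : Type} {i0 : ι} {Y : TB ι → Prop}
    (h : ∀ a, Y a → a = c1 ∨ a = c3 ∨ a = c2 ∨ a = v) {κ : Type} (a : TB ι × κ) :
    (VB i0).wad Y none (some a) ↔ TB.R a.1 := by
  constructor
  · rintro (h' | ⟨y, hy, h'⟩)
    · exact h'
    · obtain ⟨a, k⟩ := a
      rcases h y hy with rfl | rfl | rfl | rfl <;> cases a <;> simp [VB, G, Q, TB.R] at h' ⊢
  · exact fun h => Or.inl h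

/-- the kinds of vertices of `H` -/
inductive VK (ι : Type)
  | w0 | z | u1 | u2
  | x (i : ι)
  | e

/-- adjacency of the kinds -/
def VT {ι : Type} (i0 : ι) (md : Fin 3) : VK ι → VK ι → Prop
  | .w0, .w0 => False
  | .w0, _ => True
  | _, .w0 => True
  | .z, .z => False
  | .z, .e => md = 0
  | .e, .z => md = 0
  | .z, _ => True
  | _, .z => True
  | .e, .x i => md ≠ 2 ∧ i = i0
  | .x i, .e => md ≠ 2 ∧ i = i0
  | _, _ => False

open TB in
theorem VT.main {ι : Type} {i0 : ι} (md : Fin 3) {Y : TB ι → Prop}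
    (h : ∀ a, Y a → a = c1 ∨ a = c3 ∨ a = c2 ∨ a = v) : ∃ g : VK ι → Option (TB ι × VK ι),
      (∀ k a, g k = some a → a.2 ≠ .e) ∧ ∀ k k', k ≠ k' → g k ≠ g k' ∧
        ((VB i0).wad Y (g k) (g k') ↔ VT i0 md k k') := by
  classical
  have hn := fun a => VB.none_main (i0 := i0) h (κ := VK ι) a
  have hn' : ∀ a : TB ι × VK ι, (VB i0).wad Y (some a) none ↔ TB.R a.1 := fun a => hn a
  have hn : ∀ a : TB ι × VK ι, (VB i0).wad Y none (some a) ↔ TB.R a.1 := fun a => hn a
  have hs : ∀ a b : TB ι × VK ι, (VB i0).wad Y (some a) (some b) ↔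
      (a.2 = b.2 ∧ a.1 ≠ b.1 ∧ (TB.G a.1 b.1 ∨ TB.P i0 a.1 b.1)) ∨
      (a.2 ≠ b.2 ∧ (TB.G a.1 b.1 ∨ TB.Q a.1 b.1)) := fun a b => Iff.rfl
  clear h
  have f : md = 0 ∨ md = 1 ∨ md = 2 := by omega
  refine ⟨fun k => match k with
    | .w0 => some (w, .w0)
    | .z => some (w, .z)
    | .u1 => none
    | .u2 => some (t, .u2)
    | .x i => some (.x i, if i = i0 then .w0 else .x i)
    | .e => if md = 0 then some (.x i0, .z) else if md = 1 then some (.y0, .w0) else some (.y1, .w0),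
    fun k a hk => ?_, fun k k' hk => ?_⟩
  · rcases f with rfl | rfl | rfl <;> cases k <;> simp at hk <;> subst hk <;>
      first
      | (simp; done)
      | (simp only; split_ifs <;> simp)
  · rcases f with rfl | rfl | rfl <;> rcases k with _ | _ | _ | _ | i | _ <;>
      rcases k' with _ | _ | _ | _ | j | _ <;> (try exact absurd rfl hk) <;>
      (try (by_cases hi : i = i0)) <;> (try (by_cases hj : j = i0)) <;>
      simp [VT, hn, hn', hs, TB.G, TB.P, TB.Q, TB.R, *]
    all_goals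
      first
      | exact hk (by rw [hi, hj])
      | exact fun e => hj e.symm
      | exact fun e => hi e.symm
      | exact fun e => hk (by rw [← e, hi])
      | exact fun e => hk (by rw [e])

open TB in
theorem VT.pen {ι : Type} {i0 : ι} (md : Fin 3) {Y : TB ι → Prop} {y : TB ι} (hy : Y y)
    (hy' : ∀ j, (VB i0).C y (d j)) : ∃ g : VK ι → Option (TB ι × VK ι),
      (∀ k a, g k = some a → a.2 ≠ .e) ∧ ∀ k k', k ≠ k' → g k ≠ g k' ∧
        ((VB i0).wad Y (g k) (g k') ↔ VT i0 md k k') := by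
  classical
  have hn : ∀ a : TB ι × VK ι, (TB.R a.1 ∨ ∃ i, a.1 = d i) → ((VB i0).wad Y none (some a) ↔ True) :=
    fun a ha => iff_true_intro (ha.elim (fun h => Or.inl h) fun ⟨i, h⟩ => Or.inr ⟨y, hy, h ▸ hy' i⟩)
  have hn' : ∀ a : TB ι × VK ι, (TB.R a.1 ∨ ∃ i, a.1 = d i) → ((VB i0).wad Y (some a) none ↔ True) :=
    fun a ha => iff_true_intro (ha.elim (fun h => Or.inl h) fun ⟨i, h⟩ => Or.inr ⟨y, hy, h ▸ hy' i⟩)
  have hs : ∀ a b : TB ι × VK ι, (VB i0).wad Y (some a) (some b) ↔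
      (a.2 = b.2 ∧ a.1 ≠ b.1 ∧ (TB.G a.1 b.1 ∨ TB.P i0 a.1 b.1)) ∨
      (a.2 ≠ b.2 ∧ (TB.G a.1 b.1 ∨ TB.Q a.1 b.1)) := fun a b => Iff.rfl
  clear hy hy'
  have f : md = 0 ∨ md = 1 ∨ md = 2 := by omega
  refine ⟨fun k => match k with
    | .w0 => none
    | .z => some (v, .z)
    | .u1 => some (d i0, .z)
    | .u2 => some (c2, .z)
    | .x i => if i = i0 then some (c1, .z) else some (d i, .z)
    | .e => if md = 0 then some (c3, .z) else if md = 1 then some (c1, .w0) else some (v, .w0),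
    fun k a hk => ?_, fun k k' hk => ?_⟩
  · rcases f with rfl | rfl | rfl <;> cases k <;> simp at hk <;>
      first
      | (subst hk; simp; done)
      | (split_ifs at hk <;> cases hk <;> simp)
  · rcases f with rfl | rfl | rfl <;> rcases k with _ | _ | _ | _ | i | _ <;>
      rcases k' with _ | _ | _ | _ | j | _ <;> (try exact absurd rfl hk) <;>
      (try (by_cases hi : i = i0)) <;> (try (by_cases hj : j = i0)) <;>
      simp [VT, hn, hn', hs, TB.G, TB.P, TB.Q, TB.R, *]
    all_goals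
      first
      | exact hk (by rw [hi, hj])
      | exact fun e => hj e.symm
      | exact fun e => hi e.symm
      | exact fun e => hk (by rw [← e, hi])
      | exact fun e => hk (by rw [e])

/-- Two vertices `w0` (universal) and `z` with at least three independent common neighbours, and
at most one further vertex. -/
theorem hardV2 {ι : Type} [Fintype ι] (i0 : ι) (md : Fin 3) (kd : Fin m → VK ι)
    (inj : Injective kd) (hT : ∀ a b, a ≠ b → (H.Adj a b ↔ VT i0 md (kd a) (kd b)))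
    (sw : ∀ k, k ≠ .e → ∃ a, kd a = k) : W2Hard (Con₁ H) := by
  classical
  obtain ⟨W0, hW0⟩ := sw .w0 (by simp)
  obtain ⟨Z, hZ⟩ := sw .z (by simp)
  have hWZ : W0 ≠ Z := fun h => by rw [h, hZ] at hW0; cases hW0
  haveI : Nonempty (Fin m) := ⟨W0⟩
  choose! φ hφ using sw
  have φi : ∀ k k', k ≠ .e → k' ≠ .e → φ k = φ k' → k = k' := fun k k' h h' e => by
    rw [← hφ k h, ← hφ k' h', e]
  let I : Finset (Fin m) := Finset.univ.filter fun v => kd v ≠ .w0 ∧ kd v ≠ .z ∧ kd v ≠ .e
  have mI : ∀ v, v ∈ I ↔ kd v ≠ .w0 ∧ kd v ≠ .z ∧ kd v ≠ .e := fun v => by simp [I]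
  have cI : Fintype.card ι + 2 ≤ I.card := by
    have := Finset.card_le_card_of_injOn (s := (Finset.univ : Finset (Option (Option ι)))) (t := I)
      (fun o => φ (match o with
        | none => VK.u1
        | some none => VK.u2
        | some (some i) => VK.x i)) (fun o _ => ?_) fun o _ o' _ h => ?_
    · rw [Finset.card_univ, Fintype.card_option, Fintype.card_option] at this
      omega
    · rw [Finset.mem_coe, mI]
      rcases o with _ | _ | i <;> simp only <;> rw [hφ _ (by simp)] <;> simp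
    · rcases o with _ | _ | i <;> rcases o' with _ | _ | j <;>
        first
        | rfl
        | (have := φi _ _ (by simp) (by simp) h; simpa using this)
  have zI : ∀ v ∈ I, H.Adj Z v := fun v hv => by
    rw [mI] at hv
    have : Z ≠ v := fun h => hv.2.1 (h ▸ hZ)
    rw [hT _ _ this, hZ]
    rcases h : kd v with _ | _ | _ | _ | i | _ <;> rw [h] at hv <;>
      first
      | trivial
      | exact absurd rfl hv.1
      | exact absurd rfl hv.2.1
      | exact absurd rfl hv.2.2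
  refine fin_hard W0.pos H (VB i0) (VB.fw (p := W0) (q := Z) (I := I) ?_ cI (fun v hv => ?_) zI
    fun a ha b hb h => ?_) fun Y hY => ?_
  · rw [hT _ _ hWZ, hW0, hZ]; trivial
  · rw [mI] at hv
    have : W0 ≠ v := fun h => hv.1 (h ▸ hW0)
    rw [hT _ _ this, hW0]
    rcases h : kd v with _ | _ | _ | _ | i | _ <;> rw [h] at hv <;>
      first
      | trivial
      | exact absurd rfl hv.1
  · rw [mI] at ha hb
    rw [hT _ _ h.ne] at h
    rcases h1 : kd a with _ | _ | _ | _ | i | _ <;> rw [h1] at ha h <;>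
      rcases h2 : kd b with _ | _ | _ | _ | i | _ <;> rw [h2] at hb h <;>
      first
      | exact h.elim
      | exact absurd rfl ha.1
      | exact absurd rfl ha.2.1
      | exact absurd rfl ha.2.2
      | exact absurd rfl hb.1
      | exact absurd rfl hb.2.1
      | exact absurd rfl hb.2.2
  · have : ∃ g : VK ι → Option (TB ι × VK ι), (∀ k a, g k = some a → a.2 ≠ .e) ∧
        ∀ k k', k ≠ k' → g k ≠ g k' ∧ ((VB i0).wad Y (g k) (g k') ↔ VT i0 md k k') := by
      rcases VB.reach hY with h | ⟨y, hy, hy'⟩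
      · exact VT.main md h
      · exact VT.pen md hy hy'
    obtain ⟨g, g1, g2⟩ := this
    refine mkEmb (fun v => (g (kd v)).map fun a => (a.1, φ a.2)) fun a b hab => ?_
    have hk : kd a ≠ kd b := fun h => hab (inj h)
    obtain ⟨h1, h2⟩ := g2 _ _ hk
    rw [hT a b hab, ← h2]
    rcases ha : g (kd a) with _ | x <;> rcases hb : g (kd b) with _ | y <;> rw [ha, hb] at h1
    · exact absurd rfl h1
    · exact ⟨by simp, Iff.rfl⟩
    · exact ⟨by simp, Iff.rfl⟩
    · have q : φ x.2 = φ y.2 ↔ x.2 = y.2 := ⟨φi _ _ (g1 _ _ ha) (g1 _ _ hb), fun h => by rw [h]⟩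
      refine ⟨fun h => h1 ?_, ?_⟩
      · simp only [Option.map_some, Option.some.injEq, Prod.mk.injEq] at h
        rw [q] at h
        rw [Option.some.injEq]
        exact Prod.ext h.1 h.2
      · show ((φ x.2 = φ y.2 ∧ _ ∧ _) ∨ (φ x.2 ≠ φ y.2 ∧ _)) ↔ _
        simp only [Ne, q]
        exact Iff.rfl

end Pool.Agent.L0h77.HC
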