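import Pool.Agent.L0h77.HC.Two
import Pool.Agent.L0h77.HC.One1
import Pool.Agent.L0h77.HC.One2
import Pool.Agent.L0h77.HC.One3
import Pool.Agent.L0h77.HC.One4
import Pool.Agent.L0h77.HC.PS2
import Pool.Agent.L0h77.HC.PR
import Pool.Agent.L0h77.HC.VA2
import Pool.Agent.L0h77.HC.VB2

/-! Graphs that are not connected after the removal of one or two universal vertices. -/

namespace Pool.Agent.L0h77.HC

open Pool.Agent.H22.CT SimpleGraph Function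

variable {m : ℕ} {H : SimpleGraph (Fin m)}

theorem not_conn {U : Set (Fin m)} (hU : Uᶜ.Nonempty) (h : ¬ (H.induce Uᶜ).Connected) :
    ∃ P : Fin m → Prop, (∀ a b, a ∉ U → b ∉ U → H.Adj a b → (P a ↔ P b)) ∧ (∃ p, p ∉ U ∧ P p) ∧
      ∃ q, q ∉ U ∧ ¬ P q := by
  obtain ⟨x, hx⟩ := hU
  have h' : ¬ (H.induce Uᶜ).Preconnected := fun h' =>
    h { preconnected := h', nonempty := ⟨⟨x, hx⟩⟩ }
  unfold SimpleGraph.Preconnected at h'
  push Not at h'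
  obtain ⟨a, b, hab⟩ := h'
  refine ⟨fun v => ∃ hv : v ∈ Uᶜ, (H.induce Uᶜ).Reachable a ⟨v, hv⟩, fun c d hc hd hcd => ?_,
    ⟨a.1, a.2, a.2, Reachable.refl _⟩, b.1, b.2, fun ⟨_, h⟩ => hab h⟩
  constructor
  · rintro ⟨hv, h⟩
    exact ⟨hd, h.trans (Adj.reachable (by exact hcd))⟩
  · rintro ⟨hv, h⟩
    exact ⟨hc, h.trans (Adj.reachable (by exact hcd.symm))⟩

theorem Disc.far {w : Fin m} (h : Disc H w) (u : Fin m) (hu : u ≠ w) : ∃ t, t ≠ w ∧ t ≠ u ∧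
    ¬ H.Adj u t ∧ ∀ v, v ≠ w → H.Adj u v → ¬ H.Adj t v := by
  obtain ⟨P, h1, ⟨p, hp, hp'⟩, q, hq, hq'⟩ := h
  obtain ⟨t, htw, ht⟩ : ∃ t, t ≠ w ∧ ¬ (P u ↔ P t) := by
    by_cases hu' : P u
    · exact ⟨q, hq, fun e => hq' (e.1 hu')⟩
    · exact ⟨p, hp, fun e => hu' (e.2 hp')⟩
  exact ⟨t, htw, fun e => ht (e ▸ Iff.rfl), fun e => ht (h1 u t hu htw e), fun v hv e1 e2 =>
    ht ((h1 u v hu hv e1).trans (h1 t v htw hv e2).symm)⟩

/-- `hardV2` in terms of the vertices. -/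
theorem hardV2' {w0 z u1 u2 b : Fin m} {E : Fin m → Prop} (hE : ∀ x y, E x → E y → x = y)
    (zw : z ≠ w0) (u1w : u1 ≠ w0) (u1z : u1 ≠ z) (u2w : u2 ≠ w0) (u2z : u2 ≠ z) (u12 : u2 ≠ u1)
    (bw : b ≠ w0) (bz : b ≠ z) (b1 : b ≠ u1) (b2 : b ≠ u2) (Ew : ¬ E w0) (Ez : ¬ E z)
    (E1 : ¬ E u1) (E2 : ¬ E u2) (Eb : ¬ E b) (md : Fin 3) (hw : Univ H w0)
    (hz : ∀ v, v ≠ z → ¬ E v → H.Adj z v) (hzE : ∀ v, E v → (H.Adj z v ↔ md = 0))
    (hEb : ∀ v, E v → (H.Adj v b ↔ md ≠ 2))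
    (ind : ∀ x y, x ≠ w0 → x ≠ z → y ≠ w0 → y ≠ z → H.Adj x y → (E x ∧ y = b) ∨ (E y ∧ x = b)) :
    W2Hard (Con₁ H) := by
  classical
  let ι := {v : Fin m // v ≠ w0 ∧ v ≠ z ∧ v ≠ u1 ∧ v ≠ u2 ∧ ¬ E v}
  let kd : Fin m → VK ι := fun v => if h0 : v = w0 then .w0 else if h1 : v = z then .z else
    if h2 : v = u1 then .u1 else if h3 : v = u2 then .u2 else if h4 : E v then .e else
    .x ⟨v, h0, h1, h2, h3, h4⟩
  have fo : ∀ v, (v = w0 ∧ kd v = .w0) ∨ (v = z ∧ kd v = .z) ∨ (v = u1 ∧ kd v = .u1) ∨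
      (v = u2 ∧ kd v = .u2) ∨ (v ≠ w0 ∧ v ≠ z ∧ E v ∧ kd v = .e) ∨
      ∃ i : ι, v = i.1 ∧ kd v = .x i := fun v => by
    by_cases h0 : v = w0
    · exact Or.inl ⟨h0, by simp [kd, h0]⟩
    by_cases h1 : v = z
    · exact Or.inr (Or.inl ⟨h1, by simp [kd, h1, zw]⟩)
    by_cases h2 : v = u1
    · exact Or.inr (Or.inr (Or.inl ⟨h2, by simp [kd, h2, u1w, u1z]⟩))
    by_cases h3 : v = u2
    · exact Or.inr (Or.inr (Or.inr (Or.inl ⟨h3, by simp [kd, h3, u2w, u2z, u12]⟩)))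
    by_cases h4 : E v
    · exact Or.inr (Or.inr (Or.inr (Or.inr (Or.inl ⟨h0, h1, h4, by simp [kd, h0, h1, h2, h3, h4]⟩))))
    · exact Or.inr (Or.inr (Or.inr (Or.inr (Or.inr ⟨⟨v, h0, h1, h2, h3, h4⟩, rfl,
        by simp [kd, h0, h1, h2, h3, h4]⟩))))
  refine hardV2 (ι := ι) ⟨b, bw, bz, b1, b2, Eb⟩ md kd (fun x y h => ?_) (fun x y hxy => ?_)
    fun k hk => ?_
  · rcases fo x with ⟨e, k⟩ | ⟨e, k⟩ | ⟨e, k⟩ | ⟨e, k⟩ | ⟨-, -, e, k⟩ | ⟨i, e, k⟩ <;>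
      rcases fo y with ⟨e', k'⟩ | ⟨e', k'⟩ | ⟨e', k'⟩ | ⟨e', k'⟩ | ⟨-, -, e', k'⟩ | ⟨i', e', k'⟩ <;>
      rw [k, k'] at h <;>
      first
      | exact e.trans e'.symm
      | exact hE _ _ e e'
      | (cases h; done)
      | (cases h; exact e.trans e'.symm)
  · have ns : ∀ x y, (x ≠ w0 ∧ x ≠ z ∧ ¬ E x) → (y ≠ w0 ∧ y ≠ z ∧ ¬ E y) → ¬ H.Adj x y :=
      fun x y ⟨h1, h2, h5⟩ ⟨h3, h4, h6⟩ h =>
        (ind x y h1 h2 h3 h4 h).elim (fun h => h5 h.1) fun h => h6 h.1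
    have eb : ∀ x y, E x → x ≠ w0 → x ≠ z → (y ≠ w0 ∧ y ≠ z ∧ ¬ E y) →
        (H.Adj x y ↔ md ≠ 2 ∧ y = b) := fun x y h1 h2 h3 ⟨h4, h5, h6⟩ => by
        constructor
        · intro h
          rcases ind x y h2 h3 h4 h5 h with ⟨-, h'⟩ | ⟨h', -⟩
          · subst h'; exact ⟨(hEb x h1).1 h, rfl⟩
          · exact absurd h' h6
        · rintro ⟨h, rfl⟩
          exact (hEb x h1).2 h
    have g1 : ∀ x, x = u1 → x ≠ w0 ∧ x ≠ z ∧ ¬ E x := fun x h => h ▸ ⟨u1w, u1z, E1⟩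
    have g2 : ∀ x, x = u2 → x ≠ w0 ∧ x ≠ z ∧ ¬ E x := fun x h => h ▸ ⟨u2w, u2z, E2⟩
    have g3 : ∀ x, ∀ i : ι, x = i.1 → x ≠ w0 ∧ x ≠ z ∧ ¬ E x := fun x i h =>
      h ▸ ⟨i.2.1, i.2.2.1, i.2.2.2.2.2⟩
    rcases fo x with ⟨e, k⟩ | ⟨e, k⟩ | ⟨e, k⟩ | ⟨e, k⟩ | ⟨n1, n2, e, k⟩ | ⟨i, e, k⟩ <;>
      rcases fo y with ⟨e', k'⟩ | ⟨e', k'⟩ | ⟨e', k'⟩ | ⟨e', k'⟩ | ⟨n1', n2', e', k'⟩ |
        ⟨i', e', k'⟩ <;> rw [k, k'] <;>
      first
      | exact absurd (e.trans e'.symm) hxy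
      | exact iff_of_true (e ▸ hw y (e ▸ hxy.symm)) trivial
      | exact iff_of_true (e' ▸ (hw x (e' ▸ hxy)).symm) trivial
      | exact iff_of_true (e ▸ hz y (e ▸ hxy.symm) (e' ▸ E1)) trivial
      | exact iff_of_true (e ▸ hz y (e ▸ hxy.symm) (e' ▸ E2)) trivial
      | exact iff_of_true (e ▸ hz y (e ▸ hxy.symm) (e' ▸ i'.2.2.2.2.2)) trivial
      | exact iff_of_true (e' ▸ (hz x (e' ▸ hxy) (e ▸ E1)).symm) trivial
      | exact iff_of_true (e' ▸ (hz x (e' ▸ hxy) (e ▸ E2)).symm) trivial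
      | exact iff_of_true (e' ▸ (hz x (e' ▸ hxy) (e ▸ i.2.2.2.2.2)).symm) trivial
      | exact (e ▸ hzE y e')
      | exact (H.adj_comm _ _).trans (e' ▸ hzE x e)
      | exact absurd (hE _ _ e e') hxy
      | exact iff_of_false (ns x y (by first | exact g1 x e | exact g2 x e | exact g3 x i e)
          (by first | exact g1 y e' | exact g2 y e' | exact g3 y i' e')) id
      | exact iff_of_false (fun h => b1 ((((eb x y e n1 n2 (g1 y e')).1 h).2).symm.trans e')) id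
      | exact iff_of_false (fun h => b2 ((((eb x y e n1 n2 (g2 y e')).1 h).2).symm.trans e')) id
      | exact iff_of_false (fun h => b1 ((((eb y x e' n1' n2' (g1 x e)).1 h.symm).2).symm.trans e)) id
      | exact iff_of_false (fun h => b2 ((((eb y x e' n1' n2' (g2 x e)).1 h.symm).2).symm.trans e)) id
      | exact (eb x y e n1 n2 (g3 y i' e')).trans (and_congr Iff.rfl
          ⟨fun h => Subtype.ext (e'.symm.trans h), fun h => e'.trans (congrArg Subtype.val h)⟩)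
      | exact (H.adj_comm _ _).trans ((eb y x e' n1' n2' (g3 x i e)).trans (and_congr Iff.rfl
          ⟨fun h => Subtype.ext (e.symm.trans h), fun h => e.trans (congrArg Subtype.val h)⟩))
  · rcases k with _ | _ | _ | _ | i | _
    · exact ⟨w0, by simp [kd]⟩
    · exact ⟨z, by simp [kd, zw]⟩
    · exact ⟨u1, by simp [kd, u1w, u1z]⟩
    · exact ⟨u2, by simp [kd, u2w, u2z, u12]⟩
    · obtain ⟨i, h1, h2, h3, h4, h5⟩ := i
      exact ⟨i, by simp [kd, h1, h2, h3, h4, h5]⟩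
    · exact absurd rfl hk

/-- Two universal vertices. -/
theorem cone2 (hm : 6 ≤ m) {w1 w2 : Fin m} (hw1 : Univ H w1) (hw2 : Univ H w2) (h12 : w1 ≠ w2)
    (h : ¬ (H.induce ({w1, w2} : Set (Fin m))ᶜ).Connected) : W2Hard (Con₁ H) := by
  classical
  have cN : (Finset.univ.filter fun v : Fin m => v ≠ w1 ∧ v ≠ w2).card = m - 2 := by
    have : (Finset.univ.filter fun v : Fin m => v ≠ w1 ∧ v ≠ w2) =
        (Finset.univ.erase w1).erase w2 := by ext v; simp; tauto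
    rw [this, Finset.card_erase_of_mem (by simp [h12.symm]), Finset.card_erase_of_mem (by simp)]
    simp; omega
  obtain ⟨x0, hx0⟩ : (Finset.univ.filter fun v : Fin m => v ≠ w1 ∧ v ≠ w2).Nonempty := by
    rw [← Finset.card_pos]; omega
  obtain ⟨P, h1, ⟨p, hp, hp'⟩, q, hq, hq'⟩ := not_conn (H := H) (U := {w1, w2})
    ⟨x0, by simpa using hx0⟩ h
  simp only [Set.mem_insert_iff, Set.mem_singleton_iff, not_or] at h1 hp hq
  by_cases he : ∀ a b, ∃ c d, c ≠ w1 ∧ c ≠ w2 ∧ d ≠ w1 ∧ d ≠ w2 ∧ H.Adj c d ∧ ¬ (c = a ∧ d = b) ∧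
      ¬ (c = b ∧ d = a)
  · exact hardA hw1 hw2 h12 hp.1 hp.2 (t := q) (fun e => hq' (e ▸ hp')) hq.1 hq.2
      (fun e => hq' ((h1 p q hp hq e).1 hp')) (fun v hv1 hv2 e1 e2 =>
        hq' ((h1 q v hq ⟨hv1, hv2⟩ e2).2 ((h1 p v hp ⟨hv1, hv2⟩ e1).1 hp'))) he
  push Not at he
  obtain ⟨a, b, he⟩ := he
  have he' : ∀ c d, c ≠ w1 → c ≠ w2 → d ≠ w1 → d ≠ w2 → H.Adj c d → (c = a ∧ d = b) ∨
      (c = b ∧ d = a) := fun c d e1 e2 e3 e4 e5 => by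
    by_contra e
    rw [not_or] at e
    exact e.2 ⟨(he c d e1 e2 e3 e4 e5 fun e6 e7 => e.1 ⟨e6, e7⟩).1, (he c d e1 e2 e3 e4 e5
      fun e6 e7 => e.1 ⟨e6, e7⟩).2⟩
  by_cases hno : ∃ x y, x ≠ w1 ∧ x ≠ w2 ∧ y ≠ w1 ∧ y ≠ w2 ∧ H.Adj x y
  · obtain ⟨x, y, x1, x2, y1, y2, hxy⟩ := hno
    have cN' : (((Finset.univ.filter fun v : Fin m => v ≠ w1 ∧ v ≠ w2).erase x).erase y).card =
        m - 4 := by
      rw [Finset.card_erase_of_mem (by simp [y1, y2, hxy.ne']), Finset.card_erase_of_mem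
        (by simp [x1, x2]), cN]
      omega
    obtain ⟨u1, hu1, u2, hu2, h12'⟩ := Finset.one_lt_card.1 (by omega : 1 < (((Finset.univ.filter
      fun v : Fin m => v ≠ w1 ∧ v ≠ w2).erase x).erase y).card)
    simp only [Finset.mem_erase, Finset.mem_filter, Finset.mem_univ, true_and] at hu1 hu2
    refine hardV2' (w0 := w1) (z := w2) (u1 := u1) (u2 := u2) (b := y) (E := fun v => v = x)
      (fun _ _ h h' => h.trans h'.symm) h12.symm hu1.2.2.1 hu1.2.2.2 hu2.2.2.1 hu2.2.2.2 h12'.symm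
      y1 y2 (Ne.symm hu1.1) (Ne.symm hu2.1) (Ne.symm x1) (Ne.symm x2) hu1.2.1 hu2.2.1 hxy.ne' 0 hw1
      (fun v h _ => hw2 v h) (fun v h => iff_of_true (h ▸ hw2 x x2) rfl)
      (fun v h => iff_of_true (h ▸ hxy) (by decide)) fun p q p1 p2 q1 q2 h => ?_
    have A := he' x y x1 x2 y1 y2 hxy
    have B := he' p q p1 p2 q1 q2 h
    rcases A with ⟨rfl, rfl⟩ | ⟨rfl, rfl⟩ <;> rcases B with ⟨rfl, rfl⟩ | ⟨rfl, rfl⟩ <;> simp
  · obtain ⟨u1, hu1, u2, hu2, b', hb', h12', h13, h23⟩ := Finset.two_lt_card.1 (by omega : 2 <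
      (Finset.univ.filter fun v : Fin m => v ≠ w1 ∧ v ≠ w2).card)
    simp only [Finset.mem_filter, Finset.mem_univ, true_and] at hu1 hu2 hb'
    exact hardV2' (w0 := w1) (z := w2) (u1 := u1) (u2 := u2) (b := b') (E := fun _ => False)
      (fun _ _ h _ => h.elim) h12.symm hu1.1 hu1.2 hu2.1 hu2.2 h12'.symm
      hb'.1 hb'.2 h13.symm h23.symm id id id id id 0 hw1
      (fun v h _ => hw2 v h) (fun v h => h.elim) (fun v h => h.elim) fun p q p1 p2 q1 q2 h =>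
        (hno ⟨p, q, p1, p2, q1, q2, h⟩).elim

end Pool.Agent.L0h77.HC
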