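import Pool.Agent.L0h77.HC.Cone1

/-! One universal vertex, no connectivity outside it. -/

namespace Pool.Agent.L0h77.HC

open Pool.Agent.H22.CT SimpleGraph Function

variable {m : ℕ} {H : SimpleGraph (Fin m)}

theorem card_le_sub {k : ℕ} (S R : Finset (Fin m)) (h : Disjoint S R) (hk : k ≤ R.card) :
    S.card + k ≤ m := by
  have := Finset.card_le_card (Finset.subset_univ (S ∪ R))
  rw [Finset.card_union_of_disjoint h, Finset.card_univ, Fintype.card_fin] at this
  omega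

/-- All vertices outside `w` lie in triangles outside `w`. -/
theorem coneT3 {w : Fin m} (hw : Univ H w) (dc : Disc H w)
    (tri : ∀ v, v ≠ w → ∃ a b, a ≠ w ∧ b ≠ w ∧ H.Adj v a ∧ H.Adj v b ∧ H.Adj a b) :
    W2Hard (Con₁ H) := by
  classical
  obtain ⟨p0, hp0⟩ : ∃ p, p ≠ w := ⟨_, dc.choose_spec.2.1.choose_spec.1⟩
  have hex : ∃ n, ∃ X : Finset (Fin m), X.Nonempty ∧ Cl H w X ∧ X.card = n :=
    ⟨_, Finset.univ.erase w, ⟨p0, by simp [hp0]⟩, ⟨fun v hv => (Finset.mem_erase.1 hv).1,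
      fun v _ v' h _ => by simp [h]⟩, rfl⟩
  obtain ⟨X0, ⟨x0, hx0⟩, hcl, hcard⟩ := Nat.find_spec hex
  have hmin : ∀ X : Finset (Fin m), X.Nonempty → Cl H w X → X0.card ≤ X.card := fun X h1 h2 => by
    rw [hcard]; exact Nat.find_min' hex ⟨X, h1, h2, rfl⟩
  have dsub : ∀ X : Finset (Fin m), Cl H w X → ∀ u ∈ X,
      (Finset.univ.filter fun v => H.Adj u v) ⊆ insert w (X.erase u) := fun X hX u hu v hv => by
    simp only [Finset.mem_filter, Finset.mem_univ, true_and] at hv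
    rw [Finset.mem_insert, Finset.mem_erase]
    by_cases e : v = w
    · exact Or.inl e
    · exact Or.inr ⟨hv.ne', hX.2 u hu v e hv⟩
  have cins : ∀ X : Finset (Fin m), Cl H w X → ∀ u ∈ X, (insert w (X.erase u)).card = X.card :=
    fun X hX u hu => by
      have := Finset.card_pos.2 ⟨u, hu⟩
      rw [Finset.card_insert_of_notMem (fun h => hX.1 w (Finset.mem_of_mem_erase h) rfl),
        Finset.card_erase_of_mem hu]
      omega
  by_cases h1 : ∃ u ∈ X0, (Finset.univ.filter fun v => H.Adj u v).card < X0.card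
  · obtain ⟨u, hu, h1⟩ := h1
    obtain ⟨t, ht1, ht2, ht3, ht4⟩ := dc.far u (hcl.1 u hu)
    exact hardB3 hw (hcl.1 u hu) ht1 ht2 ht3 ht4 tri (fun X a b => (h1.trans_le (hmin X a b)).le)
      (Or.inl fun X a b => h1.trans_le (hmin X a b))
  push Not at h1
  have nb : ∀ u ∈ X0, (Finset.univ.filter fun v => H.Adj u v) = insert w (X0.erase u) :=
    fun u hu => Finset.eq_of_subset_of_card_le (dsub X0 hcl u hu)
      (by rw [cins X0 hcl u hu]; exact h1 u hu)
  have nb' : ∀ u ∈ X0, ∀ v ∈ X0, u ≠ v → H.Adj u v := fun u hu v hv h => by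
    have : v ∈ Finset.univ.filter fun v => H.Adj u v := by
      rw [nb u hu]; simp [hv, h.symm]
    simpa using this
  have dX0 : ∀ u ∈ X0, (Finset.univ.filter fun v => H.Adj u v).card = X0.card := fun u hu => by
    rw [nb u hu, cins X0 hcl u hu]
  obtain ⟨t, ht1, ht2, ht3, ht4⟩ := dc.far x0 (hcl.1 x0 hx0)
  by_cases h2 : ∃ v0, v0 ≠ w ∧ ∀ X : Finset (Fin m), Cl H w X → v0 ∈ X →
        (∀ a ∈ X, ∀ b ∈ X, a ≠ b → H.Adj a b) → X.card ≠ X0.card
  · refine hardB3 hw (hcl.1 x0 hx0) ht1 ht2 ht3 ht4 tri (fun X a b => ?_) (Or.inr ⟨?_, ?_⟩)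
    · rw [dX0 x0 hx0]; exact hmin X a b
    · intro a b ha hb e1 e2 hab
      exact nb' a (hcl.2 x0 hx0 a ha e1) b (hcl.2 x0 hx0 b hb e2) hab
    · rw [dX0 x0 hx0]; exact h2
  push Not at h2
  refine hardB4 hw (hcl.1 x0 hx0) ht1 ht2 ht3 (fun a b c ha hb hc hac h3 h4 => ?_) X0.card
    (fun v hv => ?_) ?_
  · obtain ⟨X, k1, k2, k3, -⟩ := h2 a ha
    exact k3 a k2 c (k1.2 b (k1.2 a k2 b hb h3) c hc h4) hac
  · obtain ⟨X, k1, k2, k3, k4⟩ := h2 v hv
    rw [← k4, ← cins X k1 v k2]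
    refine congrArg _ (Finset.Subset.antisymm (dsub X k1 v k2) fun x hx => ?_)
    rw [Finset.mem_insert, Finset.mem_erase] at hx
    rcases hx with rfl | ⟨hx, hx'⟩
    · simpa using (hw v hv).symm
    · simpa using k3 v k2 x hx' hx.symm
  · obtain ⟨a, b, ha, hb, k1, k2, k3⟩ := tri x0 (hcl.1 x0 hx0)
    have : ({x0, a, b} : Finset (Fin m)).card = 3 := Finset.card_eq_three.2
      ⟨x0, a, b, k1.ne, k2.ne, k3.ne, rfl⟩
    rw [← this]
    refine Finset.card_le_card fun x hx => ?_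
    simp only [Finset.mem_insert, Finset.mem_singleton] at hx
    rcases hx with rfl | rfl | rfl
    · exact hx0
    · exact hcl.2 _ hx0 _ ha k1
    · exact hcl.2 _ hx0 _ hb k2

/-- There is a triangle outside `w`. -/
theorem coneT {w : Fin m} (hm : 6 ≤ m) (hw : Univ H w) (dc : Disc H w)
    (tri : ∃ a b c, a ≠ w ∧ b ≠ w ∧ c ≠ w ∧ H.Adj a b ∧ H.Adj a c ∧ H.Adj b c) :
    W2Hard (Con₁ H) := by
  classical
  obtain ⟨a, b, c, haw, hbw, hcw, hab, hac, hbc⟩ := tri
  have tri' : ∃ a b c, a ≠ w ∧ b ≠ w ∧ c ≠ w ∧ H.Adj a b ∧ H.Adj a c ∧ H.Adj b c :=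
    ⟨a, b, c, haw, hbw, hcw, hab, hac, hbc⟩
  set I : Finset (Fin m) := Finset.univ.filter fun v => v ≠ w ∧ ∀ v', v' ≠ w → ¬ H.Adj v v' with hI
  have mI : ∀ v, v ∈ I ↔ v ≠ w ∧ ∀ v', v' ≠ w → ¬ H.Adj v v' := fun v => by simp [hI]
  have c4 : 4 ≤ ({w, a, b, c} : Finset (Fin m)).card := by
    rw [Finset.card_insert_of_notMem (by simp [haw.symm, hbw.symm, hcw.symm]),
      Finset.card_eq_three.2 ⟨a, b, c, hab.ne, hac.ne, hbc.ne, rfl⟩]
  rcases Nat.lt_trichotomy I.card 1 with h | h | h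
  · have I0 : I = ∅ := Finset.card_eq_zero.1 (by omega)
    by_cases h1 : ∃ u, u ≠ w ∧ ∀ a b, a ≠ w → b ≠ w → H.Adj u a → H.Adj u b → ¬ H.Adj a b
    · obtain ⟨u, hu, h1⟩ := h1
      obtain ⟨t, ht1, ht2, ht3, ht4⟩ := dc.far u hu
      refine hardB1 hw hu ht1 ht2 ht3 ht4 h1 tri' dc ?_
      rw [← hI, I0, Finset.card_empty]
      have := card_le_sub (k := 3) (Finset.univ.filter fun v => v ≠ w ∧ H.Adj t v) {w, t, u} ?_ ?_
      · omega
      · rw [Finset.disjoint_left]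
        intro x hx hx'
        simp only [Finset.mem_filter, Finset.mem_univ, true_and, Finset.mem_insert,
          Finset.mem_singleton] at hx hx'
        rcases hx' with h' | h' | h'
        · exact hx.1 h'
        · exact H.irrefl (h' ▸ hx.2)
        · exact ht3 (h' ▸ hx.2).symm
      · rw [Finset.card_eq_three.2 ⟨w, t, u, ht1.symm, hu.symm, ht2, rfl⟩]
    · push Not at h1
      exact coneT3 hw dc fun v hv => h1 v hv
  · obtain ⟨u, hu⟩ := Finset.card_eq_one.1 h
    have huI : u ∈ I := by rw [hu]; simp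
    rw [mI] at huI
    by_cases h1 : ∃ t s, t ≠ w ∧ t ≠ u ∧ s ≠ w ∧ s ≠ u ∧ t ≠ s ∧ ¬ H.Adj t s
    · obtain ⟨t, s, htw, htu, hsw, hsu, hts, nts⟩ := h1
      refine hardB1 hw huI.1 htw htu (huI.2 t htw) (fun v hv h => absurd h (huI.2 v hv))
        (fun a b ha hb h => absurd h (huI.2 a ha)) tri' dc ?_
      rw [← hI, h]
      have := card_le_sub (k := 4) (Finset.univ.filter fun v => v ≠ w ∧ H.Adj t v) {w, t, u, s} ?_ ?_
      · omega
      · rw [Finset.disjoint_left]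
        intro x hx hx'
        simp only [Finset.mem_filter, Finset.mem_univ, true_and, Finset.mem_insert,
          Finset.mem_singleton] at hx hx'
        rcases hx' with h' | h' | h' | h'
        · exact hx.1 h'
        · exact H.irrefl (h' ▸ hx.2)
        · exact huI.2 t htw (h' ▸ hx.2).symm
        · exact nts (h' ▸ hx.2)
      · rw [Finset.card_insert_of_notMem (by simp [htw.symm, huI.1.symm, hsw.symm]),
          Finset.card_eq_three.2 ⟨t, u, s, htu, hts, hsu.symm, rfl⟩]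
    · push Not at h1
      have hau : a ≠ u := fun e => huI.2 b hbw (e ▸ hab)
      have hbu : b ≠ u := fun e => huI.2 a haw (e ▸ hab.symm)
      exact hardB2 hw huI.1 haw hau hbw hbu hab.ne huI.2 (fun x y h1' h2 h3 h4 h5 =>
        h1 x y h1' h2 h3 h4 h5) hm
  · obtain ⟨u, hu, t, ht, hut⟩ := Finset.one_lt_card.1 h
    rw [mI] at hu ht
    refine hardB1 hw hu.1 ht.1 hut.symm (hu.2 t ht.1) (fun v hv h => absurd h (hu.2 v hv))
        (fun a b ha hb h => absurd h (hu.2 a ha)) tri' dc ?_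
    have e0 : (Finset.univ.filter fun v => v ≠ w ∧ H.Adj t v) = ∅ :=
      Finset.filter_eq_empty_iff.2 fun v _ h => ht.2 v h.1 h.2
    rw [← hI, e0, Finset.card_empty]
    have := card_le_sub (k := 4) I {w, a, b, c} ?_ c4
    · omega
    · rw [Finset.disjoint_left]
      intro x hx hx'
      rw [mI] at hx
      simp only [Finset.mem_insert, Finset.mem_singleton] at hx'
      rcases hx' with h' | h' | h' | h'
      · exact hx.1 h'
      · exact hx.2 b hbw (h' ▸ hab)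
      · exact hx.2 a haw (h' ▸ hab.symm)
      · exact hx.2 a haw (h' ▸ hac.symm)

end Pool.Agent.L0h77.HC
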