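import Pool.Agent.L0h77.HC.Cone2

/-! One universal vertex, no connectivity and no triangle outside it. -/

namespace Pool.Agent.L0h77.HC

open Pool.Agent.H22.CT SimpleGraph Function

variable {m : ℕ} {H : SimpleGraph (Fin m)}

/-- At most one edge outside `w`. -/
theorem hardV1' (hm : 6 ≤ m) {w u1 u2 b : Fin m} {E : Fin m → Prop} (hE : ∀ x y, E x → E y → x = y)
    (u1w : u1 ≠ w) (u2w : u2 ≠ w) (u12 : u1 ≠ u2) (bw : b ≠ w) (b1 : b ≠ u1) (b2 : b ≠ u2)
    (Ew : ¬ E w) (E1 : ¬ E u1) (E2 : ¬ E u2) (Eb : ¬ E b) (hw : Univ H w)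
    (ed : ∀ x y, x ≠ w → y ≠ w → (H.Adj x y ↔ (E x ∧ y = b) ∨ (E y ∧ x = b))) :
    W2Hard (Con₁ H) := by
  classical
  let ι := {v : Fin m // v ≠ w ∧ v ≠ u1 ∧ v ≠ u2 ∧ ¬ E v}
  have cE : (Finset.univ.filter E).card ≤ 1 := Finset.card_le_one.2 fun x hx y hy =>
    hE x y (by simpa using hx) (by simpa using hy)
  have cI : (Finset.univ.filter fun v : Fin m => v ≠ w ∧ ¬ E v).card = Fintype.card ι + 2 := by
    rw [Fintype.card_subtype]
    have e : (Finset.univ.filter fun v : Fin m => v ≠ w ∧ ¬ E v) = insert u1 (insert u2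
        (Finset.univ.filter fun v : Fin m => v ≠ w ∧ v ≠ u1 ∧ v ≠ u2 ∧ ¬ E v)) := by
      ext v
      simp only [Finset.mem_filter, Finset.mem_univ, true_and, Finset.mem_insert]
      constructor
      · intro h
        by_cases h1 : v = u1
        · exact Or.inl h1
        by_cases h2 : v = u2
        · exact Or.inr (Or.inl h2)
        · exact Or.inr (Or.inr ⟨h.1, h1, h2, h.2⟩)
      · rintro (rfl | rfl | h)
        · exact ⟨u1w, E1⟩
        · exact ⟨u2w, E2⟩
        · exact ⟨h.1, h.2.2.2⟩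
    rw [e, Finset.card_insert_of_notMem (by simp [u12]), Finset.card_insert_of_notMem (by simp)]
  have cI' : m ≤ (Finset.univ.filter fun v : Fin m => v ≠ w ∧ ¬ E v).card + 2 := by
    have e : (Finset.univ : Finset (Fin m)) ⊆ insert w ((Finset.univ.filter E) ∪
      (Finset.univ.filter fun v : Fin m => v ≠ w ∧ ¬ E v)) := fun v _ => by
        simp only [Finset.mem_insert, Finset.mem_union, Finset.mem_filter, Finset.mem_univ,
          true_and]
        tauto
    have h1 := Finset.card_le_card e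
    have h2 := Finset.card_insert_le w ((Finset.univ.filter E) ∪
      (Finset.univ.filter fun v : Fin m => v ≠ w ∧ ¬ E v))
    have h3 := Finset.card_union_le (Finset.univ.filter E)
      (Finset.univ.filter fun v : Fin m => v ≠ w ∧ ¬ E v)
    rw [Finset.card_univ, Fintype.card_fin] at h1
    omega
  let i0 : ι := ⟨b, bw, b1, b2, Eb⟩
  obtain ⟨i1, hi1⟩ : ∃ i1 : ι, i1 ≠ i0 := Fintype.exists_ne_of_one_lt_card (by omega) i0
  have iso : ∀ x, x ≠ w → ¬ E x → x ≠ b → ∀ v, v ≠ w → ¬ H.Adj x v := fun x h1 h2 h3 v h4 h => by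
    rw [ed x v h1 h4] at h
    exact h.elim (fun h => h2 h.1) fun h => h3 h.2
  refine hardV1 (ι := ι) (i0 := i0) (i1 := i1) hi1.symm hw u1w u2w u12 (iso u1 u1w E1 b1.symm)
    (iso u2 u2w E2 b2.symm) (fun v => if h : v ≠ w ∧ v ≠ u1 ∧ v ≠ u2 ∧ ¬ E v then ⟨v, h⟩ else i0)
    (fun x y x1 x2 x3 y1 y2 y3 hxy => ?_)
    (I := Finset.univ.filter fun v : Fin m => v ≠ w ∧ ¬ E v) cI.ge (fun v hv => ?_)
    fun x hx y hy h => ?_
  · rw [ed x y x1 y1]
    by_cases ex : E x
    · rw [dif_neg (fun h => h.2.2.2 ex)]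
      by_cases ey : E y
      · exact absurd (hE x y ex ey) hxy
      · rw [dif_pos ⟨y1, y2, y3, ey⟩]
        constructor
        · rintro (⟨-, rfl⟩ | ⟨h, -⟩)
          · rfl
          · exact absurd h ey
        · exact fun h => Or.inl ⟨ex, (congrArg Subtype.val h).symm⟩
    · rw [dif_pos ⟨x1, x2, x3, ex⟩]
      by_cases ey : E y
      · rw [dif_neg (fun h => h.2.2.2 ey)]
        constructor
        · rintro (⟨h, -⟩ | ⟨-, rfl⟩)
          · exact absurd h ex
          · rfl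
        · exact fun h => Or.inr ⟨ey, congrArg Subtype.val h⟩
      · rw [dif_pos ⟨y1, y2, y3, ey⟩]
        exact iff_of_false (fun h => h.elim (fun h => ex h.1) fun h => ey h.1)
          fun h => hxy (congrArg Subtype.val h)
  · simp only [Finset.mem_filter, Finset.mem_univ, true_and] at hv
    exact hv.1
  · simp only [Finset.mem_filter, Finset.mem_univ, true_and] at hx hy
    rw [ed x y hx.1 hy.1] at h
    exact h.elim (fun h => hx.2 h.1) fun h => hy.2 h.1

/-- There is no triangle outside `w`. -/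
theorem coneF {w : Fin m} (hm : 6 ≤ m) (hw : Univ H w) (dc : Disc H w)
    (tf : ∀ a b c, a ≠ w → b ≠ w → c ≠ w → H.Adj a b → H.Adj a c → ¬ H.Adj b c) :
    W2Hard (Con₁ H) := by
  classical
  by_cases hY : ∃ Y : Fin m → Prop, (∀ v, Y v → v ≠ w) ∧
      (∀ v, Y v → ∃ a b, Y a ∧ Y b ∧ a ≠ b ∧ H.Adj v a ∧ H.Adj v b) ∧ ∃ v, Y v
  · obtain ⟨Y, h1, h2, x, hx⟩ := hY
    obtain ⟨t, ht1, ht2, ht3, ht4⟩ := dc.far x (h1 x hx)
    exact hardC hw (h1 x hx) ht1 ht2 ht3 ht4 tf Y h1 h2 ⟨x, hx⟩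
  have c4 : ∀ a b c d, a ≠ w → b ≠ w → c ≠ w → d ≠ w → a ≠ c → b ≠ d → H.Adj a b → H.Adj b c →
      H.Adj c d → ¬ H.Adj d a := fun a b c d ha hb hc hd h1 h2 h3 h4 h5 h6 => by
    refine hY ⟨fun v => v = a ∨ v = b ∨ v = c ∨ v = d, ?_, ?_, a, Or.inl rfl⟩
    · rintro v (rfl | rfl | rfl | rfl) <;> assumption
    · rintro v (rfl | rfl | rfl | rfl)
      · exact ⟨b, d, by simp, by simp, h2, h3, h6.symm⟩
      · exact ⟨a, c, by simp, by simp, h1, h3.symm, h4⟩
      · exact ⟨b, d, by simp, by simp, h2, h4.symm, h5⟩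
      · exact ⟨a, c, by simp, by simp, h1, h6, h5.symm⟩
  by_cases h2 : ∃ z a b, z ≠ w ∧ a ≠ w ∧ b ≠ w ∧ a ≠ b ∧ H.Adj z a ∧ H.Adj z b
  · obtain ⟨u, z, huw, hzw, huz, leaf, a, haw, hau, hza⟩ : ∃ u z, u ≠ w ∧ z ≠ w ∧ H.Adj u z ∧
        (∀ v, v ≠ w → H.Adj u v → v = z) ∧ ∃ a, a ≠ w ∧ a ≠ u ∧ H.Adj z a := by
      by_contra hcon
      refine hY ⟨fun v => v ≠ w ∧ ∃ z, z ≠ w ∧ (z = v ∨ H.Adj v z) ∧ ∃ a b, a ≠ w ∧ b ≠ w ∧
        a ≠ b ∧ H.Adj z a ∧ H.Adj z b, fun v h => h.1, ?_, ?_⟩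
      · rintro v ⟨hv, z, hz, hz', a, b, ha, hb, hab, h1, h2⟩
        have two : ∀ v, v ≠ w → (∃ a b, a ≠ w ∧ b ≠ w ∧ a ≠ b ∧ H.Adj v a ∧ H.Adj v b) →
            ∃ a b, (a ≠ w ∧ ∃ z, z ≠ w ∧ (z = a ∨ H.Adj a z) ∧ ∃ a b, a ≠ w ∧ b ≠ w ∧
              a ≠ b ∧ H.Adj z a ∧ H.Adj z b) ∧ (b ≠ w ∧ ∃ z, z ≠ w ∧ (z = b ∨ H.Adj b z) ∧
              ∃ a b, a ≠ w ∧ b ≠ w ∧ a ≠ b ∧ H.Adj z a ∧ H.Adj z b) ∧ a ≠ b ∧
              H.Adj v a ∧ H.Adj v b := fun v hv ⟨a, b, ha, hb, hab, h1, h2⟩ =>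
          ⟨a, b, ⟨ha, v, hv, Or.inr h1.symm, a, b, ha, hb, hab, h1, h2⟩,
            ⟨hb, v, hv, Or.inr h2.symm, a, b, ha, hb, hab, h1, h2⟩, hab, h1, h2⟩
        rcases hz' with rfl | hz'
        · exact two z hv ⟨a, b, ha, hb, hab, h1, h2⟩
        · refine two v hv ?_
          by_contra h3
          refine hcon ⟨v, z, hv, hz, hz', fun x hx h4 => ?_, ?_⟩
          · by_contra h5
            exact h3 ⟨x, z, hx, hz, h5, h4, hz'⟩
          · by_cases e : a = v
            · exact ⟨b, hb, fun e' => hab (e.trans e'.symm), h2⟩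
            · exact ⟨a, ha, e, h1⟩
      · obtain ⟨z, a, b, hz, ha, hb, hab, h1, h2⟩ := h2
        exact ⟨z, hz, z, hz, Or.inl rfl, a, b, ha, hb, hab, h1, h2⟩
    have haz : a ≠ z := hza.ne'
    obtain ⟨zt, hzt1, hzt2, hzt3, -⟩ := dc.far z hzw
    by_cases hs : ∀ p q c, p ≠ w → q ≠ w → c ≠ w → (p = q ∨ H.Adj p q) → c ≠ p → c ≠ q →
        ∃ v, v ≠ w ∧ v ≠ p ∧ v ≠ q ∧ v ≠ c ∧ ¬ H.Adj c v
    · have cN : (Finset.univ.filter fun v : Fin m => v ≠ w ∧ v ≠ u ∧ v ≠ z).card = m - 3 := by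
        have : (Finset.univ.filter fun v : Fin m => v ≠ w ∧ v ≠ u ∧ v ≠ z) =
            ((Finset.univ.erase w).erase u).erase z := by ext v; simp; tauto
        rw [this, Finset.card_erase_of_mem (by simp [hzw, huz.ne']),
          Finset.card_erase_of_mem (by simp [huw]), Finset.card_erase_of_mem (by simp)]
        simp; omega
      obtain ⟨t1, ht1, t2, ht2, t3, ht3, h12, h13, h23⟩ := Finset.two_lt_card.1 (by omega : 2 <
        (Finset.univ.filter fun v : Fin m => v ≠ w ∧ v ≠ u ∧ v ≠ z).card)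
      simp only [Finset.mem_filter, Finset.mem_univ, true_and] at ht1 ht2 ht3
      have hzt : ∃ y, y ≠ w ∧ y ≠ u ∧ y ≠ z ∧ ¬ H.Adj z y :=
        ⟨zt, hzt1, fun e => hzt3 (e ▸ huz.symm), hzt2, hzt3⟩
      by_cases c1 : (Finset.univ.filter fun v => v ≠ w ∧ v ≠ u ∧ v ≠ z ∧ H.Adj z v).card = 1
      · refine hardD huz (T := fun v => v = t1 ∨ v = t2) hw huw hzw leaf tf c4 ?_
          ⟨t1, Or.inl rfl⟩ hs ⟨a, haw, hau, haz, hza⟩ ?_
          ⟨t3, ht3.1, ht3.2.1, ht3.2.2, fun h => h.elim (fun h => h13 h.symm) fun h => h23 h.symm⟩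
          hzt
        · rintro t (rfl | rfl) <;> assumption
        · rw [c1]
          refine ne_of_lt (Finset.one_lt_card.2 ⟨t1, ?_, t2, ?_, h12⟩)
          · simp [ht1]
          · simp [ht2]
      · refine hardD huz (T := fun v => v = t1) hw huw hzw leaf tf c4 ?_
          ⟨t1, rfl⟩ hs ⟨a, haw, hau, haz, hza⟩ ?_
          ⟨t3, ht3.1, ht3.2.1, ht3.2.2, fun h => h13 h.symm⟩ hzt
        · rintro t rfl; exact ht1
        · intro e
          refine c1 (e.trans (Finset.card_eq_one.2 ⟨t1, ?_⟩))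
          ext v
          simp only [Finset.mem_filter, Finset.mem_univ, true_and, Finset.mem_singleton]
          constructor
          · exact fun h => h.2.2.2
          · rintro rfl; exact ⟨ht1.1, ht1.2.1, ht1.2.2, rfl⟩
    · push Not at hs
      obtain ⟨p, q, c, hpw, hqw, hcw, hpq, hcp, hcq, hall⟩ := hs
      obtain ⟨P, hP, ⟨x1, hx1, hx1'⟩, x2, hx2, hx2'⟩ := dc
      have oth : ∀ v, v ≠ w → v ≠ p → v ≠ q → (P v ↔ P c) := fun v h1 h2 h3 => by
        by_cases e : v = c
        · rw [e]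
        · exact hP v c h1 hcw (hall v h1 h2 h3 e).symm
      have hPpq : P p ↔ P q := by
        rcases hpq with rfl | h
        · exact Iff.rfl
        · exact hP p q hpw hqw h
      have nP : ¬ (P p ↔ P c) := fun e => by
        have all : ∀ v, v ≠ w → (P v ↔ P c) := fun v h => by
          by_cases h1 : v = p
          · rw [h1]; exact e
          by_cases h2 : v = q
          · rw [h2, ← hPpq]; exact e
          · exact oth v h h1 h2
        exact hx2' ((all x2 hx2).2 ((all x1 hx1).1 hx1'))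
      have np : ∀ v, v ≠ w → v ≠ p → v ≠ q → ¬ H.Adj p v := fun v h1 h2 h3 h4 =>
        nP ((hP p v hpw h1 h4).trans (oth v h1 h2 h3))
      have nq : ∀ v, v ≠ w → v ≠ p → v ≠ q → ¬ H.Adj q v := fun v h1 h2 h3 h4 =>
        nP (hPpq.trans ((hP q v hqw h1 h4).trans (oth v h1 h2 h3)))
      have nn : ∀ x y, x ≠ w → x ≠ p → x ≠ q → x ≠ c → y ≠ w → y ≠ p → y ≠ q → y ≠ c →
          ¬ H.Adj x y := fun x y a1 a2 a3 a4 b1 b2 b3 b4 =>
        tf c x y hcw a1 b1 (hall x a1 a2 a3 a4) (hall y b1 b2 b3 b4)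
      by_cases epq : p = q
      · subst epq
        have cN : (((Finset.univ.erase w).erase c).erase p).card = m - 3 := by
          rw [Finset.card_erase_of_mem (by simp [hpw, hcp.symm]),
            Finset.card_erase_of_mem (by simp [hcw]), Finset.card_erase_of_mem (by simp)]
          simp; omega
        obtain ⟨t1, ht1, t2, ht2, t3, ht3, h12, h13, h23⟩ := Finset.two_lt_card.1 (by omega : 2 <
          (((Finset.univ.erase w).erase c).erase p).card)
        simp only [Finset.mem_erase, Finset.mem_univ, and_true] at ht1 ht2 ht3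
        refine hardV2' (w0 := w) (z := c) (u1 := t1) (u2 := t2) (b := t3) (E := fun v => v = p)
          (fun _ _ h h' => h.trans h'.symm) hcw ht1.2.2 ht1.2.1 ht2.2.2 ht2.2.1 h12.symm ht3.2.2
          ht3.2.1 h13.symm h23.symm hpw.symm hcp ht1.1 ht2.1 ht3.1 2 hw (fun v h1 h2 => ?_)
          (fun v h => ?_) (fun v h => ?_) fun x y a1 a2 b1 b2 h => ?_
        · by_cases h3 : v = w
          · rw [h3]; exact (hw c hcw).symm
          · exact hall v h3 h2 h2 h1
        · exact iff_of_false (fun h' => np c hcw hcp hcp (h ▸ h'.symm)) (by decide)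
        · exact iff_of_false (fun h' => np t3 ht3.2.2 ht3.1 ht3.1 (h ▸ h')) (by simp)
        · exfalso
          by_cases e1 : x = p
          · subst e1; exact np y b1 h.ne' h.ne' h
          by_cases e2 : y = p
          · subst e2; exact np x a1 h.ne h.ne h.symm
          · exact nn x y a1 e1 e1 a2 b1 e2 e2 b2 h
      · have apq : H.Adj p q := hpq.resolve_left epq
        have cN : ((((Finset.univ.erase w).erase c).erase p).erase q).card = m - 4 := by
          rw [Finset.card_erase_of_mem (by simp [hqw, hcq.symm, Ne.symm epq]),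
            Finset.card_erase_of_mem (by simp [hpw, hcp.symm]),
            Finset.card_erase_of_mem (by simp [hcw]), Finset.card_erase_of_mem (by simp)]
          simp; omega
        obtain ⟨t1, ht1, t2, ht2, h12⟩ := Finset.one_lt_card.1 (by omega : 1 <
          ((((Finset.univ.erase w).erase c).erase p).erase q).card)
        simp only [Finset.mem_erase, Finset.mem_univ, and_true] at ht1 ht2
        refine hardR (w := w) (u := t1) (z := c) (x := t2) (t := p) (t' := q) hw ht1.2.2.2 hcw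
          ht2.2.2.2 hpw hqw h12 (hall t1 ht1.2.2.2 ht1.2.1 ht1.1 ht1.2.2.1).symm
          (hall t2 ht2.2.2.2 ht2.2.1 ht2.1 ht2.2.2.1).symm apq
          (fun h => np c hcw hcp hcq h.symm) (fun h => nq c hcw hcp hcq h.symm) hcp hcq
          (fun v h1 h2 h3 h4 => hall v h1 h3 h4 h2) fun x y hx hy h => ?_
        by_cases e1 : x = c
        · exact Or.inl e1
        by_cases e2 : y = c
        · exact Or.inr (Or.inl e2)
        by_cases e3 : x = p
        · by_cases e4 : y = q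
          · exact Or.inr (Or.inr (Or.inl ⟨e3, e4⟩))
          · subst e3; exact absurd h (np y hy h.ne' e4)
        by_cases e4 : x = q
        · by_cases e5 : y = p
          · exact Or.inr (Or.inr (Or.inr ⟨e4, e5⟩))
          · subst e4; exact absurd h (nq y hy e5 h.ne')
        by_cases e5 : y = p
        · subst e5; exact absurd h.symm (np x hx e3 e4)
        by_cases e6 : y = q
        · subst e6; exact absurd h.symm (nq x hx e3 e4)
        · exact absurd h (nn x y hx e3 e4 e1 hy e5 e6 e2)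
  · have dg1 : ∀ v a b, v ≠ w → a ≠ w → b ≠ w → H.Adj v a → H.Adj v b → a = b :=
      fun v a b hv ha hb h1 h3 => by
        by_contra e
        exact h2 ⟨v, a, b, hv, ha, hb, e, h1, h3⟩
    by_cases h3 : ∃ u z, u ≠ w ∧ z ≠ w ∧ H.Adj u z
    · obtain ⟨u, z, huw, hzw, huz⟩ := h3
      by_cases h4 : ∃ t t', t ≠ w ∧ t' ≠ w ∧ H.Adj t t' ∧ t ≠ u ∧ t ≠ z
      · obtain ⟨t, t', htw, htw', htt, htu, htz⟩ := h4
        exact hardE huz htt hw huw hzw htw htw' htu htz dg1 hm
      · have h4' : ∀ t t', t ≠ w → t' ≠ w → H.Adj t t' → t = u ∨ t = z := fun t t' a1 a2 a3 => by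
          by_contra e
          rw [not_or] at e
          exact h4 ⟨t, t', a1, a2, a3, e.1, e.2⟩
        have cN : (((Finset.univ.erase w).erase u).erase z).card = m - 3 := by
          rw [Finset.card_erase_of_mem (by simp [hzw, huz.ne']),
            Finset.card_erase_of_mem (by simp [huw]), Finset.card_erase_of_mem (by simp)]
          simp; omega
        obtain ⟨t1, ht1, t2, ht2, h12⟩ := Finset.one_lt_card.1 (by omega : 1 <
          (((Finset.univ.erase w).erase u).erase z).card)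
        simp only [Finset.mem_erase, Finset.mem_univ, and_true] at ht1 ht2
        refine hardV1' hm (w := w) (u1 := t1) (u2 := t2) (b := u) (E := fun v => v = z)
          (fun _ _ h h' => h.trans h'.symm) ht1.2.2 ht2.2.2 h12 huw (Ne.symm ht1.2.1)
          (Ne.symm ht2.2.1) hzw.symm ht1.1 ht2.1 huz.ne hw fun x y hx hy => ?_
        constructor
        · intro h
          rcases h4' x y hx hy h with rfl | rfl
          · exact Or.inr ⟨dg1 x y z hx hy hzw h huz, rfl⟩
          · exact Or.inl ⟨rfl, dg1 x y u hx hy huw h huz.symm⟩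
        · rintro (⟨rfl, rfl⟩ | ⟨rfl, rfl⟩)
          · exact huz.symm
          · exact huz
    · have cN : (Finset.univ.erase w).card = m - 1 := by
        rw [Finset.card_erase_of_mem (by simp)]; simp
      obtain ⟨t1, ht1, t2, ht2, t3, ht3, h12, h13, h23⟩ := Finset.two_lt_card.1 (by omega : 2 <
        (Finset.univ.erase w).card)
      simp only [Finset.mem_erase, Finset.mem_univ, and_true] at ht1 ht2 ht3
      exact hardV1' hm (w := w) (u1 := t1) (u2 := t2) (b := t3) (E := fun _ => False)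
        (fun _ _ h _ => h.elim) ht1 ht2 h12 ht3 h13.symm h23.symm id id id id hw
        fun x y hx hy => iff_of_false (fun h => h3 ⟨x, y, hx, hy, h⟩)
          fun h => h.elim (fun h => h.1) fun h => h.1

theorem cone1 {w : Fin m} (hm : 6 ≤ m) (hw : Univ H w) (dc : Disc H w) : W2Hard (Con₁ H) := by
  by_cases tri : ∃ a b c, a ≠ w ∧ b ≠ w ∧ c ≠ w ∧ H.Adj a b ∧ H.Adj a c ∧ H.Adj b c
  · exact coneT hm hw dc tri
  · exact coneF hm hw dc fun a b c h1 h2 h3 h4 h5 h6 => tri ⟨a, b, c, h1, h2, h3, h4, h5, h6⟩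

theorem hard_cone (hm : 6 ≤ m) (hc : H.Connected) (h : Cone H) : W2Hard (Con₁ H) := by
  obtain ⟨U, hU, hun, hnc⟩ := h
  have fin : U.Finite := Set.toFinite U
  rcases Nat.lt_or_ge U.ncard 1 with h0 | h0
  · have : U = ∅ := (Set.ncard_eq_zero fin).1 (by omega)
    subst this
    exfalso
    apply hnc
    rw [Set.compl_empty]
    exact (SimpleGraph.induceUnivIso H).connected_iff.2 hc
  rcases Nat.lt_or_ge U.ncard 2 with h1 | h1
  · obtain ⟨w, rfl⟩ := Set.ncard_eq_one.1 (by omega : U.ncard = 1)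
    have hw := hun w rfl
    obtain ⟨P, h2, ⟨p, hp, hp'⟩, q, hq, hq'⟩ := not_conn (H := H) (U := {w})
      (by
        obtain ⟨x, hx⟩ := (Fintype.exists_ne_of_one_lt_card
          (by rw [Fintype.card_fin]; omega) w : ∃ x : Fin m, x ≠ w)
        exact ⟨x, by simpa using hx⟩) hnc
    exact cone1 hm hw ⟨P, fun a b ha hb => h2 a b (by simpa using ha) (by simpa using hb),
      ⟨p, by simpa using hp, hp'⟩, q, by simpa using hq, hq'⟩
  · obtain ⟨w1, w2, h12, rfl⟩ := Set.ncard_eq_two.1 (by omega : U.ncard = 2)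
    exact cone2 hm (hun w1 (by simp)) (hun w2 (by simp)) h12 hnc

end Pool.Agent.L0h77.HC
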