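import Pool.Agent.L0h77.HC.Base

/-! Type graphs whose types are the vertices of `H` other than the root. -/

namespace Pool.Agent.L0h77.HC

open Pool.Agent.H22.CT SimpleGraph Function

variable {m : ℕ} {H : SimpleGraph (Fin m)}

def rk {Ty : Type} : Vx Ty → ℕ
  | .root => 0
  | .sel _ => 1
  | .cp _ _ => 2

theorem adj {Ty : Type} {D : TG Ty} {inc : ℕ → ℕ × ℕ → Prop} (f : H ↪g D.DG inc) {v v' : Fin m}
    {x y : Vx Ty} (hx : f v = x) (hy : f v' = y) : D.dad inc x y ↔ H.Adj v v' := by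
  subst hx hy; exact f.map_adj_iff

/-- the type graph with one type for every vertex of `H` except `u` -/
def MT (H : SimpleGraph (Fin m)) (u : Fin m) (C : Fin m → Fin m → Prop)
    (Cs : ∀ a b, C a b → C b a) (A B : Fin m → Prop) (BR : ∀ a, B a → H.Adj u a) (ξ : Prop) :
    TG {v : Fin m // v ≠ u} where
  S a b := H.Adj a b
  C a b := C a b
  R a := H.Adj u a
  A a := A a
  B a := B a
  ξ := ξ
  Ss h := h.symm
  Cs h := Cs _ _ h
  BR h := BR _ h

theorem mkEmb {V W : Type} {G : SimpleGraph V} {G' : SimpleGraph W} (g : V → W)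
    (h : ∀ a b, a ≠ b → g a ≠ g b ∧ (G'.Adj (g a) (g b) ↔ G.Adj a b)) : Nonempty (G ↪g G') :=
  ⟨⟨⟨g, fun a b e => by_contra fun h' => (h a b h').1 e⟩, @fun a b => by
    by_cases e : a = b
    · subst e; exact iff_of_false G'.irrefl G.irrefl
    · exact (h a b e).2⟩⟩

theorem MT.main (u : Fin m) (C : Fin m → Fin m → Prop) (Cs : ∀ a b, C a b → C b a)
    (A B : Fin m → Prop) (BR : ∀ a, B a → H.Adj u a) (ξ : Prop) (Y : {v : Fin m // v ≠ u} → Prop)
    (hY : ∀ y a, Y y → C y a → H.Adj u a) :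
    Nonempty (H ↪g (MT H u C Cs A B BR ξ).WG (Fin m) Y) := by
  classical
  have h0 : ∀ a : {v : Fin m // v ≠ u}, (MT H u C Cs A B BR ξ).wad Y none (some (a, u)) ↔
      H.Adj u a := fun a => by
    constructor
    · rintro (h | ⟨y, h1, h2⟩)
      · exact h
      · exact hY _ _ h1 h2
    · exact fun h => Or.inl h
  refine mkEmb (fun v => if h : v = u then none else some (⟨v, h⟩, u)) fun a b hab => ?_
  by_cases ha : a = u
  · have hb : b ≠ u := fun e => hab (ha.trans e.symm)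
    rw [dif_pos ha, dif_neg hb, ha]
    exact ⟨by simp, h0 ⟨b, hb⟩⟩
  · by_cases hb : b = u
    · rw [dif_neg ha, dif_pos hb, hb, H.adj_comm]
      exact ⟨by simp, h0 ⟨a, ha⟩⟩
    · rw [dif_neg ha, dif_neg hb]
      refine ⟨by simpa using hab, ?_⟩
      constructor
      · rintro (⟨-, -, h⟩ | ⟨h, -⟩)
        · exact h
        · exact absurd rfl h
      · exact fun h => Or.inl ⟨rfl, fun e => h.ne (congrArg Subtype.val e), h⟩

theorem MT.count {u : Fin m} {C : Fin m → Fin m → Prop} {Cs : ∀ a b, C a b → C b a}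
    {A B : Fin m → Prop} {BR : ∀ a, B a → H.Adj u a} {ξ : Prop} {inc : ℕ → ℕ × ℕ → Prop}
    (f : H ↪g (MT H u C Cs A B BR ξ).DG inc) (i : ℕ × ℕ)
    (hf : ∀ v, f v = .root ∨ ∃ a, f v = .cp a i) {t : Fin m} (ht : t ≠ u) (hA : A t)
    (hn : ¬ H.Adj u t) : False := by
  classical
  have : ∀ v, ∃ b : Fin m, (f v = .root ∧ b = u) ∨ ∃ h : b ≠ u, f v = .cp ⟨b, h⟩ i := fun v => by
    rcases hf v with h | ⟨⟨a, ha⟩, h⟩
    · exact ⟨u, Or.inl ⟨h, rfl⟩⟩
    · exact ⟨a, Or.inr ⟨ha, h⟩⟩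
  choose ψ hψ using this
  have inj : Injective ψ := fun a b h => f.injective (by
    rcases hψ a with ⟨h1, h2⟩ | ⟨h1, h2⟩ <;> rcases hψ b with ⟨h3, h4⟩ | ⟨h3, h4⟩
    · rw [h1, h3]
    · exact absurd (h.symm.trans h2) h3
    · exact absurd (h.trans h4) h1
    · rw [h2, h4]; simp [h])
  have key : ∀ a b, H.Adj (ψ a) (ψ b) → H.Adj a b := fun a b h => by
    rcases hψ a with ⟨h1, h2⟩ | ⟨h1, h2⟩ <;> rcases hψ b with ⟨h3, h4⟩ | ⟨h3, h4⟩
    · rw [h2, h4] at h; exact absurd h H.irrefl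
    · exact (adj f h1 h4).1 (Or.inl (by rw [h2] at h; exact h))
    · exact (adj f h2 h3).1 (Or.inl (by rw [h4] at h; exact h.symm))
    · exact (adj f h2 h4).1 (Or.inl ⟨rfl, fun e => h.ne (congrArg Subtype.val e), h⟩)
  let Φ : {p : Fin m × Fin m // ¬ H.Adj p.1 p.2} → {p : Fin m × Fin m // ¬ H.Adj p.1 p.2} :=
    fun p => ⟨(ψ p.1.1, ψ p.1.2), fun h => p.2 (key _ _ h)⟩
  have Φi : Injective Φ := fun p q h => Subtype.ext (Prod.ext
    (inj (congrArg (fun z => z.1.1) h)) (inj (congrArg (fun z => z.1.2) h)))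
  obtain ⟨⟨⟨a, b⟩, hab⟩, h⟩ := Finite.surjective_of_injective Φi ⟨(u, t), hn⟩
  have h1 : ψ a = u := congrArg (fun z => z.1.1) h
  have h2 : ψ b = t := congrArg (fun z => z.1.2) h
  rcases hψ a with ⟨h3, -⟩ | ⟨h3, -⟩
  · rcases hψ b with ⟨h5, h6⟩ | ⟨h5, h6⟩
    · exact ht (h2.symm.trans h6)
    · exact hab ((adj f h3 h6).1 (Or.inr (by rw [← h2] at hA; exact hA)))
  · exact h3 h1

/-- the plain construct: no adjacencies between different copies -/
abbrev SX (H : SimpleGraph (Fin m)) (u : Fin m) (T : Fin m → Prop) (ξ : Prop) :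
    TG {v : Fin m // v ≠ u} :=
  MT H u (fun _ _ => False) (fun _ _ h => h) T (fun _ => False) (fun _ h => h.elim) ξ

theorem SX.hard {u : Fin m} {T : Fin m → Prop} {ξ : Prop}
    (fw : ∀ inc, IsEmpty (H ↪g (SX H u T ξ).DG inc)) : W2Hard (Con₁ H) :=
  fin_hard u.pos H (SX H u T ξ) fw fun Y _ => MT.main u (fun _ _ => False) (fun _ _ h => h) T
    (fun _ => False) (fun _ h => h.elim) ξ Y fun _ _ _ h => h.elim

end Pool.Agent.L0h77.HC
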