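import Pool.Agent.L0h77.HC.One2

/-! Constructs with joined copies. -/

namespace Pool.Agent.L0h77.HC

open Pool.Agent.H22.CT SimpleGraph Function

variable {m : ℕ} {H : SimpleGraph (Fin m)}

/-- copies are joined completely, except for `z`, whose copies form a separate clique -/
def PS (H : SimpleGraph (Fin m)) (u z : Fin m) (huz : H.Adj u z) (T : Fin m → Prop) (ξ : Prop) :
    TG {v : Fin m // v ≠ u} :=
  MT H u (fun a b => a = z ↔ b = z) (fun _ _ h => h.symm) (fun v => v = z ∨ T v) (fun v => v = z)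
    (fun _ h => h ▸ huz) ξ

theorem PS.hard {w u z : Fin m} (huz : H.Adj u z) {T : Fin m → Prop} {ξ : Prop} (hw : Univ H w)
    (huw : u ≠ w) (leaf : ∀ v, v ≠ w → H.Adj u v → v = z)
    (fw : ∀ inc, IsEmpty (H ↪g (PS H u z huz T ξ).DG inc)) : W2Hard (Con₁ H) := by
  classical
  refine fin_hard u.pos H (PS H u z huz T ξ) fw fun Y _ => ?_
  by_cases hY : ∀ y, Y y → y.val = z
  · exact MT.main u _ _ _ _ _ ξ Y fun y a h h' => (h'.1 (hY y h)) ▸ huz
  push Not at hY
  obtain ⟨y, hy, hyz⟩ := hY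
  have hzu : z ≠ u := huz.ne'
  have hN : ∀ a : {v : Fin m // v ≠ u}, ∀ i : Fin m,
      ((PS H u z huz T ξ).WG (Fin m) Y).Adj none (some (a, i)) := fun a i => by
    by_cases h : a.val = z
    · exact Or.inl (h.symm ▸ huz)
    · exact Or.inr ⟨y, hy, iff_of_false hyz h⟩
  refine mkEmb (fun v => if h : v = w then none else if h : v = u then some (⟨z, hzu⟩, u) else
    some (⟨v, h⟩, w)) fun a b hab => ?_
  have key : ∀ a b : Fin m, a ≠ b → (b = w → False) → (a = w ∨ b ≠ u ∨ True) → True :=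
    fun _ _ _ _ _ => trivial
  by_cases ha : a = w <;> by_cases hb : b = w
  · exact absurd (ha.trans hb.symm) hab
  · rw [dif_pos ha, dif_neg hb, ha]
    refine ⟨by split_ifs <;> simp, ?_⟩
    have h1 : H.Adj w b := hw b hb
    split_ifs with h
    · exact iff_of_true (hN _ _) h1
    · exact iff_of_true (hN _ _) h1
  · rw [dif_neg ha, dif_pos hb, hb]
    refine ⟨by split_ifs <;> simp, ?_⟩
    have h1 : H.Adj a w := (hw a ha).symm
    split_ifs with h
    · exact iff_of_true (hN _ _).symm h1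
    · exact iff_of_true (hN _ _).symm h1
  · rw [dif_neg ha, dif_neg hb]
    by_cases hau : a = u <;> by_cases hbu : b = u
    · exact absurd (hau.trans hbu.symm) hab
    · rw [dif_pos hau, dif_neg hbu]
      refine ⟨by simp [huw], ?_⟩
      rw [hau]
      constructor
      · rintro (⟨h, -⟩ | ⟨-, h⟩)
        · exact absurd h huw
        · have : b = z := h.1 rfl
          exact this ▸ huz
      · intro h
        exact Or.inr ⟨huw, iff_of_true rfl (leaf b hb h)⟩
    · rw [dif_neg hau, dif_pos hbu]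
      refine ⟨by simp [huw.symm], ?_⟩
      rw [hbu]
      constructor
      · rintro (⟨h, -⟩ | ⟨-, h⟩)
        · exact absurd h.symm huw
        · have : a = z := h.2 rfl
          exact this ▸ huz.symm
      · intro h
        exact Or.inr ⟨huw.symm, iff_of_true (leaf a ha h.symm) rfl⟩
    · rw [dif_neg hau, dif_neg hbu]
      refine ⟨by simpa using hab, ?_⟩
      constructor
      · rintro (⟨-, -, h⟩ | ⟨h, -⟩)
        · exact h
        · exact absurd rfl h
      · exact fun h => Or.inl ⟨rfl, fun e => hab (congrArg Subtype.val e), h⟩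

section
variable {w u z : Fin m} {huz : H.Adj u z} {T : Fin m → Prop} {ξ : Prop} {inc : ℕ → ℕ × ℕ → Prop}

/-- If all but two vertices lie in one copy, then this copy is used completely. -/
theorem PS.full (f : H ↪g (PS H u z huz T ξ).DG inc) (huw : u ≠ w) (hzw : z ≠ w) (i : ℕ × ℕ)
    {p q : Fin m} (hp : p ≠ w) (hq : q ≠ w)
    (h : ∀ v, v ≠ w → v ≠ p → v ≠ q → ∃ a, f v = .cp a i ∧ a.val ≠ z ∧ a.val ≠ w) :
    p ≠ q ∧ ∀ y : {v : Fin m // v ≠ u}, y.val ≠ w → y.val ≠ z →
      ∃ v, v ≠ w ∧ v ≠ p ∧ v ≠ q ∧ f v = .cp y i := by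
  classical
  have hzu : z ≠ u := huz.ne'
  let ζ : Fin m → Fin m := fun v => match f v with
    | .cp z _ => z.1
    | _ => w
  have ζe : ∀ v z i, f v = .cp z i → ζ v = z.1 := fun v z i h => by simp only [ζ, h]
  set X := ((Finset.univ.erase w).erase p).erase q with hX
  set Yt := ((Finset.univ.erase w).erase u).erase z with hYt
  have cY : Yt.card = m - 3 := by
    rw [Finset.card_erase_of_mem (by simp [hzu, hzw]), Finset.card_erase_of_mem (by simp [huw]),
      Finset.card_erase_of_mem (by simp)]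
    simp; omega
  have mX : ∀ v, v ∈ X ↔ v ≠ w ∧ v ≠ p ∧ v ≠ q := fun v => by simp [hX]; tauto
  have mY : ∀ v, v ∈ Yt ↔ v ≠ w ∧ v ≠ u ∧ v ≠ z := fun v => by simp [hYt]; tauto
  have mp : Set.MapsTo ζ X Yt := fun v hv => by
    have := (mX v).1 hv
    obtain ⟨a, ea, h1, h2⟩ := h v this.1 this.2.1 this.2.2
    rw [ζe v a i ea]
    exact Finset.mem_coe.2 ((mY _).2 ⟨h2, a.2, h1⟩)
  have ij : Set.InjOn ζ X := fun v hv v' hv' e => by
    have h3 := (mX v).1 hv
    have h4 := (mX v').1 hv'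
    obtain ⟨a, ea, -⟩ := h v h3.1 h3.2.1 h3.2.2
    obtain ⟨b, eb, -⟩ := h v' h4.1 h4.2.1 h4.2.2
    rw [ζe v a i ea, ζe v' b i eb] at e
    exact f.injective (by rw [ea, eb, Subtype.ext e])
  have c1 := Finset.card_le_card_of_injOn ζ mp ij
  have hm : 3 ≤ m := by
    have := Finset.card_le_card (Finset.subset_univ ({w, u, z} : Finset (Fin m)))
    rw [Finset.card_univ, Fintype.card_fin, Finset.card_insert_of_notMem (by simp [huw.symm, hzw.symm]),
      Finset.card_insert_of_notMem (by simp [hzu.symm]), Finset.card_singleton] at this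
    exact this
  have hpq : p ≠ q := fun e => by
    have : X.card = m - 2 := by
      rw [hX, e, Finset.erase_idem, Finset.card_erase_of_mem (by simp [hq]),
        Finset.card_erase_of_mem (by simp)]
      simp; omega
    omega
  have cX : X.card = m - 3 := by
    rw [Finset.card_erase_of_mem (by simp [hq, hpq.symm]), Finset.card_erase_of_mem (by simp [hp]),
      Finset.card_erase_of_mem (by simp)]
    simp; omega
  refine ⟨hpq, fun y h1 h2 => ?_⟩
  obtain ⟨v, hv, hv'⟩ := Finset.surjOn_of_injOn_of_card_le ζ mp ij (by omega)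
    (show y.val ∈ (Yt : Set (Fin m)) from Finset.mem_coe.2 ((mY _).2 ⟨h1, y.2, h2⟩))
  have h3 := (mX v).1 hv
  obtain ⟨a, ea, -⟩ := h v h3.1 h3.2.1 h3.2.2
  rw [ζe v a i ea] at hv'
  exact ⟨v, h3.1, h3.2.1, h3.2.2, by rw [ea, Subtype.ext hv']⟩

end

/-! counting edges -/

open Classical in
noncomputable def dg (H : SimpleGraph (Fin m)) (x : Fin m) (X : Finset (Fin m)) : ℕ :=
  ∑ b ∈ X, if H.Adj x b then 1 else 0

noncomputable def ee (H : SimpleGraph (Fin m)) (X : Finset (Fin m)) : ℕ := ∑ a ∈ X, dg H a X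

open Classical in
theorem ee_insert {x : Fin m} {X : Finset (Fin m)} (hx : x ∉ X) :
    ee H (insert x X) = ee H X + 2 * dg H x X := by
  have h1 : ∀ a, dg H a (insert x X) = (if H.Adj a x then 1 else 0) + dg H a X := fun a => by
    rw [dg, Finset.sum_insert hx]; rfl
  have h2 : (∑ a ∈ X, if H.Adj a x then 1 else 0) = dg H x X := by
    rw [dg]; exact Finset.sum_congr rfl fun a _ => by rw [H.adj_comm]
  rw [ee, Finset.sum_insert hx, h1, if_neg H.irrefl]
  simp only [h1, Finset.sum_add_distrib, h2]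
  rw [ee]; ring

open Classical in
theorem dg_insert {x y : Fin m} {X : Finset (Fin m)} (hx : x ∉ X) :
    dg H y (insert x X) = (if H.Adj y x then 1 else 0) + dg H y X := by
  rw [dg, Finset.sum_insert hx]; rfl

open Classical in
/-- two decompositions of the vertex set minus `w` -/
theorem ecount {w u z p q : Fin m} (huw : u ≠ w) (hzw : z ≠ w) (hpw : p ≠ w) (hqw : q ≠ w)
    (hpq : H.Adj p q) (huz : H.Adj u z) (leaf : ∀ v, v ≠ w → H.Adj u v → v = z)
    (ζ : Fin m → Fin m) (mp : ∀ v, v ≠ w → v ≠ p → v ≠ q → ζ v ≠ w ∧ ζ v ≠ u ∧ ζ v ≠ z)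
    (ij : ∀ a b, a ≠ w → a ≠ p → a ≠ q → b ≠ w → b ≠ p → b ≠ q → ζ a = ζ b → a = b)
    (ad : ∀ a b, a ≠ w → a ≠ p → a ≠ q → b ≠ w → b ≠ p → b ≠ q → (H.Adj a b ↔ H.Adj (ζ a) (ζ b)))
    (P Q : Fin m → Prop)
    (hP : ∀ a, a ≠ w → a ≠ p → a ≠ q → (H.Adj p a ↔ P (ζ a)))
    (hQ : ∀ a, a ≠ w → a ≠ p → a ≠ q → (H.Adj q a ↔ Q (ζ a))) :
    (Finset.univ.filter fun v => v ≠ w ∧ v ≠ u ∧ v ≠ z ∧ H.Adj z v).card =
      (Finset.univ.filter fun v => v ≠ w ∧ v ≠ u ∧ v ≠ z ∧ P v).card +
      (Finset.univ.filter fun v => v ≠ w ∧ v ≠ u ∧ v ≠ z ∧ Q v).card := by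
  have hzu : z ≠ u := huz.ne'
  set X := ((Finset.univ.erase w).erase p).erase q with hX
  set Yt := ((Finset.univ.erase w).erase u).erase z with hYt
  have mX : ∀ v, v ∈ X ↔ v ≠ w ∧ v ≠ p ∧ v ≠ q := fun v => by simp [hX]; tauto
  have mY : ∀ v, v ∈ Yt ↔ v ≠ w ∧ v ≠ u ∧ v ≠ z := fun v => by simp [hYt]; tauto
  have hm : 3 ≤ m := by
    have := Finset.card_le_card (Finset.subset_univ ({w, u, z} : Finset (Fin m)))
    rw [Finset.card_univ, Fintype.card_fin, Finset.card_insert_of_notMem (by simp [huw.symm, hzw.symm]),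
      Finset.card_insert_of_notMem (by simp [hzu.symm]), Finset.card_singleton] at this
    exact this
  have cY : Yt.card = m - 3 := by
    rw [Finset.card_erase_of_mem (by simp [hzu, hzw]), Finset.card_erase_of_mem (by simp [huw]),
      Finset.card_erase_of_mem (by simp)]
    simp; omega
  have cX : X.card = m - 3 := by
    rw [Finset.card_erase_of_mem (by simp [hqw, hpq.ne']), Finset.card_erase_of_mem (by simp [hpw]),
      Finset.card_erase_of_mem (by simp)]
    simp; omega
  have inj : Set.InjOn ζ X := fun a ha b hb e => by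
    have h1 := (mX a).1 ha
    have h2 := (mX b).1 hb
    exact ij a b h1.1 h1.2.1 h1.2.2 h2.1 h2.2.1 h2.2.2 e
  have im : X.image ζ = Yt := by
    refine Finset.eq_of_subset_of_card_le (fun y hy => ?_) ?_
    · obtain ⟨v, hv, rfl⟩ := Finset.mem_image.1 hy
      have h1 := (mX v).1 hv
      exact (mY _).2 (mp v h1.1 h1.2.1 h1.2.2)
    · rw [Finset.card_image_of_injOn inj, cX, cY]
  have s1 : ∀ g : Fin m → ℕ, ∑ v ∈ X, g (ζ v) = ∑ y ∈ Yt, g y := fun g => by
    rw [← im, Finset.sum_image inj]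
  have e1 : ee H X = ee H Yt := by
    rw [ee, ee, ← s1]
    refine Finset.sum_congr rfl fun a ha => ?_
    rw [dg, dg, ← s1]
    refine Finset.sum_congr rfl fun b hb => ?_
    have h1 := (mX a).1 ha
    have h2 := (mX b).1 hb
    simp only [ad a b h1.1 h1.2.1 h1.2.2 h2.1 h2.2.1 h2.2.2]
  have d1 : ∀ (x : Fin m) (P : Fin m → Prop),
      (∀ a, a ≠ w → a ≠ p → a ≠ q → (H.Adj x a ↔ P (ζ a))) →
      dg H x X = (Finset.univ.filter fun v => v ≠ w ∧ v ≠ u ∧ v ≠ z ∧ P v).card := fun x P h => by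
    have h2 : ∀ g : Fin m → ℕ, (∀ a ∈ X, (if H.Adj x a then 1 else 0) = g (ζ a)) →
        dg H x X = ∑ y ∈ Yt, g y := fun g hg => by
      rw [← s1, dg]; exact Finset.sum_congr rfl hg
    rw [h2 (fun y => if P y then 1 else 0) fun a ha => by
      have h1 := (mX a).1 ha
      simp only [h a h1.1 h1.2.1 h1.2.2]]
    rw [← Finset.sum_filter, ← Finset.card_eq_sum_ones]
    congr 1
    ext v
    simp only [Finset.mem_filter, mY, Finset.mem_univ, true_and, and_assoc]
  have d2 : dg H z Yt = (Finset.univ.filter fun v => v ≠ w ∧ v ≠ u ∧ v ≠ z ∧ H.Adj z v).card := by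
    rw [dg, ← Finset.sum_filter, ← Finset.card_eq_sum_ones]
    congr 1
    ext v
    simp only [Finset.mem_filter, mY, Finset.mem_univ, true_and, and_assoc]
  have d3 : dg H u Yt = 0 := by
    rw [dg]
    refine Finset.sum_eq_zero fun b hb => if_neg fun h => ?_
    have := (mY b).1 hb
    exact this.2.2 (leaf b this.1 h)
  have f1 : (insert p (insert q X) : Finset (Fin m)) = insert u (insert z Yt) := by
    rw [hX, hYt, Finset.insert_erase (by simp [hqw, hpq.ne']), Finset.insert_erase (by simp [hpw]),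
      Finset.insert_erase (by simp [hzw, hzu]), Finset.insert_erase (by simp [huw])]
  have n1 : q ∉ X := fun h => ((mX q).1 h).2.2 rfl
  have n2 : p ∉ insert q X := fun h => by
    rcases Finset.mem_insert.1 h with h | h
    · exact hpq.ne h
    · exact ((mX p).1 h).2.1 rfl
  have n3 : z ∉ Yt := fun h => ((mY z).1 h).2.2 rfl
  have n4 : u ∉ insert z Yt := fun h => by
    rcases Finset.mem_insert.1 h with h | h
    · exact hzu h.symm
    · exact ((mY u).1 h).2.1 rfl
  have g1 := ee_insert (H := H) n2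
  have g2 := ee_insert (H := H) n4
  rw [f1, g2, ee_insert n3, ee_insert n1, dg_insert n1, dg_insert n3, if_pos hpq, if_pos huz, d3, e1] at g1
  rw [← d2, ← d1 p P hP, ← d1 q Q hQ]
  omega

end Pool.Agent.L0h77.HC
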