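import Pool.Agent.L0h77.HC.Main

/-! Two universal vertices. -/

namespace Pool.Agent.L0h77.HC

open Pool.Agent.H22.CT SimpleGraph Function

variable {m : ℕ} {H : SimpleGraph (Fin m)}

theorem hardA {w1 w2 u t : Fin m} (hw1 : Univ H w1) (hw2 : Univ H w2) (h12 : w1 ≠ w2)
    (hu1 : u ≠ w1) (hu2 : u ≠ w2) (htu : t ≠ u) (ht1 : t ≠ w1) (ht2 : t ≠ w2) (hn : ¬ H.Adj u t)
    (hcn : ∀ v, v ≠ w1 → v ≠ w2 → H.Adj u v → ¬ H.Adj t v)
    (he : ∀ a b, ∃ c d, c ≠ w1 ∧ c ≠ w2 ∧ d ≠ w1 ∧ d ≠ w2 ∧ H.Adj c d ∧ ¬ (c = a ∧ d = b) ∧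
      ¬ (c = b ∧ d = a)) : W2Hard (Con₁ H) := by
  refine SX.hard (u := u) (T := fun v => v = t) (ξ := False) fun inc => ⟨fun f => ?_⟩
  wlog hr : rk (f w1) ≤ rk (f w2) generalizing w1 w2
  · exact this hw2 hw1 h12.symm hu2 hu1 ht2 ht1 (fun v h h' => hcn v h' h) (fun a b => by
      obtain ⟨c, d, h1, h2, h3, h4, h5⟩ := he a b
      exact ⟨c, d, h2, h1, h4, h3, h5⟩) (by omega)
  have cnt : ∀ i, (∀ v, f v = .root ∨ ∃ a, f v = .cp a i) → False := fun i hf =>
    MT.count f i hf htu rfl hn
  have a12 := hw1 w2 h12.symm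
  rcases e1 : f w1 with _ | s | ⟨x, i⟩ <;> rcases e2 : f w2 with _ | s' | ⟨y, j⟩ <;>
    rw [e1, e2] at hr <;> simp only [rk] at hr <;> try omega
  all_goals have d12 := (adj f e1 e2).2 a12
  all_goals simp only [TG.dad, MT, and_false] at d12
  · -- root, selector
    have oth : ∀ v, v ≠ w1 → v ≠ w2 → ∃ k, f v = .cp ⟨t, htu⟩ k := fun v h1 h2 => by
      have b2 := hw2 v h2
      rcases ev : f v with _ | s'' | ⟨z, k⟩
      · exact absurd (f.injective (ev.trans e1.symm)) h1
      · exact absurd ((adj f e2 ev).2 b2) (by simp [TG.dad, MT])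
      · have := (adj f e2 ev).2 b2
        simp only [TG.dad, MT, false_and, or_false] at this
        exact ⟨k, by rw [show z = ⟨t, htu⟩ from Subtype.ext this.1]⟩
    obtain ⟨c, d, h1, h2, h3, h4, h5, -⟩ := he w1 w1
    obtain ⟨k, hk⟩ := oth c h1 h2
    obtain ⟨l, hl⟩ := oth d h3 h4
    have := (adj f hk hl).2 h5
    simp [TG.dad, MT] at this
  · -- root, copy
    by_cases hy : y.val = t
    · have hy' : y = ⟨t, htu⟩ := Subtype.ext hy
      subst hy'
      have oth : ∀ v, v ≠ w1 → v ≠ w2 → (∃ s, f v = .sel s) ∨ ∃ z, f v = .cp z j ∧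
          (z.val = w1 ∨ z.val = w2) := fun v h1 h2 => by
        have b1 := hw1 v h1
        have b2 := hw2 v h2
        rcases ev : f v with _ | s'' | ⟨z, k⟩
        · exact absurd (f.injective (ev.trans e1.symm)) h1
        · exact Or.inl ⟨_, rfl⟩
        · have c1 := (adj f e1 ev).2 b1
          have c2 := (adj f e2 ev).2 b2
          simp only [TG.dad, MT, and_false, or_false] at c1 c2
          obtain ⟨rfl, h5, h6⟩ := c2
          refine Or.inr ⟨z, rfl, ?_⟩
          rcases c1 with h7 | h7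
          · by_contra h8
            rw [not_or] at h8
            exact hcn z h8.1 h8.2 h7 h6
          · exact absurd h7.symm h6.ne
      have edge : ∀ c d, c ≠ w1 → c ≠ w2 → d ≠ w1 → d ≠ w2 → H.Adj c d → ∃ z z', f c = .cp z j ∧
          f d = .cp z' j ∧ (z.val = w1 ∧ z'.val = w2 ∨ z.val = w2 ∧ z'.val = w1) :=
        fun c d h1 h2 h3 h4 h5 => by
          rcases oth c h1 h2 with ⟨s, hs⟩ | ⟨z, hz, hz'⟩ <;>
            rcases oth d h3 h4 with ⟨s', hs'⟩ | ⟨z', h6, h6'⟩
          · exact absurd ((adj f hs hs').2 h5) (by simp [TG.dad, MT])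
          · have := (adj f hs h6).2 h5
            simp only [TG.dad, MT, false_and, or_false] at this
            rcases h6' with h | h
            · exact absurd (this.1.symm.trans h) ht1
            · exact absurd (this.1.symm.trans h) ht2
          · have := (adj f hz hs').2 h5
            simp only [TG.dad, MT, false_and, or_false] at this
            rcases hz' with h | h
            · exact absurd (this.1.symm.trans h) ht1
            · exact absurd (this.1.symm.trans h) ht2
          · refine ⟨z, z', hz, h6, ?_⟩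
            have hne : z.val ≠ z'.val := fun e => h5.ne (f.injective (by
              rw [hz, h6, Subtype.ext e]))
            rcases hz' with h | h <;> rcases h6' with h' | h'
            · exact absurd (h.trans h'.symm) hne
            · exact Or.inl ⟨h, h'⟩
            · exact Or.inr ⟨h, h'⟩
            · exact absurd (h.trans h'.symm) hne
      obtain ⟨c, d, h1, h2, h3, h4, h5, -⟩ := he w1 w1
      obtain ⟨z, z', h6, h7, h8⟩ := edge c d h1 h2 h3 h4 h5
      obtain ⟨c', d', g1, g2, g3, g4, g5, g9, g10⟩ := he c d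
      obtain ⟨y, y', g6, g7, g8⟩ := edge c' d' g1 g2 g3 g4 g5
      have eqf : ∀ {a b : Fin m} {p q : {v : Fin m // v ≠ u}}, f a = .cp p j → f b = .cp q j →
          p.val = q.val → a = b := fun h h' e => f.injective (by rw [h, h', Subtype.ext e])
      rcases h8 with ⟨h8, h9⟩ | ⟨h8, h9⟩ <;> rcases g8 with ⟨k8, k9⟩ | ⟨k8, k9⟩
      · exact g9 ⟨eqf g6 h6 (k8.trans h8.symm), eqf g7 h7 (k9.trans h9.symm)⟩
      · exact g10 ⟨eqf g6 h7 (k8.trans h9.symm), eqf g7 h6 (k9.trans h8.symm)⟩
      · exact g10 ⟨eqf g6 h7 (k8.trans h9.symm), eqf g7 h6 (k9.trans h8.symm)⟩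
      · exact g9 ⟨eqf g6 h6 (k8.trans h8.symm), eqf g7 h7 (k9.trans h9.symm)⟩
    · refine cnt j fun v => ?_
      by_cases h1 : v = w1
      · exact Or.inl (h1 ▸ e1)
      by_cases h2 : v = w2
      · exact Or.inr ⟨y, h2 ▸ e2⟩
      have b2 := hw2 v h2
      rcases ev : f v with _ | s'' | ⟨z, k⟩
      · exact Or.inl rfl
      · have := (adj f e2 ev).2 b2
        simp only [TG.dad, MT, false_and, or_false] at this
        exact absurd this.1 hy
      · have c2 := (adj f e2 ev).2 b2
        simp only [TG.dad, MT, and_false, or_false] at c2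
        exact Or.inr ⟨z, by rw [c2.1]⟩
  · -- selector, copy
    have oth : ∀ v, v ≠ w1 → v ≠ w2 → f v = .root := fun v h1 h2 => by
      have b1 := hw1 v h1
      have b2 := hw2 v h2
      rcases ev : f v with _ | s'' | ⟨z, k⟩
      · rfl
      · exact absurd ((adj f e1 ev).2 b1) (by simp [TG.dad, MT])
      · have c1 := (adj f e1 ev).2 b1
        have c2 := (adj f e2 ev).2 b2
        simp only [TG.dad, MT, and_false, or_false, false_and] at c1 c2 d12
        exact absurd (Subtype.ext (d12.1.trans c1.1.symm)) c2.2.1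
    exact htu (f.injective ((oth t ht1 ht2).trans (oth u hu1 hu2).symm))
  · -- copy, copy
    simp only [or_false] at d12
    obtain ⟨rfl, h3, h4⟩ := d12
    refine cnt i fun v => ?_
    by_cases h1 : v = w1
    · exact Or.inr ⟨x, h1 ▸ e1⟩
    by_cases h2 : v = w2
    · exact Or.inr ⟨y, h2 ▸ e2⟩
    have b1 := hw1 v h1
    have b2 := hw2 v h2
    rcases ev : f v with _ | s'' | ⟨z, k⟩
    · exact Or.inl rfl
    · have c1 := (adj f e1 ev).2 b1
      have c2 := (adj f e2 ev).2 b2
      simp only [TG.dad, MT, false_and, or_false] at c1 c2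
      exact absurd (Subtype.ext (c1.1.trans c2.1.symm)) h3
    · have c2 := (adj f e2 ev).2 b2
      simp only [TG.dad, MT, and_false, or_false] at c2
      exact Or.inr ⟨z, by rw [c2.1]⟩

end Pool.Agent.L0h77.HC
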