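import Pool.Agent.L0h77.HC.Main

/-! Type graphs all of whose types are cliques: star-free version. -/

namespace Pool.Agent.L0h77.HC

open Pool.Agent.H22.CT SimpleGraph Function

variable {m : ℕ} {H : SimpleGraph (Fin m)}

inductive TA' (ι : Type)
  | w | t | c1 | c2 | px | pc
  | x (i : ι)
  | d (i : ι)

namespace TA'

variable {ι : Type}

/-- adjacency of clique types -/
def G : TA' ι → TA' ι → Prop
  | w, w => True
  | w, t => True
  | t, w => True
  | w, x _ => True
  | x _, w => True
  | w, d _ => True
  | d _, w => True
  | t, t => True
  | t, d _ => True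
  | d _, t => True
  | x i, x j => i = j
  | x _, d _ => True
  | d _, x _ => True
  | d i, d j => i = j
  | c1, c1 => True
  | c2, c2 => True
  | _, _ => False

/-- private adjacency, inside one copy only -/
def P (i0 : ι) : TA' ι → TA' ι → Prop
  | px, x i => i = i0
  | x i, px => i = i0
  | pc, c1 => True
  | c1, pc => True
  | _, _ => False

theorem G_symm {a b : TA' ι} (h : G a b) : G b a := by
  cases a <;> cases b <;> first | exact h | exact Eq.symm h | exact h.elim

theorem P_symm {i0 : ι} {a b : TA' ι} (h : P i0 a b) : P i0 b a := by
  cases a <;> cases b <;> first | exact h | exact h.elim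

instance [Finite ι] : Finite (TA' ι) := by
  let g : TA' ι → Fin 8 × Option ι := fun a => match a with
    | w => (0, none)
    | t => (1, none)
    | c1 => (2, none)
    | c2 => (3, none)
    | px => (4, none)
    | pc => (5, none)
    | x i => (6, some i)
    | d i => (7, some i)
  refine Finite.of_injective g fun a b h => ?_
  cases a <;> cases b <;> simp [g] at h <;> first | rfl | (subst h; rfl)

end TA'

open TA' in
def VA {ι : Type} (i0 : ι) : TG (TA' ι) where
  S a b := G a b ∨ P i0 a b
  C a b := G a b
  R a := a = w ∨ a = c1 ∨ a = c2
  A a := a = t ∨ a = c1 ∨ a = c2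
  B a := a = c1 ∨ a = c2
  ξ := True
  Ss h := h.imp G_symm P_symm
  Cs h := G_symm h
  BR h := Or.inr h

open TA' in
/-- In the dominated graph the neighbourhood of every vertex is covered by `card ι + 1` cliques. -/
theorem VA.col {ι : Type} {i0 i1 : ι} (h01 : i0 ≠ i1) (inc : ℕ → ℕ × ℕ → Prop) (c : Vx (TA' ι)) :
    ∃ κ : Vx (TA' ι) → Option ι, ∀ a b, (VA i0).dad inc c a → (VA i0).dad inc c b → κ a = κ b →
      a ≠ b → (VA i0).dad inc a b := by
  classical
  have pure : ∀ (a b : TA' ι) i j, G a b → Vx.cp a i ≠ Vx.cp b j →
      (VA i0).dad inc (.cp a i) (.cp b j) := fun a b i j h hne => by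
    by_cases e : i = j
    · exact Or.inl ⟨e, fun e' => hne (by rw [e, e']), Or.inl h⟩
    · exact Or.inr ⟨e, h⟩
  have sc : ∀ s i, (VA i0).dad inc (.sel s) (.cp c1 i) := fun s i => by
    by_cases h : inc s i
    · exact Or.inl ⟨Or.inr (Or.inl rfl), h⟩
    · exact Or.inr ⟨Or.inl rfl, h⟩
  have cs : ∀ s i, (VA i0).dad inc (.cp c1 i) (.sel s) := fun s i => sc s i
  have sc2 : ∀ s i, (VA i0).dad inc (.sel s) (.cp c2 i) := fun s i => by
    by_cases h : inc s i
    · exact Or.inl ⟨Or.inr (Or.inr rfl), h⟩
    · exact Or.inr ⟨Or.inr rfl, h⟩
  have cs2 : ∀ s i, (VA i0).dad inc (.cp c2 i) (.sel s) := fun s i => sc2 s i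
  rcases c with _ | s0 | ⟨c, i⟩
  · refine ⟨fun v => match v with
      | .sel _ => some i0
      | .cp c1 _ => some i0
      | .cp c2 _ => some i1
      | _ => none, ?_⟩
    rintro (_ | s | ⟨a, j⟩) b ha hb hk hne <;> (try cases a) <;>
      (try (simp only [TG.dad, VA, G, P, reduceCtorEq, or_self, and_false, false_and, or_false] at ha; done)) <;>
      rcases b with _ | s' | ⟨b, k⟩ <;> (try cases b) <;>
      (try (simp only [TG.dad, VA, G, P, reduceCtorEq, or_self, and_false, false_and, or_false] at hb; done)) <;>
      first
      | exact trivial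
      | exact absurd rfl hne
      | exact sc _ _
      | exact cs _ _
      | exact sc2 _ _
      | exact cs2 _ _
      | exact ⟨fun e => hne (by rw [e]), trivial⟩
      | exact Or.inl (Or.inl rfl)
      | exact Or.inr (Or.inl rfl)
      | exact Or.inl (Or.inr (Or.inl rfl))
      | exact Or.inl (Or.inr (Or.inr rfl))
      | exact pure _ _ _ _ trivial hne
      | (exfalso; simp only [reduceCtorEq, Option.some.injEq, h01, h01.symm] at hk; done)
      | (simp only [Option.some.injEq] at hk; subst hk; exact pure _ _ _ _ trivial hne)
      | (simp only [Option.some.injEq] at hk; subst hk; exact pure _ _ _ _ rfl hne)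
      | (simp [TG.dad, VA, G, P] at ha hb; exact pure _ _ _ _ (ha.2.symm.trans hb.2) hne)
      | (simp [TG.dad, VA, G, P] at ha hb; exact pure _ _ _ _ (ha.2.trans hb.2.symm) hne)
      | (simp [TG.dad, VA, G, P] at ha hb; exfalso; apply hne; rw [← ha, ← hb]; done)
      | (simp [TG.dad, VA, G, P] at ha hb; exfalso; apply hne; rw [← ha.1, ← hb.1]; done)
  · refine ⟨fun v => match v with
      | .sel _ => some i0
      | .cp c1 _ => some i0
      | .cp c2 _ => some i1
      | _ => none, ?_⟩
    rintro (_ | s | ⟨a, j⟩) b ha hb hk hne <;> (try cases a) <;>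
      (try (simp only [TG.dad, VA, G, P, reduceCtorEq, or_self, and_false, false_and, or_false] at ha; done)) <;>
      rcases b with _ | s' | ⟨b, k⟩ <;> (try cases b) <;>
      (try (simp only [TG.dad, VA, G, P, reduceCtorEq, or_self, and_false, false_and, or_false] at hb; done)) <;>
      first
      | exact trivial
      | exact absurd rfl hne
      | exact sc _ _
      | exact cs _ _
      | exact sc2 _ _
      | exact cs2 _ _
      | exact ⟨fun e => hne (by rw [e]), trivial⟩
      | exact Or.inl (Or.inl rfl)
      | exact Or.inr (Or.inl rfl)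
      | exact Or.inl (Or.inr (Or.inl rfl))
      | exact Or.inl (Or.inr (Or.inr rfl))
      | exact pure _ _ _ _ trivial hne
      | (exfalso; simp only [reduceCtorEq, Option.some.injEq, h01, h01.symm] at hk; done)
      | (simp only [Option.some.injEq] at hk; subst hk; exact pure _ _ _ _ trivial hne)
      | (simp only [Option.some.injEq] at hk; subst hk; exact pure _ _ _ _ rfl hne)
      | (simp [TG.dad, VA, G, P] at ha hb; exact pure _ _ _ _ (ha.2.symm.trans hb.2) hne)
      | (simp [TG.dad, VA, G, P] at ha hb; exact pure _ _ _ _ (ha.2.trans hb.2.symm) hne)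
      | (simp [TG.dad, VA, G, P] at ha hb; exfalso; apply hne; rw [← ha, ← hb]; done)
      | (simp [TG.dad, VA, G, P] at ha hb; exfalso; apply hne; rw [← ha.1, ← hb.1]; done)
  · cases c
    · refine ⟨fun v => match v with
        | .cp (x j) _ => some j
        | .cp (d j) _ => some j
        | _ => none, ?_⟩
      rintro (_ | s | ⟨a, j⟩) b ha hb hk hne <;> (try cases a) <;>
        (try (simp only [TG.dad, VA, G, P, reduceCtorEq, or_self, and_false, false_and, or_false] at ha; done)) <;>
        rcases b with _ | s' | ⟨b, k⟩ <;> (try cases b) <;>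
        (try (simp only [TG.dad, VA, G, P, reduceCtorEq, or_self, and_false, false_and, or_false] at hb; done)) <;>
        first
        | exact trivial
        | exact absurd rfl hne
        | exact sc _ _
        | exact cs _ _
        | exact sc2 _ _
        | exact cs2 _ _
        | exact ⟨fun e => hne (by rw [e]), trivial⟩
        | exact Or.inl (Or.inl rfl)
        | exact Or.inr (Or.inl rfl)
        | exact Or.inl (Or.inr (Or.inl rfl))
        | exact Or.inl (Or.inr (Or.inr rfl))
        | exact pure _ _ _ _ trivial hne
        | (exfalso; simp only [reduceCtorEq, Option.some.injEq, h01, h01.symm] at hk; done)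
        | (simp only [Option.some.injEq] at hk; subst hk; exact pure _ _ _ _ trivial hne)
        | (simp only [Option.some.injEq] at hk; subst hk; exact pure _ _ _ _ rfl hne)
        | (simp [TG.dad, VA, G, P] at ha hb; exact pure _ _ _ _ (ha.2.symm.trans hb.2) hne)
        | (simp [TG.dad, VA, G, P] at ha hb; exact pure _ _ _ _ (ha.2.trans hb.2.symm) hne)
        | (simp [TG.dad, VA, G, P] at ha hb; exfalso; apply hne; rw [← ha, ← hb]; done)
        | (simp [TG.dad, VA, G, P] at ha hb; exfalso; apply hne; rw [← ha.1, ← hb.1]; done)
    · refine ⟨fun v => match v with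
        | .cp w _ => some i0
        | .cp t _ => some i0
        | .cp (d j) _ => some j
        | _ => none, ?_⟩
      rintro (_ | s | ⟨a, j⟩) b ha hb hk hne <;> (try cases a) <;>
        (try (simp only [TG.dad, VA, G, P, reduceCtorEq, or_self, and_false, false_and, or_false] at ha; done)) <;>
        rcases b with _ | s' | ⟨b, k⟩ <;> (try cases b) <;>
        (try (simp only [TG.dad, VA, G, P, reduceCtorEq, or_self, and_false, false_and, or_false] at hb; done)) <;>
        first
        | exact trivial
        | exact absurd rfl hne
        | exact sc _ _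
        | exact cs _ _
        | exact sc2 _ _
        | exact cs2 _ _
        | exact ⟨fun e => hne (by rw [e]), trivial⟩
        | exact Or.inl (Or.inl rfl)
        | exact Or.inr (Or.inl rfl)
        | exact Or.inl (Or.inr (Or.inl rfl))
        | exact Or.inl (Or.inr (Or.inr rfl))
        | exact pure _ _ _ _ trivial hne
        | (exfalso; simp only [reduceCtorEq, Option.some.injEq, h01, h01.symm] at hk; done)
        | (simp only [Option.some.injEq] at hk; subst hk; exact pure _ _ _ _ trivial hne)
        | (simp only [Option.some.injEq] at hk; subst hk; exact pure _ _ _ _ rfl hne)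
        | (simp [TG.dad, VA, G, P] at ha hb; exact pure _ _ _ _ (ha.2.symm.trans hb.2) hne)
        | (simp [TG.dad, VA, G, P] at ha hb; exact pure _ _ _ _ (ha.2.trans hb.2.symm) hne)
        | (simp [TG.dad, VA, G, P] at ha hb; exfalso; apply hne; rw [← ha, ← hb]; done)
        | (simp [TG.dad, VA, G, P] at ha hb; exfalso; apply hne; rw [← ha.1, ← hb.1]; done)
    · refine ⟨fun v => match v with
        | .cp pc _ => some i0
        | _ => none, ?_⟩
      rintro (_ | s | ⟨a, j⟩) b ha hb hk hne <;> (try cases a) <;>
        (try (simp only [TG.dad, VA, G, P, reduceCtorEq, or_self, and_false, false_and, or_false] at ha; done)) <;>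
        rcases b with _ | s' | ⟨b, k⟩ <;> (try cases b) <;>
        (try (simp only [TG.dad, VA, G, P, reduceCtorEq, or_self, and_false, false_and, or_false] at hb; done)) <;>
        first
        | exact trivial
        | exact absurd rfl hne
        | exact sc _ _
        | exact cs _ _
        | exact sc2 _ _
        | exact cs2 _ _
        | exact ⟨fun e => hne (by rw [e]), trivial⟩
        | exact Or.inl (Or.inl rfl)
        | exact Or.inr (Or.inl rfl)
        | exact Or.inl (Or.inr (Or.inl rfl))
        | exact Or.inl (Or.inr (Or.inr rfl))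
        | exact pure _ _ _ _ trivial hne
        | (exfalso; simp only [reduceCtorEq, Option.some.injEq, h01, h01.symm] at hk; done)
        | (simp only [Option.some.injEq] at hk; subst hk; exact pure _ _ _ _ trivial hne)
        | (simp only [Option.some.injEq] at hk; subst hk; exact pure _ _ _ _ rfl hne)
        | (simp [TG.dad, VA, G, P] at ha hb; exact pure _ _ _ _ (ha.2.symm.trans hb.2) hne)
        | (simp [TG.dad, VA, G, P] at ha hb; exact pure _ _ _ _ (ha.2.trans hb.2.symm) hne)
        | (simp [TG.dad, VA, G, P] at ha hb; exfalso; apply hne; rw [← ha, ← hb]; done)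
        | (simp [TG.dad, VA, G, P] at ha hb; exfalso; apply hne; rw [← ha.1, ← hb.1]; done)
    · refine ⟨fun _ => none, ?_⟩
      rintro (_ | s | ⟨a, j⟩) b ha hb hk hne <;> (try cases a) <;>
        (try (simp only [TG.dad, VA, G, P, reduceCtorEq, or_self, and_false, false_and, or_false] at ha; done)) <;>
        rcases b with _ | s' | ⟨b, k⟩ <;> (try cases b) <;>
        (try (simp only [TG.dad, VA, G, P, reduceCtorEq, or_self, and_false, false_and, or_false] at hb; done)) <;>
        first
        | exact trivial
        | exact absurd rfl hne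
        | exact sc _ _
        | exact cs _ _
        | exact sc2 _ _
        | exact cs2 _ _
        | exact ⟨fun e => hne (by rw [e]), trivial⟩
        | exact Or.inl (Or.inl rfl)
        | exact Or.inr (Or.inl rfl)
        | exact Or.inl (Or.inr (Or.inl rfl))
        | exact Or.inl (Or.inr (Or.inr rfl))
        | exact pure _ _ _ _ trivial hne
        | (exfalso; simp only [reduceCtorEq, Option.some.injEq, h01, h01.symm] at hk; done)
        | (simp only [Option.some.injEq] at hk; subst hk; exact pure _ _ _ _ trivial hne)
        | (simp only [Option.some.injEq] at hk; subst hk; exact pure _ _ _ _ rfl hne)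
        | (simp [TG.dad, VA, G, P] at ha hb; exact pure _ _ _ _ (ha.2.symm.trans hb.2) hne)
        | (simp [TG.dad, VA, G, P] at ha hb; exact pure _ _ _ _ (ha.2.trans hb.2.symm) hne)
        | (simp [TG.dad, VA, G, P] at ha hb; exfalso; apply hne; rw [← ha, ← hb]; done)
        | (simp [TG.dad, VA, G, P] at ha hb; exfalso; apply hne; rw [← ha.1, ← hb.1]; done)
    · refine ⟨fun _ => none, ?_⟩
      rintro (_ | s | ⟨a, j⟩) b ha hb hk hne <;> (try cases a) <;>
        (try (simp only [TG.dad, VA, G, P, reduceCtorEq, or_self, and_false, false_and, or_false] at ha; done)) <;>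
        rcases b with _ | s' | ⟨b, k⟩ <;> (try cases b) <;>
        (try (simp only [TG.dad, VA, G, P, reduceCtorEq, or_self, and_false, false_and, or_false] at hb; done)) <;>
        first
        | exact trivial
        | exact absurd rfl hne
        | exact sc _ _
        | exact cs _ _
        | exact sc2 _ _
        | exact cs2 _ _
        | exact ⟨fun e => hne (by rw [e]), trivial⟩
        | exact Or.inl (Or.inl rfl)
        | exact Or.inr (Or.inl rfl)
        | exact Or.inl (Or.inr (Or.inl rfl))
        | exact Or.inl (Or.inr (Or.inr rfl))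
        | exact pure _ _ _ _ trivial hne
        | (exfalso; simp only [reduceCtorEq, Option.some.injEq, h01, h01.symm] at hk; done)
        | (simp only [Option.some.injEq] at hk; subst hk; exact pure _ _ _ _ trivial hne)
        | (simp only [Option.some.injEq] at hk; subst hk; exact pure _ _ _ _ rfl hne)
        | (simp [TG.dad, VA, G, P] at ha hb; exact pure _ _ _ _ (ha.2.symm.trans hb.2) hne)
        | (simp [TG.dad, VA, G, P] at ha hb; exact pure _ _ _ _ (ha.2.trans hb.2.symm) hne)
        | (simp [TG.dad, VA, G, P] at ha hb; exfalso; apply hne; rw [← ha, ← hb]; done)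
        | (simp [TG.dad, VA, G, P] at ha hb; exfalso; apply hne; rw [← ha.1, ← hb.1]; done)
    · refine ⟨fun _ => none, ?_⟩
      rintro (_ | s | ⟨a, j⟩) b ha hb hk hne <;> (try cases a) <;>
        (try (simp only [TG.dad, VA, G, P, reduceCtorEq, or_self, and_false, false_and, or_false] at ha; done)) <;>
        rcases b with _ | s' | ⟨b, k⟩ <;> (try cases b) <;>
        (try (simp only [TG.dad, VA, G, P, reduceCtorEq, or_self, and_false, false_and, or_false] at hb; done)) <;>
        first
        | exact trivial
        | exact absurd rfl hne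
        | exact sc _ _
        | exact cs _ _
        | exact sc2 _ _
        | exact cs2 _ _
        | exact ⟨fun e => hne (by rw [e]), trivial⟩
        | exact Or.inl (Or.inl rfl)
        | exact Or.inr (Or.inl rfl)
        | exact Or.inl (Or.inr (Or.inl rfl))
        | exact Or.inl (Or.inr (Or.inr rfl))
        | exact pure _ _ _ _ trivial hne
        | (exfalso; simp only [reduceCtorEq, Option.some.injEq, h01, h01.symm] at hk; done)
        | (simp only [Option.some.injEq] at hk; subst hk; exact pure _ _ _ _ trivial hne)
        | (simp only [Option.some.injEq] at hk; subst hk; exact pure _ _ _ _ rfl hne)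
        | (simp [TG.dad, VA, G, P] at ha hb; exact pure _ _ _ _ (ha.2.symm.trans hb.2) hne)
        | (simp [TG.dad, VA, G, P] at ha hb; exact pure _ _ _ _ (ha.2.trans hb.2.symm) hne)
        | (simp [TG.dad, VA, G, P] at ha hb; exfalso; apply hne; rw [← ha, ← hb]; done)
        | (simp [TG.dad, VA, G, P] at ha hb; exfalso; apply hne; rw [← ha.1, ← hb.1]; done)
    · refine ⟨fun v => match v with
        | .cp w _ => some i0
        | .cp (x _) _ => some i0
        | .cp (d j) _ => some j
        | _ => none, ?_⟩
      rintro (_ | s | ⟨a, j⟩) b ha hb hk hne <;> (try cases a) <;>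
        (try (simp only [TG.dad, VA, G, P, reduceCtorEq, or_self, and_false, false_and, or_false] at ha; done)) <;>
        rcases b with _ | s' | ⟨b, k⟩ <;> (try cases b) <;>
        (try (simp only [TG.dad, VA, G, P, reduceCtorEq, or_self, and_false, false_and, or_false] at hb; done)) <;>
        first
        | exact trivial
        | exact absurd rfl hne
        | exact sc _ _
        | exact cs _ _
        | exact sc2 _ _
        | exact cs2 _ _
        | exact ⟨fun e => hne (by rw [e]), trivial⟩
        | exact Or.inl (Or.inl rfl)
        | exact Or.inr (Or.inl rfl)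
        | exact Or.inl (Or.inr (Or.inl rfl))
        | exact Or.inl (Or.inr (Or.inr rfl))
        | exact pure _ _ _ _ trivial hne
        | (exfalso; simp only [reduceCtorEq, Option.some.injEq, h01, h01.symm] at hk; done)
        | (simp only [Option.some.injEq] at hk; subst hk; exact pure _ _ _ _ trivial hne)
        | (simp only [Option.some.injEq] at hk; subst hk; exact pure _ _ _ _ rfl hne)
        | (simp [TG.dad, VA, G, P] at ha hb; exact pure _ _ _ _ (ha.2.symm.trans hb.2) hne)
        | (simp [TG.dad, VA, G, P] at ha hb; exact pure _ _ _ _ (ha.2.trans hb.2.symm) hne)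
        | (simp [TG.dad, VA, G, P] at ha hb; exfalso; apply hne; rw [← ha, ← hb]; done)
        | (simp [TG.dad, VA, G, P] at ha hb; exfalso; apply hne; rw [← ha.1, ← hb.1]; done)
    · refine ⟨fun v => match v with
        | .cp (x j) _ => some j
        | .cp (d j) _ => some j
        | _ => none, ?_⟩
      rintro (_ | s | ⟨a, j⟩) b ha hb hk hne <;> (try cases a) <;>
        (try (simp only [TG.dad, VA, G, P, reduceCtorEq, or_self, and_false, false_and, or_false] at ha; done)) <;>
        rcases b with _ | s' | ⟨b, k⟩ <;> (try cases b) <;>
        (try (simp only [TG.dad, VA, G, P, reduceCtorEq, or_self, and_false, false_and, or_false] at hb; done)) <;>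
        first
        | exact trivial
        | exact absurd rfl hne
        | exact sc _ _
        | exact cs _ _
        | exact sc2 _ _
        | exact cs2 _ _
        | exact ⟨fun e => hne (by rw [e]), trivial⟩
        | exact Or.inl (Or.inl rfl)
        | exact Or.inr (Or.inl rfl)
        | exact Or.inl (Or.inr (Or.inl rfl))
        | exact Or.inl (Or.inr (Or.inr rfl))
        | exact pure _ _ _ _ trivial hne
        | (exfalso; simp only [reduceCtorEq, Option.some.injEq, h01, h01.symm] at hk; done)
        | (simp only [Option.some.injEq] at hk; subst hk; exact pure _ _ _ _ trivial hne)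
        | (simp only [Option.some.injEq] at hk; subst hk; exact pure _ _ _ _ rfl hne)
        | (simp [TG.dad, VA, G, P] at ha hb; exact pure _ _ _ _ (ha.2.symm.trans hb.2) hne)
        | (simp [TG.dad, VA, G, P] at ha hb; exact pure _ _ _ _ (ha.2.trans hb.2.symm) hne)
        | (simp [TG.dad, VA, G, P] at ha hb; exfalso; apply hne; rw [← ha, ← hb]; done)
        | (simp [TG.dad, VA, G, P] at ha hb; exfalso; apply hne; rw [← ha.1, ← hb.1]; done)

end Pool.Agent.L0h77.HC
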