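import Pool.Agent.L0h77.HC.Main

/-! Type graphs all of whose types are cliques: version with two universal vertices. -/

namespace Pool.Agent.L0h77.HC

open Pool.Agent.H22.CT SimpleGraph Function

variable {m : ℕ} {H : SimpleGraph (Fin m)}

inductive TB (ι : Type)
  | w | t | c1 | c3 | c2 | v | y0 | y1
  | x (i : ι)
  | d (i : ι)

namespace TB

variable {ι : Type}

/-- adjacency of clique types -/
def G : TB ι → TB ι → Prop
  | w, w => True
  | w, t => True
  | t, w => True
  | w, x _ => True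
  | x _, w => True
  | w, d _ => True
  | d _, w => True
  | t, t => True
  | t, d _ => True
  | d _, t => True
  | x i, x j => i = j
  | x _, d _ => True
  | d _, x _ => True
  | d i, d j => i = j
  | c1, c1 => True
  | c1, c3 => True
  | c3, c1 => True
  | c3, c3 => True
  | c2, c2 => True
  | _, _ => False

/-- private adjacency, inside one copy only -/
def P (i0 : ι) : TB ι → TB ι → Prop
  | v, c1 => True
  | c1, v => True
  | v, c3 => True
  | c3, v => True
  | v, c2 => True
  | c2, v => True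
  | v, d _ => True
  | d _, v => True
  | y0, w => True
  | w, y0 => True
  | y0, x i => i = i0
  | x i, y0 => i = i0
  | y1, w => True
  | w, y1 => True
  | _, _ => False

def R : TB ι → Prop
  | w => True
  | c1 => True
  | c3 => True
  | c2 => True
  | v => True
  | _ => False

def A : TB ι → Prop
  | t => True
  | _ => False

/-- adjacency between different copies only -/
def Q : TB ι → TB ι → Prop
  | d _, d _ => True
  | _, _ => False

theorem Q_symm {a b : TB ι} (h : Q a b) : Q b a := by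
  cases a <;> cases b <;> first | exact h | exact h.elim

theorem G_symm {a b : TB ι} (h : G a b) : G b a := by
  cases a <;> cases b <;> first | exact h | exact Eq.symm h | exact h.elim

theorem P_symm {i0 : ι} {a b : TB ι} (h : P i0 a b) : P i0 b a := by
  cases a <;> cases b <;> first | exact h | exact h.elim

instance [Finite ι] : Finite (TB ι) := by
  let g : TB ι → Fin 10 × Option ι := fun a => match a with
    | w => (0, none)
    | t => (1, none)
    | c1 => (2, none)
    | c3 => (3, none)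
    | c2 => (4, none)
    | v => (5, none)
    | y0 => (6, none)
    | y1 => (7, none)
    | x i => (8, some i)
    | d i => (9, some i)
  refine Finite.of_injective g fun a b h => ?_
  cases a <;> cases b <;> simp [g] at h <;> first | rfl | (subst h; rfl)

def rk : TB ι → ℕ
  | w => 2
  | t => 3
  | x _ => 4
  | d _ => 5
  | c1 => 6
  | c3 => 7
  | c2 => 8
  | v => 9
  | y0 => 10
  | y1 => 11

end TB

def VB {ι : Type} (i0 : ι) : TG (TB ι) where
  S a b := TB.G a b ∨ TB.P i0 a b
  C a b := TB.G a b ∨ TB.Q a b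
  R a := TB.R a
  A a := TB.A a
  B _ := False
  ξ := True
  Ss h := h.imp TB.G_symm TB.P_symm
  Cs h := h.imp TB.G_symm TB.Q_symm
  BR h := h.elim

def VB.rk {ι : Type} : Vx (TB ι) → ℕ
  | .root => 0
  | .sel _ => 1
  | .cp a _ => TB.rk a

/-- the common neighbourhood of `c`, `c'` is covered by `card ι + 1` cliques -/
def VB.Cov {ι : Type} (i0 : ι) (inc : ℕ → ℕ × ℕ → Prop) (c c' : Vx (TB ι)) : Prop :=
  ∃ κ : Vx (TB ι) → Option ι, ∀ a b, (VB i0).dad inc c a → (VB i0).dad inc c' a →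
    (VB i0).dad inc c b → (VB i0).dad inc c' b → κ a = κ b → a ≠ b → (VB i0).dad inc a b

theorem VB.pure {ι : Type} {i0 : ι} {inc : ℕ → ℕ × ℕ → Prop} (a b : TB ι) (i j : ℕ × ℕ)
    (h : TB.G a b) (hne : Vx.cp a i ≠ Vx.cp b j) : (VB i0).dad inc (.cp a i) (.cp b j) := by
  by_cases e : i = j
  · exact Or.inl ⟨e, fun e' => hne (by rw [e, e']), Or.inl h⟩
  · exact Or.inr ⟨e, Or.inl h⟩

section
variable {ι : Type} {i0 : ι} {inc : ℕ → ℕ × ℕ → Prop}

def KA (i0 : ι) : Vx (TB ι) → Option ι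
  | .sel _ => some i0
  | .cp .v _ => some i0
  | _ => none
def KB (i0 : ι) : Vx (TB ι) → Option ι
  | .cp .c2 _ => some i0
  | _ => none
def KW : Vx (TB ι) → Option ι
  | .cp (.x j) _ => some j
  | .cp (.d j) _ => some j
  | _ => none
def KX (i0 : ι) : Vx (TB ι) → Option ι
  | .cp .w _ => some i0
  | .cp (.x _) _ => some i0
  | .cp (.d j) _ => some j
  | _ => none
def KT (i0 : ι) : Vx (TB ι) → Option ι
  | .cp .w _ => some i0
  | .cp .t _ => some i0
  | .cp (.d j) _ => some j
  | _ => none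

theorem VB.e01 (s : ℕ) : VB.Cov i0 inc (.root) (.sel s) := by
  refine ⟨KA i0, ?_⟩
  rintro (_ | s | ⟨a, k⟩) b ha ha' hb hb' hk hne <;> (try cases a) <;>
    (try (simp only [TG.dad, VB, TB.G, TB.P, TB.Q, TB.R, TB.A, reduceCtorEq, or_self, and_false, false_and, or_false, false_or] at ha; done)) <;>
    (try (simp only [TG.dad, VB, TB.G, TB.P, TB.Q, TB.R, TB.A, reduceCtorEq, or_self, and_false, false_and, or_false, false_or] at ha'; done)) <;>
    rcases b with _ | s' | ⟨b, l⟩ <;> (try cases b) <;>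
    (try (simp only [TG.dad, VB, TB.G, TB.P, TB.Q, TB.R, TB.A, reduceCtorEq, or_self, and_false, false_and, or_false, false_or] at hb; done)) <;>
    (try (simp only [TG.dad, VB, TB.G, TB.P, TB.Q, TB.R, TB.A, reduceCtorEq, or_self, and_false, false_and, or_false, false_or] at hb'; done)) <;>
    first
    | exact trivial
    | exact absurd rfl hne
    | exact ⟨fun e => hne (by rw [e]), trivial⟩
    | exact Or.inl trivial
    | exact Or.inr trivial
    | exact VB.pure _ _ _ _ trivial hne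
    | (exfalso; simp only [KA, KB, KW, KX, KT, reduceCtorEq] at hk; done)
    | (simp only [KA, KB, KW, KX, KT, Option.some.injEq] at hk; subst hk; exact VB.pure _ _ _ _ trivial hne)
    | (simp only [KA, KB, KW, KX, KT, Option.some.injEq] at hk; subst hk; exact VB.pure _ _ _ _ rfl hne)
    | (simp [TG.dad, VB, TB.G, TB.P, TB.Q] at ha hb; exact VB.pure _ _ _ _ (ha.2.symm.trans hb.2) hne)
    | (simp [TG.dad, VB, TB.G, TB.P, TB.Q] at ha' hb'; exact VB.pure _ _ _ _ (ha'.2.symm.trans hb'.2) hne)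
    | (simp [TG.dad, VB, TB.G, TB.P, TB.Q] at ha hb; exfalso; apply hne; rw [← ha, ← hb]; done)
    | (simp [TG.dad, VB, TB.G, TB.P, TB.Q] at ha' hb'; exfalso; apply hne; rw [← ha', ← hb']; done)
    | (simp [TG.dad, VB, TB.G, TB.P, TB.Q] at ha hb; exfalso; apply hne; rw [← ha.1, ← hb.1]; done)
    | (simp [TG.dad, VB, TB.G, TB.P, TB.Q] at ha' hb'; exfalso; apply hne; rw [← ha'.1, ← hb'.1]; done)
    | (simp [TG.dad, VB, TB.G, TB.P, TB.Q] at ha hb ha' hb'; simp_all; done)

theorem VB.e02 (i : ℕ × ℕ) : VB.Cov i0 inc (.root) (.cp .w i) := by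
  refine ⟨KA i0, ?_⟩
  rintro (_ | s | ⟨a, k⟩) b ha ha' hb hb' hk hne <;> (try cases a) <;>
    (try (simp only [TG.dad, VB, TB.G, TB.P, TB.Q, TB.R, TB.A, reduceCtorEq, or_self, and_false, false_and, or_false, false_or] at ha; done)) <;>
    (try (simp only [TG.dad, VB, TB.G, TB.P, TB.Q, TB.R, TB.A, reduceCtorEq, or_self, and_false, false_and, or_false, false_or] at ha'; done)) <;>
    rcases b with _ | s' | ⟨b, l⟩ <;> (try cases b) <;>
    (try (simp only [TG.dad, VB, TB.G, TB.P, TB.Q, TB.R, TB.A, reduceCtorEq, or_self, and_false, false_and, or_false, false_or] at hb; done)) <;>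
    (try (simp only [TG.dad, VB, TB.G, TB.P, TB.Q, TB.R, TB.A, reduceCtorEq, or_self, and_false, false_and, or_false, false_or] at hb'; done)) <;>
    first
    | exact trivial
    | exact absurd rfl hne
    | exact ⟨fun e => hne (by rw [e]), trivial⟩
    | exact Or.inl trivial
    | exact Or.inr trivial
    | exact VB.pure _ _ _ _ trivial hne
    | (exfalso; simp only [KA, KB, KW, KX, KT, reduceCtorEq] at hk; done)
    | (simp only [KA, KB, KW, KX, KT, Option.some.injEq] at hk; subst hk; exact VB.pure _ _ _ _ trivial hne)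
    | (simp only [KA, KB, KW, KX, KT, Option.some.injEq] at hk; subst hk; exact VB.pure _ _ _ _ rfl hne)
    | (simp [TG.dad, VB, TB.G, TB.P, TB.Q] at ha hb; exact VB.pure _ _ _ _ (ha.2.symm.trans hb.2) hne)
    | (simp [TG.dad, VB, TB.G, TB.P, TB.Q] at ha' hb'; exact VB.pure _ _ _ _ (ha'.2.symm.trans hb'.2) hne)
    | (simp [TG.dad, VB, TB.G, TB.P, TB.Q] at ha hb; exfalso; apply hne; rw [← ha, ← hb]; done)
    | (simp [TG.dad, VB, TB.G, TB.P, TB.Q] at ha' hb'; exfalso; apply hne; rw [← ha', ← hb']; done)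
    | (simp [TG.dad, VB, TB.G, TB.P, TB.Q] at ha hb; exfalso; apply hne; rw [← ha.1, ← hb.1]; done)
    | (simp [TG.dad, VB, TB.G, TB.P, TB.Q] at ha' hb'; exfalso; apply hne; rw [← ha'.1, ← hb'.1]; done)
    | (simp [TG.dad, VB, TB.G, TB.P, TB.Q] at ha hb ha' hb'; simp_all; done)

theorem VB.e03 (i : ℕ × ℕ) : VB.Cov i0 inc (.root) (.cp .t i) := by
  refine ⟨KA i0, ?_⟩
  rintro (_ | s | ⟨a, k⟩) b ha ha' hb hb' hk hne <;> (try cases a) <;>
    (try (simp only [TG.dad, VB, TB.G, TB.P, TB.Q, TB.R, TB.A, reduceCtorEq, or_self, and_false, false_and, or_false, false_or] at ha; done)) <;>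
    (try (simp only [TG.dad, VB, TB.G, TB.P, TB.Q, TB.R, TB.A, reduceCtorEq, or_self, and_false, false_and, or_false, false_or] at ha'; done)) <;>
    rcases b with _ | s' | ⟨b, l⟩ <;> (try cases b) <;>
    (try (simp only [TG.dad, VB, TB.G, TB.P, TB.Q, TB.R, TB.A, reduceCtorEq, or_self, and_false, false_and, or_false, false_or] at hb; done)) <;>
    (try (simp only [TG.dad, VB, TB.G, TB.P, TB.Q, TB.R, TB.A, reduceCtorEq, or_self, and_false, false_and, or_false, false_or] at hb'; done)) <;>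
    first
    | exact trivial
    | exact absurd rfl hne
    | exact ⟨fun e => hne (by rw [e]), trivial⟩
    | exact Or.inl trivial
    | exact Or.inr trivial
    | exact VB.pure _ _ _ _ trivial hne
    | (exfalso; simp only [KA, KB, KW, KX, KT, reduceCtorEq] at hk; done)
    | (simp only [KA, KB, KW, KX, KT, Option.some.injEq] at hk; subst hk; exact VB.pure _ _ _ _ trivial hne)
    | (simp only [KA, KB, KW, KX, KT, Option.some.injEq] at hk; subst hk; exact VB.pure _ _ _ _ rfl hne)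
    | (simp [TG.dad, VB, TB.G, TB.P, TB.Q] at ha hb; exact VB.pure _ _ _ _ (ha.2.symm.trans hb.2) hne)
    | (simp [TG.dad, VB, TB.G, TB.P, TB.Q] at ha' hb'; exact VB.pure _ _ _ _ (ha'.2.symm.trans hb'.2) hne)
    | (simp [TG.dad, VB, TB.G, TB.P, TB.Q] at ha hb; exfalso; apply hne; rw [← ha, ← hb]; done)
    | (simp [TG.dad, VB, TB.G, TB.P, TB.Q] at ha' hb'; exfalso; apply hne; rw [← ha', ← hb']; done)
    | (simp [TG.dad, VB, TB.G, TB.P, TB.Q] at ha hb; exfalso; apply hne; rw [← ha.1, ← hb.1]; done)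
    | (simp [TG.dad, VB, TB.G, TB.P, TB.Q] at ha' hb'; exfalso; apply hne; rw [← ha'.1, ← hb'.1]; done)
    | (simp [TG.dad, VB, TB.G, TB.P, TB.Q] at ha hb ha' hb'; simp_all; done)

theorem VB.e04 (i : ℕ × ℕ) : VB.Cov i0 inc (.root) (.cp .c1 i) := by
  refine ⟨KA i0, ?_⟩
  rintro (_ | s | ⟨a, k⟩) b ha ha' hb hb' hk hne <;> (try cases a) <;>
    (try (simp only [TG.dad, VB, TB.G, TB.P, TB.Q, TB.R, TB.A, reduceCtorEq, or_self, and_false, false_and, or_false, false_or] at ha; done)) <;>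
    (try (simp only [TG.dad, VB, TB.G, TB.P, TB.Q, TB.R, TB.A, reduceCtorEq, or_self, and_false, false_and, or_false, false_or] at ha'; done)) <;>
    rcases b with _ | s' | ⟨b, l⟩ <;> (try cases b) <;>
    (try (simp only [TG.dad, VB, TB.G, TB.P, TB.Q, TB.R, TB.A, reduceCtorEq, or_self, and_false, false_and, or_false, false_or] at hb; done)) <;>
    (try (simp only [TG.dad, VB, TB.G, TB.P, TB.Q, TB.R, TB.A, reduceCtorEq, or_self, and_false, false_and, or_false, false_or] at hb'; done)) <;>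
    first
    | exact trivial
    | exact absurd rfl hne
    | exact ⟨fun e => hne (by rw [e]), trivial⟩
    | exact Or.inl trivial
    | exact Or.inr trivial
    | exact VB.pure _ _ _ _ trivial hne
    | (exfalso; simp only [KA, KB, KW, KX, KT, reduceCtorEq] at hk; done)
    | (simp only [KA, KB, KW, KX, KT, Option.some.injEq] at hk; subst hk; exact VB.pure _ _ _ _ trivial hne)
    | (simp only [KA, KB, KW, KX, KT, Option.some.injEq] at hk; subst hk; exact VB.pure _ _ _ _ rfl hne)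
    | (simp [TG.dad, VB, TB.G, TB.P, TB.Q] at ha hb; exact VB.pure _ _ _ _ (ha.2.symm.trans hb.2) hne)
    | (simp [TG.dad, VB, TB.G, TB.P, TB.Q] at ha' hb'; exact VB.pure _ _ _ _ (ha'.2.symm.trans hb'.2) hne)
    | (simp [TG.dad, VB, TB.G, TB.P, TB.Q] at ha hb; exfalso; apply hne; rw [← ha, ← hb]; done)
    | (simp [TG.dad, VB, TB.G, TB.P, TB.Q] at ha' hb'; exfalso; apply hne; rw [← ha', ← hb']; done)
    | (simp [TG.dad, VB, TB.G, TB.P, TB.Q] at ha hb; exfalso; apply hne; rw [← ha.1, ← hb.1]; done)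
    | (simp [TG.dad, VB, TB.G, TB.P, TB.Q] at ha' hb'; exfalso; apply hne; rw [← ha'.1, ← hb'.1]; done)
    | (simp [TG.dad, VB, TB.G, TB.P, TB.Q] at ha hb ha' hb'; simp_all; done)

theorem VB.e05 (i : ℕ × ℕ) : VB.Cov i0 inc (.root) (.cp .c3 i) := by
  refine ⟨KA i0, ?_⟩
  rintro (_ | s | ⟨a, k⟩) b ha ha' hb hb' hk hne <;> (try cases a) <;>
    (try (simp only [TG.dad, VB, TB.G, TB.P, TB.Q, TB.R, TB.A, reduceCtorEq, or_self, and_false, false_and, or_false, false_or] at ha; done)) <;>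
    (try (simp only [TG.dad, VB, TB.G, TB.P, TB.Q, TB.R, TB.A, reduceCtorEq, or_self, and_false, false_and, or_false, false_or] at ha'; done)) <;>
    rcases b with _ | s' | ⟨b, l⟩ <;> (try cases b) <;>
    (try (simp only [TG.dad, VB, TB.G, TB.P, TB.Q, TB.R, TB.A, reduceCtorEq, or_self, and_false, false_and, or_false, false_or] at hb; done)) <;>
    (try (simp only [TG.dad, VB, TB.G, TB.P, TB.Q, TB.R, TB.A, reduceCtorEq, or_self, and_false, false_and, or_false, false_or] at hb'; done)) <;>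
    first
    | exact trivial
    | exact absurd rfl hne
    | exact ⟨fun e => hne (by rw [e]), trivial⟩
    | exact Or.inl trivial
    | exact Or.inr trivial
    | exact VB.pure _ _ _ _ trivial hne
    | (exfalso; simp only [KA, KB, KW, KX, KT, reduceCtorEq] at hk; done)
    | (simp only [KA, KB, KW, KX, KT, Option.some.injEq] at hk; subst hk; exact VB.pure _ _ _ _ trivial hne)
    | (simp only [KA, KB, KW, KX, KT, Option.some.injEq] at hk; subst hk; exact VB.pure _ _ _ _ rfl hne)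
    | (simp [TG.dad, VB, TB.G, TB.P, TB.Q] at ha hb; exact VB.pure _ _ _ _ (ha.2.symm.trans hb.2) hne)
    | (simp [TG.dad, VB, TB.G, TB.P, TB.Q] at ha' hb'; exact VB.pure _ _ _ _ (ha'.2.symm.trans hb'.2) hne)
    | (simp [TG.dad, VB, TB.G, TB.P, TB.Q] at ha hb; exfalso; apply hne; rw [← ha, ← hb]; done)
    | (simp [TG.dad, VB, TB.G, TB.P, TB.Q] at ha' hb'; exfalso; apply hne; rw [← ha', ← hb']; done)
    | (simp [TG.dad, VB, TB.G, TB.P, TB.Q] at ha hb; exfalso; apply hne; rw [← ha.1, ← hb.1]; done)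
    | (simp [TG.dad, VB, TB.G, TB.P, TB.Q] at ha' hb'; exfalso; apply hne; rw [← ha'.1, ← hb'.1]; done)
    | (simp [TG.dad, VB, TB.G, TB.P, TB.Q] at ha hb ha' hb'; simp_all; done)

theorem VB.e06 (i : ℕ × ℕ) : VB.Cov i0 inc (.root) (.cp .c2 i) := by
  refine ⟨KA i0, ?_⟩
  rintro (_ | s | ⟨a, k⟩) b ha ha' hb hb' hk hne <;> (try cases a) <;>
    (try (simp only [TG.dad, VB, TB.G, TB.P, TB.Q, TB.R, TB.A, reduceCtorEq, or_self, and_false, false_and, or_false, false_or] at ha; done)) <;>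
    (try (simp only [TG.dad, VB, TB.G, TB.P, TB.Q, TB.R, TB.A, reduceCtorEq, or_self, and_false, false_and, or_false, false_or] at ha'; done)) <;>
    rcases b with _ | s' | ⟨b, l⟩ <;> (try cases b) <;>
    (try (simp only [TG.dad, VB, TB.G, TB.P, TB.Q, TB.R, TB.A, reduceCtorEq, or_self, and_false, false_and, or_false, false_or] at hb; done)) <;>
    (try (simp only [TG.dad, VB, TB.G, TB.P, TB.Q, TB.R, TB.A, reduceCtorEq, or_self, and_false, false_and, or_false, false_or] at hb'; done)) <;>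
    first
    | exact trivial
    | exact absurd rfl hne
    | exact ⟨fun e => hne (by rw [e]), trivial⟩
    | exact Or.inl trivial
    | exact Or.inr trivial
    | exact VB.pure _ _ _ _ trivial hne
    | (exfalso; simp only [KA, KB, KW, KX, KT, reduceCtorEq] at hk; done)
    | (simp only [KA, KB, KW, KX, KT, Option.some.injEq] at hk; subst hk; exact VB.pure _ _ _ _ trivial hne)
    | (simp only [KA, KB, KW, KX, KT, Option.some.injEq] at hk; subst hk; exact VB.pure _ _ _ _ rfl hne)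
    | (simp [TG.dad, VB, TB.G, TB.P, TB.Q] at ha hb; exact VB.pure _ _ _ _ (ha.2.symm.trans hb.2) hne)
    | (simp [TG.dad, VB, TB.G, TB.P, TB.Q] at ha' hb'; exact VB.pure _ _ _ _ (ha'.2.symm.trans hb'.2) hne)
    | (simp [TG.dad, VB, TB.G, TB.P, TB.Q] at ha hb; exfalso; apply hne; rw [← ha, ← hb]; done)
    | (simp [TG.dad, VB, TB.G, TB.P, TB.Q] at ha' hb'; exfalso; apply hne; rw [← ha', ← hb']; done)
    | (simp [TG.dad, VB, TB.G, TB.P, TB.Q] at ha hb; exfalso; apply hne; rw [← ha.1, ← hb.1]; done)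
    | (simp [TG.dad, VB, TB.G, TB.P, TB.Q] at ha' hb'; exfalso; apply hne; rw [← ha'.1, ← hb'.1]; done)
    | (simp [TG.dad, VB, TB.G, TB.P, TB.Q] at ha hb ha' hb'; simp_all; done)

theorem VB.e07 (i : ℕ × ℕ) : VB.Cov i0 inc (.root) (.cp .v i) := by
  refine ⟨KB i0, ?_⟩
  rintro (_ | s | ⟨a, k⟩) b ha ha' hb hb' hk hne <;> (try cases a) <;>
    (try (simp only [TG.dad, VB, TB.G, TB.P, TB.Q, TB.R, TB.A, reduceCtorEq, or_self, and_false, false_and, or_false, false_or] at ha; done)) <;>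
    (try (simp only [TG.dad, VB, TB.G, TB.P, TB.Q, TB.R, TB.A, reduceCtorEq, or_self, and_false, false_and, or_false, false_or] at ha'; done)) <;>
    rcases b with _ | s' | ⟨b, l⟩ <;> (try cases b) <;>
    (try (simp only [TG.dad, VB, TB.G, TB.P, TB.Q, TB.R, TB.A, reduceCtorEq, or_self, and_false, false_and, or_false, false_or] at hb; done)) <;>
    (try (simp only [TG.dad, VB, TB.G, TB.P, TB.Q, TB.R, TB.A, reduceCtorEq, or_self, and_false, false_and, or_false, false_or] at hb'; done)) <;>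
    first
    | exact trivial
    | exact absurd rfl hne
    | exact ⟨fun e => hne (by rw [e]), trivial⟩
    | exact Or.inl trivial
    | exact Or.inr trivial
    | exact VB.pure _ _ _ _ trivial hne
    | (exfalso; simp only [KA, KB, KW, KX, KT, reduceCtorEq] at hk; done)
    | (simp only [KA, KB, KW, KX, KT, Option.some.injEq] at hk; subst hk; exact VB.pure _ _ _ _ trivial hne)
    | (simp only [KA, KB, KW, KX, KT, Option.some.injEq] at hk; subst hk; exact VB.pure _ _ _ _ rfl hne)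
    | (simp [TG.dad, VB, TB.G, TB.P, TB.Q] at ha hb; exact VB.pure _ _ _ _ (ha.2.symm.trans hb.2) hne)
    | (simp [TG.dad, VB, TB.G, TB.P, TB.Q] at ha' hb'; exact VB.pure _ _ _ _ (ha'.2.symm.trans hb'.2) hne)
    | (simp [TG.dad, VB, TB.G, TB.P, TB.Q] at ha hb; exfalso; apply hne; rw [← ha, ← hb]; done)
    | (simp [TG.dad, VB, TB.G, TB.P, TB.Q] at ha' hb'; exfalso; apply hne; rw [← ha', ← hb']; done)
    | (simp [TG.dad, VB, TB.G, TB.P, TB.Q] at ha hb; exfalso; apply hne; rw [← ha.1, ← hb.1]; done)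
    | (simp [TG.dad, VB, TB.G, TB.P, TB.Q] at ha' hb'; exfalso; apply hne; rw [← ha'.1, ← hb'.1]; done)
    | (simp [TG.dad, VB, TB.G, TB.P, TB.Q] at ha hb ha' hb'; simp_all; done)

theorem VB.e11 (s s0 : ℕ) : VB.Cov i0 inc (.sel s) (.sel s0) := by
  refine ⟨KA i0, ?_⟩
  rintro (_ | s | ⟨a, k⟩) b ha ha' hb hb' hk hne <;> (try cases a) <;>
    (try (simp only [TG.dad, VB, TB.G, TB.P, TB.Q, TB.R, TB.A, reduceCtorEq, or_self, and_false, false_and, or_false, false_or] at ha; done)) <;>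
    (try (simp only [TG.dad, VB, TB.G, TB.P, TB.Q, TB.R, TB.A, reduceCtorEq, or_self, and_false, false_and, or_false, false_or] at ha'; done)) <;>
    rcases b with _ | s' | ⟨b, l⟩ <;> (try cases b) <;>
    (try (simp only [TG.dad, VB, TB.G, TB.P, TB.Q, TB.R, TB.A, reduceCtorEq, or_self, and_false, false_and, or_false, false_or] at hb; done)) <;>
    (try (simp only [TG.dad, VB, TB.G, TB.P, TB.Q, TB.R, TB.A, reduceCtorEq, or_self, and_false, false_and, or_false, false_or] at hb'; done)) <;>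
    first
    | exact trivial
    | exact absurd rfl hne
    | exact ⟨fun e => hne (by rw [e]), trivial⟩
    | exact Or.inl trivial
    | exact Or.inr trivial
    | exact VB.pure _ _ _ _ trivial hne
    | (exfalso; simp only [KA, KB, KW, KX, KT, reduceCtorEq] at hk; done)
    | (simp only [KA, KB, KW, KX, KT, Option.some.injEq] at hk; subst hk; exact VB.pure _ _ _ _ trivial hne)
    | (simp only [KA, KB, KW, KX, KT, Option.some.injEq] at hk; subst hk; exact VB.pure _ _ _ _ rfl hne)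
    | (simp [TG.dad, VB, TB.G, TB.P, TB.Q] at ha hb; exact VB.pure _ _ _ _ (ha.2.symm.trans hb.2) hne)
    | (simp [TG.dad, VB, TB.G, TB.P, TB.Q] at ha' hb'; exact VB.pure _ _ _ _ (ha'.2.symm.trans hb'.2) hne)
    | (simp [TG.dad, VB, TB.G, TB.P, TB.Q] at ha hb; exfalso; apply hne; rw [← ha, ← hb]; done)
    | (simp [TG.dad, VB, TB.G, TB.P, TB.Q] at ha' hb'; exfalso; apply hne; rw [← ha', ← hb']; done)
    | (simp [TG.dad, VB, TB.G, TB.P, TB.Q] at ha hb; exfalso; apply hne; rw [← ha.1, ← hb.1]; done)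
    | (simp [TG.dad, VB, TB.G, TB.P, TB.Q] at ha' hb'; exfalso; apply hne; rw [← ha'.1, ← hb'.1]; done)
    | (simp [TG.dad, VB, TB.G, TB.P, TB.Q] at ha hb ha' hb'; simp_all; done)

theorem VB.e13 (s : ℕ) (i : ℕ × ℕ) : VB.Cov i0 inc (.sel s) (.cp .t i) := by
  refine ⟨KA i0, ?_⟩
  rintro (_ | s | ⟨a, k⟩) b ha ha' hb hb' hk hne <;> (try cases a) <;>
    (try (simp only [TG.dad, VB, TB.G, TB.P, TB.Q, TB.R, TB.A, reduceCtorEq, or_self, and_false, false_and, or_false, false_or] at ha; done)) <;>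
    (try (simp only [TG.dad, VB, TB.G, TB.P, TB.Q, TB.R, TB.A, reduceCtorEq, or_self, and_false, false_and, or_false, false_or] at ha'; done)) <;>
    rcases b with _ | s' | ⟨b, l⟩ <;> (try cases b) <;>
    (try (simp only [TG.dad, VB, TB.G, TB.P, TB.Q, TB.R, TB.A, reduceCtorEq, or_self, and_false, false_and, or_false, false_or] at hb; done)) <;>
    (try (simp only [TG.dad, VB, TB.G, TB.P, TB.Q, TB.R, TB.A, reduceCtorEq, or_self, and_false, false_and, or_false, false_or] at hb'; done)) <;>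
    first
    | exact trivial
    | exact absurd rfl hne
    | exact ⟨fun e => hne (by rw [e]), trivial⟩
    | exact Or.inl trivial
    | exact Or.inr trivial
    | exact VB.pure _ _ _ _ trivial hne
    | (exfalso; simp only [KA, KB, KW, KX, KT, reduceCtorEq] at hk; done)
    | (simp only [KA, KB, KW, KX, KT, Option.some.injEq] at hk; subst hk; exact VB.pure _ _ _ _ trivial hne)
    | (simp only [KA, KB, KW, KX, KT, Option.some.injEq] at hk; subst hk; exact VB.pure _ _ _ _ rfl hne)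
    | (simp [TG.dad, VB, TB.G, TB.P, TB.Q] at ha hb; exact VB.pure _ _ _ _ (ha.2.symm.trans hb.2) hne)
    | (simp [TG.dad, VB, TB.G, TB.P, TB.Q] at ha' hb'; exact VB.pure _ _ _ _ (ha'.2.symm.trans hb'.2) hne)
    | (simp [TG.dad, VB, TB.G, TB.P, TB.Q] at ha hb; exfalso; apply hne; rw [← ha, ← hb]; done)
    | (simp [TG.dad, VB, TB.G, TB.P, TB.Q] at ha' hb'; exfalso; apply hne; rw [← ha', ← hb']; done)
    | (simp [TG.dad, VB, TB.G, TB.P, TB.Q] at ha hb; exfalso; apply hne; rw [← ha.1, ← hb.1]; done)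
    | (simp [TG.dad, VB, TB.G, TB.P, TB.Q] at ha' hb'; exfalso; apply hne; rw [← ha'.1, ← hb'.1]; done)
    | (simp [TG.dad, VB, TB.G, TB.P, TB.Q] at ha hb ha' hb'; simp_all; done)

theorem VB.eww (i j : ℕ × ℕ) (hij : i ≠ j) : VB.Cov i0 inc (.cp .w i) (.cp .w j) := by
  refine ⟨KW, ?_⟩
  rintro (_ | s | ⟨a, k⟩) b ha ha' hb hb' hk hne <;> (try cases a) <;>
    (try (simp only [TG.dad, VB, TB.G, TB.P, TB.Q, TB.R, TB.A, reduceCtorEq, or_self, and_false, false_and, or_false, false_or] at ha; done)) <;>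
    (try (simp only [TG.dad, VB, TB.G, TB.P, TB.Q, TB.R, TB.A, reduceCtorEq, or_self, and_false, false_and, or_false, false_or] at ha'; done)) <;>
    rcases b with _ | s' | ⟨b, l⟩ <;> (try cases b) <;>
    (try (simp only [TG.dad, VB, TB.G, TB.P, TB.Q, TB.R, TB.A, reduceCtorEq, or_self, and_false, false_and, or_false, false_or] at hb; done)) <;>
    (try (simp only [TG.dad, VB, TB.G, TB.P, TB.Q, TB.R, TB.A, reduceCtorEq, or_self, and_false, false_and, or_false, false_or] at hb'; done)) <;>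
    first
    | exact trivial
    | exact absurd rfl hne
    | exact ⟨fun e => hne (by rw [e]), trivial⟩
    | exact Or.inl trivial
    | exact Or.inr trivial
    | exact VB.pure _ _ _ _ trivial hne
    | (exfalso; simp only [KA, KB, KW, KX, KT, reduceCtorEq] at hk; done)
    | (simp only [KA, KB, KW, KX, KT, Option.some.injEq] at hk; subst hk; exact VB.pure _ _ _ _ trivial hne)
    | (simp only [KA, KB, KW, KX, KT, Option.some.injEq] at hk; subst hk; exact VB.pure _ _ _ _ rfl hne)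
    | (simp [TG.dad, VB, TB.G, TB.P, TB.Q] at ha hb; exact VB.pure _ _ _ _ (ha.2.symm.trans hb.2) hne)
    | (simp [TG.dad, VB, TB.G, TB.P, TB.Q] at ha' hb'; exact VB.pure _ _ _ _ (ha'.2.symm.trans hb'.2) hne)
    | (simp [TG.dad, VB, TB.G, TB.P, TB.Q] at ha hb; exfalso; apply hne; rw [← ha, ← hb]; done)
    | (simp [TG.dad, VB, TB.G, TB.P, TB.Q] at ha' hb'; exfalso; apply hne; rw [← ha', ← hb']; done)
    | (simp [TG.dad, VB, TB.G, TB.P, TB.Q] at ha hb; exfalso; apply hne; rw [← ha.1, ← hb.1]; done)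
    | (simp [TG.dad, VB, TB.G, TB.P, TB.Q] at ha' hb'; exfalso; apply hne; rw [← ha'.1, ← hb'.1]; done)
    | (simp [TG.dad, VB, TB.G, TB.P, TB.Q] at ha hb ha' hb'; simp_all; done)

theorem VB.ewt (i j : ℕ × ℕ) : VB.Cov i0 inc (.cp .w i) (.cp .t j) := by
  refine ⟨KW, ?_⟩
  rintro (_ | s | ⟨a, k⟩) b ha ha' hb hb' hk hne <;> (try cases a) <;>
    (try (simp only [TG.dad, VB, TB.G, TB.P, TB.Q, TB.R, TB.A, reduceCtorEq, or_self, and_false, false_and, or_false, false_or] at ha; done)) <;>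
    (try (simp only [TG.dad, VB, TB.G, TB.P, TB.Q, TB.R, TB.A, reduceCtorEq, or_self, and_false, false_and, or_false, false_or] at ha'; done)) <;>
    rcases b with _ | s' | ⟨b, l⟩ <;> (try cases b) <;>
    (try (simp only [TG.dad, VB, TB.G, TB.P, TB.Q, TB.R, TB.A, reduceCtorEq, or_self, and_false, false_and, or_false, false_or] at hb; done)) <;>
    (try (simp only [TG.dad, VB, TB.G, TB.P, TB.Q, TB.R, TB.A, reduceCtorEq, or_self, and_false, false_and, or_false, false_or] at hb'; done)) <;>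
    first
    | exact trivial
    | exact absurd rfl hne
    | exact ⟨fun e => hne (by rw [e]), trivial⟩
    | exact Or.inl trivial
    | exact Or.inr trivial
    | exact VB.pure _ _ _ _ trivial hne
    | (exfalso; simp only [KA, KB, KW, KX, KT, reduceCtorEq] at hk; done)
    | (simp only [KA, KB, KW, KX, KT, Option.some.injEq] at hk; subst hk; exact VB.pure _ _ _ _ trivial hne)
    | (simp only [KA, KB, KW, KX, KT, Option.some.injEq] at hk; subst hk; exact VB.pure _ _ _ _ rfl hne)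
    | (simp [TG.dad, VB, TB.G, TB.P, TB.Q] at ha hb; exact VB.pure _ _ _ _ (ha.2.symm.trans hb.2) hne)
    | (simp [TG.dad, VB, TB.G, TB.P, TB.Q] at ha' hb'; exact VB.pure _ _ _ _ (ha'.2.symm.trans hb'.2) hne)
    | (simp [TG.dad, VB, TB.G, TB.P, TB.Q] at ha hb; exfalso; apply hne; rw [← ha, ← hb]; done)
    | (simp [TG.dad, VB, TB.G, TB.P, TB.Q] at ha' hb'; exfalso; apply hne; rw [← ha', ← hb']; done)
    | (simp [TG.dad, VB, TB.G, TB.P, TB.Q] at ha hb; exfalso; apply hne; rw [← ha.1, ← hb.1]; done)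
    | (simp [TG.dad, VB, TB.G, TB.P, TB.Q] at ha' hb'; exfalso; apply hne; rw [← ha'.1, ← hb'.1]; done)
    | (simp [TG.dad, VB, TB.G, TB.P, TB.Q] at ha hb ha' hb'; simp_all; done)

theorem VB.ewx (i j : ℕ × ℕ) (p : ι) : VB.Cov i0 inc (.cp .w i) (.cp (.x p) j) := by
  refine ⟨KX i0, ?_⟩
  rintro (_ | s | ⟨a, k⟩) b ha ha' hb hb' hk hne <;> (try cases a) <;>
    (try (simp only [TG.dad, VB, TB.G, TB.P, TB.Q, TB.R, TB.A, reduceCtorEq, or_self, and_false, false_and, or_false, false_or] at ha; done)) <;>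
    (try (simp only [TG.dad, VB, TB.G, TB.P, TB.Q, TB.R, TB.A, reduceCtorEq, or_self, and_false, false_and, or_false, false_or] at ha'; done)) <;>
    rcases b with _ | s' | ⟨b, l⟩ <;> (try cases b) <;>
    (try (simp only [TG.dad, VB, TB.G, TB.P, TB.Q, TB.R, TB.A, reduceCtorEq, or_self, and_false, false_and, or_false, false_or] at hb; done)) <;>
    (try (simp only [TG.dad, VB, TB.G, TB.P, TB.Q, TB.R, TB.A, reduceCtorEq, or_self, and_false, false_and, or_false, false_or] at hb'; done)) <;>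
    first
    | exact trivial
    | exact absurd rfl hne
    | exact ⟨fun e => hne (by rw [e]), trivial⟩
    | exact Or.inl trivial
    | exact Or.inr trivial
    | exact VB.pure _ _ _ _ trivial hne
    | (exfalso; simp only [KA, KB, KW, KX, KT, reduceCtorEq] at hk; done)
    | (simp only [KA, KB, KW, KX, KT, Option.some.injEq] at hk; subst hk; exact VB.pure _ _ _ _ trivial hne)
    | (simp only [KA, KB, KW, KX, KT, Option.some.injEq] at hk; subst hk; exact VB.pure _ _ _ _ rfl hne)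
    | (simp [TG.dad, VB, TB.G, TB.P, TB.Q] at ha hb; exact VB.pure _ _ _ _ (ha.2.symm.trans hb.2) hne)
    | (simp [TG.dad, VB, TB.G, TB.P, TB.Q] at ha' hb'; exact VB.pure _ _ _ _ (ha'.2.symm.trans hb'.2) hne)
    | (simp [TG.dad, VB, TB.G, TB.P, TB.Q] at ha hb; exfalso; apply hne; rw [← ha, ← hb]; done)
    | (simp [TG.dad, VB, TB.G, TB.P, TB.Q] at ha' hb'; exfalso; apply hne; rw [← ha', ← hb']; done)
    | (simp [TG.dad, VB, TB.G, TB.P, TB.Q] at ha hb; exfalso; apply hne; rw [← ha.1, ← hb.1]; done)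
    | (simp [TG.dad, VB, TB.G, TB.P, TB.Q] at ha' hb'; exfalso; apply hne; rw [← ha'.1, ← hb'.1]; done)
    | (simp [TG.dad, VB, TB.G, TB.P, TB.Q] at ha hb ha' hb'; simp_all; done)

theorem VB.ewd (i j : ℕ × ℕ) (p : ι) : VB.Cov i0 inc (.cp .w i) (.cp (.d p) j) := by
  refine ⟨KW, ?_⟩
  rintro (_ | s | ⟨a, k⟩) b ha ha' hb hb' hk hne <;> (try cases a) <;>
    (try (simp only [TG.dad, VB, TB.G, TB.P, TB.Q, TB.R, TB.A, reduceCtorEq, or_self, and_false, false_and, or_false, false_or] at ha; done)) <;>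
    (try (simp only [TG.dad, VB, TB.G, TB.P, TB.Q, TB.R, TB.A, reduceCtorEq, or_self, and_false, false_and, or_false, false_or] at ha'; done)) <;>
    rcases b with _ | s' | ⟨b, l⟩ <;> (try cases b) <;>
    (try (simp only [TG.dad, VB, TB.G, TB.P, TB.Q, TB.R, TB.A, reduceCtorEq, or_self, and_false, false_and, or_false, false_or] at hb; done)) <;>
    (try (simp only [TG.dad, VB, TB.G, TB.P, TB.Q, TB.R, TB.A, reduceCtorEq, or_self, and_false, false_and, or_false, false_or] at hb'; done)) <;>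
    first
    | exact trivial
    | exact absurd rfl hne
    | exact ⟨fun e => hne (by rw [e]), trivial⟩
    | exact Or.inl trivial
    | exact Or.inr trivial
    | exact VB.pure _ _ _ _ trivial hne
    | (exfalso; simp only [KA, KB, KW, KX, KT, reduceCtorEq] at hk; done)
    | (simp only [KA, KB, KW, KX, KT, Option.some.injEq] at hk; subst hk; exact VB.pure _ _ _ _ trivial hne)
    | (simp only [KA, KB, KW, KX, KT, Option.some.injEq] at hk; subst hk; exact VB.pure _ _ _ _ rfl hne)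
    | (simp [TG.dad, VB, TB.G, TB.P, TB.Q] at ha hb; exact VB.pure _ _ _ _ (ha.2.symm.trans hb.2) hne)
    | (simp [TG.dad, VB, TB.G, TB.P, TB.Q] at ha' hb'; exact VB.pure _ _ _ _ (ha'.2.symm.trans hb'.2) hne)
    | (simp [TG.dad, VB, TB.G, TB.P, TB.Q] at ha hb; exfalso; apply hne; rw [← ha, ← hb]; done)
    | (simp [TG.dad, VB, TB.G, TB.P, TB.Q] at ha' hb'; exfalso; apply hne; rw [← ha', ← hb']; done)
    | (simp [TG.dad, VB, TB.G, TB.P, TB.Q] at ha hb; exfalso; apply hne; rw [← ha.1, ← hb.1]; done)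
    | (simp [TG.dad, VB, TB.G, TB.P, TB.Q] at ha' hb'; exfalso; apply hne; rw [← ha'.1, ← hb'.1]; done)
    | (simp [TG.dad, VB, TB.G, TB.P, TB.Q] at ha hb ha' hb'; simp_all; done)

theorem VB.ewy0 (i j : ℕ × ℕ) : VB.Cov i0 inc (.cp .w i) (.cp .y0 j) := by
  refine ⟨KX i0, ?_⟩
  rintro (_ | s | ⟨a, k⟩) b ha ha' hb hb' hk hne <;> (try cases a) <;>
    (try (simp only [TG.dad, VB, TB.G, TB.P, TB.Q, TB.R, TB.A, reduceCtorEq, or_self, and_false, false_and, or_false, false_or] at ha; done)) <;>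
    (try (simp only [TG.dad, VB, TB.G, TB.P, TB.Q, TB.R, TB.A, reduceCtorEq, or_self, and_false, false_and, or_false, false_or] at ha'; done)) <;>
    rcases b with _ | s' | ⟨b, l⟩ <;> (try cases b) <;>
    (try (simp only [TG.dad, VB, TB.G, TB.P, TB.Q, TB.R, TB.A, reduceCtorEq, or_self, and_false, false_and, or_false, false_or] at hb; done)) <;>
    (try (simp only [TG.dad, VB, TB.G, TB.P, TB.Q, TB.R, TB.A, reduceCtorEq, or_self, and_false, false_and, or_false, false_or] at hb'; done)) <;>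
    first
    | exact trivial
    | exact absurd rfl hne
    | exact ⟨fun e => hne (by rw [e]), trivial⟩
    | exact Or.inl trivial
    | exact Or.inr trivial
    | exact VB.pure _ _ _ _ trivial hne
    | (exfalso; simp only [KA, KB, KW, KX, KT, reduceCtorEq] at hk; done)
    | (simp only [KA, KB, KW, KX, KT, Option.some.injEq] at hk; subst hk; exact VB.pure _ _ _ _ trivial hne)
    | (simp only [KA, KB, KW, KX, KT, Option.some.injEq] at hk; subst hk; exact VB.pure _ _ _ _ rfl hne)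
    | (simp [TG.dad, VB, TB.G, TB.P, TB.Q] at ha hb; exact VB.pure _ _ _ _ (ha.2.symm.trans hb.2) hne)
    | (simp [TG.dad, VB, TB.G, TB.P, TB.Q] at ha' hb'; exact VB.pure _ _ _ _ (ha'.2.symm.trans hb'.2) hne)
    | (simp [TG.dad, VB, TB.G, TB.P, TB.Q] at ha hb; exfalso; apply hne; rw [← ha, ← hb]; done)
    | (simp [TG.dad, VB, TB.G, TB.P, TB.Q] at ha' hb'; exfalso; apply hne; rw [← ha', ← hb']; done)
    | (simp [TG.dad, VB, TB.G, TB.P, TB.Q] at ha hb; exfalso; apply hne; rw [← ha.1, ← hb.1]; done)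
    | (simp [TG.dad, VB, TB.G, TB.P, TB.Q] at ha' hb'; exfalso; apply hne; rw [← ha'.1, ← hb'.1]; done)
    | (simp [TG.dad, VB, TB.G, TB.P, TB.Q] at ha hb ha' hb'; simp_all; done)

theorem VB.ewy1 (i j : ℕ × ℕ) : VB.Cov i0 inc (.cp .w i) (.cp .y1 j) := by
  refine ⟨KX i0, ?_⟩
  rintro (_ | s | ⟨a, k⟩) b ha ha' hb hb' hk hne <;> (try cases a) <;>
    (try (simp only [TG.dad, VB, TB.G, TB.P, TB.Q, TB.R, TB.A, reduceCtorEq, or_self, and_false, false_and, or_false, false_or] at ha; done)) <;>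
    (try (simp only [TG.dad, VB, TB.G, TB.P, TB.Q, TB.R, TB.A, reduceCtorEq, or_self, and_false, false_and, or_false, false_or] at ha'; done)) <;>
    rcases b with _ | s' | ⟨b, l⟩ <;> (try cases b) <;>
    (try (simp only [TG.dad, VB, TB.G, TB.P, TB.Q, TB.R, TB.A, reduceCtorEq, or_self, and_false, false_and, or_false, false_or] at hb; done)) <;>
    (try (simp only [TG.dad, VB, TB.G, TB.P, TB.Q, TB.R, TB.A, reduceCtorEq, or_self, and_false, false_and, or_false, false_or] at hb'; done)) <;>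
    first
    | exact trivial
    | exact absurd rfl hne
    | exact ⟨fun e => hne (by rw [e]), trivial⟩
    | exact Or.inl trivial
    | exact Or.inr trivial
    | exact VB.pure _ _ _ _ trivial hne
    | (exfalso; simp only [KA, KB, KW, KX, KT, reduceCtorEq] at hk; done)
    | (simp only [KA, KB, KW, KX, KT, Option.some.injEq] at hk; subst hk; exact VB.pure _ _ _ _ trivial hne)
    | (simp only [KA, KB, KW, KX, KT, Option.some.injEq] at hk; subst hk; exact VB.pure _ _ _ _ rfl hne)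
    | (simp [TG.dad, VB, TB.G, TB.P, TB.Q] at ha hb; exact VB.pure _ _ _ _ (ha.2.symm.trans hb.2) hne)
    | (simp [TG.dad, VB, TB.G, TB.P, TB.Q] at ha' hb'; exact VB.pure _ _ _ _ (ha'.2.symm.trans hb'.2) hne)
    | (simp [TG.dad, VB, TB.G, TB.P, TB.Q] at ha hb; exfalso; apply hne; rw [← ha, ← hb]; done)
    | (simp [TG.dad, VB, TB.G, TB.P, TB.Q] at ha' hb'; exfalso; apply hne; rw [← ha', ← hb']; done)
    | (simp [TG.dad, VB, TB.G, TB.P, TB.Q] at ha hb; exfalso; apply hne; rw [← ha.1, ← hb.1]; done)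
    | (simp [TG.dad, VB, TB.G, TB.P, TB.Q] at ha' hb'; exfalso; apply hne; rw [← ha'.1, ← hb'.1]; done)
    | (simp [TG.dad, VB, TB.G, TB.P, TB.Q] at ha hb ha' hb'; simp_all; done)

theorem VB.ett (i j : ℕ × ℕ) : VB.Cov i0 inc (.cp .t i) (.cp .t j) := by
  refine ⟨KT i0, ?_⟩
  rintro (_ | s | ⟨a, k⟩) b ha ha' hb hb' hk hne <;> (try cases a) <;>
    (try (simp only [TG.dad, VB, TB.G, TB.P, TB.Q, TB.R, TB.A, reduceCtorEq, or_self, and_false, false_and, or_false, false_or] at ha; done)) <;>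
    (try (simp only [TG.dad, VB, TB.G, TB.P, TB.Q, TB.R, TB.A, reduceCtorEq, or_self, and_false, false_and, or_false, false_or] at ha'; done)) <;>
    rcases b with _ | s' | ⟨b, l⟩ <;> (try cases b) <;>
    (try (simp only [TG.dad, VB, TB.G, TB.P, TB.Q, TB.R, TB.A, reduceCtorEq, or_self, and_false, false_and, or_false, false_or] at hb; done)) <;>
    (try (simp only [TG.dad, VB, TB.G, TB.P, TB.Q, TB.R, TB.A, reduceCtorEq, or_self, and_false, false_and, or_false, false_or] at hb'; done)) <;>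
    first
    | exact trivial
    | exact absurd rfl hne
    | exact ⟨fun e => hne (by rw [e]), trivial⟩
    | exact Or.inl trivial
    | exact Or.inr trivial
    | exact VB.pure _ _ _ _ trivial hne
    | (exfalso; simp only [KA, KB, KW, KX, KT, reduceCtorEq] at hk; done)
    | (simp only [KA, KB, KW, KX, KT, Option.some.injEq] at hk; subst hk; exact VB.pure _ _ _ _ trivial hne)
    | (simp only [KA, KB, KW, KX, KT, Option.some.injEq] at hk; subst hk; exact VB.pure _ _ _ _ rfl hne)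
    | (simp [TG.dad, VB, TB.G, TB.P, TB.Q] at ha hb; exact VB.pure _ _ _ _ (ha.2.symm.trans hb.2) hne)
    | (simp [TG.dad, VB, TB.G, TB.P, TB.Q] at ha' hb'; exact VB.pure _ _ _ _ (ha'.2.symm.trans hb'.2) hne)
    | (simp [TG.dad, VB, TB.G, TB.P, TB.Q] at ha hb; exfalso; apply hne; rw [← ha, ← hb]; done)
    | (simp [TG.dad, VB, TB.G, TB.P, TB.Q] at ha' hb'; exfalso; apply hne; rw [← ha', ← hb']; done)
    | (simp [TG.dad, VB, TB.G, TB.P, TB.Q] at ha hb; exfalso; apply hne; rw [← ha.1, ← hb.1]; done)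
    | (simp [TG.dad, VB, TB.G, TB.P, TB.Q] at ha' hb'; exfalso; apply hne; rw [← ha'.1, ← hb'.1]; done)
    | (simp [TG.dad, VB, TB.G, TB.P, TB.Q] at ha hb ha' hb'; simp_all; done)

theorem VB.etd (i j : ℕ × ℕ) (p : ι) : VB.Cov i0 inc (.cp .t i) (.cp (.d p) j) := by
  refine ⟨KW, ?_⟩
  rintro (_ | s | ⟨a, k⟩) b ha ha' hb hb' hk hne <;> (try cases a) <;>
    (try (simp only [TG.dad, VB, TB.G, TB.P, TB.Q, TB.R, TB.A, reduceCtorEq, or_self, and_false, false_and, or_false, false_or] at ha; done)) <;>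
    (try (simp only [TG.dad, VB, TB.G, TB.P, TB.Q, TB.R, TB.A, reduceCtorEq, or_self, and_false, false_and, or_false, false_or] at ha'; done)) <;>
    rcases b with _ | s' | ⟨b, l⟩ <;> (try cases b) <;>
    (try (simp only [TG.dad, VB, TB.G, TB.P, TB.Q, TB.R, TB.A, reduceCtorEq, or_self, and_false, false_and, or_false, false_or] at hb; done)) <;>
    (try (simp only [TG.dad, VB, TB.G, TB.P, TB.Q, TB.R, TB.A, reduceCtorEq, or_self, and_false, false_and, or_false, false_or] at hb'; done)) <;>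
    first
    | exact trivial
    | exact absurd rfl hne
    | exact ⟨fun e => hne (by rw [e]), trivial⟩
    | exact Or.inl trivial
    | exact Or.inr trivial
    | exact VB.pure _ _ _ _ trivial hne
    | (exfalso; simp only [KA, KB, KW, KX, KT, reduceCtorEq] at hk; done)
    | (simp only [KA, KB, KW, KX, KT, Option.some.injEq] at hk; subst hk; exact VB.pure _ _ _ _ trivial hne)
    | (simp only [KA, KB, KW, KX, KT, Option.some.injEq] at hk; subst hk; exact VB.pure _ _ _ _ rfl hne)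
    | (simp [TG.dad, VB, TB.G, TB.P, TB.Q] at ha hb; exact VB.pure _ _ _ _ (ha.2.symm.trans hb.2) hne)
    | (simp [TG.dad, VB, TB.G, TB.P, TB.Q] at ha' hb'; exact VB.pure _ _ _ _ (ha'.2.symm.trans hb'.2) hne)
    | (simp [TG.dad, VB, TB.G, TB.P, TB.Q] at ha hb; exfalso; apply hne; rw [← ha, ← hb]; done)
    | (simp [TG.dad, VB, TB.G, TB.P, TB.Q] at ha' hb'; exfalso; apply hne; rw [← ha', ← hb']; done)
    | (simp [TG.dad, VB, TB.G, TB.P, TB.Q] at ha hb; exfalso; apply hne; rw [← ha.1, ← hb.1]; done)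
    | (simp [TG.dad, VB, TB.G, TB.P, TB.Q] at ha' hb'; exfalso; apply hne; rw [← ha'.1, ← hb'.1]; done)
    | (simp [TG.dad, VB, TB.G, TB.P, TB.Q] at ha hb ha' hb'; simp_all; done)

theorem VB.exx (i j : ℕ × ℕ) (p q : ι) (hij : i ≠ j) (hpq : p = q) : VB.Cov i0 inc (.cp (.x p) i) (.cp (.x q) j) := by
  refine ⟨KX i0, ?_⟩
  rintro (_ | s | ⟨a, k⟩) b ha ha' hb hb' hk hne <;> (try cases a) <;>
    (try (simp only [TG.dad, VB, TB.G, TB.P, TB.Q, TB.R, TB.A, reduceCtorEq, or_self, and_false, false_and, or_false, false_or] at ha; done)) <;>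
    (try (simp only [TG.dad, VB, TB.G, TB.P, TB.Q, TB.R, TB.A, reduceCtorEq, or_self, and_false, false_and, or_false, false_or] at ha'; done)) <;>
    rcases b with _ | s' | ⟨b, l⟩ <;> (try cases b) <;>
    (try (simp only [TG.dad, VB, TB.G, TB.P, TB.Q, TB.R, TB.A, reduceCtorEq, or_self, and_false, false_and, or_false, false_or] at hb; done)) <;>
    (try (simp only [TG.dad, VB, TB.G, TB.P, TB.Q, TB.R, TB.A, reduceCtorEq, or_self, and_false, false_and, or_false, false_or] at hb'; done)) <;>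
    first
    | exact trivial
    | exact absurd rfl hne
    | exact ⟨fun e => hne (by rw [e]), trivial⟩
    | exact Or.inl trivial
    | exact Or.inr trivial
    | exact VB.pure _ _ _ _ trivial hne
    | (exfalso; simp only [KA, KB, KW, KX, KT, reduceCtorEq] at hk; done)
    | (simp only [KA, KB, KW, KX, KT, Option.some.injEq] at hk; subst hk; exact VB.pure _ _ _ _ trivial hne)
    | (simp only [KA, KB, KW, KX, KT, Option.some.injEq] at hk; subst hk; exact VB.pure _ _ _ _ rfl hne)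
    | (simp [TG.dad, VB, TB.G, TB.P, TB.Q] at ha hb; exact VB.pure _ _ _ _ (ha.2.symm.trans hb.2) hne)
    | (simp [TG.dad, VB, TB.G, TB.P, TB.Q] at ha' hb'; exact VB.pure _ _ _ _ (ha'.2.symm.trans hb'.2) hne)
    | (simp [TG.dad, VB, TB.G, TB.P, TB.Q] at ha hb; exfalso; apply hne; rw [← ha, ← hb]; done)
    | (simp [TG.dad, VB, TB.G, TB.P, TB.Q] at ha' hb'; exfalso; apply hne; rw [← ha', ← hb']; done)
    | (simp [TG.dad, VB, TB.G, TB.P, TB.Q] at ha hb; exfalso; apply hne; rw [← ha.1, ← hb.1]; done)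
    | (simp [TG.dad, VB, TB.G, TB.P, TB.Q] at ha' hb'; exfalso; apply hne; rw [← ha'.1, ← hb'.1]; done)
    | (simp [TG.dad, VB, TB.G, TB.P, TB.Q] at ha hb ha' hb'; simp_all; done)

theorem VB.exd (i j : ℕ × ℕ) (p q : ι) : VB.Cov i0 inc (.cp (.x p) i) (.cp (.d q) j) := by
  refine ⟨KX i0, ?_⟩
  rintro (_ | s | ⟨a, k⟩) b ha ha' hb hb' hk hne <;> (try cases a) <;>
    (try (simp only [TG.dad, VB, TB.G, TB.P, TB.Q, TB.R, TB.A, reduceCtorEq, or_self, and_false, false_and, or_false, false_or] at ha; done)) <;>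
    (try (simp only [TG.dad, VB, TB.G, TB.P, TB.Q, TB.R, TB.A, reduceCtorEq, or_self, and_false, false_and, or_false, false_or] at ha'; done)) <;>
    rcases b with _ | s' | ⟨b, l⟩ <;> (try cases b) <;>
    (try (simp only [TG.dad, VB, TB.G, TB.P, TB.Q, TB.R, TB.A, reduceCtorEq, or_self, and_false, false_and, or_false, false_or] at hb; done)) <;>
    (try (simp only [TG.dad, VB, TB.G, TB.P, TB.Q, TB.R, TB.A, reduceCtorEq, or_self, and_false, false_and, or_false, false_or] at hb'; done)) <;>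
    first
    | exact trivial
    | exact absurd rfl hne
    | exact ⟨fun e => hne (by rw [e]), trivial⟩
    | exact Or.inl trivial
    | exact Or.inr trivial
    | exact VB.pure _ _ _ _ trivial hne
    | (exfalso; simp only [KA, KB, KW, KX, KT, reduceCtorEq] at hk; done)
    | (simp only [KA, KB, KW, KX, KT, Option.some.injEq] at hk; subst hk; exact VB.pure _ _ _ _ trivial hne)
    | (simp only [KA, KB, KW, KX, KT, Option.some.injEq] at hk; subst hk; exact VB.pure _ _ _ _ rfl hne)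
    | (simp [TG.dad, VB, TB.G, TB.P, TB.Q] at ha hb; exact VB.pure _ _ _ _ (ha.2.symm.trans hb.2) hne)
    | (simp [TG.dad, VB, TB.G, TB.P, TB.Q] at ha' hb'; exact VB.pure _ _ _ _ (ha'.2.symm.trans hb'.2) hne)
    | (simp [TG.dad, VB, TB.G, TB.P, TB.Q] at ha hb; exfalso; apply hne; rw [← ha, ← hb]; done)
    | (simp [TG.dad, VB, TB.G, TB.P, TB.Q] at ha' hb'; exfalso; apply hne; rw [← ha', ← hb']; done)
    | (simp [TG.dad, VB, TB.G, TB.P, TB.Q] at ha hb; exfalso; apply hne; rw [← ha.1, ← hb.1]; done)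
    | (simp [TG.dad, VB, TB.G, TB.P, TB.Q] at ha' hb'; exfalso; apply hne; rw [← ha'.1, ← hb'.1]; done)
    | (simp [TG.dad, VB, TB.G, TB.P, TB.Q] at ha hb ha' hb'; simp_all; done)

theorem VB.exy0 (i j : ℕ × ℕ) (p : ι) : VB.Cov i0 inc (.cp (.x p) i) (.cp .y0 j) := by
  refine ⟨KX i0, ?_⟩
  rintro (_ | s | ⟨a, k⟩) b ha ha' hb hb' hk hne <;> (try cases a) <;>
    (try (simp only [TG.dad, VB, TB.G, TB.P, TB.Q, TB.R, TB.A, reduceCtorEq, or_self, and_false, false_and, or_false, false_or] at ha; done)) <;>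
    (try (simp only [TG.dad, VB, TB.G, TB.P, TB.Q, TB.R, TB.A, reduceCtorEq, or_self, and_false, false_and, or_false, false_or] at ha'; done)) <;>
    rcases b with _ | s' | ⟨b, l⟩ <;> (try cases b) <;>
    (try (simp only [TG.dad, VB, TB.G, TB.P, TB.Q, TB.R, TB.A, reduceCtorEq, or_self, and_false, false_and, or_false, false_or] at hb; done)) <;>
    (try (simp only [TG.dad, VB, TB.G, TB.P, TB.Q, TB.R, TB.A, reduceCtorEq, or_self, and_false, false_and, or_false, false_or] at hb'; done)) <;>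
    first
    | exact trivial
    | exact absurd rfl hne
    | exact ⟨fun e => hne (by rw [e]), trivial⟩
    | exact Or.inl trivial
    | exact Or.inr trivial
    | exact VB.pure _ _ _ _ trivial hne
    | (exfalso; simp only [KA, KB, KW, KX, KT, reduceCtorEq] at hk; done)
    | (simp only [KA, KB, KW, KX, KT, Option.some.injEq] at hk; subst hk; exact VB.pure _ _ _ _ trivial hne)
    | (simp only [KA, KB, KW, KX, KT, Option.some.injEq] at hk; subst hk; exact VB.pure _ _ _ _ rfl hne)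
    | (simp [TG.dad, VB, TB.G, TB.P, TB.Q] at ha hb; exact VB.pure _ _ _ _ (ha.2.symm.trans hb.2) hne)
    | (simp [TG.dad, VB, TB.G, TB.P, TB.Q] at ha' hb'; exact VB.pure _ _ _ _ (ha'.2.symm.trans hb'.2) hne)
    | (simp [TG.dad, VB, TB.G, TB.P, TB.Q] at ha hb; exfalso; apply hne; rw [← ha, ← hb]; done)
    | (simp [TG.dad, VB, TB.G, TB.P, TB.Q] at ha' hb'; exfalso; apply hne; rw [← ha', ← hb']; done)
    | (simp [TG.dad, VB, TB.G, TB.P, TB.Q] at ha hb; exfalso; apply hne; rw [← ha.1, ← hb.1]; done)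
    | (simp [TG.dad, VB, TB.G, TB.P, TB.Q] at ha' hb'; exfalso; apply hne; rw [← ha'.1, ← hb'.1]; done)
    | (simp [TG.dad, VB, TB.G, TB.P, TB.Q] at ha hb ha' hb'; simp_all; done)

theorem VB.edd (i j : ℕ × ℕ) (p q : ι) (hij : i ≠ j) : VB.Cov i0 inc (.cp (.d p) i) (.cp (.d q) j) := by
  refine ⟨KW, ?_⟩
  rintro (_ | s | ⟨a, k⟩) b ha ha' hb hb' hk hne <;> (try cases a) <;>
    (try (simp only [TG.dad, VB, TB.G, TB.P, TB.Q, TB.R, TB.A, reduceCtorEq, or_self, and_false, false_and, or_false, false_or] at ha; done)) <;>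
    (try (simp only [TG.dad, VB, TB.G, TB.P, TB.Q, TB.R, TB.A, reduceCtorEq, or_self, and_false, false_and, or_false, false_or] at ha'; done)) <;>
    rcases b with _ | s' | ⟨b, l⟩ <;> (try cases b) <;>
    (try (simp only [TG.dad, VB, TB.G, TB.P, TB.Q, TB.R, TB.A, reduceCtorEq, or_self, and_false, false_and, or_false, false_or] at hb; done)) <;>
    (try (simp only [TG.dad, VB, TB.G, TB.P, TB.Q, TB.R, TB.A, reduceCtorEq, or_self, and_false, false_and, or_false, false_or] at hb'; done)) <;>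
    first
    | exact trivial
    | exact absurd rfl hne
    | exact ⟨fun e => hne (by rw [e]), trivial⟩
    | exact Or.inl trivial
    | exact Or.inr trivial
    | exact VB.pure _ _ _ _ trivial hne
    | (exfalso; simp only [KA, KB, KW, KX, KT, reduceCtorEq] at hk; done)
    | (simp only [KA, KB, KW, KX, KT, Option.some.injEq] at hk; subst hk; exact VB.pure _ _ _ _ trivial hne)
    | (simp only [KA, KB, KW, KX, KT, Option.some.injEq] at hk; subst hk; exact VB.pure _ _ _ _ rfl hne)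
    | (simp [TG.dad, VB, TB.G, TB.P, TB.Q] at ha hb; exact VB.pure _ _ _ _ (ha.2.symm.trans hb.2) hne)
    | (simp [TG.dad, VB, TB.G, TB.P, TB.Q] at ha' hb'; exact VB.pure _ _ _ _ (ha'.2.symm.trans hb'.2) hne)
    | (simp [TG.dad, VB, TB.G, TB.P, TB.Q] at ha hb; exfalso; apply hne; rw [← ha, ← hb]; done)
    | (simp [TG.dad, VB, TB.G, TB.P, TB.Q] at ha' hb'; exfalso; apply hne; rw [← ha', ← hb']; done)
    | (simp [TG.dad, VB, TB.G, TB.P, TB.Q] at ha hb; exfalso; apply hne; rw [← ha.1, ← hb.1]; done)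
    | (simp [TG.dad, VB, TB.G, TB.P, TB.Q] at ha' hb'; exfalso; apply hne; rw [← ha'.1, ← hb'.1]; done)
    | (simp [TG.dad, VB, TB.G, TB.P, TB.Q] at ha hb ha' hb'; simp_all; done)

theorem VB.edv (i j : ℕ × ℕ) (p : ι) : VB.Cov i0 inc (.cp (.d p) i) (.cp .v j) := by
  refine ⟨KW, ?_⟩
  rintro (_ | s | ⟨a, k⟩) b ha ha' hb hb' hk hne <;> (try cases a) <;>
    (try (simp only [TG.dad, VB, TB.G, TB.P, TB.Q, TB.R, TB.A, reduceCtorEq, or_self, and_false, false_and, or_false, false_or] at ha; done)) <;>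
    (try (simp only [TG.dad, VB, TB.G, TB.P, TB.Q, TB.R, TB.A, reduceCtorEq, or_self, and_false, false_and, or_false, false_or] at ha'; done)) <;>
    rcases b with _ | s' | ⟨b, l⟩ <;> (try cases b) <;>
    (try (simp only [TG.dad, VB, TB.G, TB.P, TB.Q, TB.R, TB.A, reduceCtorEq, or_self, and_false, false_and, or_false, false_or] at hb; done)) <;>
    (try (simp only [TG.dad, VB, TB.G, TB.P, TB.Q, TB.R, TB.A, reduceCtorEq, or_self, and_false, false_and, or_false, false_or] at hb'; done)) <;>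
    first
    | exact trivial
    | exact absurd rfl hne
    | exact ⟨fun e => hne (by rw [e]), trivial⟩
    | exact Or.inl trivial
    | exact Or.inr trivial
    | exact VB.pure _ _ _ _ trivial hne
    | (exfalso; simp only [KA, KB, KW, KX, KT, reduceCtorEq] at hk; done)
    | (simp only [KA, KB, KW, KX, KT, Option.some.injEq] at hk; subst hk; exact VB.pure _ _ _ _ trivial hne)
    | (simp only [KA, KB, KW, KX, KT, Option.some.injEq] at hk; subst hk; exact VB.pure _ _ _ _ rfl hne)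
    | (simp [TG.dad, VB, TB.G, TB.P, TB.Q] at ha hb; exact VB.pure _ _ _ _ (ha.2.symm.trans hb.2) hne)
    | (simp [TG.dad, VB, TB.G, TB.P, TB.Q] at ha' hb'; exact VB.pure _ _ _ _ (ha'.2.symm.trans hb'.2) hne)
    | (simp [TG.dad, VB, TB.G, TB.P, TB.Q] at ha hb; exfalso; apply hne; rw [← ha, ← hb]; done)
    | (simp [TG.dad, VB, TB.G, TB.P, TB.Q] at ha' hb'; exfalso; apply hne; rw [← ha', ← hb']; done)
    | (simp [TG.dad, VB, TB.G, TB.P, TB.Q] at ha hb; exfalso; apply hne; rw [← ha.1, ← hb.1]; done)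
    | (simp [TG.dad, VB, TB.G, TB.P, TB.Q] at ha' hb'; exfalso; apply hne; rw [← ha'.1, ← hb'.1]; done)
    | (simp [TG.dad, VB, TB.G, TB.P, TB.Q] at ha hb ha' hb'; simp_all; done)

theorem VB.e11c (i j : ℕ × ℕ) : VB.Cov i0 inc (.cp .c1 i) (.cp .c1 j) := by
  refine ⟨KA i0, ?_⟩
  rintro (_ | s | ⟨a, k⟩) b ha ha' hb hb' hk hne <;> (try cases a) <;>
    (try (simp only [TG.dad, VB, TB.G, TB.P, TB.Q, TB.R, TB.A, reduceCtorEq, or_self, and_false, false_and, or_false, false_or] at ha; done)) <;>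
    (try (simp only [TG.dad, VB, TB.G, TB.P, TB.Q, TB.R, TB.A, reduceCtorEq, or_self, and_false, false_and, or_false, false_or] at ha'; done)) <;>
    rcases b with _ | s' | ⟨b, l⟩ <;> (try cases b) <;>
    (try (simp only [TG.dad, VB, TB.G, TB.P, TB.Q, TB.R, TB.A, reduceCtorEq, or_self, and_false, false_and, or_false, false_or] at hb; done)) <;>
    (try (simp only [TG.dad, VB, TB.G, TB.P, TB.Q, TB.R, TB.A, reduceCtorEq, or_self, and_false, false_and, or_false, false_or] at hb'; done)) <;>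
    first
    | exact trivial
    | exact absurd rfl hne
    | exact ⟨fun e => hne (by rw [e]), trivial⟩
    | exact Or.inl trivial
    | exact Or.inr trivial
    | exact VB.pure _ _ _ _ trivial hne
    | (exfalso; simp only [KA, KB, KW, KX, KT, reduceCtorEq] at hk; done)
    | (simp only [KA, KB, KW, KX, KT, Option.some.injEq] at hk; subst hk; exact VB.pure _ _ _ _ trivial hne)
    | (simp only [KA, KB, KW, KX, KT, Option.some.injEq] at hk; subst hk; exact VB.pure _ _ _ _ rfl hne)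
    | (simp [TG.dad, VB, TB.G, TB.P, TB.Q] at ha hb; exact VB.pure _ _ _ _ (ha.2.symm.trans hb.2) hne)
    | (simp [TG.dad, VB, TB.G, TB.P, TB.Q] at ha' hb'; exact VB.pure _ _ _ _ (ha'.2.symm.trans hb'.2) hne)
    | (simp [TG.dad, VB, TB.G, TB.P, TB.Q] at ha hb; exfalso; apply hne; rw [← ha, ← hb]; done)
    | (simp [TG.dad, VB, TB.G, TB.P, TB.Q] at ha' hb'; exfalso; apply hne; rw [← ha', ← hb']; done)
    | (simp [TG.dad, VB, TB.G, TB.P, TB.Q] at ha hb; exfalso; apply hne; rw [← ha.1, ← hb.1]; done)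
    | (simp [TG.dad, VB, TB.G, TB.P, TB.Q] at ha' hb'; exfalso; apply hne; rw [← ha'.1, ← hb'.1]; done)
    | (simp [TG.dad, VB, TB.G, TB.P, TB.Q] at ha hb ha' hb'; simp_all; done)

theorem VB.e13c (i j : ℕ × ℕ) : VB.Cov i0 inc (.cp .c1 i) (.cp .c3 j) := by
  refine ⟨KA i0, ?_⟩
  rintro (_ | s | ⟨a, k⟩) b ha ha' hb hb' hk hne <;> (try cases a) <;>
    (try (simp only [TG.dad, VB, TB.G, TB.P, TB.Q, TB.R, TB.A, reduceCtorEq, or_self, and_false, false_and, or_false, false_or] at ha; done)) <;>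
    (try (simp only [TG.dad, VB, TB.G, TB.P, TB.Q, TB.R, TB.A, reduceCtorEq, or_self, and_false, false_and, or_false, false_or] at ha'; done)) <;>
    rcases b with _ | s' | ⟨b, l⟩ <;> (try cases b) <;>
    (try (simp only [TG.dad, VB, TB.G, TB.P, TB.Q, TB.R, TB.A, reduceCtorEq, or_self, and_false, false_and, or_false, false_or] at hb; done)) <;>
    (try (simp only [TG.dad, VB, TB.G, TB.P, TB.Q, TB.R, TB.A, reduceCtorEq, or_self, and_false, false_and, or_false, false_or] at hb'; done)) <;>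
    first
    | exact trivial
    | exact absurd rfl hne
    | exact ⟨fun e => hne (by rw [e]), trivial⟩
    | exact Or.inl trivial
    | exact Or.inr trivial
    | exact VB.pure _ _ _ _ trivial hne
    | (exfalso; simp only [KA, KB, KW, KX, KT, reduceCtorEq] at hk; done)
    | (simp only [KA, KB, KW, KX, KT, Option.some.injEq] at hk; subst hk; exact VB.pure _ _ _ _ trivial hne)
    | (simp only [KA, KB, KW, KX, KT, Option.some.injEq] at hk; subst hk; exact VB.pure _ _ _ _ rfl hne)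
    | (simp [TG.dad, VB, TB.G, TB.P, TB.Q] at ha hb; exact VB.pure _ _ _ _ (ha.2.symm.trans hb.2) hne)
    | (simp [TG.dad, VB, TB.G, TB.P, TB.Q] at ha' hb'; exact VB.pure _ _ _ _ (ha'.2.symm.trans hb'.2) hne)
    | (simp [TG.dad, VB, TB.G, TB.P, TB.Q] at ha hb; exfalso; apply hne; rw [← ha, ← hb]; done)
    | (simp [TG.dad, VB, TB.G, TB.P, TB.Q] at ha' hb'; exfalso; apply hne; rw [← ha', ← hb']; done)
    | (simp [TG.dad, VB, TB.G, TB.P, TB.Q] at ha hb; exfalso; apply hne; rw [← ha.1, ← hb.1]; done)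
    | (simp [TG.dad, VB, TB.G, TB.P, TB.Q] at ha' hb'; exfalso; apply hne; rw [← ha'.1, ← hb'.1]; done)
    | (simp [TG.dad, VB, TB.G, TB.P, TB.Q] at ha hb ha' hb'; simp_all; done)

theorem VB.e1v (i j : ℕ × ℕ) : VB.Cov i0 inc (.cp .c1 i) (.cp .v j) := by
  refine ⟨KA i0, ?_⟩
  rintro (_ | s | ⟨a, k⟩) b ha ha' hb hb' hk hne <;> (try cases a) <;>
    (try (simp only [TG.dad, VB, TB.G, TB.P, TB.Q, TB.R, TB.A, reduceCtorEq, or_self, and_false, false_and, or_false, false_or] at ha; done)) <;>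
    (try (simp only [TG.dad, VB, TB.G, TB.P, TB.Q, TB.R, TB.A, reduceCtorEq, or_self, and_false, false_and, or_false, false_or] at ha'; done)) <;>
    rcases b with _ | s' | ⟨b, l⟩ <;> (try cases b) <;>
    (try (simp only [TG.dad, VB, TB.G, TB.P, TB.Q, TB.R, TB.A, reduceCtorEq, or_self, and_false, false_and, or_false, false_or] at hb; done)) <;>
    (try (simp only [TG.dad, VB, TB.G, TB.P, TB.Q, TB.R, TB.A, reduceCtorEq, or_self, and_false, false_and, or_false, false_or] at hb'; done)) <;>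
    first
    | exact trivial
    | exact absurd rfl hne
    | exact ⟨fun e => hne (by rw [e]), trivial⟩
    | exact Or.inl trivial
    | exact Or.inr trivial
    | exact VB.pure _ _ _ _ trivial hne
    | (exfalso; simp only [KA, KB, KW, KX, KT, reduceCtorEq] at hk; done)
    | (simp only [KA, KB, KW, KX, KT, Option.some.injEq] at hk; subst hk; exact VB.pure _ _ _ _ trivial hne)
    | (simp only [KA, KB, KW, KX, KT, Option.some.injEq] at hk; subst hk; exact VB.pure _ _ _ _ rfl hne)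
    | (simp [TG.dad, VB, TB.G, TB.P, TB.Q] at ha hb; exact VB.pure _ _ _ _ (ha.2.symm.trans hb.2) hne)
    | (simp [TG.dad, VB, TB.G, TB.P, TB.Q] at ha' hb'; exact VB.pure _ _ _ _ (ha'.2.symm.trans hb'.2) hne)
    | (simp [TG.dad, VB, TB.G, TB.P, TB.Q] at ha hb; exfalso; apply hne; rw [← ha, ← hb]; done)
    | (simp [TG.dad, VB, TB.G, TB.P, TB.Q] at ha' hb'; exfalso; apply hne; rw [← ha', ← hb']; done)
    | (simp [TG.dad, VB, TB.G, TB.P, TB.Q] at ha hb; exfalso; apply hne; rw [← ha.1, ← hb.1]; done)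
    | (simp [TG.dad, VB, TB.G, TB.P, TB.Q] at ha' hb'; exfalso; apply hne; rw [← ha'.1, ← hb'.1]; done)
    | (simp [TG.dad, VB, TB.G, TB.P, TB.Q] at ha hb ha' hb'; simp_all; done)

theorem VB.e33c (i j : ℕ × ℕ) : VB.Cov i0 inc (.cp .c3 i) (.cp .c3 j) := by
  refine ⟨KA i0, ?_⟩
  rintro (_ | s | ⟨a, k⟩) b ha ha' hb hb' hk hne <;> (try cases a) <;>
    (try (simp only [TG.dad, VB, TB.G, TB.P, TB.Q, TB.R, TB.A, reduceCtorEq, or_self, and_false, false_and, or_false, false_or] at ha; done)) <;>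
    (try (simp only [TG.dad, VB, TB.G, TB.P, TB.Q, TB.R, TB.A, reduceCtorEq, or_self, and_false, false_and, or_false, false_or] at ha'; done)) <;>
    rcases b with _ | s' | ⟨b, l⟩ <;> (try cases b) <;>
    (try (simp only [TG.dad, VB, TB.G, TB.P, TB.Q, TB.R, TB.A, reduceCtorEq, or_self, and_false, false_and, or_false, false_or] at hb; done)) <;>
    (try (simp only [TG.dad, VB, TB.G, TB.P, TB.Q, TB.R, TB.A, reduceCtorEq, or_self, and_false, false_and, or_false, false_or] at hb'; done)) <;>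
    first
    | exact trivial
    | exact absurd rfl hne
    | exact ⟨fun e => hne (by rw [e]), trivial⟩
    | exact Or.inl trivial
    | exact Or.inr trivial
    | exact VB.pure _ _ _ _ trivial hne
    | (exfalso; simp only [KA, KB, KW, KX, KT, reduceCtorEq] at hk; done)
    | (simp only [KA, KB, KW, KX, KT, Option.some.injEq] at hk; subst hk; exact VB.pure _ _ _ _ trivial hne)
    | (simp only [KA, KB, KW, KX, KT, Option.some.injEq] at hk; subst hk; exact VB.pure _ _ _ _ rfl hne)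
    | (simp [TG.dad, VB, TB.G, TB.P, TB.Q] at ha hb; exact VB.pure _ _ _ _ (ha.2.symm.trans hb.2) hne)
    | (simp [TG.dad, VB, TB.G, TB.P, TB.Q] at ha' hb'; exact VB.pure _ _ _ _ (ha'.2.symm.trans hb'.2) hne)
    | (simp [TG.dad, VB, TB.G, TB.P, TB.Q] at ha hb; exfalso; apply hne; rw [← ha, ← hb]; done)
    | (simp [TG.dad, VB, TB.G, TB.P, TB.Q] at ha' hb'; exfalso; apply hne; rw [← ha', ← hb']; done)
    | (simp [TG.dad, VB, TB.G, TB.P, TB.Q] at ha hb; exfalso; apply hne; rw [← ha.1, ← hb.1]; done)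
    | (simp [TG.dad, VB, TB.G, TB.P, TB.Q] at ha' hb'; exfalso; apply hne; rw [← ha'.1, ← hb'.1]; done)
    | (simp [TG.dad, VB, TB.G, TB.P, TB.Q] at ha hb ha' hb'; simp_all; done)

theorem VB.e3v (i j : ℕ × ℕ) : VB.Cov i0 inc (.cp .c3 i) (.cp .v j) := by
  refine ⟨KA i0, ?_⟩
  rintro (_ | s | ⟨a, k⟩) b ha ha' hb hb' hk hne <;> (try cases a) <;>
    (try (simp only [TG.dad, VB, TB.G, TB.P, TB.Q, TB.R, TB.A, reduceCtorEq, or_self, and_false, false_and, or_false, false_or] at ha; done)) <;>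
    (try (simp only [TG.dad, VB, TB.G, TB.P, TB.Q, TB.R, TB.A, reduceCtorEq, or_self, and_false, false_and, or_false, false_or] at ha'; done)) <;>
    rcases b with _ | s' | ⟨b, l⟩ <;> (try cases b) <;>
    (try (simp only [TG.dad, VB, TB.G, TB.P, TB.Q, TB.R, TB.A, reduceCtorEq, or_self, and_false, false_and, or_false, false_or] at hb; done)) <;>
    (try (simp only [TG.dad, VB, TB.G, TB.P, TB.Q, TB.R, TB.A, reduceCtorEq, or_self, and_false, false_and, or_false, false_or] at hb'; done)) <;>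
    first
    | exact trivial
    | exact absurd rfl hne
    | exact ⟨fun e => hne (by rw [e]), trivial⟩
    | exact Or.inl trivial
    | exact Or.inr trivial
    | exact VB.pure _ _ _ _ trivial hne
    | (exfalso; simp only [KA, KB, KW, KX, KT, reduceCtorEq] at hk; done)
    | (simp only [KA, KB, KW, KX, KT, Option.some.injEq] at hk; subst hk; exact VB.pure _ _ _ _ trivial hne)
    | (simp only [KA, KB, KW, KX, KT, Option.some.injEq] at hk; subst hk; exact VB.pure _ _ _ _ rfl hne)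
    | (simp [TG.dad, VB, TB.G, TB.P, TB.Q] at ha hb; exact VB.pure _ _ _ _ (ha.2.symm.trans hb.2) hne)
    | (simp [TG.dad, VB, TB.G, TB.P, TB.Q] at ha' hb'; exact VB.pure _ _ _ _ (ha'.2.symm.trans hb'.2) hne)
    | (simp [TG.dad, VB, TB.G, TB.P, TB.Q] at ha hb; exfalso; apply hne; rw [← ha, ← hb]; done)
    | (simp [TG.dad, VB, TB.G, TB.P, TB.Q] at ha' hb'; exfalso; apply hne; rw [← ha', ← hb']; done)
    | (simp [TG.dad, VB, TB.G, TB.P, TB.Q] at ha hb; exfalso; apply hne; rw [← ha.1, ← hb.1]; done)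
    | (simp [TG.dad, VB, TB.G, TB.P, TB.Q] at ha' hb'; exfalso; apply hne; rw [← ha'.1, ← hb'.1]; done)
    | (simp [TG.dad, VB, TB.G, TB.P, TB.Q] at ha hb ha' hb'; simp_all; done)

theorem VB.e22c (i j : ℕ × ℕ) : VB.Cov i0 inc (.cp .c2 i) (.cp .c2 j) := by
  refine ⟨KA i0, ?_⟩
  rintro (_ | s | ⟨a, k⟩) b ha ha' hb hb' hk hne <;> (try cases a) <;>
    (try (simp only [TG.dad, VB, TB.G, TB.P, TB.Q, TB.R, TB.A, reduceCtorEq, or_self, and_false, false_and, or_false, false_or] at ha; done)) <;>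
    (try (simp only [TG.dad, VB, TB.G, TB.P, TB.Q, TB.R, TB.A, reduceCtorEq, or_self, and_false, false_and, or_false, false_or] at ha'; done)) <;>
    rcases b with _ | s' | ⟨b, l⟩ <;> (try cases b) <;>
    (try (simp only [TG.dad, VB, TB.G, TB.P, TB.Q, TB.R, TB.A, reduceCtorEq, or_self, and_false, false_and, or_false, false_or] at hb; done)) <;>
    (try (simp only [TG.dad, VB, TB.G, TB.P, TB.Q, TB.R, TB.A, reduceCtorEq, or_self, and_false, false_and, or_false, false_or] at hb'; done)) <;>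
    first
    | exact trivial
    | exact absurd rfl hne
    | exact ⟨fun e => hne (by rw [e]), trivial⟩
    | exact Or.inl trivial
    | exact Or.inr trivial
    | exact VB.pure _ _ _ _ trivial hne
    | (exfalso; simp only [KA, KB, KW, KX, KT, reduceCtorEq] at hk; done)
    | (simp only [KA, KB, KW, KX, KT, Option.some.injEq] at hk; subst hk; exact VB.pure _ _ _ _ trivial hne)
    | (simp only [KA, KB, KW, KX, KT, Option.some.injEq] at hk; subst hk; exact VB.pure _ _ _ _ rfl hne)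
    | (simp [TG.dad, VB, TB.G, TB.P, TB.Q] at ha hb; exact VB.pure _ _ _ _ (ha.2.symm.trans hb.2) hne)
    | (simp [TG.dad, VB, TB.G, TB.P, TB.Q] at ha' hb'; exact VB.pure _ _ _ _ (ha'.2.symm.trans hb'.2) hne)
    | (simp [TG.dad, VB, TB.G, TB.P, TB.Q] at ha hb; exfalso; apply hne; rw [← ha, ← hb]; done)
    | (simp [TG.dad, VB, TB.G, TB.P, TB.Q] at ha' hb'; exfalso; apply hne; rw [← ha', ← hb']; done)
    | (simp [TG.dad, VB, TB.G, TB.P, TB.Q] at ha hb; exfalso; apply hne; rw [← ha.1, ← hb.1]; done)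
    | (simp [TG.dad, VB, TB.G, TB.P, TB.Q] at ha' hb'; exfalso; apply hne; rw [← ha'.1, ← hb'.1]; done)
    | (simp [TG.dad, VB, TB.G, TB.P, TB.Q] at ha hb ha' hb'; simp_all; done)

theorem VB.e2v (i j : ℕ × ℕ) : VB.Cov i0 inc (.cp .c2 i) (.cp .v j) := by
  refine ⟨KA i0, ?_⟩
  rintro (_ | s | ⟨a, k⟩) b ha ha' hb hb' hk hne <;> (try cases a) <;>
    (try (simp only [TG.dad, VB, TB.G, TB.P, TB.Q, TB.R, TB.A, reduceCtorEq, or_self, and_false, false_and, or_false, false_or] at ha; done)) <;>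
    (try (simp only [TG.dad, VB, TB.G, TB.P, TB.Q, TB.R, TB.A, reduceCtorEq, or_self, and_false, false_and, or_false, false_or] at ha'; done)) <;>
    rcases b with _ | s' | ⟨b, l⟩ <;> (try cases b) <;>
    (try (simp only [TG.dad, VB, TB.G, TB.P, TB.Q, TB.R, TB.A, reduceCtorEq, or_self, and_false, false_and, or_false, false_or] at hb; done)) <;>
    (try (simp only [TG.dad, VB, TB.G, TB.P, TB.Q, TB.R, TB.A, reduceCtorEq, or_self, and_false, false_and, or_false, false_or] at hb'; done)) <;>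
    first
    | exact trivial
    | exact absurd rfl hne
    | exact ⟨fun e => hne (by rw [e]), trivial⟩
    | exact Or.inl trivial
    | exact Or.inr trivial
    | exact VB.pure _ _ _ _ trivial hne
    | (exfalso; simp only [KA, KB, KW, KX, KT, reduceCtorEq] at hk; done)
    | (simp only [KA, KB, KW, KX, KT, Option.some.injEq] at hk; subst hk; exact VB.pure _ _ _ _ trivial hne)
    | (simp only [KA, KB, KW, KX, KT, Option.some.injEq] at hk; subst hk; exact VB.pure _ _ _ _ rfl hne)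
    | (simp [TG.dad, VB, TB.G, TB.P, TB.Q] at ha hb; exact VB.pure _ _ _ _ (ha.2.symm.trans hb.2) hne)
    | (simp [TG.dad, VB, TB.G, TB.P, TB.Q] at ha' hb'; exact VB.pure _ _ _ _ (ha'.2.symm.trans hb'.2) hne)
    | (simp [TG.dad, VB, TB.G, TB.P, TB.Q] at ha hb; exfalso; apply hne; rw [← ha, ← hb]; done)
    | (simp [TG.dad, VB, TB.G, TB.P, TB.Q] at ha' hb'; exfalso; apply hne; rw [← ha', ← hb']; done)
    | (simp [TG.dad, VB, TB.G, TB.P, TB.Q] at ha hb; exfalso; apply hne; rw [← ha.1, ← hb.1]; done)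
    | (simp [TG.dad, VB, TB.G, TB.P, TB.Q] at ha' hb'; exfalso; apply hne; rw [← ha'.1, ← hb'.1]; done)
    | (simp [TG.dad, VB, TB.G, TB.P, TB.Q] at ha hb ha' hb'; simp_all; done)

end

end Pool.Agent.L0h77.HC
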